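import Pool.Agent.MP_7070f9_lc.Vec

/-!
# Identities which follow from the relations between the frames at one time

Notation: `c k = Q' - Q_k` is `cv Q k`, where `Q_k = Q (.F k)`, `P_k = P (.F k)` and `Q'` is the
common second vector of all the cells `.G k`; `θ = 7 - D`.
All proofs are linear algebra with scalar products: unfold `dot` into coordinates and use
`linear_combination`.
-/

namespace Pool.Agent.MP_7070f9_lc

/-- The difference vectors along the path. -/
def cv (Q : Cell → Space) (k : ℕ) : Space := Q (.G 0) - Q (.F k)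

/-- The relations between the frames of the cells `F k` and `G k` alone. -/
structure PRel (C : Ch) (P Q : Cell → Space) : Prop where
  frF : ∀ k ≤ C.m, Fr (P (.F k)) (Q (.F k))
  frG : ∀ k ≤ C.m, Fr (P (.G k)) (Q (.G k))
  spoke : ∀ k < C.m, P (.F k) + C.g (k + 1) • Q (.F k) =
    P (.F (k + 1)) + C.g (k + 1) • Q (.F (k + 1))
  path : ∀ k ≤ C.m, P (.F k) + C.s k • Q (.F k) = P (.G k) + C.s k • Q (.G k)
  vert : ∀ k < C.m, Q (.G k) = Q (.G (k + 1))

variable {C : Ch} {P Q : Cell → Space}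

theorem Rel.prel (h : Rel C P Q) : PRel C P Q :=
  ⟨fun k hk => h.fr (.F k) hk, fun k hk => h.fr (.G k) hk, h.spoke, h.path, h.vert⟩

theorem PRel.vert' (h : PRel C P Q) {k : ℕ} (hk : k ≤ C.m) : Q (.G k) = Q (.G 0) := by
  induction k with
  | zero => rfl
  | succ k ih => rw [← h.vert k (by omega)]; exact ih (by omega)

theorem a1_dot_comm (x y : Space) : dot x y = dot y x := by
  unfold dot; ring

theorem a1_dot_add_left (x y z : Space) : dot (x + y) z = dot x z + dot y z := by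
  unfold dot; simp only [PiLp.add_apply]; ring

theorem a1_dot_add_right (x y z : Space) : dot z (x + y) = dot z x + dot z y := by
  unfold dot; simp only [PiLp.add_apply]; ring

theorem a1_dot_sub_left (x y z : Space) : dot (x - y) z = dot x z - dot y z := by
  unfold dot; simp only [PiLp.sub_apply]; ring

theorem a1_dot_sub_right (x y z : Space) : dot z (x - y) = dot z x - dot z y := by
  unfold dot; simp only [PiLp.sub_apply]; ring

theorem a1_dot_smul_left (a : ℝ) (x z : Space) : dot (a • x) z = a * dot x z := by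
  unfold dot; simp only [PiLp.smul_apply, smul_eq_mul]; ring

theorem a1_dot_smul_right (a : ℝ) (x z : Space) : dot z (a • x) = a * dot z x := by
  unfold dot; simp only [PiLp.smul_apply, smul_eq_mul]; ring

/-- the relation across a crease -/
theorem a1_crease {P Q P' Q' : Space} (h : Fr P Q) (h' : Fr P' Q') {σ : ℝ}
    (e : P + σ • Q = P' + σ • Q') (t : ℝ) :
    dot (P + t • Q) (Q' - Q) = (σ - t) / 2 * dot (Q' - Q) (Q' - Q) := by
  have e1 : P' = P + σ • Q - σ • Q' := by rw [e]; abel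
  have h1 := h'.pq
  rw [e1] at h1
  have h2 := h.pq
  have h3 := h.qq
  have h4 := h'.qq
  have h5 := a1_dot_comm Q Q'
  simp only [a1_dot_add_left, a1_dot_sub_left, a1_dot_sub_right, a1_dot_smul_left] at h1 ⊢
  linear_combination h1 - h2 + (σ + t) / 2 * (h4 - h3) - (σ - t) / 2 * h5

/-- `⟨Q', c_k⟩ = |c_k|² / 2`: from `|Q_k| = |Q'| = 1`. -/
theorem PRel.dotQ (h : PRel C P Q) {k : ℕ} (hk : k ≤ C.m) :
    dot (Q (.G 0)) (cv Q k) = dot (cv Q k) (cv Q k) / 2 := by
  have e := h.vert' hk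
  have h1 := (h.frG k hk).qq
  have h2 := (h.frF k hk).qq
  rw [e] at h1
  have h3 := a1_dot_comm (Q (.G 0)) (Q (.F k))
  unfold cv
  simp only [a1_dot_sub_left, a1_dot_sub_right]
  linear_combination 1 / 2 * h1 - 1 / 2 * h2 - 1 / 2 * h3

/-- `⟨P_k, c_k⟩ = s_k |c_k|² / 2`: the vector `P'_k = P_k - s_k c_k` is orthogonal to
`Q' = Q_k + c_k`; with `⟨Q_k, c_k⟩ = - |c_k|² / 2`. -/
theorem PRel.dotP (h : PRel C P Q) {k : ℕ} (hk : k ≤ C.m) :
    dot (P (.F k)) (cv Q k) = C.s k / 2 * dot (cv Q k) (cv Q k) := by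
  have e := h.vert' hk
  have h0 := h.path k hk
  have h1 := h.frG k hk
  have h2 := h.frF k hk
  rw [e] at h0 h1
  have h3 := a1_crease h2 h1 h0 0
  rw [zero_smul, add_zero, sub_zero] at h3
  exact h3

/-- `r_k |c_k|² = |c_0|²`. Step from `k` to `k+1`: `P'_k = P_k - s_k c_k`,
`P_{k+1} = P_k + g_{k+1} (c_{k+1} - c_k)`, so
`P'_{k+1} - P'_k = (g_{k+1} - s_{k+1}) c_{k+1} - (g_{k+1} - s_k) c_k
  = i_{k+1} (r_{k+1} c_{k+1} - r_k c_k)` (use `Ch.s_eq` for `s_k` and the definition for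
`s_{k+1}`), and both `P'` are orthogonal to `Q'`; then use `dotQ`. -/
theorem PRel.norm (h : PRel C P Q) {k : ℕ} (hk : k ≤ C.m) :
    C.r k * dot (cv Q k) (cv Q k) = dot (cv Q 0) (cv Q 0) := by
  induction k with
  | zero => rw [C.r_zero, one_mul]
  | succ k ih =>
    have hk' : k ≤ C.m := by omega
    rw [← ih hk']
    have a1 := h.dotP hk
    have a2 := h.dotP hk'
    have b1 := h.dotQ hk
    have b2 := h.dotQ hk'
    have c1 := (h.frF k hk').pq
    have c2 := (h.frF (k + 1) hk).pq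
    have e := h.spoke k (by omega)
    have e1 : P (.F (k + 1)) = P (.F k) + C.g (k + 1) • (cv Q (k + 1) - cv Q k) := by
      have : P (.F (k + 1)) = P (.F k) + C.g (k + 1) • Q (.F k) - C.g (k + 1) • Q (.F (k + 1)) := by
        rw [e]; abel
      rw [this]
      unfold cv
      module
    have e2 : Q (.F k) = Q (.G 0) - cv Q k := by unfold cv; abel
    have e3 : Q (.F (k + 1)) = Q (.G 0) - cv Q (k + 1) := by unfold cv; abel
    have d1 := a1_dot_comm (Q (.G 0)) (cv Q k)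
    have d2 := a1_dot_comm (Q (.G 0)) (cv Q (k + 1))
    have d3 := a1_dot_comm (cv Q (k + 1)) (cv Q k)
    rw [e2] at c1
    rw [e3] at c2
    rw [a1_dot_sub_right] at c1 c2
    have e4 := congrArg (fun x => dot x (Q (.G 0))) e1
    simp only [a1_dot_add_left, a1_dot_smul_left, a1_dot_sub_left] at e4
    have hi := C.i_pos (k := k + 1) (by omega)
    have s1 := C.s_eq k
    have s2 : C.s (k + 1) = C.g (k + 1) - C.i (k + 1) * C.r (k + 1) := rfl
    rw [s2] at a1
    rw [s1] at a2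
    have : C.i (k + 1) * (C.r (k + 1) * dot (cv Q (k + 1)) (cv Q (k + 1))) =
        C.i (k + 1) * (C.r k * dot (cv Q k) (cv Q k)) := by
      linear_combination -2 * (e4 - c2 + c1) + 2 * (a1 - a2) - 2 * C.g (k + 1) * (b1 - b2) +
        2 * C.g (k + 1) * (d2 - d1)
    exact mul_left_cancel₀ hi.ne' this

/-- The area identity along the path. Proof: `P_m = P_0 + ∑_{k=1}^m g_k (c_k - c_{k-1})` by the
spoke relations and `Q_m = Q_0 - (c_m - c_0)`, so with `y_k = ⟨Q_0, c_k⟩` the left side is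
`∑_{k=1}^m g_k (y_k - y_{k-1}) + θ (y_m - y_0)`, which by Abel summation is
`(g_m + θ) (y_m - y_0) - ∑_{k=1}^{m-1} η_k (y_k - y_0)`; and `y_k - y_0 = |c_k - c_0|² / 2`
because `y_k = ⟨Q' - c_0, c_k⟩` and `dotQ`. -/
theorem PRel.DV (h : PRel C P Q) (θ : ℝ) :
    dot (P (.F C.m) - θ • Q (.F C.m)) (Q (.F 0)) + θ =
      ((C.g C.m + θ) * dot (cv Q C.m - cv Q 0) (cv Q C.m - cv Q 0)
        - ∑ k ∈ Finset.Ico 1 C.m, C.η k * dot (cv Q k - cv Q 0) (cv Q k - cv Q 0)) / 2 := by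
  set z : ℕ → ℝ := fun k => dot (cv Q k - cv Q 0) (cv Q k - cv Q 0) / 2 with hz
  have h00 : (0 : ℕ) ≤ C.m := Nat.zero_le _
  have q0 : Q (.F 0) = Q (.G 0) - cv Q 0 := by unfold cv; abel
  have hm1 : 1 ≤ C.m := le_trans (by norm_num) C.hm
  have n0 := (h.frF 0 h00).qq
  have b0 := h.dotQ h00
  -- the values of the products with `Q_0`
  have hy : ∀ k, k ≤ C.m → dot (cv Q k) (Q (.F 0)) - dot (cv Q 0) (Q (.F 0)) = z k := by
    intro k hk
    have b1 := h.dotQ hk
    have d1 := a1_dot_comm (Q (.G 0)) (cv Q k)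
    have d2 := a1_dot_comm (Q (.G 0)) (cv Q 0)
    have d3 := a1_dot_comm (cv Q k) (cv Q 0)
    rw [hz, q0]
    simp only [a1_dot_sub_left, a1_dot_sub_right]
    linear_combination b1 - b0 - d1 + d2 - 1 / 2 * d3
  have hrec : ∀ k, k < C.m → dot (P (.F (k + 1))) (Q (.F 0)) =
      dot (P (.F k)) (Q (.F 0)) + C.g (k + 1) * (z (k + 1) - z k) := by
    intro k hk
    have e := h.spoke k hk
    have e1 : P (.F (k + 1)) = P (.F k) + C.g (k + 1) • (cv Q (k + 1) - cv Q k) := by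
      have : P (.F (k + 1)) = P (.F k) + C.g (k + 1) • Q (.F k) - C.g (k + 1) • Q (.F (k + 1)) := by
        rw [e]; abel
      rw [this]
      unfold cv
      module
    rw [e1, ← hy k (by omega), ← hy (k + 1) (by omega)]
    simp only [a1_dot_add_left, a1_dot_smul_left, a1_dot_sub_left]
    ring
  have hz0 : z 0 = 0 := by
    rw [hz]
    simp [dot]
  have hmain : ∀ n, 1 ≤ n → n ≤ C.m → dot (P (.F n)) (Q (.F 0)) =
      C.g n * z n - ∑ k ∈ Finset.Ico 1 n, C.η k * z k := by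
    intro n hn
    induction n, hn using Nat.le_induction with
    | base =>
      intro _
      rw [hrec 0 (by omega), (h.frF 0 h00).pq, hz0]
      simp
    | succ n hn ih =>
      intro hn2
      rw [hrec n (by omega), ih (by omega), Finset.sum_Ico_succ_top hn, C.g_succ n]
      ring
  have hm := hmain C.m hm1 le_rfl
  have hQm : dot (Q (.F C.m)) (Q (.F 0)) = 1 - z C.m := by
    have : Q (.F C.m) = Q (.F 0) - (cv Q C.m - cv Q 0) := by unfold cv; abel
    rw [← hy C.m le_rfl, this]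
    simp only [a1_dot_sub_left]
    linear_combination n0
  simp only [a1_dot_sub_left, a1_dot_smul_left]
  rw [hm, hQm]
  have hs : ∑ k ∈ Finset.Ico 1 C.m, C.η k * dot (cv Q k - cv Q 0) (cv Q k - cv Q 0) =
      2 * ∑ k ∈ Finset.Ico 1 C.m, C.η k * z k := by
    rw [Finset.mul_sum]
    refine Finset.sum_congr rfl fun k _ => ?_
    rw [hz]
    ring
  have hzm : dot (cv Q C.m - cv Q 0) (cv Q C.m - cv Q 0) = 2 * z C.m := by
    rw [hz]; ring
  simp only [a1_dot_sub_left] at hs hzm ⊢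
  rw [hs, hzm]
  ring

theorem Rel.vo (h : Rel C P Q) :
    Q .O1 - Q (.F C.m) = cv Q C.m - cv Q 0 - (Q .O2 - Q .O1) := by
  rw [cv, cv, h.o3]; abel

/-- The relation at the vertex `V`. With `v_2 = Q_{O2} - Q_{O1}` and
`M = P_m - θ Q_m = P_{O1} - θ Q_{O1}` (`θ = 7 - D`; relation `vw`): `P_{O2} = P_{O1} - (D+18) v_2`
(relation `o2`), `Q_{O2} = Q_{O1} + v_2`; the orthonormality of the two frames gives
`⟨Q_{O1}, v_2⟩ = -|v_2|²/2` and `⟨P_{O1}, v_2⟩ = (D+18) |v_2|² / 2`, so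
`⟨M, Q_0⟩ + θ = ⟨M, Q_{O1} + v_2⟩ + θ = (D + 18 + θ) |v_2|² / 2 = 25 |v_2|² / 2`, as
`Q_0 = Q_{O2}` (relation `o3`). Now use `DV`. -/
theorem Rel.V (h : Rel C P Q) :
    25 * dot (Q .O2 - Q .O1) (Q .O2 - Q .O1) =
      (7 + C.i C.m) * dot (cv Q C.m - cv Q 0) (cv Q C.m - cv Q 0)
        - ∑ k ∈ Finset.Ico 1 C.m, C.η k * dot (cv Q k - cv Q 0) (cv Q k - cv Q 0) := by
  have h1 := a1_crease (h.fr .O1 trivial) (h.fr .O2 trivial) h.o2 (C.D - 7)
  have h2 := h.prel.DV (7 - C.D)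
  have h3 : P (.F C.m) - (7 - C.D) • Q (.F C.m) = P .O1 + (C.D - 7) • Q .O1 := by
    rw [← h.vw]; module
  have h4 := (h.fr .O1 trivial).pq
  have h5 := (h.fr .O1 trivial).qq
  rw [h3, ← h.o3] at h2
  have h6 : dot (P .O1 + (C.D - 7) • Q .O1) (Q .O2) =
      dot (P .O1 + (C.D - 7) • Q .O1) (Q .O2 - Q .O1) + (C.D - 7) := by
    rw [a1_dot_sub_right]
    simp only [a1_dot_add_left, a1_dot_smul_left]
    linear_combination h4 + (C.D - 7) * h5
  rw [h6, h1] at h2
  have h7 : C.g C.m + (7 - C.D) = 7 + C.i C.m := by unfold Ch.D; ring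
  rw [h7] at h2
  linear_combination 2 * h2

theorem Rel.v2Q (h : Rel C P Q) :
    dot (Q .O2) (Q .O2 - Q .O1) = dot (Q .O2 - Q .O1) (Q .O2 - Q .O1) / 2 := by
  have h1 := (h.fr .O1 trivial).qq
  have h2 := (h.fr .O2 trivial).qq
  have h3 := a1_dot_comm (Q .O1) (Q .O2)
  simp only [a1_dot_sub_left, a1_dot_sub_right]
  linear_combination 1 / 2 * h2 - 1 / 2 * h1 + 1 / 2 * h3

theorem Rel.v2P (h : Rel C P Q) :
    dot (P .O1) (Q .O2 - Q .O1) = (C.D + 18) / 2 * dot (Q .O2 - Q .O1) (Q .O2 - Q .O1) := by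
  have h3 := a1_crease (h.fr .O1 trivial) (h.fr .O2 trivial) h.o2 0
  rw [zero_smul, add_zero, sub_zero] at h3
  exact h3

/-- The relation at the vertex `W`. With `v = Q_{O1} - Q_m`, `c = c_m`, `w = Q_{Q1} - Q_{Q2}`:
`|w|² = |c|² - 4 ⟨c, v⟩ - 5 |v|²`. -/
theorem Rel.W (h : Rel C P Q) :
    dot (Q .Q1 - Q .Q2) (Q .Q1 - Q .Q2) =
      dot (cv Q C.m) (cv Q C.m) - 4 * dot (cv Q C.m) (Q .O1 - Q (.F C.m))
        - 5 * dot (Q .O1 - Q (.F C.m)) (Q .O1 - Q (.F C.m)) := by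
  have hv : Q (.G C.m) = Q (.G 0) := h.prel.vert' le_rfl
  have p0 := h.path C.m le_rfl
  rw [C.s_last] at p0
  have f0 := h.fr (.F C.m) le_rfl
  have fG := h.fr (.G C.m) le_rfl
  have fO := h.fr .O1 trivial
  have fQ1 := h.fr .Q1 trivial
  have fQ2 := h.fr .Q2 trivial
  have E1 := a1_crease f0 fG p0 C.D
  have E2 := a1_crease f0 fO h.vw C.D
  have E3 := a1_crease fG fQ1 h.q1 C.D
  have E4 := a1_crease fQ1 fQ2 h.q2 C.D
  have E5 := a1_crease fQ2 fO h.q3 C.D
  unfold cv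
  rw [← hv]
  set c := Q (.G C.m) - Q (.F C.m) with hc
  set v := Q .O1 - Q (.F C.m) with hvv
  set w := Q .Q1 - Q .Q2 with hw
  set L := P (.F C.m) + C.D • Q (.F C.m) with hL
  have g1 := h.vw
  have g2 := h.q1
  have g3 := h.q2
  have g4 := h.q3
  -- the linear relation
  have hu : Q .Q1 - Q (.G C.m) = -((1 / 9 : ℝ) • ((7 : ℝ) • c - (14 : ℝ) • v - (7 : ℝ) • w)) := by
    ext j
    have k0 := congrArg (fun x : Space => x j) p0
    have k1 := congrArg (fun x : Space => x j) g1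
    have k2 := congrArg (fun x : Space => x j) g2
    have k3 := congrArg (fun x : Space => x j) g3
    have k4 := congrArg (fun x : Space => x j) g4
    rw [hc, hvv, hw]
    simp only [PiLp.add_apply, PiLp.sub_apply, PiLp.smul_apply, PiLp.neg_apply, smul_eq_mul,
      hL] at k0 k1 k2 k3 k4 ⊢
    linear_combination 1 / 9 * (k0 - k1 + k2 + k3 + k4)
  have hL1 : P .Q1 + C.D • Q .Q1 = L + (2 : ℝ) • (Q .Q1 - Q (.G C.m)) := by
    have : P .Q1 = P (.G C.m) + (C.D - 2) • Q (.G C.m) - (C.D - 2) • Q .Q1 := by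
      rw [g2]; abel
    rw [this, p0]
    module
  have hz : Q .O1 - Q .Q2 = v - c - (Q .Q1 - Q (.G C.m)) + w := by
    rw [hc, hvv, hw]; abel
  have hw' : Q .Q2 - Q .Q1 = -w := by rw [hw]; abel
  rw [← p0] at E3
  rw [← g3, hz] at E5
  rw [hL1] at E4 E5
  rw [hw'] at E4
  rw [hu] at E3 E4 E5
  simp only [dot, PiLp.add_apply, PiLp.sub_apply, PiLp.smul_apply, PiLp.neg_apply,
    smul_eq_mul] at E1 E2 E3 E4 E5 ⊢
  linear_combination (-(9 / 7 : ℝ)) * (E5 - E2 + E1 + E3 + E4)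

/-- If `c_0 = 0` then all frames are equal: `norm` gives `c_k = 0` for all `k`, so `Q_k = Q'`
and then all `P_k` and `P'_k` are equal; `V` gives `v_2 = 0`; then `v_o = 0` by `vo`; `W` gives
`w = 0`, and the relations `q1`, `q3` give the rest: with `u = Q' - Q_{Q1}`,
`P_{Q1} = P'_m + (D-2) u`, `P_{Q2} = P_{Q1}`, `Q_{Q2} = Q_{Q1}`, and `q3` gives
`P'_m + (D-2) u + (D+7) (Q' - u) = P_m + (D+7) Q_m`, so `-9 u = 0`. -/
theorem Rel.flat (h : Rel C P Q) (h0 : cv Q 0 = 0) :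
    ∀ c : Cell, c.Ok C.m → P c = P (.F 0) ∧ Q c = Q (.F 0) := by
  have hp := h.prel
  have h00 : (0 : ℕ) ≤ C.m := Nat.zero_le _
  -- the vectors `c_k` vanish
  have hc : ∀ k ≤ C.m, cv Q k = 0 := by
    intro k hk
    have h1 := hp.norm hk
    rw [h0] at h1
    have h2 : dot (0 : Space) 0 = 0 := by simp [dot]
    rw [h2] at h1
    rcases mul_eq_zero.1 h1 with h3 | h3
    · exact absurd h3 (C.r_pos k).ne'
    · exact dot_self_eq_zero h3
  have hQ : ∀ k ≤ C.m, Q (.F k) = Q (.G 0) := by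
    intro k hk
    have h1 := hc k hk
    unfold cv at h1
    exact (sub_eq_zero.1 h1).symm
  have hQ' : ∀ k ≤ C.m, Q (.F k) = Q (.F 0) := fun k hk => by rw [hQ k hk, hQ 0 h00]
  have hP : ∀ k ≤ C.m, P (.F k) = P (.F 0) := by
    intro k
    induction k with
    | zero => intro _; rfl
    | succ k ih =>
      intro hk
      have h1 := h.spoke k (by omega)
      rw [hQ' k (by omega), hQ' (k + 1) hk, ih (by omega)] at h1
      exact (add_right_cancel h1).symm
  have hG : ∀ k ≤ C.m, Q (.G k) = Q (.F 0) := fun k hk => by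
    rw [hp.vert' hk, hQ 0 h00]
  have hPG : ∀ k ≤ C.m, P (.G k) = P (.F 0) := by
    intro k hk
    have h1 := h.path k hk
    rw [hQ' k hk, hG k hk, hP k hk] at h1
    exact (add_right_cancel h1).symm
  -- the vector `v_2` vanishes
  have z0 : dot (0 : Space) 0 = 0 := by simp [dot]
  have hv2 : Q .O2 - Q .O1 = 0 := by
    have h1 := h.V
    have h2 : ∑ k ∈ Finset.Ico 1 C.m, C.η k * dot (cv Q k - cv Q 0) (cv Q k - cv Q 0) = 0 := by
      refine Finset.sum_eq_zero fun k hk => ?_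
      rw [hc k (Finset.mem_Ico.1 hk).2.le, h0, sub_zero, z0, mul_zero]
    rw [h2, hc C.m le_rfl, h0, sub_zero, sub_zero, z0, mul_zero] at h1
    exact dot_self_eq_zero (by linarith)
  have qO2 := h.o3
  have qO1 : Q .O1 = Q (.F 0) := by rw [← sub_eq_zero.1 hv2, qO2]
  have pO1 : P .O1 = P (.F 0) := by
    have h1 := h.vw
    rw [hQ' C.m le_rfl, qO1, hP C.m le_rfl] at h1
    exact (add_right_cancel h1).symm
  have pO2 : P .O2 = P (.F 0) := by
    have h1 := h.o2
    rw [qO2, qO1, pO1] at h1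
    exact (add_right_cancel h1).symm
  have hw : Q .Q1 = Q .Q2 := by
    have h1 := h.W
    rw [hc C.m le_rfl, qO1, hQ' C.m le_rfl, sub_self, z0] at h1
    exact sub_eq_zero.1 (dot_self_eq_zero (by linarith))
  have hpq : P .Q1 = P .Q2 := by
    have h1 := h.q2
    rw [hw] at h1
    exact add_right_cancel h1
  have r1 := h.q1
  have r3 := h.q3
  rw [hPG C.m le_rfl, hG C.m le_rfl] at r1
  rw [← hpq, ← hw, pO1, qO1] at r3
  have qQ1 : Q .Q1 = Q (.F 0) := by
    ext j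
    have k1 := congrArg (fun x : Space => x j) r1
    have k3 := congrArg (fun x : Space => x j) r3
    simp only [PiLp.add_apply, PiLp.smul_apply, smul_eq_mul] at k1 k3
    linarith
  have pQ1 : P .Q1 = P (.F 0) := by
    rw [qQ1] at r1
    exact (add_right_cancel r1).symm
  intro c hcOk
  cases c with
  | F k => exact ⟨hP k hcOk, hQ' k hcOk⟩
  | G k => exact ⟨hPG k hcOk, hG k hcOk⟩
  | O1 => exact ⟨pO1, qO1⟩
  | O2 => exact ⟨pO2, qO2⟩
  | Q1 => exact ⟨pQ1, qQ1⟩
  | Q2 => exact ⟨hpq ▸ pQ1, hw ▸ qQ1⟩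

end Pool.Agent.MP_7070f9_lc
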