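import Mathlib

/-!
# Binary arithmetic on lists of bits (least significant bit first)
-/

namespace Pool.Agent.MP_7070f9_lc

/-- The value of a list of bits. -/
def val : List Bool → ℕ
  | [] => 0
  | b :: l => (if b then 1 else 0) + 2 * val l

/-- One step of the addition: carry, the two remaining numbers, the digits found (reversed). -/
def addStep (s : Bool × (List Bool × (List Bool × List Bool))) :
    Bool × (List Bool × (List Bool × List Bool)) :=
  ((s.2.1.headD false && s.2.2.1.headD false) || (s.1 && (s.2.1.headD false || s.2.2.1.headD false)),
    (s.2.1.tail, (s.2.2.1.tail,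
      (((s.2.1.headD false) ^^ (s.2.2.1.headD false)) ^^ s.1) :: s.2.2.2)))

/-- Sum of two binary numbers. -/
def addB (x y : List Bool) : List Bool :=
  ((true :: (x ++ y)).foldl (fun s _ => addStep s) (false, (x, (y, [])))).2.2.2.reverse

/-- One step of the subtraction: borrow, the two remaining numbers, the digits (reversed). -/
def subStep (s : Bool × (List Bool × (List Bool × List Bool))) :
    Bool × (List Bool × (List Bool × List Bool)) :=
  ((!(s.2.1.headD false) && (s.2.2.1.headD false || s.1)) || (s.2.2.1.headD false && s.1),
    (s.2.1.tail, (s.2.2.1.tail,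
      (((s.2.1.headD false) ^^ (s.2.2.1.headD false)) ^^ s.1) :: s.2.2.2)))

/-- Result of the subtraction of binary numbers. -/
def subS (x y : List Bool) : Bool × (List Bool × (List Bool × List Bool)) :=
  (x ++ y).foldl (fun s _ => subStep s) (false, (x, (y, [])))

/-- Comparison of binary numbers. -/
def ltB (x y : List Bool) : Bool := (subS x y).1

/-- Truncated difference of binary numbers. -/
def subB (x y : List Bool) : List Bool := if (subS x y).1 then [] else (subS x y).2.2.2.reverse

/-- Product of binary numbers (Horner's scheme in the digits of `x`). -/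
def mulB (x y : List Bool) : List Bool :=
  x.reverse.foldl (fun acc b => addB (false :: acc) (if b then y else [])) []

/-- Multiplication by `2 ^ k`. -/
def shlB (k : ℕ) (x : List Bool) : List Bool := List.replicate k false ++ x

/-- Grouping the digits into pairs, the most significant pair first. -/
def pairStep (s : Option Bool × List (Bool × Bool)) (b : Bool) : Option Bool × List (Bool × Bool) :=
  if s.1.isSome then (none, (s.1.getD false, b) :: s.2) else (some b, s.2)

/-- Grouping the digits into pairs, the most significant pair first. -/
def pairsB (x : List Bool) : List (Bool × Bool) :=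
  if (x.foldl pairStep (none, [])).1.isSome then
    ((x.foldl pairStep (none, [])).1.getD false, false) :: (x.foldl pairStep (none, [])).2
  else (x.foldl pairStep (none, [])).2

/-- One step of the square root: root and remainder. -/
def sqStep (s : List Bool × List Bool) (p : Bool × Bool) : List Bool × List Bool :=
  if ltB (p.1 :: p.2 :: s.2) (true :: false :: s.1) then (false :: s.1, p.1 :: p.2 :: s.2)
  else (true :: s.1, subB (p.1 :: p.2 :: s.2) (true :: false :: s.1))

/-- Integral part of the square root of a binary number. -/
def sqrtB (x : List Bool) : List Bool := ((pairsB x).foldl sqStep ([], [])).1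

/-- Removing the leading zeros (at the end of the list). -/
def trimB (x : List Bool) : List Bool :=
  x.reverse.foldl (fun acc b => if b || !acc.isEmpty then b :: acc else acc) []

/-- the value of a digit -/
def b1_n (b : Bool) : ℕ := if b then 1 else 0

theorem b1_cons (b : Bool) (l : List Bool) : val (b :: l) = b1_n b + 2 * val l := rfl

theorem b1_append (l m : List Bool) : val (l ++ m) = val l + 2 ^ l.length * val m := by
  induction l with
  | nil =>
    show val m = 0 + 2 ^ 0 * val m
    rw [pow_zero, one_mul, zero_add]
  | cons b l ih =>
    rw [List.cons_append, b1_cons, b1_cons, ih, List.length_cons, pow_succ]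
    ring

theorem b1_hd (x : List Bool) : val x = b1_n (x.headD false) + 2 * val x.tail := by
  cases x with
  | nil => rfl
  | cons b l => rfl

theorem b1_lt (x : List Bool) : val x < 2 ^ x.length := by
  induction x with
  | nil => exact Nat.one_pos
  | cons b l ih =>
    rw [b1_cons, List.length_cons, pow_succ]
    have : b1_n b ≤ 1 := by
      unfold b1_n
      split_ifs <;> omega
    omega

theorem b1_one (d : Bool) : val [d] = b1_n d := by
  rw [b1_cons]
  show b1_n d + 2 * 0 = b1_n d
  omega

theorem b1_add_dig (a b c : Bool) : b1_n ((a ^^ b) ^^ c) + 2 * b1_n ((a && b) || (c && (a || b))) =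
    b1_n a + b1_n b + b1_n c := by
  cases a <;> cases b <;> cases c <;> rfl

theorem b1_sub_dig (a b c : Bool) : (b1_n ((a ^^ b) ^^ c) : ℤ) - 2 * (b1_n ((!a && (b || c)) || (b && c)) : ℤ) =
    b1_n a - b1_n b - b1_n c := by
  cases a <;> cases b <;> cases c <;> rfl

theorem b1_add (l : List Bool) (c : Bool) (x y acc : List Bool) :
    ∃ (c' : Bool) (acc' : List Bool),
      l.foldl (fun s _ => addStep s) (c, (x, (y, acc))) = (c', (x.drop l.length, (y.drop l.length, acc'))) ∧
      acc'.length = acc.length + l.length ∧
      val acc'.reverse + 2 ^ acc'.length * (b1_n c' + val (x.drop l.length) + val (y.drop l.length)) =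
        val acc.reverse + 2 ^ acc.length * (b1_n c + val x + val y) := by
  induction l generalizing c x y acc with
  | nil => exact ⟨c, acc, rfl, rfl, rfl⟩
  | cons b l ih =>
    obtain ⟨c', acc', h1, h2, h3⟩ := ih
      ((x.headD false && y.headD false) || (c && (x.headD false || y.headD false))) x.tail y.tail
      ((((x.headD false) ^^ (y.headD false)) ^^ c) :: acc)
    have ex : x.drop (b :: l).length = x.tail.drop l.length := by
      rw [List.drop_tail, List.length_cons]
    have ey : y.drop (b :: l).length = y.tail.drop l.length := by
      rw [List.drop_tail, List.length_cons]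
    refine ⟨c', acc', ?_, ?_, ?_⟩
    · rw [ex, ey]
      exact h1
    · rw [h2, List.length_cons, List.length_cons]
      omega
    · rw [ex, ey, h3, List.reverse_cons, b1_append, List.length_reverse, b1_one, List.length_cons, b1_hd x,
        b1_hd y]
      have h4 := b1_add_dig (x.headD false) (y.headD false) c
      rw [pow_succ]
      generalize b1_n ((x.headD false && y.headD false) || (c && (x.headD false || y.headD false))) = u at *
      generalize b1_n (((x.headD false) ^^ (y.headD false)) ^^ c) = v at *
      have h5 : v + 2 * (u + val x.tail + val y.tail) =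
          b1_n c + (b1_n (x.headD false) + 2 * val x.tail) + (b1_n (y.headD false) + 2 * val y.tail) := by
        omega
      rw [← h5]
      ring

theorem b1_sub (l : List Bool) (c : Bool) (x y acc : List Bool) :
    ∃ (c' : Bool) (acc' : List Bool),
      l.foldl (fun s _ => subStep s) (c, (x, (y, acc))) = (c', (x.drop l.length, (y.drop l.length, acc'))) ∧
      acc'.length = acc.length + l.length ∧
      (val acc'.reverse : ℤ) + 2 ^ acc'.length * ((val (x.drop l.length) : ℤ) - val (y.drop l.length) - b1_n c') =
        val acc.reverse + 2 ^ acc.length * ((val x : ℤ) - val y - b1_n c) := by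
  induction l generalizing c x y acc with
  | nil => exact ⟨c, acc, rfl, rfl, rfl⟩
  | cons b l ih =>
    obtain ⟨c', acc', h1, h2, h3⟩ := ih
      ((!(x.headD false) && (y.headD false || c)) || (y.headD false && c)) x.tail y.tail
      ((((x.headD false) ^^ (y.headD false)) ^^ c) :: acc)
    have ex : x.drop (b :: l).length = x.tail.drop l.length := by
      rw [List.drop_tail, List.length_cons]
    have ey : y.drop (b :: l).length = y.tail.drop l.length := by
      rw [List.drop_tail, List.length_cons]
    refine ⟨c', acc', ?_, ?_, ?_⟩
    · rw [ex, ey]
      exact h1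
    · rw [h2, List.length_cons, List.length_cons]
      omega
    · rw [ex, ey, h3, List.reverse_cons, b1_append, List.length_reverse, b1_one, List.length_cons, b1_hd x,
        b1_hd y]
      have h4 := b1_sub_dig (x.headD false) (y.headD false) c
      push_cast
      rw [pow_succ]
      linear_combination (2 : ℤ) ^ acc.length * h4

theorem b1_subS (x y : List Bool) : ∃ (c' : Bool) (acc' : List Bool), (subS x y).1 = c' ∧
    (subS x y).2.2.2 = acc' ∧ val acc'.reverse < 2 ^ acc'.length ∧
    (val acc'.reverse : ℤ) - 2 ^ acc'.length * b1_n c' = (val x : ℤ) - val y := by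
  obtain ⟨c', acc', h1, h2, h3⟩ := b1_sub (x ++ y) false x y []
  refine ⟨c', acc', ?_, ?_, ?_, ?_⟩
  · unfold subS
    rw [h1]
  · unfold subS
    rw [h1]
  · have := b1_lt acc'.reverse
    rwa [List.length_reverse] at this
  · have ex : x.drop (x ++ y).length = [] := List.drop_eq_nil_of_le (by rw [List.length_append]; omega)
    have ey : y.drop (x ++ y).length = [] := List.drop_eq_nil_of_le (by rw [List.length_append]; omega)
    rw [ex, ey] at h3
    have e0 : val [] = 0 := rfl
    have e1 : b1_n false = 0 := rfl
    rw [List.reverse_nil, e0, e1] at h3
    simp only [List.length_nil, pow_zero, Nat.cast_zero] at h3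
    linear_combination h3

/-- Invariant of the addition after `j` steps: with `(c, (x', (y', acc)))` the state,
`x' = x.drop j`, `y' = y.drop j`, `acc.length = j` and
`val acc.reverse + 2 ^ j * (c + val x' + val y') = val x + val y`. -/
theorem val_addB (x y : List Bool) : val (addB x y) = val x + val y := by
  obtain ⟨c', acc', h1, h2, h3⟩ := b1_add (true :: (x ++ y)) false x y []
  have ha : addB x y = acc'.reverse := by
    unfold addB
    rw [h1]
  have ex : x.drop (true :: (x ++ y)).length = [] :=
    List.drop_eq_nil_of_le (by rw [List.length_cons, List.length_append]; omega)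
  have ey : y.drop (true :: (x ++ y)).length = [] :=
    List.drop_eq_nil_of_le (by rw [List.length_cons, List.length_append]; omega)
  rw [ex, ey] at h3
  have e0 : val [] = 0 := rfl
  have e1 : b1_n false = 0 := rfl
  rw [List.reverse_nil, e0, e1] at h3
  simp only [List.length_nil, pow_zero, add_zero, zero_add, one_mul] at h3
  rw [ha]
  have hx := b1_lt x
  have hy := b1_lt y
  have hlen : acc'.length = x.length + y.length + 1 := by
    rw [h2, List.length_nil, List.length_cons, List.length_append]
    omega
  have hx' : 2 ^ x.length ≤ 2 ^ (x.length + y.length) := Nat.pow_le_pow_right (by omega) (by omega)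
  have hy' : 2 ^ y.length ≤ 2 ^ (x.length + y.length) := Nat.pow_le_pow_right (by omega) (by omega)
  cases c' with
  | false =>
    rw [e1] at h3
    omega
  | true =>
    exfalso
    have e2 : b1_n true = 1 := rfl
    rw [e2, hlen, pow_succ] at h3
    omega

/-- Invariant of the subtraction after `j` steps (in `ℤ`):
`val acc.reverse + 2 ^ j * (val x' - val y' - c) = val x - val y`; at the end
`0 ≤ val acc.reverse < 2 ^ j`, so the borrow `c` is `1` exactly if `val x < val y`. -/
theorem ltB_iff (x y : List Bool) : ltB x y = true ↔ val x < val y := by
  obtain ⟨c', acc', h1, h2, h3, h4⟩ := b1_subS x y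
  unfold ltB
  rw [h1]
  have e0 : b1_n false = 0 := rfl
  have e1 : b1_n true = 1 := rfl
  cases c' with
  | false =>
    rw [e0] at h4
    push_cast at h4
    constructor
    · intro h
      exact absurd h (by simp)
    · intro h
      exfalso
      omega
  | true =>
    rw [e1] at h4
    have h3' : (val acc'.reverse : ℤ) < 2 ^ acc'.length := by exact_mod_cast h3
    constructor
    · intro _
      push_cast at h4
      omega
    · intro _
      rfl

theorem val_subB (x y : List Bool) : val (subB x y) = val x - val y := by
  obtain ⟨c', acc', h1, h2, h3, h4⟩ := b1_subS x y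
  unfold subB
  rw [h1, h2]
  have e0 : b1_n false = 0 := rfl
  have e1 : b1_n true = 1 := rfl
  cases c' with
  | false =>
    rw [e0] at h4
    push_cast at h4
    rw [if_neg (by simp)]
    omega
  | true =>
    rw [e1] at h4
    have h3' : (val acc'.reverse : ℤ) < 2 ^ acc'.length := by exact_mod_cast h3
    rw [if_pos rfl]
    have e2 : val [] = 0 := rfl
    rw [e2]
    push_cast at h4
    omega

theorem b2_val_cons (b : Bool) (l : List Bool) :
    val (b :: l) = (if b then 1 else 0) + 2 * val l := rfl

theorem b2_mulB_cons (b : Bool) (l y : List Bool) :
    mulB (b :: l) y = addB (false :: mulB l y) (if b then y else []) := by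
  unfold mulB
  rw [List.reverse_cons, List.foldl_append]
  rfl

theorem val_mulB (x y : List Bool) : val (mulB x y) = val x * val y := by
  induction x with
  | nil => rw [show mulB [] y = [] from rfl]; simp [val]
  | cons b l ih =>
    rw [b2_mulB_cons, val_addB, b2_val_cons, b2_val_cons, ih]
    cases b
    · simp [val]
      ring
    · simp
      ring

theorem val_shlB (k : ℕ) (x : List Bool) : val (shlB k x) = 2 ^ k * val x := by
  induction k with
  | zero => simp [shlB]
  | succ k ih =>
    have h : shlB (k + 1) x = false :: shlB k x := rfl
    rw [h, b2_val_cons, ih, pow_succ]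
    simp
    ring

/-- one step of the evaluation of a list of pairs -/
def b2_step (N : ℕ) (p : Bool × Bool) : ℕ :=
  4 * N + 2 * (if p.2 then 1 else 0) + (if p.1 then 1 else 0)

theorem b2_foldl_step (ps : List (Bool × Bool)) (N : ℕ) :
    ps.foldl b2_step N = N * 4 ^ ps.length + ps.foldl b2_step 0 := by
  induction ps generalizing N with
  | nil => simp
  | cons p ps ih =>
    rw [List.foldl_cons, List.foldl_cons, ih (b2_step N p), ih (b2_step 0 p), List.length_cons,
      pow_succ]
    unfold b2_step
    ring

theorem b2_pairs (x : List Bool) : ∀ (o : Option Bool) (ps : List (Bool × Bool)),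
    List.foldl b2_step 0 (if (x.foldl pairStep (o, ps)).1.isSome then
      ((x.foldl pairStep (o, ps)).1.getD false, false) :: (x.foldl pairStep (o, ps)).2
      else (x.foldl pairStep (o, ps)).2) =
    List.foldl b2_step 0 ps + 4 ^ ps.length * (match o with
      | none => val x
      | some b => val (b :: x)) := by
  induction x with
  | nil =>
    intro o ps
    cases o with
    | none => simp [val]
    | some b =>
      simp only [List.foldl_nil, Option.isSome_some, if_true, Option.getD_some]
      rw [List.foldl_cons, b2_foldl_step]
      unfold b2_step
      simp [val]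
      ring
  | cons c x ih =>
    intro o ps
    cases o with
    | none =>
      have h : pairStep (none, ps) c = (some c, ps) := rfl
      rw [List.foldl_cons, h, ih (some c) ps]
    | some b =>
      have h : pairStep (some b, ps) c = (none, (b, c) :: ps) := rfl
      rw [List.foldl_cons, h, ih none ((b, c) :: ps), List.foldl_cons, b2_foldl_step,
        List.length_cons, pow_succ]
      unfold b2_step
      simp only [b2_val_cons]
      ring

theorem b2_val_pairsB (x : List Bool) : List.foldl b2_step 0 (pairsB x) = val x := by
  have h := b2_pairs x none []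
  simp only [List.foldl_nil, List.length_nil, pow_zero, one_mul, zero_add] at h
  exact h

theorem b2_sq (ps : List (Bool × Bool)) : ∀ (s : List Bool × List Bool) (N : ℕ),
    val s.1 ^ 2 + val s.2 = N → val s.2 ≤ 2 * val s.1 →
    val (ps.foldl sqStep s).1 ^ 2 + val (ps.foldl sqStep s).2 = ps.foldl b2_step N ∧
      val (ps.foldl sqStep s).2 ≤ 2 * val (ps.foldl sqStep s).1 := by
  induction ps with
  | nil => intro s N h1 h2; exact ⟨h1, h2⟩
  | cons p ps ih =>
    intro s N h1 h2
    rw [List.foldl_cons, List.foldl_cons]
    have hp1 : (if p.1 then 1 else 0) ≤ 1 := by split_ifs <;> omega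
    have hp2 : (if p.2 then 1 else 0) ≤ 1 := by split_ifs <;> omega
    have hr : val (p.1 :: p.2 :: s.2) =
        (if p.1 then 1 else 0) + 2 * ((if p.2 then 1 else 0) + 2 * val s.2) := rfl
    have hq : val (true :: false :: s.1) = 1 + 2 * (0 + 2 * val s.1) := rfl
    have hlt := ltB_iff (p.1 :: p.2 :: s.2) (true :: false :: s.1)
    apply ih
    · unfold sqStep b2_step
      by_cases hc : ltB (p.1 :: p.2 :: s.2) (true :: false :: s.1) = true
      · rw [if_pos hc]
        simp only
        rw [hr, b2_val_cons, ← h1]
        simp only [Bool.false_eq_true, if_false, zero_add]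
        ring
      · rw [if_neg hc]
        simp only
        rw [hlt, not_lt, hr, hq] at hc
        rw [val_subB, hr, hq, b2_val_cons, ← h1]
        simp only [if_true]
        zify [hc]
        ring
    · unfold sqStep
      by_cases hc : ltB (p.1 :: p.2 :: s.2) (true :: false :: s.1) = true
      · rw [if_pos hc]
        simp only
        rw [hlt, hr, hq] at hc
        rw [hr, b2_val_cons]
        simp only [Bool.false_eq_true, if_false, zero_add]
        omega
      · rw [if_neg hc]
        simp only
        rw [hlt, not_lt, hr, hq] at hc
        rw [val_subB, hr, hq, b2_val_cons]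
        simp only [if_true]
        omega

/-- Invariant: after processing some pairs with value `N`, the state `(q, r)` satisfies
`val q ^ 2 ≤ N < (val q + 1) ^ 2` and `val r = N - val q ^ 2`; the value of a list of pairs (most
significant first) is `foldl (fun N p => 4 * N + 2 * p.2 + p.1) 0`, and the value of `pairsB x` is
`val x`. -/
theorem val_sqrtB (x : List Bool) : val (sqrtB x) = Nat.sqrt (val x) := by
  obtain ⟨h1, h2⟩ := b2_sq (pairsB x) ([], []) 0 rfl (Nat.zero_le _)
  rw [b2_val_pairsB] at h1
  unfold sqrtB
  generalize hq : val (List.foldl sqStep ([], []) (pairsB x)).1 = a at *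
  generalize hr : val (List.foldl sqStep ([], []) (pairsB x)).2 = b at *
  rw [← h1, Nat.sqrt_add_eq' a (by omega)]

theorem b2_bits_cons (b : Bool) (n : ℕ) (h : n = 0 → b = true) :
    ((if b then 1 else 0) + 2 * n).bits = b :: n.bits := by
  rw [← Nat.bits_append_bit n b h]
  congr 1
  rw [Nat.bit_val]
  cases b <;> simp
  omega

theorem b2_trimB_cons (b : Bool) (l : List Bool) :
    trimB (b :: l) = if b || !(trimB l).isEmpty then b :: trimB l else trimB l := by
  unfold trimB
  rw [List.reverse_cons, List.foldl_append]
  rfl

theorem b2_bits_eq_nil (n : ℕ) : n.bits = [] ↔ n = 0 := by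
  constructor
  · intro h
    by_contra hn
    rcases Nat.eq_zero_or_pos n with h0 | h0
    · exact hn h0
    · have h1 : n = (if n % 2 = 1 then 1 else 0) + 2 * (n / 2) := by split_ifs <;> omega
      have h2 := b2_bits_cons (decide (n % 2 = 1)) (n / 2) (by
        intro h3
        have : n = 1 := by omega
        rw [this]
        rfl)
      simp only [decide_eq_true_eq] at h2
      rw [← h1, h] at h2
      exact absurd h2.symm (List.cons_ne_nil _ _)
  · rintro rfl
    exact Nat.zero_bits

/-- `trimB x` is the list of the binary digits of the value of `x`. -/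
theorem trimB_eq (x : List Bool) : trimB x = (val x).bits := by
  induction x with
  | nil => rw [show trimB [] = [] from rfl, show val [] = 0 from rfl, Nat.zero_bits]
  | cons b l ih =>
    rw [b2_trimB_cons, ih, b2_val_cons]
    by_cases h0 : val l = 0
    · cases b
      · rw [h0, Nat.zero_bits]
        simp
      · rw [b2_bits_cons true (val l) (fun _ => rfl)]
        simp
    · have hne : (val l).bits ≠ [] := fun h => h0 ((b2_bits_eq_nil _).1 h)
      rw [b2_bits_cons b (val l) (fun h => absurd h h0)]
      rw [if_pos]
      simp [hne]

theorem val_bits (n : ℕ) : val n.bits = n := by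
  induction n using Nat.strong_induction_on with
  | _ n ih =>
    by_cases h0 : n = 0
    · rw [h0, Nat.zero_bits]
      rfl
    · have h1 : n = (if n % 2 = 1 then 1 else 0) + 2 * (n / 2) := by split_ifs <;> omega
      have h2 := b2_bits_cons (decide (n % 2 = 1)) (n / 2) (by
        intro h3
        have : n = 1 := by omega
        rw [this]
        rfl)
      simp only [decide_eq_true_eq] at h2
      rw [← h1] at h2
      rw [h2, b2_val_cons, ih (n / 2) (by omega)]
      simp only [decide_eq_true_eq]
      exact h1.symm

end Pool.Agent.MP_7070f9_lc
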