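import Pool.Agent.MP_7070f9_lc.Bits
import Pool.Agent.Lib.helper66.Iterate

/-!
# The binary arithmetic is polynomial-time
-/

open Pool.Agent.H66

namespace Pool.Agent.MP_7070f9_lc

variable {γ : Type} [Enc γ]

theorem PT.bxor {p q : γ → Bool} (hp : PolyTime p) (hq : PolyTime q) :
    PolyTime fun c => (p c ^^ q c) :=
  (hp.ite hq.not hq).of_eq fun c => by cases p c <;> cases q c <;> rfl

/-- the type of the states -/
abbrev t1_St : Type := Bool × (List Bool × (List Bool × List Bool))

theorem t1_x : PolyTime (fun s : t1_St => s.2.1) := PolyTime.fst.comp PolyTime.snd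

theorem t1_y : PolyTime (fun s : t1_St => s.2.2.1) :=
  PolyTime.fst.comp (PolyTime.snd.comp PolyTime.snd)

theorem t1_acc : PolyTime (fun s : t1_St => s.2.2.2) :=
  PolyTime.snd.comp (PolyTime.snd.comp PolyTime.snd)

theorem t1_hx : PolyTime (fun s : t1_St => s.2.1.headD false) := (PolyTime.headD false).comp t1_x

theorem t1_hy : PolyTime (fun s : t1_St => s.2.2.1.headD false) := (PolyTime.headD false).comp t1_y

theorem t1_tx : PolyTime (fun s : t1_St => s.2.1.tail) := PolyTime.tail.comp t1_x

theorem t1_ty : PolyTime (fun s : t1_St => s.2.2.1.tail) := PolyTime.tail.comp t1_y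

theorem t1_c : PolyTime (fun s : t1_St => s.1) := PolyTime.fst

theorem PT.addStep : PolyTime addStep := by
  have h1 := (t1_hx.and t1_hy).or (t1_c.and (t1_hx.or t1_hy))
  have h2 : PolyTime (fun s : t1_St =>
      (((s.2.1.headD false) ^^ (s.2.2.1.headD false)) ^^ s.1) :: s.2.2.2) :=
    PolyTime.cons.comp ((PT.bxor (PT.bxor t1_hx t1_hy) t1_c).pair t1_acc)
  exact h1.pair (t1_tx.pair (t1_ty.pair h2))

theorem PT.subStep : PolyTime subStep := by
  have h1 := (t1_hx.not.and (t1_hy.or t1_c)).or (t1_hy.and t1_c)
  have h2 : PolyTime (fun s : t1_St =>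
      (((s.2.1.headD false) ^^ (s.2.2.1.headD false)) ^^ s.1) :: s.2.2.2) :=
    PolyTime.cons.comp ((PT.bxor (PT.bxor t1_hx t1_hy) t1_c).pair t1_acc)
  exact h1.pair (t1_tx.pair (t1_ty.pair h2))

theorem t1_inv (step : t1_St → t1_St) (h1 : ∀ s, (step s).2.1 = s.2.1.tail)
    (h2 : ∀ s, (step s).2.2.1 = s.2.2.1.tail)
    (h3 : ∀ s, (step s).2.2.2.length = s.2.2.2.length + 1) (l : List Bool) :
    ∀ s : t1_St, (l.foldl (fun s _ => step s) s).2.1 = s.2.1.drop l.length ∧
      (l.foldl (fun s _ => step s) s).2.2.1 = s.2.2.1.drop l.length ∧
      (l.foldl (fun s _ => step s) s).2.2.2.length = s.2.2.2.length + l.length := by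
  induction l with
  | nil => intro s; simp
  | cons b l ih =>
    intro s
    rw [List.foldl_cons]
    obtain ⟨a1, a2, a3⟩ := ih (step s)
    rw [a1, a2, a3, h1, h2, h3, List.length_cons, List.drop_tail, List.drop_tail]
    refine ⟨rfl, rfl, ?_⟩
    omega

theorem t1_enc_bits (l : List Bool) : (enc l).length ≤ 4 * l.length + 1 := by
  induction l with
  | nil => simp
  | cons b l ih =>
    rw [enc_cons]
    simp only [List.length_cons, List.length_append]
    have : (enc b).length ≤ 3 := by cases b <;> simp
    omega

theorem t1_fold (step : t1_St → t1_St) (hs : PolyTime step) (h1 : ∀ s, (step s).2.1 = s.2.1.tail)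
    (h2 : ∀ s, (step s).2.2.1 = s.2.2.1.tail)
    (h3 : ∀ s, (step s).2.2.2.length = s.2.2.2.length + 1) {x y l : γ → List Bool}
    (hx : PolyTime x) (hy : PolyTime y) (hl : PolyTime l) :
    PolyTime fun c => (l c).foldl (fun s _ => step s) (false, (x c, (y c, []))) := by
  obtain ⟨s1, hs1, hs1'⟩ := hx.size
  obtain ⟨s2, hs2, hs2'⟩ := hy.size
  obtain ⟨s3, hs3, hs3'⟩ := hl.size
  have hini : PolyTime fun c => ((false, (x c, (y c, []))) : t1_St) :=
    (PolyTime.const false).pair (hx.pair (hy.pair (PolyTime.const [])))
  refine PolyTime.foldl (α := γ) (β := Bool) (δ := t1_St) (l := l)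
    (ini := fun c => (false, (x c, (y c, [])))) (f := fun _ s _ => step s) hl hini
    (hs.comp (PolyTime.fst.comp PolyTime.snd))
    (fun n => 7 + s1 n + s2 n + 4 * s3 n) ?_ ?_
  · exact (((PB.const 7).add hs1).add hs2).add ((PB.const 4).mul hs3)
  · intro c i
    obtain ⟨a1, a2, a3⟩ := t1_inv step h1 h2 h3 ((l c).take i) (false, (x c, (y c, [])))
    generalize ((l c).take i).foldl (fun s _ => step s) (false, (x c, (y c, []))) = S at a1 a2 a3 ⊢
    obtain ⟨b, u, v, w⟩ := S
    simp only at a1 a2 a3
    rw [enc_pair, enc_pair, enc_pair, a1, a2]
    simp only [List.length_cons, List.length_append]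
    have e0 : (enc b).length ≤ 3 := by cases b <;> simp
    have e1 := (enc_drop_le (x c) ((l c).take i).length).trans (hs1' c)
    have e2 := (enc_drop_le (y c) ((l c).take i).length).trans (hs2' c)
    have e3 := t1_enc_bits w
    have e4 : ((l c).take i).length ≤ (l c).length := by
      rw [List.length_take]
      exact min_le_right _ _
    have e5 := length_le_enc (l c)
    have e6 := hs3' c
    simp only [List.length_nil, Nat.zero_add] at a3
    omega

/-- `PolyTime.foldl`; after `i` steps the state has the code of
`(c, (x.drop i, (y.drop i, acc)))` with `acc.length = i` (bound it by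
`enc_drop_le`, `enc_bits_length` from `Lib.helper66.Raw` or directly). -/
theorem PT.addB {x y : γ → List Bool} (hx : PolyTime x) (hy : PolyTime y) :
    PolyTime fun c => addB (x c) (y c) := by
  have hl : PolyTime fun c => true :: (x c ++ y c) :=
    PolyTime.cons.comp ((PolyTime.const true).pair (PolyTime.append hx hy))
  have h := t1_fold MP_7070f9_lc.addStep PT.addStep (fun _ => rfl) (fun _ => rfl) (fun _ => rfl) hx hy hl
  exact PolyTime.reverse.comp (t1_acc.comp h)

theorem PT.subS {x y : γ → List Bool} (hx : PolyTime x) (hy : PolyTime y) :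
    PolyTime fun c => subS (x c) (y c) := by
  exact t1_fold MP_7070f9_lc.subStep PT.subStep (fun _ => rfl) (fun _ => rfl) (fun _ => rfl) hx hy
    (PolyTime.append hx hy)

theorem PT.ltB {x y : γ → List Bool} (hx : PolyTime x) (hy : PolyTime y) :
    PolyTime fun c => ltB (x c) (y c) := by
  exact PolyTime.fst.comp (PT.subS hx hy)

theorem PT.subB {x y : γ → List Bool} (hx : PolyTime x) (hy : PolyTime y) :
    PolyTime fun c => subB (x c) (y c) := by
  exact (PT.ltB hx hy).ite (PolyTime.const [])
    (PolyTime.reverse.comp (t1_acc.comp (PT.subS hx hy)))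

theorem t2_bits (x : List Bool) : (enc x).length ≤ 4 * x.length + 1 := by
  induction x with
  | nil => simp
  | cons b l ih => cases b <;> simp <;> omega

theorem t2_add_len (l : List Bool) (s : Bool × (List Bool × (List Bool × List Bool))) :
    (l.foldl (fun s _ => addStep s) s).2.2.2.length = s.2.2.2.length + l.length := by
  induction l generalizing s with
  | nil => rfl
  | cons b l ih =>
    rw [List.foldl_cons, ih]
    simp only [addStep, List.length_cons]
    omega

theorem t2_sub_len (l : List Bool) (s : Bool × (List Bool × (List Bool × List Bool))) :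
    (l.foldl (fun s _ => subStep s) s).2.2.2.length = s.2.2.2.length + l.length := by
  induction l generalizing s with
  | nil => rfl
  | cons b l ih =>
    rw [List.foldl_cons, ih]
    simp only [subStep, List.length_cons]
    omega

theorem t2_addB_len (x y : List Bool) : (addB x y).length = x.length + y.length + 1 := by
  unfold addB
  rw [List.length_reverse, t2_add_len, List.length_cons, List.length_append]
  simp only [List.length_nil]
  omega

theorem t2_subB_len (x y : List Bool) : (subB x y).length ≤ x.length + y.length := by
  unfold subB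
  split_ifs
  · simp
  · unfold subS
    rw [List.length_reverse, t2_sub_len, List.length_append]
    simp

theorem t2_mul_len (y : List Bool) (l acc : List Bool) :
    (l.foldl (fun acc b => addB (false :: acc) (if b then y else [])) acc).length ≤
      acc.length + l.length * (y.length + 2) := by
  induction l generalizing acc with
  | nil => simp
  | cons b l ih =>
    rw [List.foldl_cons]
    refine (ih _).trans ?_
    rw [t2_addB_len, List.length_cons, List.length_cons]
    have h : (if b then y else []).length ≤ y.length := by
      cases b <;> simp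
    have h2 : (l.length + 1) * (y.length + 2) = l.length * (y.length + 2) + (y.length + 2) := by
      ring
    omega

theorem t2_mulB {x y : γ → List Bool} (hx : PolyTime x) (hy : PolyTime y) :
    PolyTime fun c => mulB (x c) (y c) := by
  obtain ⟨s1, hs1, hs1'⟩ := hx.size
  obtain ⟨s2, hs2, hs2'⟩ := hy.size
  have hf : PolyTime fun p : γ × (List Bool × Bool) =>
      addB (false :: p.2.1) (if p.2.2 then y p.1 else []) := by
    apply PT.addB
    · exact PolyTime.cons.comp ((PolyTime.const false).pair (PolyTime.fst.comp PolyTime.snd))
    · exact (PolyTime.snd.comp PolyTime.snd).ite (hy.comp PolyTime.fst) (PolyTime.const [])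
  exact PolyTime.foldl (l := fun c => (x c).reverse) (ini := fun _ => [])
    (f := fun c acc b => addB (false :: acc) (if b then y c else []))
    (PolyTime.reverse.comp hx) (PolyTime.const []) hf (fun n => 4 * (s1 n * (s2 n + 2)) + 1)
    (((PB.const 4).mul (hs1.mul (hs2.add (PB.const 2)))).add (PB.const 1)) (fun c i => by
      have h1 := t2_bits (((x c).reverse.take i).foldl
        (fun acc b => addB (false :: acc) (if b then y c else [])) [])
      have h2 := t2_mul_len (y c) ((x c).reverse.take i) []
      have h3 := length_le_enc (x c)
      have h4 := length_le_enc (y c)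
      have h5 := hs1' c
      have h6 := hs2' c
      have h7 : ((x c).reverse.take i).length ≤ (x c).length := by
        rw [List.length_take, List.length_reverse]
        exact min_le_right _ _
      have h8 : ((x c).reverse.take i).length * ((y c).length + 2) ≤
          s1 (enc c).length * (s2 (enc c).length + 2) :=
        Nat.mul_le_mul (by omega) (by omega)
      rw [List.length_nil] at h2
      omega)

/-- The accumulator has after `i` steps length at most `i * (y.length + 2)`. -/
theorem PT.mulB {x y : γ → List Bool} (hx : PolyTime x) (hy : PolyTime y) :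
    PolyTime fun c => mulB (x c) (y c) := by
  exact t2_mulB hx hy

theorem PT.shlB {k : γ → ℕ} {x : γ → List Bool} (hk : PolyTime k) (hx : PolyTime x) :
    PolyTime fun c => shlB (k c) (x c) := by
  exact PolyTime.append (PolyTime.replicate hk (PolyTime.const false)) hx

theorem t2_enc_bool (b : Bool) : (enc b).length ≤ 3 := by
  cases b <;> simp

theorem t2_enc_opt (o : Option Bool) : (enc o).length ≤ 5 := by
  cases o with
  | none => simp
  | some b => cases b <;> simp

theorem t2_enc_pairs (l : List (Bool × Bool)) : (enc l).length ≤ 8 * l.length + 1 := by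
  induction l with
  | nil => simp
  | cons p l ih =>
    have h1 := t2_enc_bool p.1
    have h2 := t2_enc_bool p.2
    rw [enc_cons, enc_prod]
    simp only [List.length_cons, List.length_append]
    omega

theorem t2_pair_len (l : List Bool) (s : Option Bool × List (Bool × Bool)) :
    (l.foldl pairStep s).2.length ≤ s.2.length + l.length := by
  induction l generalizing s with
  | nil => simp
  | cons b l ih =>
    rw [List.foldl_cons, List.length_cons]
    refine (ih _).trans ?_
    have h : (pairStep s b).2.length ≤ s.2.length + 1 := by
      unfold pairStep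
      split_ifs <;> simp
    omega

theorem t2_pairFold {x : γ → List Bool} (hx : PolyTime x) :
    PolyTime fun c => (x c).foldl pairStep (none, []) := by
  obtain ⟨s1, hs1, hs1'⟩ := hx.size
  have hs : PolyTime fun p : γ × ((Option Bool × List (Bool × Bool)) × Bool) => p.2.1 :=
    PolyTime.fst.comp PolyTime.snd
  have hs1e : PolyTime fun p : γ × ((Option Bool × List (Bool × Bool)) × Bool) => p.2.1.1 :=
    PolyTime.fst.comp hs
  have hs2e : PolyTime fun p : γ × ((Option Bool × List (Bool × Bool)) × Bool) => p.2.1.2 :=
    PolyTime.snd.comp hs
  have hb : PolyTime fun p : γ × ((Option Bool × List (Bool × Bool)) × Bool) => p.2.2 :=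
    PolyTime.snd.comp PolyTime.snd
  have hf : PolyTime fun p : γ × ((Option Bool × List (Bool × Bool)) × Bool) =>
      pairStep p.2.1 p.2.2 := by
    unfold pairStep
    apply PolyTime.ite (PolyTime.optIsSome.comp hs1e)
    · exact (PolyTime.const none).pair
        (PolyTime.cons.comp ((((PolyTime.optGetD false).comp hs1e).pair hb).pair hs2e))
    · exact (PolyTime.some.comp hb).pair hs2e
  exact PolyTime.foldl (l := x) (ini := fun _ => (none, []))
    (f := fun _ s b => pairStep s b) hx (PolyTime.const _) hf (fun n => 8 * s1 n + 7)
    (((PB.const 8).mul hs1).add (PB.const 7)) (fun c i => by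
      have h1 := t2_pair_len ((x c).take i) (none, [])
      have h2 := t2_enc_pairs (((x c).take i).foldl pairStep (none, [])).2
      have h3 := t2_enc_opt (((x c).take i).foldl pairStep (none, [])).1
      have h4 := length_le_enc (x c)
      have h5 := hs1' c
      have h7 : ((x c).take i).length ≤ (x c).length := by
        rw [List.length_take]
        exact min_le_right _ _
      change (enc (((x c).take i).foldl pairStep (none, []))).length ≤ _
      rw [enc_prod]
      simp only [List.length_cons, List.length_append, List.length_nil] at h1 ⊢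
      omega)

theorem PT.pairsB {x : γ → List Bool} (hx : PolyTime x) : PolyTime fun c => pairsB (x c) := by
  have hfold := t2_pairFold hx
  have h1 := PolyTime.fst.comp hfold
  have h2 := PolyTime.snd.comp hfold
  unfold MP_7070f9_lc.pairsB
  exact (PolyTime.optIsSome.comp h1).ite
    (PolyTime.cons.comp ((((PolyTime.optGetD false).comp h1).pair (PolyTime.const false)).pair h2))
    h2

theorem t2_sq_len (l : List (Bool × Bool)) (n : ℕ) (s : List Bool × List Bool)
    (h1 : s.1.length = n) (h2 : s.2.length ≤ n * (n + 8)) :
    (l.foldl sqStep s).1.length = n + l.length ∧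
      (l.foldl sqStep s).2.length ≤ (n + l.length) * (n + l.length + 8) := by
  induction l generalizing n s with
  | nil => exact ⟨by simpa using h1, by simpa using h2⟩
  | cons p l ih =>
    rw [List.foldl_cons, List.length_cons]
    have h3 : (sqStep s p).1.length = n + 1 := by
      unfold sqStep
      split_ifs <;> simp [h1]
    have h4 : (sqStep s p).2.length ≤ (n + 1) * (n + 1 + 8) := by
      have h5 : n * (n + 8) + n + 4 ≤ (n + 1) * (n + 1 + 8) := by nlinarith
      unfold sqStep
      split_ifs
      · simp only [List.length_cons]
        omega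
      · have h6 := t2_subB_len (p.1 :: p.2 :: s.2) (true :: false :: s.1)
        simp only [List.length_cons] at h6 ⊢
        omega
    have h5 := ih (n + 1) _ h3 h4
    rw [show n + (l.length + 1) = n + 1 + l.length by omega]
    exact h5

theorem t2_sqrtB {x : γ → List Bool} (hx : PolyTime x) : PolyTime fun c => sqrtB (x c) := by
  have hp := PT.pairsB hx
  obtain ⟨s1, hs1, hs1'⟩ := hp.size
  have hs : PolyTime fun p : γ × ((List Bool × List Bool) × (Bool × Bool)) => p.2.1 :=
    PolyTime.fst.comp PolyTime.snd
  have hq : PolyTime fun p : γ × ((List Bool × List Bool) × (Bool × Bool)) => p.2.1.1 :=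
    PolyTime.fst.comp hs
  have hr : PolyTime fun p : γ × ((List Bool × List Bool) × (Bool × Bool)) => p.2.1.2 :=
    PolyTime.snd.comp hs
  have hpp : PolyTime fun p : γ × ((List Bool × List Bool) × (Bool × Bool)) => p.2.2 :=
    PolyTime.snd.comp PolyTime.snd
  have ha : PolyTime fun p : γ × ((List Bool × List Bool) × (Bool × Bool)) => p.2.2.1 :=
    PolyTime.fst.comp hpp
  have hb : PolyTime fun p : γ × ((List Bool × List Bool) × (Bool × Bool)) => p.2.2.2 :=
    PolyTime.snd.comp hpp
  have h1 : PolyTime fun p : γ × ((List Bool × List Bool) × (Bool × Bool)) =>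
      p.2.2.1 :: p.2.2.2 :: p.2.1.2 :=
    PolyTime.cons.comp (ha.pair (PolyTime.cons.comp (hb.pair hr)))
  have h2 : PolyTime fun p : γ × ((List Bool × List Bool) × (Bool × Bool)) =>
      true :: false :: p.2.1.1 :=
    PolyTime.cons.comp ((PolyTime.const true).pair
      (PolyTime.cons.comp ((PolyTime.const false).pair hq)))
  have hf : PolyTime fun p : γ × ((List Bool × List Bool) × (Bool × Bool)) =>
      sqStep p.2.1 p.2.2 := by
    unfold sqStep
    apply PolyTime.ite (PT.ltB h1 h2)
    · exact (PolyTime.cons.comp ((PolyTime.const false).pair hq)).pair h1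
    · exact (PolyTime.cons.comp ((PolyTime.const true).pair hq)).pair (PT.subB h1 h2)
  have hfold : PolyTime fun c => (pairsB (x c)).foldl sqStep ([], []) :=
    PolyTime.foldl (l := fun c => pairsB (x c)) (ini := fun _ => ([], []))
      (f := fun _ s p => sqStep s p) hp (PolyTime.const _) hf
      (fun n => 4 * (s1 n) + 4 * (s1 n * (s1 n + 8)) + 3)
      ((((PB.const 4).mul hs1).add ((PB.const 4).mul (hs1.mul (hs1.add (PB.const 8))))).add
        (PB.const 3)) (fun c i => by
        have h3 := t2_sq_len ((pairsB (x c)).take i) 0 ([], []) rfl (by simp)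
        have h4 := length_le_enc (pairsB (x c))
        have h5 := hs1' c
        have h7 : ((pairsB (x c)).take i).length ≤ (pairsB (x c)).length := by
          rw [List.length_take]
          exact min_le_right _ _
        have h8 := t2_bits (((pairsB (x c)).take i).foldl sqStep ([], [])).1
        have h9 := t2_bits (((pairsB (x c)).take i).foldl sqStep ([], [])).2
        have h10 : (0 + ((pairsB (x c)).take i).length) *
            (0 + ((pairsB (x c)).take i).length + 8) ≤
            s1 (enc c).length * (s1 (enc c).length + 8) :=
          Nat.mul_le_mul (by omega) (by omega)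
        change (enc (((pairsB (x c)).take i).foldl sqStep ([], []))).length ≤ _
        rw [enc_prod]
        simp only [List.length_cons, List.length_append]
        omega)
  exact PolyTime.fst.comp hfold

theorem t2_trimB {x : γ → List Bool} (hx : PolyTime x) : PolyTime fun c => trimB (x c) := by
  obtain ⟨s1, hs1, hs1'⟩ := hx.size
  have key : ∀ (l acc : List Bool),
      (l.foldl (fun acc b => if b || !acc.isEmpty then b :: acc else acc) acc).length ≤
        acc.length + l.length := by
    intro l
    induction l with
    | nil => intro acc; simp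
    | cons b l ih =>
      intro acc
      rw [List.foldl_cons, List.length_cons]
      refine (ih _).trans ?_
      split_ifs
      · rw [List.length_cons]
        omega
      · omega
  have hf : PolyTime fun p : γ × (List Bool × Bool) =>
      (if p.2.2 || !p.2.1.isEmpty then p.2.2 :: p.2.1 else p.2.1 : List Bool) := by
    have hb : PolyTime fun p : γ × (List Bool × Bool) => p.2.2 :=
      PolyTime.snd.comp PolyTime.snd
    have ha : PolyTime fun p : γ × (List Bool × Bool) => p.2.1 :=
      PolyTime.fst.comp PolyTime.snd
    exact (PolyTime.or hb (PolyTime.not (PolyTime.isEmpty.comp ha))).ite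
      (PolyTime.cons.comp (hb.pair ha)) ha
  exact PolyTime.foldl (l := fun c => (x c).reverse) (ini := fun _ => [])
    (f := fun _ acc b => if b || !acc.isEmpty then b :: acc else acc)
    (PolyTime.reverse.comp hx) (PolyTime.const []) hf (fun n => 4 * s1 n + 1)
    (((PB.const 4).mul hs1).add (PB.const 1)) (fun c i => by
      have h1 := t2_bits (((x c).reverse.take i).foldl
        (fun acc b => if b || !acc.isEmpty then b :: acc else acc) [])
      have h2 := key ((x c).reverse.take i) []
      have h3 := length_le_enc (x c)
      have h5 := hs1' c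
      have h7 : ((x c).reverse.take i).length ≤ (x c).length := by
        rw [List.length_take, List.length_reverse]
        exact min_le_right _ _
      rw [List.length_nil] at h2
      omega)

/-- After `i` steps the root has length `i` and the remainder has length at most `i * (i + 8)`
(`subB a b` has length at most `a.length + b.length`). -/
theorem PT.sqrtB {x : γ → List Bool} (hx : PolyTime x) : PolyTime fun c => sqrtB (x c) := by
  exact t2_sqrtB hx

theorem PT.trimB {x : γ → List Bool} (hx : PolyTime x) : PolyTime fun c => trimB (x c) := by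
  exact t2_trimB hx

end Pool.Agent.MP_7070f9_lc
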