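import Mathlib

/-!
# Rigid foldability of crease patterns and sums of square roots: definitions
-/

namespace Pool.Agent.MP_7070f9_lc

/-! ## Codes as bit strings -/

/-- The code of a pair whose components have the codes `x` and `y`. -/
def codePair (x y : List Bool) : List Bool := true :: (x ++ y)

/-- The code of a list, given the codes of its entries. -/
def codeList {α : Type} (c : α → List Bool) : List α → List Bool
  | [] => [false]
  | a :: l => true :: (c a ++ codeList c l)

/-- The code of a bit. -/
def codeBit (b : Bool) : List Bool := if b then [true, false, false] else [false]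

/-- The code of a natural number: the list of its binary digits. -/
def codeNat (n : ℕ) : List Bool := codeList codeBit n.bits

/-- The code of an integer: its sign and the binary digits of its absolute value. -/
def codeInt (z : ℤ) : List Bool := codePair (codeBit (decide (z < 0))) (codeNat z.natAbs)

/-! ## Crease patterns -/

/-- The plane of the paper. -/
abbrev Plane := EuclideanSpace ℝ (Fin 2)

/-- The space in which the paper is folded. -/
abbrev Space := EuclideanSpace ℝ (Fin 3)

/-- The inclusion of the plane into space. -/
noncomputable def incl (z : Plane) : Space := !₂[z 0, z 1, 0]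

/-- A rational number, given as a fraction of integers (not necessarily in lowest terms). -/
structure Frac where
  /-- the numerator -/
  num : ℤ
  /-- the denominator -/
  den : ℕ

/-- The value of a fraction. -/
noncomputable def Frac.val (q : Frac) : ℝ := q.num / q.den

/-- The point of the plane with the given rational coordinates. -/
noncomputable def toPlane (p : Frac × Frac) : Plane := !₂[p.1.val, p.2.val]

/-- A crease pattern on a rectangular sheet of paper: the sides of the rectangle and the list of
the creases, each given by its two end points. -/
structure Pattern where
  /-- the left side of the paper -/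
  left : Frac
  /-- the right side of the paper -/
  right : Frac
  /-- the lower side of the paper -/
  bottom : Frac
  /-- the upper side of the paper -/
  top : Frac
  /-- the creases -/
  creases : List ((Frac × Frac) × (Frac × Frac))

namespace Pattern

/-- The paper: a closed rectangle. -/
def paper (G : Pattern) : Set Plane :=
  {z | (G.left.val ≤ z 0 ∧ z 0 ≤ G.right.val) ∧ (G.bottom.val ≤ z 1 ∧ z 1 ≤ G.top.val)}

/-- The data describe a plane graph with straight edges on the paper: the denominators are
positive, the rectangle is not degenerate, every crease has two different end points on the paper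
and its relative interior lies in the interior of the paper, and two creases meet at most in
common end points. -/
structure Valid (G : Pattern) : Prop where
  den_paper : 0 < G.left.den ∧ 0 < G.right.den ∧ 0 < G.bottom.den ∧ 0 < G.top.den
  den_creases : ∀ e ∈ G.creases, 0 < e.1.1.den ∧ 0 < e.1.2.den ∧ 0 < e.2.1.den ∧ 0 < e.2.2.den
  size : G.left.val < G.right.val ∧ G.bottom.val < G.top.val
  ends : ∀ e ∈ G.creases, toPlane e.1 ≠ toPlane e.2 ∧ toPlane e.1 ∈ G.paper ∧ toPlane e.2 ∈ G.paper
  inside : ∀ e ∈ G.creases, openSegment ℝ (toPlane e.1) (toPlane e.2) ⊆ interior G.paper
  plane : G.creases.Pairwise fun e f =>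
    Disjoint (openSegment ℝ (toPlane e.1) (toPlane e.2)) (segment ℝ (toPlane f.1) (toPlane f.2)) ∧
    Disjoint (segment ℝ (toPlane e.1) (toPlane e.2)) (openSegment ℝ (toPlane f.1) (toPlane f.2))

/-- The union of all creases (with their end points). -/
def net (G : Pattern) : Set Plane := ⋃ e ∈ G.creases, segment ℝ (toPlane e.1) (toPlane e.2)

/-- The faces: the connected components of the paper minus the creases. -/
def IsFace (G : Pattern) (F : Set Plane) : Prop :=
  ∃ z ∈ G.paper \ G.net, F = connectedComponentIn (G.paper \ G.net) z

/-- A rigid folding from the unfolded state, with the time interval `[0, ε]`: a continuous motion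
of the paper in space that starts with the inclusion and restricts to a rigid motion on the
closure of every face. -/
structure IsRigidFolding (G : Pattern) (ε : ℝ) (σ : ℝ → Plane → Space) : Prop where
  cont : ContinuousOn (fun q : ℝ × Plane => σ q.1 q.2) (Set.Icc 0 ε ×ˢ G.paper)
  start : ∀ z ∈ G.paper, σ 0 z = incl z
  rigid : ∀ t ∈ Set.Icc 0 ε, ∀ F, G.IsFace F → ∀ z ∈ closure F, ∀ w ∈ closure F,
    dist (σ t z) (σ t w) = dist z w

/-- The folding angle of the crease `e` is zero in the folded state `f`: the faces adjacent to the
crease (those whose closure contains it) are moved by the same rigid motion, that is, `f`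
preserves the distances between the points of these faces. -/
def Unfolded (G : Pattern) (f : Plane → Space) (e : (Frac × Frac) × (Frac × Frac)) : Prop :=
  ∀ F F', G.IsFace F → G.IsFace F' → segment ℝ (toPlane e.1) (toPlane e.2) ⊆ closure F →
    segment ℝ (toPlane e.1) (toPlane e.2) ⊆ closure F' →
    ∀ z ∈ closure F, ∀ w ∈ closure F', dist (f z) (f w) = dist z w

/-- `RF-opt`: there is a rigid folding from the unfolded state which is nontrivial, that is, at
every time `t > 0` at least one crease has a nonzero folding angle. -/
def RFopt (G : Pattern) : Prop :=
  G.Valid ∧ ∃ ε > 0, ∃ σ, G.IsRigidFolding ε σ ∧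
    ∀ t ∈ Set.Ioc 0 ε, ∃ e ∈ G.creases, ¬ G.Unfolded (σ t) e

/-- `RF-all`: there is a nontrivial rigid folding from the unfolded state in which at every time
`t > 0` all creases have nonzero folding angles. -/
def RFall (G : Pattern) : Prop :=
  G.Valid ∧ ∃ ε > 0, ∃ σ, G.IsRigidFolding ε σ ∧
    ∀ t ∈ Set.Ioc 0 ε, G.creases ≠ [] ∧ ∀ e ∈ G.creases, ¬ G.Unfolded (σ t) e

/-- The code of a fraction: numerator and denominator in binary. -/
def _root_.Pool.Agent.MP_7070f9_lc.Frac.code (q : Frac) : List Bool :=
  codePair (codeInt q.num) (codeNat q.den)

/-- The code of a point with rational coordinates. -/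
def codePt (p : Frac × Frac) : List Bool := codePair p.1.code p.2.code

/-- The code of a crease pattern as a bit string, all numbers being written in binary. -/
def code (G : Pattern) : List Bool :=
  codePair (codePair G.left.code G.right.code)
    (codePair (codePair G.bottom.code G.top.code)
      (codeList (fun e => codePair (codePt e.1) (codePt e.2)) G.creases))

end Pattern

/-! ## Sums of square roots -/

/-- The sum of the square roots of the numbers in a list. -/
noncomputable def sqrtSum (a : List ℕ) : ℝ := (a.map fun x : ℕ => √(x : ℝ)).sum

/-- The code of an instance `(a, t)` of SQRT-SUM, all numbers being written in binary. -/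
def codeInst (I : List ℕ × ℕ) : List Bool := codePair (codeList codeNat I.1) (codeNat I.2)

end Pool.Agent.MP_7070f9_lc
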