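import Pool.Agent.MP_7070f9_lc.Bits
import Pool.Agent.MP_7070f9_lc.Defs

/-!
# The reduction as a program

The program works with numbers of an arbitrary type `α` on which the arithmetical operations are
given; it is used for natural numbers and for lists of bits.
-/

namespace Pool.Agent.MP_7070f9_lc

/-- Arithmetical operations. -/
structure Ops (α : Type) where
  /-- constants -/
  nat : ℕ → α
  /-- addition -/
  add : α → α → α
  /-- truncated subtraction -/
  sub : α → α → α
  /-- multiplication -/
  mul : α → α → α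
  /-- multiplication by a power of two -/
  shl : ℕ → α → α
  /-- comparison -/
  lt : α → α → Bool
  /-- integral part of the square root -/
  sqrt : α → α

/-- The operations on natural numbers. -/
def natOps : Ops ℕ where
  nat n := n
  add := (· + ·)
  sub := (· - ·)
  mul := (· * ·)
  shl k x := 2 ^ k * x
  lt x y := decide (x < y)
  sqrt := Nat.sqrt

/-- The operations on lists of bits. -/
def bitOps : Ops (List Bool) where
  nat := Nat.bits
  add := addB
  sub := subB
  mul := mulB
  shl := shlB
  lt := ltB
  sqrt := sqrtB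

/-- Fractions: sign, numerator, denominator. -/
abbrev FrB (α : Type) := (Bool × α) × α

/-- Points. -/
abbrev PtB (α : Type) := FrB α × FrB α

/-- Segments. -/
abbrev SgB (α : Type) := PtB α × PtB α

/-- Patterns: left, right, bottom, top, creases. -/
abbrev PatB (α : Type) := (FrB α × FrB α) × ((FrB α × FrB α) × List (SgB α))

section
variable {α : Type} (O : Ops α)

/-- Nonnegative fraction. -/
def fp (x y : α) : FrB α := ((false, x), y)
/-- Negative fraction. -/
def fn' (x y : α) : FrB α := ((true, x), y)

/-- The origin. -/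
def orgB : PtB α := (fp (O.nat 0) (O.nat 1), fp (O.nat 0) (O.nat 1))
/-- The path vertex `(-1/i, -g/i)`. -/
def pvB (g i : α) : PtB α := (fn' (O.nat 1) i, fn' g i)
/-- The vertical crease. -/
def vtB (N g i : α) : SgB α := (pvB O g i, (fn' (O.nat 1) i, fn' N (O.nat 1)))
/-- The spoke. -/
def spB (g i : α) : SgB α := (pvB O g i, orgB O)
/-- The vertex `W`. -/
def wB (D : α) : PtB α := (fp (O.nat 1) (O.nat 7), fp (O.sub D (O.nat 7)) (O.nat 7))
/-- A point with abscissa `8/7`. -/
def rB (y : α) : PtB α := (fp (O.nat 8) (O.nat 7), fp y (O.nat 7))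

/-- The number `X` of the instance. -/
def xB (a : List α) (t : α) : α :=
  O.sub (a.foldl (fun s x => O.add s (O.add (O.mul (O.nat 216) x) (O.nat 36)))
    (O.mul (O.nat 144) t)) (O.nat 49)

/-- The list of increments, given `X`. -/
def incrB (a : List α) (X : α) : List (α × α) :=
  (O.mul (O.nat 16) X, X) :: (X, X) ::
    a.flatMap fun x => [(O.nat 144, O.nat 36), (O.nat 72, O.mul (O.nat 72) x)]

/-- Half the height of the paper. -/
def nB (E : List (α × α)) : α :=
  O.add (O.nat 21) (O.mul (O.nat 2) (E.foldl (fun s p => O.add s p.1) (O.nat 1)))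

/-- One step along the path. -/
def stepB (N : α) (s : α × (α × List (SgB α))) (p : α × α) : α × (α × List (SgB α)) :=
  (O.add s.1 p.1, (O.add s.2.1 p.2, s.2.2 ++
    [(pvB O s.1 s.2.1, pvB O (O.add s.1 p.1) (O.add s.2.1 p.2)),
      vtB O N (O.add s.1 p.1) (O.add s.2.1 p.2), spB O (O.add s.1 p.1) (O.add s.2.1 p.2)]))

/-- The creases at the left end. -/
def headB (N : α) : List (SgB α) :=
  [((fn' (O.nat 2) (O.nat 1), fn' (O.nat 1) (O.nat 1)), pvB O (O.nat 1) (O.nat 1)),
    vtB O N (O.nat 1) (O.nat 1), spB O (O.nat 1) (O.nat 1)]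

/-- The creases at the right end. -/
def tailB (N g i D : α) : List (SgB α) :=
  [(pvB O g i, wB O D), (orgB O, wB O D), (orgB O, rB O (O.mul (O.nat 8) (O.add D (O.nat 18)))),
    (orgB O, (fp (O.nat 0) (O.nat 1), fp N (O.nat 1))),
    (wB O D, rB O (O.sub (O.mul (O.nat 8) D) (O.nat 21))),
    (wB O D, rB O (O.sub (O.mul (O.nat 8) D) (O.nat 7))),
    (wB O D, rB O (O.add (O.mul (O.nat 8) D) (O.nat 42)))]

/-- The pattern, given the list of increments and half the height. -/
def patOf (E : List (α × α)) (N : α) : PatB α :=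
  ((fn' (O.nat 2) (O.nat 1), fp (O.nat 8) (O.nat 7)), ((fn' N (O.nat 1), fp N (O.nat 1)),
    (E.foldl (stepB O N) (O.nat 1, (O.nat 1, headB O N))).2.2 ++
      tailB O N (E.foldl (stepB O N) (O.nat 1, (O.nat 1, headB O N))).1
        (E.foldl (stepB O N) (O.nat 1, (O.nat 1, headB O N))).2.1
        (O.sub (E.foldl (stepB O N) (O.nat 1, (O.nat 1, headB O N))).1
          (E.foldl (stepB O N) (O.nat 1, (O.nat 1, headB O N))).2.1)))

/-- The pattern of the instance `(a, t)`. -/
def patB (I : List α × α) : PatB α :=
  patOf O (incrB O I.1 (xB O I.1 I.2)) (nB O (incrB O I.1 (xB O I.1 I.2)))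

/-! ### The selection of the instance -/

/-- The nonzero entries. -/
def nzB (a : List α) : List α := a.filter fun x => O.lt (O.nat 0) x

/-- All entries are squares. -/
def sqB (a : List α) : Bool :=
  a.foldl (fun s x => s && !(O.lt (O.mul (O.sqrt x) (O.sqrt x)) x)) true

/-- The sum of the approximations `⌊√(4^n x)⌋`. -/
def appB (n : ℕ) (a : List α) : α := a.foldl (fun s x => O.add s (O.sqrt (O.shl (n + n) x))) (O.nat 0)

/-- The number of entries. -/
def cntB (a : List α) : α := a.foldl (fun s _ => O.add s (O.nat 1)) (O.nat 0)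

/-- The default instance with answer yes (`1 < √2 < 2`). -/
def yesB : List α × α := ([O.nat 2], O.nat 1)
/-- The default instance with answer no (`√2` is not between `0` and `1`). -/
def noB : List α × α := ([O.nat 2], O.nat 0)

/-- The selection for the question `∑ √x ≤ t`, given the list without zeros, the sum `S` of the
approximations and `T = 2^n t`. -/
def leB (a : List α) (t S T : α) : List α × α :=
  if sqB O a then (if O.lt T S then noB O else yesB O)
  else if O.lt S T then
    (if O.lt T (O.add S (cntB O a)) then (a, O.sub t (O.nat 1)) else yesB O)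
  else noB O

/-- The selection for the question `∑ √x > t`. -/
def gtB (a : List α) (t S T : α) : List α × α :=
  if sqB O a then (if O.lt T S then yesB O else noB O)
  else if O.lt S T then
    (if O.lt T (O.add S (cntB O a)) then (a, t) else noB O)
  else yesB O

/-- The selection for the question `∑ √x ≤ t`. -/
def selLe (I : List α × α) : List α × α :=
  leB O (nzB O I.1) I.2 (appB O (nzB O I.1).length (nzB O I.1)) (O.shl (nzB O I.1).length I.2)

/-- The selection for the question `∑ √x > t`. -/
def selGt (I : List α × α) : List α × α :=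
  gtB O (nzB O I.1) I.2 (appB O (nzB O I.1).length (nzB O I.1)) (O.shl (nzB O I.1).length I.2)

end

/-! ### The value map -/

/-- A map to the natural numbers which respects all operations. -/
structure OHom {α : Type} (O : Ops α) (v : α → ℕ) : Prop where
  nat : ∀ n, v (O.nat n) = n
  add : ∀ x y, v (O.add x y) = v x + v y
  sub : ∀ x y, v (O.sub x y) = v x - v y
  mul : ∀ x y, v (O.mul x y) = v x * v y
  shl : ∀ k x, v (O.shl k x) = 2 ^ k * v x
  lt : ∀ x y, O.lt x y = decide (v x < v y)
  sqrt : ∀ x, v (O.sqrt x) = Nat.sqrt (v x)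

theorem bitHom : OHom bitOps val where
  nat := val_bits
  add := val_addB
  sub := val_subB
  mul := val_mulB
  shl := val_shlB
  lt x y := by
    have := ltB_iff x y
    show ltB x y = _
    rcases h : ltB x y with _ | _
    · rw [h] at this
      simpa using this
    · rw [h] at this
      simpa using this
  sqrt := val_sqrtB

section
variable {α : Type} {O : Ops α} {v : α → ℕ}

/-- The value map on fractions. -/
def mapF (v : α → ℕ) (q : FrB α) : FrB ℕ := ((q.1.1, v q.1.2), v q.2)
/-- The value map on points. -/
def mapP (v : α → ℕ) (q : PtB α) : PtB ℕ := (mapF v q.1, mapF v q.2)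
/-- The value map on segments. -/
def mapS (v : α → ℕ) (q : SgB α) : SgB ℕ := (mapP v q.1, mapP v q.2)
/-- The value map on patterns. -/
def mapPat (v : α → ℕ) (q : PatB α) : PatB ℕ :=
  ((mapF v q.1.1, mapF v q.1.2), ((mapF v q.2.1.1, mapF v q.2.1.2), q.2.2.map (mapS v)))
/-- The value map on instances. -/
def mapI (v : α → ℕ) (I : List α × α) : List ℕ × ℕ := (I.1.map v, v I.2)

theorem foldl_val {β γ δ ε : Type} (f : β → γ → β) (g : δ → ε → δ) (u : β → δ) (w : γ → ε)
    (h : ∀ b c, u (f b c) = g (u b) (w c)) (l : List γ) (b : β) :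
    u (l.foldl f b) = (l.map w).foldl g (u b) := by
  induction l generalizing b with
  | nil => rfl
  | cons c l ih => rw [List.foldl_cons, ih, h, List.map_cons, List.foldl_cons]

theorem map_xB (h : OHom O v) (a : List α) (t : α) : v (xB O a t) = xB natOps (a.map v) (v t) := by
  rw [xB, h.sub, h.nat, foldl_val _ (fun s x => s + (216 * x + 36)) v v, h.mul, h.nat]
  · rfl
  · intro b c
    rw [h.add, h.add, h.mul, h.nat, h.nat]

theorem map_incrB (h : OHom O v) (a : List α) (X : α) :
    (incrB O a X).map (fun p => (v p.1, v p.2)) = incrB natOps (a.map v) (v X) := by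
  have h1 : (a.flatMap fun x => [(O.nat 144, O.nat 36), (O.nat 72, O.mul (O.nat 72) x)]).map
      (fun p => (v p.1, v p.2)) = (a.map v).flatMap fun x => [(144, 36), (72, 72 * x)] := by
    induction a with
    | nil => rfl
    | cons x a ih =>
      simp only [List.flatMap_cons, List.map_append, ih, List.map_cons, List.map_nil, h.nat, h.mul]
  rw [incrB, incrB, List.map_cons, List.map_cons, h1, h.mul, h.nat]
  rfl

theorem map_nB (h : OHom O v) (E : List (α × α)) :
    v (nB O E) = nB natOps (E.map fun p => (v p.1, v p.2)) := by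
  rw [nB, h.add, h.mul, h.nat, h.nat, foldl_val _ (fun (s : ℕ) (p : ℕ × ℕ) => s + p.1) v
    (fun p => (v p.1, v p.2)), h.nat]
  · rfl
  · intro b c
    rw [h.add]

theorem map_pvB (h : OHom O v) (g i : α) : mapP v (pvB O g i) = pvB natOps (v g) (v i) := by
  simp only [mapP, mapF, pvB, fn', h.nat]
  rfl

theorem map_vtB (h : OHom O v) (N g i : α) :
    mapS v (vtB O N g i) = vtB natOps (v N) (v g) (v i) := by
  simp only [mapS, vtB, map_pvB h]
  simp only [mapP, mapF, fn', h.nat]
  rfl

theorem map_orgB (h : OHom O v) : mapP v (orgB O) = orgB natOps := by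
  simp only [mapP, mapF, orgB, fp, h.nat]
  rfl

theorem map_spB (h : OHom O v) (g i : α) : mapS v (spB O g i) = spB natOps (v g) (v i) := by
  simp only [mapS, spB, map_pvB h, map_orgB h]

theorem map_wB (h : OHom O v) (D : α) : mapP v (wB O D) = wB natOps (v D) := by
  simp only [mapP, mapF, wB, fp, h.nat, h.sub]
  rfl

theorem map_rB (h : OHom O v) (y : α) : mapP v (rB O y) = rB natOps (v y) := by
  simp only [mapP, mapF, rB, fp, h.nat]
  rfl

theorem map_headB (h : OHom O v) (N : α) : (headB O N).map (mapS v) = headB natOps (v N) := by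
  simp only [headB, List.map_cons, List.map_nil, map_vtB h, map_spB h]
  simp only [mapS, map_pvB h]
  simp only [mapP, mapF, fn', h.nat]
  rfl

theorem map_tailB (h : OHom O v) (N g i D : α) :
    (tailB O N g i D).map (mapS v) = tailB natOps (v N) (v g) (v i) (v D) := by
  simp only [tailB, List.map_cons, List.map_nil]
  simp only [mapS, map_pvB h, map_orgB h, map_wB h, map_rB h, h.nat, h.sub, h.add, h.mul]
  simp only [mapP, mapF, fp, h.nat]
  rfl

/-- The value map on the states of the path. -/
def mapSt (v : α → ℕ) (s : α × (α × List (SgB α))) : ℕ × (ℕ × List (SgB ℕ)) :=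
  (v s.1, (v s.2.1, s.2.2.map (mapS v)))

theorem map_stepB (h : OHom O v) (N : α) (s : α × (α × List (SgB α))) (p : α × α) :
    mapSt v (stepB O N s p) = stepB natOps (v N) (mapSt v s) (v p.1, v p.2) := by
  simp only [mapSt, stepB, List.map_append, List.map_cons, List.map_nil, map_vtB h, map_spB h,
    h.add]
  simp only [mapS, map_pvB h, h.add]
  rfl

theorem map_patOf (h : OHom O v) (E : List (α × α)) (N : α) :
    mapPat v (patOf O E N) = patOf natOps (E.map fun p => (v p.1, v p.2)) (v N) := by
  have h1 : mapSt v (E.foldl (stepB O N) (O.nat 1, (O.nat 1, headB O N))) =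
      (E.map fun p => (v p.1, v p.2)).foldl (stepB natOps (v N)) (1, (1, headB natOps (v N))) := by
    rw [foldl_val _ (stepB natOps (v N)) (mapSt v) (fun p => (v p.1, v p.2))
      (fun b c => map_stepB h N b c)]
    rw [mapSt, h.nat, map_headB h]
  rw [patOf, patOf]
  simp only [mapPat, List.map_append, map_tailB h, h.sub]
  have h2 : v (E.foldl (stepB O N) (O.nat 1, (O.nat 1, headB O N))).1 = _ :=
    congrArg (fun s => s.1) h1
  have h3 : v (E.foldl (stepB O N) (O.nat 1, (O.nat 1, headB O N))).2.1 = _ :=
    congrArg (fun s => s.2.1) h1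
  have h4 : (E.foldl (stepB O N) (O.nat 1, (O.nat 1, headB O N))).2.2.map (mapS v) = _ :=
    congrArg (fun s => s.2.2) h1
  rw [h2, h3, h4]
  simp only [mapF, fn', fp, h.nat]
  rfl

theorem map_patB (h : OHom O v) (I : List α × α) : mapPat v (patB O I) = patB natOps (mapI v I) := by
  rw [patB, map_patOf h, map_incrB h, map_nB h, map_incrB h, map_xB h]
  rfl

theorem map_nzB (h : OHom O v) (a : List α) : (nzB O a).map v = nzB natOps (a.map v) := by
  rw [nzB, nzB, List.filter_map]
  congr 2
  funext x
  rw [Function.comp, h.lt, h.nat]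
  rfl

theorem map_sqB (h : OHom O v) (a : List α) : sqB O a = sqB natOps (a.map v) := by
  rw [sqB, sqB, foldl_val _ (fun (s : Bool) (x : ℕ) => s && !(natOps.lt (natOps.mul (natOps.sqrt x)
    (natOps.sqrt x)) x)) (fun b => b) v]
  intro b c
  rw [h.lt, h.mul, h.sqrt]
  rfl

theorem map_appB (h : OHom O v) (n : ℕ) (a : List α) : v (appB O n a) = appB natOps n (a.map v) := by
  rw [appB, foldl_val _ (fun (s x : ℕ) => s + Nat.sqrt (2 ^ (n + n) * x)) v v, h.nat]
  · rfl
  · intro b c
    rw [h.add, h.sqrt, h.shl]

theorem map_cntB (h : OHom O v) (a : List α) : v (cntB O a) = cntB natOps (a.map v) := by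
  rw [cntB, foldl_val _ (fun (s _ : ℕ) => s + 1) v v, h.nat]
  · rfl
  · intro b c
    rw [h.add, h.nat]

theorem map_yesB (h : OHom O v) : mapI v (yesB O) = yesB natOps := by
  simp only [mapI, yesB, List.map_cons, List.map_nil, h.nat]
  rfl

theorem map_noB (h : OHom O v) : mapI v (noB O) = noB natOps := by
  simp only [mapI, noB, List.map_cons, List.map_nil, h.nat]
  rfl

theorem map_selLe (h : OHom O v) (I : List α × α) :
    mapI v (selLe O I) = selLe natOps (mapI v I) := by
  have e1 : O.lt (O.shl (nzB O I.1).length I.2) (appB O (nzB O I.1).length (nzB O I.1)) =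
      natOps.lt (natOps.shl (nzB natOps (mapI v I).1).length (mapI v I).2)
        (appB natOps (nzB natOps (mapI v I).1).length (nzB natOps (mapI v I).1)) := by
    rw [h.lt, h.shl, map_appB h, mapI, ← map_nzB h, List.length_map]
    rfl
  have e2 : O.lt (appB O (nzB O I.1).length (nzB O I.1)) (O.shl (nzB O I.1).length I.2) =
      natOps.lt (appB natOps (nzB natOps (mapI v I).1).length (nzB natOps (mapI v I).1))
        (natOps.shl (nzB natOps (mapI v I).1).length (mapI v I).2) := by
    rw [h.lt, h.shl, map_appB h, mapI, ← map_nzB h, List.length_map]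
    rfl
  have e3 : O.lt (O.shl (nzB O I.1).length I.2)
        (O.add (appB O (nzB O I.1).length (nzB O I.1)) (cntB O (nzB O I.1))) =
      natOps.lt (natOps.shl (nzB natOps (mapI v I).1).length (mapI v I).2)
        (natOps.add (appB natOps (nzB natOps (mapI v I).1).length (nzB natOps (mapI v I).1))
          (cntB natOps (nzB natOps (mapI v I).1))) := by
    rw [h.lt, h.shl, h.add, map_appB h, map_cntB h, mapI, ← map_nzB h, List.length_map]
    rfl
  have e4 : sqB O (nzB O I.1) = sqB natOps (nzB natOps (mapI v I).1) := by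
    rw [map_sqB h, map_nzB h]; rfl
  have e5 : mapI v (nzB O I.1, O.sub I.2 (O.nat 1)) =
      (nzB natOps (mapI v I).1, natOps.sub (mapI v I).2 (natOps.nat 1)) := by
    simp only [mapI, h.sub, h.nat, map_nzB h]
    rfl
  rw [selLe, selLe, leB, leB, ← e1, ← e2, ← e3, ← e4]
  split_ifs
  · exact map_noB h
  · exact map_yesB h
  · exact e5
  · exact map_yesB h
  · exact map_noB h

theorem map_selGt (h : OHom O v) (I : List α × α) :
    mapI v (selGt O I) = selGt natOps (mapI v I) := by
  have e1 : O.lt (O.shl (nzB O I.1).length I.2) (appB O (nzB O I.1).length (nzB O I.1)) =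
      natOps.lt (natOps.shl (nzB natOps (mapI v I).1).length (mapI v I).2)
        (appB natOps (nzB natOps (mapI v I).1).length (nzB natOps (mapI v I).1)) := by
    rw [h.lt, h.shl, map_appB h, mapI, ← map_nzB h, List.length_map]
    rfl
  have e2 : O.lt (appB O (nzB O I.1).length (nzB O I.1)) (O.shl (nzB O I.1).length I.2) =
      natOps.lt (appB natOps (nzB natOps (mapI v I).1).length (nzB natOps (mapI v I).1))
        (natOps.shl (nzB natOps (mapI v I).1).length (mapI v I).2) := by
    rw [h.lt, h.shl, map_appB h, mapI, ← map_nzB h, List.length_map]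
    rfl
  have e3 : O.lt (O.shl (nzB O I.1).length I.2)
        (O.add (appB O (nzB O I.1).length (nzB O I.1)) (cntB O (nzB O I.1))) =
      natOps.lt (natOps.shl (nzB natOps (mapI v I).1).length (mapI v I).2)
        (natOps.add (appB natOps (nzB natOps (mapI v I).1).length (nzB natOps (mapI v I).1))
          (cntB natOps (nzB natOps (mapI v I).1))) := by
    rw [h.lt, h.shl, h.add, map_appB h, map_cntB h, mapI, ← map_nzB h, List.length_map]
    rfl
  have e4 : sqB O (nzB O I.1) = sqB natOps (nzB natOps (mapI v I).1) := by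
    rw [map_sqB h, map_nzB h]; rfl
  have e5 : mapI v (nzB O I.1, I.2) = (nzB natOps (mapI v I).1, (mapI v I).2) := by
    simp only [mapI, map_nzB h]
  rw [selGt, selGt, gtB, gtB, ← e1, ← e2, ← e3, ← e4]
  split_ifs
  · exact map_yesB h
  · exact map_noB h
  · exact e5
  · exact map_noB h
  · exact map_yesB h

end

end Pool.Agent.MP_7070f9_lc
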