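import Pool.Agent.MP_7070f9_lc.Build
import Pool.Agent.MP_7070f9_lc.BitsPT

/-!
# The reduction is polynomial-time
-/

open Pool.Agent.H66

namespace Pool.Agent.MP_7070f9_lc

variable {γ : Type} [Enc γ]

theorem pt_fp {x y : γ → List Bool} (hx : PolyTime x) (hy : PolyTime y) :
    PolyTime fun c => fp (x c) (y c) :=
  ((PolyTime.const false).pair hx).pair hy

theorem pt_fn' {x y : γ → List Bool} (hx : PolyTime x) (hy : PolyTime y) :
    PolyTime fun c => fn' (x c) (y c) :=
  ((PolyTime.const true).pair hx).pair hy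

theorem pt_nat (n : ℕ) : PolyTime fun _ : γ => bitOps.nat n := PolyTime.const _

theorem pt_add {x y : γ → List Bool} (hx : PolyTime x) (hy : PolyTime y) :
    PolyTime fun c => bitOps.add (x c) (y c) := PT.addB hx hy

theorem pt_sub {x y : γ → List Bool} (hx : PolyTime x) (hy : PolyTime y) :
    PolyTime fun c => bitOps.sub (x c) (y c) := PT.subB hx hy

theorem pt_mul {x y : γ → List Bool} (hx : PolyTime x) (hy : PolyTime y) :
    PolyTime fun c => bitOps.mul (x c) (y c) := PT.mulB hx hy

theorem pt_lt {x y : γ → List Bool} (hx : PolyTime x) (hy : PolyTime y) :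
    PolyTime fun c => bitOps.lt (x c) (y c) := PT.ltB hx hy

theorem pt_orgB : PolyTime fun _ : γ => orgB bitOps := PolyTime.const _

theorem pt_pvB {g i : γ → List Bool} (hg : PolyTime g) (hi : PolyTime i) :
    PolyTime fun c => pvB bitOps (g c) (i c) :=
  (pt_fn' (pt_nat 1) hi).pair (pt_fn' hg hi)

theorem pt_vtB {N g i : γ → List Bool} (hN : PolyTime N) (hg : PolyTime g) (hi : PolyTime i) :
    PolyTime fun c => vtB bitOps (N c) (g c) (i c) :=
  (pt_pvB hg hi).pair ((pt_fn' (pt_nat 1) hi).pair (pt_fn' hN (pt_nat 1)))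

theorem pt_spB {g i : γ → List Bool} (hg : PolyTime g) (hi : PolyTime i) :
    PolyTime fun c => spB bitOps (g c) (i c) :=
  (pt_pvB hg hi).pair pt_orgB

theorem pt_wB {D : γ → List Bool} (hD : PolyTime D) : PolyTime fun c => wB bitOps (D c) :=
  (pt_fp (pt_nat 1) (pt_nat 7)).pair (pt_fp (pt_sub hD (pt_nat 7)) (pt_nat 7))

theorem pt_rB {y : γ → List Bool} (hy : PolyTime y) : PolyTime fun c => rB bitOps (y c) :=
  (pt_fp (pt_nat 8) (pt_nat 7)).pair (pt_fp hy (pt_nat 7))

theorem pt_consL {β : Type} [Enc β] {x : γ → β} {l : γ → List β} (hx : PolyTime x)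
    (hl : PolyTime l) : PolyTime fun c => x c :: l c :=
  PolyTime.cons.comp (hx.pair hl)

theorem enc_bits_le (x : List Bool) : (enc x).length ≤ 4 * x.length + 1 := t2_bits x

/-! ### Sums -/

theorem foldAdd_len {β : Type} (g : β → List Bool) (B : ℕ) (l : List β) (s : List Bool)
    (h : ∀ x ∈ l, (g x).length ≤ B) :
    (l.foldl (fun s x => addB s (g x)) s).length ≤ s.length + l.length * (B + 1) := by
  induction l generalizing s with
  | nil => simp
  | cons b l ih =>
    rw [List.foldl_cons]
    refine (ih _ fun x hx => h x (List.mem_cons_of_mem _ hx)).trans ?_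
    have h1 := h b List.mem_cons_self
    rw [t2_addB_len, List.length_cons]
    have : (l.length + 1) * (B + 1) = l.length * (B + 1) + (B + 1) := by ring
    omega

theorem pt_foldAdd {β : Type} [Enc β] [Inhabited β] {l : γ → List β} {g : γ → β → List Bool}
    {ini : γ → List Bool} (hl : PolyTime l) (hg : PolyTime fun p : γ × β => g p.1 p.2)
    (hi : PolyTime ini) : PolyTime fun c => (l c).foldl (fun s x => addB s (g c x)) (ini c) := by
  obtain ⟨sl, hsl, hsl'⟩ := hl.size
  obtain ⟨sg, hsg, hsg'⟩ := hg.size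
  obtain ⟨si, hsi, hsi'⟩ := hi.size
  have hf : PolyTime fun p : γ × (List Bool × β) => addB p.2.1 (g p.1 p.2.2) := by
    apply PT.addB (PolyTime.fst.comp PolyTime.snd)
    exact hg.comp (PolyTime.fst.pair (PolyTime.snd.comp PolyTime.snd))
  exact PolyTime.foldl (f := fun c s x => addB s (g c x)) hl hi hf
    (fun n => 4 * (si n + sl n * (sg (1 + n + sl n) + 1)) + 1)
    (((PB.const 4).mul (hsi.add (hsl.mul ((hsg.comp (((PB.const 1).add PB.id).add hsl)).add
      (PB.const 1))))).add (PB.const 1)) (fun c i => by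
      have h1 := enc_bits_le (((l c).take i).foldl (fun s x => addB s (g c x)) (ini c))
      have h2 := foldAdd_len (g c) (sg (1 + (enc c).length + sl (enc c).length))
        ((l c).take i) (ini c) (fun x hx => by
          have e1 := hsg' (c, x)
          have e2 := enc_mem_le (List.mem_of_mem_take hx)
          have e3 := hsl' c
          have e4 := length_le_enc (g c x)
          have e5 : (enc (c, x)).length ≤ 1 + (enc c).length + sl (enc c).length := by
            rw [enc_pair]
            simp only [List.length_cons, List.length_append]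
            omega
          have e6 := hsg.1 e5
          simp only at e1 e6
          omega)
      have h3 := hsi' c
      have h4 := length_le_enc (ini c)
      have h5 := length_le_enc (l c)
      have h6 := hsl' c
      have h7 : ((l c).take i).length ≤ (l c).length := by
        rw [List.length_take]; exact min_le_right _ _
      have h8 : ((l c).take i).length * (sg (1 + (enc c).length + sl (enc c).length) + 1) ≤
        sl (enc c).length * (sg (1 + (enc c).length + sl (enc c).length) + 1) :=
        Nat.mul_le_mul_right _ (by omega)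
      omega)

theorem pt_xB {a : γ → List (List Bool)} {t : γ → List Bool} (ha : PolyTime a) (ht : PolyTime t) :
    PolyTime fun c => xB bitOps (a c) (t c) := by
  apply pt_sub _ (pt_nat 49)
  exact pt_foldAdd (g := fun _ x => bitOps.add (bitOps.mul (bitOps.nat 216) x) (bitOps.nat 36)) ha
    (pt_add (pt_mul (pt_nat 216) PolyTime.snd) (pt_nat 36)) (pt_mul (pt_nat 144) ht)

theorem pt_incrB {a : γ → List (List Bool)} {X : γ → List Bool} (ha : PolyTime a)
    (hX : PolyTime X) : PolyTime fun c => incrB bitOps (a c) (X c) := by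
  apply pt_consL ((pt_mul (pt_nat 16) hX).pair hX)
  apply pt_consL (hX.pair hX)
  refine PolyTime.flatMap (f := fun _ x => [(bitOps.nat 144, bitOps.nat 36),
    (bitOps.nat 72, bitOps.mul (bitOps.nat 72) x)]) ha ?_
  exact pt_consL ((pt_nat 144).pair (pt_nat 36)) (pt_consL
    ((pt_nat 72).pair (pt_mul (pt_nat 72) PolyTime.snd)) (PolyTime.const []))

theorem pt_nB {E : γ → List (List Bool × List Bool)} (hE : PolyTime E) :
    PolyTime fun c => nB bitOps (E c) := by
  have h := pt_foldAdd (g := fun (_ : γ) (p : List Bool × List Bool) => p.1) hE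
    (PolyTime.fst.comp PolyTime.snd) (pt_nat 1)
  exact pt_add (pt_nat 21) (pt_mul (pt_nat 2) h)

/-! ### The path -/

theorem pt_headB {N : γ → List Bool} (hN : PolyTime N) : PolyTime fun c => headB bitOps (N c) := by
  have h1 : PolyTime fun _ : γ => bitOps.nat 1 := pt_nat 1
  refine pt_consL (((pt_fn' (pt_nat 2) h1).pair (pt_fn' h1 h1)).pair (pt_pvB h1 h1)) ?_
  exact pt_consL (pt_vtB hN h1 h1) (pt_consL (pt_spB h1 h1) (PolyTime.const []))

theorem pt_stepB {N : γ → List Bool}
    {s : γ → List Bool × (List Bool × List (SgB (List Bool)))} {p : γ → List Bool × List Bool}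
    (hN : PolyTime N) (hs : PolyTime s) (hp : PolyTime p) :
    PolyTime fun c => stepB bitOps (N c) (s c) (p c) := by
  have g := PolyTime.fst.comp hs
  have i := PolyTime.fst.comp (PolyTime.snd.comp hs)
  have acc := PolyTime.snd.comp (PolyTime.snd.comp hs)
  have g' := pt_add g (PolyTime.fst.comp hp)
  have i' := pt_add i (PolyTime.snd.comp hp)
  refine g'.pair (i'.pair (PolyTime.append acc ?_))
  exact pt_consL ((pt_pvB g i).pair (pt_pvB g' i')) (pt_consL (pt_vtB hN g' i')
    (pt_consL (pt_spB g' i') (PolyTime.const [])))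

theorem enc_fr_le (q : FrB (List Bool)) (M : ℕ) (h1 : q.1.2.length ≤ M) (h2 : q.2.length ≤ M) :
    (enc q).length ≤ 8 * M + 7 := by
  have e1 := enc_bits_le q.1.2
  have e2 := enc_bits_le q.2
  have e3 := t2_enc_bool q.1.1
  rw [enc_prod, enc_prod]
  simp only [List.length_cons, List.length_append]
  omega

/-- All numbers of the segment have at most `M` digits. -/
def SgLe (M : ℕ) (q : SgB (List Bool)) : Prop :=
  ((q.1.1.1.2.length ≤ M ∧ q.1.1.2.length ≤ M) ∧ (q.1.2.1.2.length ≤ M ∧ q.1.2.2.length ≤ M)) ∧
  ((q.2.1.1.2.length ≤ M ∧ q.2.1.2.length ≤ M) ∧ (q.2.2.1.2.length ≤ M ∧ q.2.2.2.length ≤ M))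

theorem enc_sg_le (q : SgB (List Bool)) (M : ℕ) (h : SgLe M q) : (enc q).length ≤ 32 * M + 31 := by
  obtain ⟨⟨⟨h1, h2⟩, h3, h4⟩, ⟨h5, h6⟩, h7, h8⟩ := h
  have e1 := enc_fr_le q.1.1 M h1 h2
  have e2 := enc_fr_le q.1.2 M h3 h4
  have e3 := enc_fr_le q.2.1 M h5 h6
  have e4 := enc_fr_le q.2.2 M h7 h8
  rw [enc_prod, enc_prod q.1, enc_prod q.2]
  simp only [List.length_cons, List.length_append]
  omega

theorem nat0_len : (bitOps.nat 0).length = 0 := by simp [bitOps]
theorem nat1_len : (bitOps.nat 1).length = 1 := by simp [bitOps]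

theorem path_len (N : List Bool) (B M : ℕ) (hN : N.length ≤ M)
    (l : List (List Bool × List Bool)) (s : List Bool × (List Bool × List (SgB (List Bool))))
    (h : ∀ x ∈ l, x.1.length ≤ B ∧ x.2.length ≤ B)
    (h1 : s.1.length + l.length * (B + 1) ≤ M) (h2 : s.2.1.length + l.length * (B + 1) ≤ M) :
    (l.foldl (stepB bitOps N) s).1.length ≤ M ∧ (l.foldl (stepB bitOps N) s).2.1.length ≤ M ∧
    (enc (l.foldl (stepB bitOps N) s).2.2).length ≤
      (enc s.2.2).length + l.length * (3 * (32 * M + 32)) := by
  induction l generalizing s with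
  | nil => simp only [List.foldl_nil, List.length_nil, zero_mul, add_zero] at *; exact ⟨h1, h2, le_rfl⟩
  | cons p l ih =>
    have hp := h p List.mem_cons_self
    rw [List.foldl_cons]
    rw [List.length_cons] at h1 h2
    have e0 : (l.length + 1) * (B + 1) = l.length * (B + 1) + (B + 1) := by ring
    rw [e0] at h1 h2
    have g1 : (stepB bitOps N s p).1.length = s.1.length + p.1.length + 1 := t2_addB_len _ _
    have g2 : (stepB bitOps N s p).2.1.length = s.2.1.length + p.2.length + 1 := t2_addB_len _ _
    obtain ⟨k1, k2, k3⟩ := ih (stepB bitOps N s p) (fun x hx => h x (List.mem_cons_of_mem _ hx))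
      (by rw [g1]; omega) (by rw [g2]; omega)
    refine ⟨k1, k2, k3.trans ?_⟩
    have n0 := nat0_len
    have n1 := nat1_len
    have a1 : (bitOps.add s.1 p.1).length ≤ M := by
      have : (bitOps.add s.1 p.1).length = s.1.length + p.1.length + 1 := t2_addB_len _ _
      omega
    have a2 : (bitOps.add s.2.1 p.2).length ≤ M := by
      have : (bitOps.add s.2.1 p.2).length = s.2.1.length + p.2.length + 1 := t2_addB_len _ _
      omega
    have a3 : s.1.length ≤ M := by omega
    have a4 : s.2.1.length ≤ M := by omega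
    have a5 : (bitOps.nat 0).length ≤ M := by omega
    have a6 : (bitOps.nat 1).length ≤ M := by omega
    have s1 := enc_sg_le (pvB bitOps s.1 s.2.1, pvB bitOps (bitOps.add s.1 p.1)
      (bitOps.add s.2.1 p.2)) M ⟨⟨⟨a6, a4⟩, a3, a4⟩, ⟨a6, a2⟩, a1, a2⟩
    have s2 := enc_sg_le (vtB bitOps N (bitOps.add s.1 p.1) (bitOps.add s.2.1 p.2)) M
      ⟨⟨⟨a6, a2⟩, a1, a2⟩, ⟨a6, a2⟩, hN, a6⟩
    have s3 := enc_sg_le (spB bitOps (bitOps.add s.1 p.1) (bitOps.add s.2.1 p.2)) M
      ⟨⟨⟨a6, a2⟩, a1, a2⟩, ⟨a5, a6⟩, a5, a6⟩
    have e1 : (enc (stepB bitOps N s p).2.2).length ≤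
        (enc s.2.2).length + 3 * (32 * M + 32) := by
      rw [stepB]
      have e2 := enc_append_length s.2.2 [(pvB bitOps s.1 s.2.1, pvB bitOps (bitOps.add s.1 p.1)
        (bitOps.add s.2.1 p.2)), vtB bitOps N (bitOps.add s.1 p.1) (bitOps.add s.2.1 p.2),
        spB bitOps (bitOps.add s.1 p.1) (bitOps.add s.2.1 p.2)]
      simp only [enc_cons, enc_nil, List.length_cons, List.length_append, List.length_nil] at e2 ⊢
      omega
    rw [List.length_cons]
    have e3 : (l.length + 1) * (3 * (32 * M + 32)) =
      l.length * (3 * (32 * M + 32)) + 3 * (32 * M + 32) := by ring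
    omega

theorem pt_path {E : γ → List (List Bool × List Bool)} {N : γ → List Bool} (hE : PolyTime E)
    (hN : PolyTime N) : PolyTime fun c => (E c).foldl (stepB bitOps (N c))
      (bitOps.nat 1, (bitOps.nat 1, headB bitOps (N c))) := by
  have hi : PolyTime fun c => (bitOps.nat 1, (bitOps.nat 1, headB bitOps (N c))) :=
    (pt_nat 1).pair ((pt_nat 1).pair (pt_headB hN))
  have hh := pt_headB hN
  obtain ⟨sE, hsE, hsE'⟩ := hE.size
  obtain ⟨sN, hsN, hsN'⟩ := hN.size
  obtain ⟨sh, hsh, hsh'⟩ := hh.size
  have hf : PolyTime fun p : γ × ((List Bool × (List Bool × List (SgB (List Bool)))) ×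
      (List Bool × List Bool)) => stepB bitOps (N p.1) p.2.1 p.2.2 :=
    pt_stepB (hN.comp PolyTime.fst) (PolyTime.fst.comp PolyTime.snd)
      (PolyTime.snd.comp PolyTime.snd)
  have hM : PB fun n => 1 + sN n + sE n * (sE n + 1) :=
    (((PB.const 1).add hsN).add (hsE.mul (hsE.add (PB.const 1))))
  exact PolyTime.foldl (f := fun c s p => stepB bitOps (N c) s p) hE hi hf
    (fun n => 4 + 8 * (1 + sN n + sE n * (sE n + 1)) + (sh n +
      sE n * (3 * (32 * (1 + sN n + sE n * (sE n + 1)) + 32))))
    (((PB.const 4).add ((PB.const 8).mul hM)).add (hsh.add (hsE.mul ((PB.const 3).mul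
      (((PB.const 32).mul hM).add (PB.const 32)))))) (fun c i => by
      have e1 := hsE' c
      have e2 := hsN' c
      have e3 := hsh' c
      have e4 := length_le_enc (E c)
      have e5 := length_le_enc (N c)
      have n1 := nat1_len
      have e6 : ((E c).take i).length ≤ (E c).length := by
        rw [List.length_take]; exact min_le_right _ _
      set n := (enc c).length with hn
      have e7 : ((E c).take i).length * (sE n + 1) ≤ sE n * (sE n + 1) :=
        Nat.mul_le_mul_right _ (by omega)
      obtain ⟨k1, k2, k3⟩ := path_len (N c) (sE n) (1 + sN n + sE n * (sE n + 1))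
        (by omega) ((E c).take i)
        (bitOps.nat 1, (bitOps.nat 1, headB bitOps (N c))) (fun x hx => by
          have f1 := enc_mem_le (List.mem_of_mem_take hx)
          rw [enc_prod] at f1
          simp only [List.length_cons, List.length_append] at f1
          have f2 := length_le_enc x.1
          have f3 := length_le_enc x.2
          constructor <;> omega) (by simp only; omega) (by simp only; omega)
      have k4 := enc_bits_le (((E c).take i).foldl (stepB bitOps (N c))
        (bitOps.nat 1, (bitOps.nat 1, headB bitOps (N c)))).1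
      have k5 := enc_bits_le (((E c).take i).foldl (stepB bitOps (N c))
        (bitOps.nat 1, (bitOps.nat 1, headB bitOps (N c)))).2.1
      have k6 : ((E c).take i).length * (3 * (32 * (1 + sN n + sE n * (sE n + 1)) + 32)) ≤
        sE n * (3 * (32 * (1 + sN n + sE n * (sE n + 1)) + 32)) :=
        Nat.mul_le_mul_right _ (by omega)
      have res : (enc (((E c).take i).foldl (stepB bitOps (N c))
          (bitOps.nat 1, (bitOps.nat 1, headB bitOps (N c))))).length ≤
          4 + 8 * (1 + sN n + sE n * (sE n + 1)) + (sh n +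
            sE n * (3 * (32 * (1 + sN n + sE n * (sE n + 1)) + 32))) := by
        rw [enc_prod, enc_prod (Prod.snd _)]
        simp only [List.length_cons, List.length_append]
        simp only at k3 e3
        omega
      exact res)

theorem pt_tailB {N g i D : γ → List Bool} (hN : PolyTime N) (hg : PolyTime g) (hi : PolyTime i)
    (hD : PolyTime D) : PolyTime fun c => tailB bitOps (N c) (g c) (i c) (D c) := by
  have o : PolyTime fun _ : γ => orgB bitOps := pt_orgB
  have w := pt_wB hD
  have d8 := pt_mul (pt_nat 8) hD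
  exact pt_consL ((pt_pvB hg hi).pair w) (pt_consL (o.pair w)
    (pt_consL (o.pair (pt_rB (pt_mul (pt_nat 8) (pt_add hD (pt_nat 18)))))
    (pt_consL (o.pair ((pt_fp (pt_nat 0) (pt_nat 1)).pair (pt_fp hN (pt_nat 1))))
    (pt_consL (w.pair (pt_rB (pt_sub d8 (pt_nat 21))))
    (pt_consL (w.pair (pt_rB (pt_sub d8 (pt_nat 7))))
    (pt_consL (w.pair (pt_rB (pt_add d8 (pt_nat 42)))) (PolyTime.const [])))))))

theorem pt_patOf {E : γ → List (List Bool × List Bool)} {N : γ → List Bool} (hE : PolyTime E)
    (hN : PolyTime N) : PolyTime fun c => patOf bitOps (E c) (N c) := by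
  have h := pt_path hE hN
  have g := PolyTime.fst.comp h
  have i := PolyTime.fst.comp (PolyTime.snd.comp h)
  have acc := PolyTime.snd.comp (PolyTime.snd.comp h)
  exact ((pt_fn' (pt_nat 2) (pt_nat 1)).pair (pt_fp (pt_nat 8) (pt_nat 7))).pair
    (((pt_fn' hN (pt_nat 1)).pair (pt_fp hN (pt_nat 1))).pair
      (PolyTime.append acc (pt_tailB hN g i (pt_sub g i))))

theorem pt_patB {I : γ → List (List Bool) × List Bool} (hI : PolyTime I) :
    PolyTime fun c => patB bitOps (I c) := by
  have hE := pt_incrB (PolyTime.fst.comp hI)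
    (pt_xB (PolyTime.fst.comp hI) (PolyTime.snd.comp hI))
  exact pt_patOf hE (pt_nB hE)

/-! ### The selection -/

theorem pt_nzB {a : γ → List (List Bool)} (ha : PolyTime a) :
    PolyTime fun c => nzB bitOps (a c) :=
  PolyTime.filter (f := fun _ x => bitOps.lt (bitOps.nat 0) x) ha (pt_lt (pt_nat 0) PolyTime.snd)

theorem pt_sqB {a : γ → List (List Bool)} (ha : PolyTime a) :
    PolyTime fun c => sqB bitOps (a c) := by
  have hsq : PolyTime fun p : γ × (Bool × List Bool) =>
      p.2.1 && !(bitOps.lt (bitOps.mul (bitOps.sqrt p.2.2) (bitOps.sqrt p.2.2)) p.2.2) := by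
    have hx : PolyTime fun p : γ × (Bool × List Bool) => p.2.2 := PolyTime.snd.comp PolyTime.snd
    have hr : PolyTime fun p : γ × (Bool × List Bool) => bitOps.sqrt p.2.2 := PT.sqrtB hx
    exact (PolyTime.fst.comp PolyTime.snd).and (pt_lt (pt_mul hr hr) hx).not
  exact PolyTime.foldl (l := a) (ini := fun _ => true)
    (f := fun _ s x => s && !(bitOps.lt (bitOps.mul (bitOps.sqrt x) (bitOps.sqrt x)) x)) ha
    (PolyTime.const true) hsq (fun _ => 3) (PB.const 3) (fun c i => t2_enc_bool _)

theorem pt_appB {n : γ → ℕ} {a : γ → List (List Bool)} (hn : PolyTime n) (ha : PolyTime a) :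
    PolyTime fun c => appB bitOps (n c) (a c) := by
  refine pt_foldAdd (g := fun c x => bitOps.sqrt (bitOps.shl (n c + n c) x)) ha ?_ (pt_nat 0)
  exact PT.sqrtB (PT.shlB ((hn.comp PolyTime.fst).add (hn.comp PolyTime.fst)) PolyTime.snd)

theorem pt_cntB {a : γ → List (List Bool)} (ha : PolyTime a) :
    PolyTime fun c => cntB bitOps (a c) :=
  pt_foldAdd (g := fun _ _ => bitOps.nat 1) ha (pt_nat 1) (pt_nat 0)

theorem pt_selLe : PolyTime (selLe bitOps) := by
  have ha : PolyTime fun I : List (List Bool) × List Bool => nzB bitOps I.1 := pt_nzB PolyTime.fst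
  have hn : PolyTime fun I : List (List Bool) × List Bool => (nzB bitOps I.1).length := ha.length
  have hS := pt_appB hn ha
  have hT : PolyTime fun I : List (List Bool) × List Bool =>
    bitOps.shl (nzB bitOps I.1).length I.2 := PT.shlB hn PolyTime.snd
  have hy : PolyTime fun _ : List (List Bool) × List Bool => yesB bitOps := PolyTime.const _
  have hno : PolyTime fun _ : List (List Bool) × List Bool => noB bitOps := PolyTime.const _
  have h1 := (pt_sqB ha).ite ((pt_lt hT hS).ite hno hy) ((pt_lt hS hT).ite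
    ((pt_lt hT (pt_add hS (pt_cntB ha))).ite (ha.pair (pt_sub PolyTime.snd (pt_nat 1))) hy) hno)
  exact h1.of_eq fun I => rfl

theorem pt_selGt : PolyTime (selGt bitOps) := by
  have ha : PolyTime fun I : List (List Bool) × List Bool => nzB bitOps I.1 := pt_nzB PolyTime.fst
  have hn : PolyTime fun I : List (List Bool) × List Bool => (nzB bitOps I.1).length := ha.length
  have hS := pt_appB hn ha
  have hT : PolyTime fun I : List (List Bool) × List Bool =>
    bitOps.shl (nzB bitOps I.1).length I.2 := PT.shlB hn PolyTime.snd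
  have hy : PolyTime fun _ : List (List Bool) × List Bool => yesB bitOps := PolyTime.const _
  have hno : PolyTime fun _ : List (List Bool) × List Bool => noB bitOps := PolyTime.const _
  have h1 := (pt_sqB ha).ite ((pt_lt hT hS).ite hy hno) ((pt_lt hS hT).ite
    ((pt_lt hT (pt_add hS (pt_cntB ha))).ite (ha.pair PolyTime.snd) hno) hy)
  exact h1.of_eq fun I => rfl

/-! ### Canonical digits -/

/-- Removing leading zeros. -/
def canF (q : FrB (List Bool)) : FrB (List Bool) := ((q.1.1, trimB q.1.2), trimB q.2)
/-- Removing leading zeros. -/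
def canP (q : PtB (List Bool)) : PtB (List Bool) := (canF q.1, canF q.2)
/-- Removing leading zeros. -/
def canS (q : SgB (List Bool)) : SgB (List Bool) := (canP q.1, canP q.2)
/-- Removing leading zeros. -/
def canPat (q : PatB (List Bool)) : PatB (List Bool) :=
  ((canF q.1.1, canF q.1.2), ((canF q.2.1.1, canF q.2.1.2), q.2.2.map canS))

theorem pt_canF {q : γ → FrB (List Bool)} (hq : PolyTime q) : PolyTime fun c => canF (q c) :=
  ((PolyTime.fst.comp (PolyTime.fst.comp hq)).pair
    (PT.trimB (PolyTime.snd.comp (PolyTime.fst.comp hq)))).pair (PT.trimB (PolyTime.snd.comp hq))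

theorem pt_canP {q : γ → PtB (List Bool)} (hq : PolyTime q) : PolyTime fun c => canP (q c) :=
  (pt_canF (PolyTime.fst.comp hq)).pair (pt_canF (PolyTime.snd.comp hq))

theorem pt_canS {q : γ → SgB (List Bool)} (hq : PolyTime q) : PolyTime fun c => canS (q c) :=
  (pt_canP (PolyTime.fst.comp hq)).pair (pt_canP (PolyTime.snd.comp hq))

theorem pt_canPat {q : γ → PatB (List Bool)} (hq : PolyTime q) :
    PolyTime fun c => canPat (q c) := by
  have h1 := PolyTime.fst.comp hq
  have h2 := PolyTime.fst.comp (PolyTime.snd.comp hq)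
  have h3 := PolyTime.snd.comp (PolyTime.snd.comp hq)
  exact ((pt_canF (PolyTime.fst.comp h1)).pair (pt_canF (PolyTime.snd.comp h1))).pair
    (((pt_canF (PolyTime.fst.comp h2)).pair (pt_canF (PolyTime.snd.comp h2))).pair
      (PolyTime.map (f := fun _ x => canS x) h3 (pt_canS PolyTime.snd)))

/-- The two programs of the reduction. -/
def progLe (I : List (List Bool) × List Bool) : PatB (List Bool) :=
  canPat (patB bitOps (selLe bitOps I))
/-- The two programs of the reduction. -/
def progGt (I : List (List Bool) × List Bool) : PatB (List Bool) :=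
  canPat (patB bitOps (selGt bitOps I))

theorem pt_progLe : PolyTime progLe := pt_canPat (pt_patB pt_selLe)

theorem pt_progGt : PolyTime progGt := pt_canPat (pt_patB pt_selGt)

end Pool.Agent.MP_7070f9_lc
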