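import Pool.Agent.MP_7070f9_lc.Disj

/-!
# The cells
-/

open Set Filter Topology

namespace Pool.Agent.MP_7070f9_lc

namespace Ch
variable (C : Ch)

/-- The affine functions which describe a cell. -/
noncomputable def fn : Cell → List Aff
  | .F k => [if k = 0 then ⟨-1, 0, 0⟩ else ⟨C.g k, -1, 0⟩,
      if k = C.m then ⟨C.D - 7, -1, 0⟩ else ⟨-C.g (k + 1), 1, 0⟩, ⟨-C.s k, 1, C.r k⟩]
  | .G k => [if k = 0 then ⟨0, 0, 1⟩ else ⟨1, 0, -C.x k⟩,
      if k = C.m then ⟨C.D - 2, -1, -(5 / 7)⟩ else ⟨-1, 0, C.x (k + 1)⟩, ⟨C.s k, -1, -C.r k⟩]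
  | .O1 => [⟨-(C.D - 7), 1, 0⟩, ⟨C.D + 18, -1, 0⟩, ⟨-(C.D + 7), 1, 2⟩]
  | .O2 => [⟨1, 0, 0⟩, ⟨-(C.D + 18), 1, 0⟩]
  | .Q1 => [⟨-(C.D - 2), 1, 5 / 7⟩, ⟨C.D, -1, -1⟩]
  | .Q2 => [⟨-C.D, 1, 1⟩, ⟨C.D + 7, -1, -2⟩]

/-- The affine functions which describe the paper. -/
noncomputable def rect : List Aff := [⟨1, 0, 2⟩, ⟨-1, 0, 8 / 7⟩, ⟨0, 1, C.N⟩, ⟨0, -1, C.N⟩]

/-- A point of an open cell. -/
def CO (c : Cell) (x y : ℝ) : Prop :=
  match c with
  | .F k => (k = 0 ∧ x < 0 ∨ 1 ≤ k ∧ y < C.g k * x) ∧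
      (k = C.m ∧ y < (C.D - 7) * x ∨ k ≠ C.m ∧ C.g (k + 1) * x < y) ∧ C.s k * x - C.r k < y
  | .G k => (k = 0 ∨ 1 ≤ k ∧ C.x k < x) ∧
      (k = C.m ∧ y < (C.D - 2) * x - 5 / 7 ∨ k ≠ C.m ∧ x < C.x (k + 1)) ∧ y < C.s k * x - C.r k
  | .O1 => (C.D - 7) * x < y ∧ y < (C.D + 18) * x ∧ (C.D + 7) * x - 2 < y
  | .O2 => 0 < x ∧ (C.D + 18) * x < y
  | .Q1 => (C.D - 2) * x - 5 / 7 < y ∧ y < C.D * x - 1
  | .Q2 => C.D * x - 1 < y ∧ y < (C.D + 7) * x - 2

/-- A point of a closed cell. -/
def CC (c : Cell) (x y : ℝ) : Prop :=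
  match c with
  | .F k => (k = 0 ∧ x ≤ 0 ∨ 1 ≤ k ∧ y ≤ C.g k * x) ∧
      (k = C.m ∧ y ≤ (C.D - 7) * x ∨ k ≠ C.m ∧ C.g (k + 1) * x ≤ y) ∧ C.s k * x - C.r k ≤ y
  | .G k => (k = 0 ∨ 1 ≤ k ∧ C.x k ≤ x) ∧
      (k = C.m ∧ y ≤ (C.D - 2) * x - 5 / 7 ∨ k ≠ C.m ∧ x ≤ C.x (k + 1)) ∧ y ≤ C.s k * x - C.r k
  | .O1 => (C.D - 7) * x ≤ y ∧ y ≤ (C.D + 18) * x ∧ (C.D + 7) * x - 2 ≤ y
  | .O2 => 0 ≤ x ∧ (C.D + 18) * x ≤ y
  | .Q1 => (C.D - 2) * x - 5 / 7 ≤ y ∧ y ≤ C.D * x - 1
  | .Q2 => C.D * x - 1 ≤ y ∧ y ≤ (C.D + 7) * x - 2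

theorem mem_opn_iff (c : Cell) (z : Plane) : z ∈ opn (C.fn c) ↔ C.CO c (z 0) (z 1) := by
  cases c with
  | F k =>
    simp only [opn, fn, CO, List.mem_cons, List.not_mem_nil, or_false, forall_eq_or_imp,
      forall_eq, mem_ofPred_eq, Aff.ev]
    refine and_congr ?_ (and_congr ?_ ?_)
    · by_cases h : k = 0
      · simp [h]
      · rw [if_neg h]
        constructor
        · intro h1
          exact Or.inr ⟨by omega, by simp only at h1; linarith⟩
        · rintro (h1 | h1)
          · exact absurd h1.1 h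
          · simp only; linarith [h1.2]
    · by_cases h : k = C.m
      · rw [if_pos h]
        constructor
        · intro h1
          exact Or.inl ⟨h, by simp only at h1; linarith⟩
        · rintro (h1 | h1)
          · simp only; linarith [h1.2]
          · exact absurd h h1.1
      · rw [if_neg h]
        constructor
        · intro h1
          exact Or.inr ⟨h, by simp only at h1; linarith⟩
        · rintro (h1 | h1)
          · exact absurd h1.1 h
          · simp only; linarith [h1.2]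
    · constructor <;> intro h <;> linarith
  | G k =>
    simp only [opn, fn, CO, List.mem_cons, List.not_mem_nil, or_false, forall_eq_or_imp,
      forall_eq, mem_ofPred_eq, Aff.ev]
    refine and_congr ?_ (and_congr ?_ ?_)
    · by_cases h : k = 0
      · simp [h]
      · rw [if_neg h]
        constructor
        · intro h1
          exact Or.inr ⟨by omega, by simp only at h1; linarith⟩
        · rintro (h1 | h1)
          · exact absurd h1 h
          · simp only; linarith [h1.2]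
    · by_cases h : k = C.m
      · rw [if_pos h]
        constructor
        · intro h1
          exact Or.inl ⟨h, by simp only at h1; linarith⟩
        · rintro (h1 | h1)
          · simp only; linarith [h1.2]
          · exact absurd h h1.1
      · rw [if_neg h]
        constructor
        · intro h1
          exact Or.inr ⟨h, by simp only at h1; linarith⟩
        · rintro (h1 | h1)
          · exact absurd h1.1 h
          · simp only; linarith [h1.2]
    · constructor <;> intro h <;> linarith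
  | O1 =>
    simp only [opn, fn, CO, List.mem_cons, List.not_mem_nil, or_false, forall_eq_or_imp,
      forall_eq, mem_ofPred_eq, Aff.ev]
    constructor <;> rintro ⟨h1, h2, h3⟩ <;> refine ⟨?_, ?_, ?_⟩ <;> linarith
  | O2 =>
    simp only [opn, fn, CO, List.mem_cons, List.not_mem_nil, or_false, forall_eq_or_imp,
      forall_eq, mem_ofPred_eq, Aff.ev]
    constructor <;> rintro ⟨h1, h2⟩ <;> refine ⟨?_, ?_⟩ <;> linarith
  | Q1 =>
    simp only [opn, fn, CO, List.mem_cons, List.not_mem_nil, or_false, forall_eq_or_imp,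
      forall_eq, mem_ofPred_eq, Aff.ev]
    constructor <;> rintro ⟨h1, h2⟩ <;> refine ⟨?_, ?_⟩ <;> linarith
  | Q2 =>
    simp only [opn, fn, CO, List.mem_cons, List.not_mem_nil, or_false, forall_eq_or_imp,
      forall_eq, mem_ofPred_eq, Aff.ev]
    constructor <;> rintro ⟨h1, h2⟩ <;> refine ⟨?_, ?_⟩ <;> linarith

theorem mem_cls_iff (c : Cell) (z : Plane) : z ∈ cls (C.fn c) ↔ C.CC c (z 0) (z 1) := by
  cases c with
  | F k =>
    simp only [cls, fn, CC, List.mem_cons, List.not_mem_nil, or_false, forall_eq_or_imp,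
      forall_eq, mem_ofPred_eq, Aff.ev]
    refine and_congr ?_ (and_congr ?_ ?_)
    · by_cases h : k = 0
      · simp [h]
      · rw [if_neg h]
        constructor
        · intro h1
          exact Or.inr ⟨by omega, by simp only at h1; linarith⟩
        · rintro (h1 | h1)
          · exact absurd h1.1 h
          · simp only; linarith [h1.2]
    · by_cases h : k = C.m
      · rw [if_pos h]
        constructor
        · intro h1
          exact Or.inl ⟨h, by simp only at h1; linarith⟩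
        · rintro (h1 | h1)
          · simp only; linarith [h1.2]
          · exact absurd h h1.1
      · rw [if_neg h]
        constructor
        · intro h1
          exact Or.inr ⟨h, by simp only at h1; linarith⟩
        · rintro (h1 | h1)
          · exact absurd h1.1 h
          · simp only; linarith [h1.2]
    · constructor <;> intro h <;> linarith
  | G k =>
    simp only [cls, fn, CC, List.mem_cons, List.not_mem_nil, or_false, forall_eq_or_imp,
      forall_eq, mem_ofPred_eq, Aff.ev]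
    refine and_congr ?_ (and_congr ?_ ?_)
    · by_cases h : k = 0
      · simp [h]
      · rw [if_neg h]
        constructor
        · intro h1
          exact Or.inr ⟨by omega, by simp only at h1; linarith⟩
        · rintro (h1 | h1)
          · exact absurd h1 h
          · simp only; linarith [h1.2]
    · by_cases h : k = C.m
      · rw [if_pos h]
        constructor
        · intro h1
          exact Or.inl ⟨h, by simp only at h1; linarith⟩
        · rintro (h1 | h1)
          · simp only; linarith [h1.2]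
          · exact absurd h h1.1
      · rw [if_neg h]
        constructor
        · intro h1
          exact Or.inr ⟨h, by simp only at h1; linarith⟩
        · rintro (h1 | h1)
          · exact absurd h1.1 h
          · simp only; linarith [h1.2]
    · constructor <;> intro h <;> linarith
  | O1 =>
    simp only [cls, fn, CC, List.mem_cons, List.not_mem_nil, or_false, forall_eq_or_imp,
      forall_eq, mem_ofPred_eq, Aff.ev]
    constructor <;> rintro ⟨h1, h2, h3⟩ <;> refine ⟨?_, ?_, ?_⟩ <;> linarith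
  | O2 =>
    simp only [cls, fn, CC, List.mem_cons, List.not_mem_nil, or_false, forall_eq_or_imp,
      forall_eq, mem_ofPred_eq, Aff.ev]
    constructor <;> rintro ⟨h1, h2⟩ <;> refine ⟨?_, ?_⟩ <;> linarith
  | Q1 =>
    simp only [cls, fn, CC, List.mem_cons, List.not_mem_nil, or_false, forall_eq_or_imp,
      forall_eq, mem_ofPred_eq, Aff.ev]
    constructor <;> rintro ⟨h1, h2⟩ <;> refine ⟨?_, ?_⟩ <;> linarith
  | Q2 =>
    simp only [cls, fn, CC, List.mem_cons, List.not_mem_nil, or_false, forall_eq_or_imp,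
      forall_eq, mem_ofPred_eq, Aff.ev]
    constructor <;> rintro ⟨h1, h2⟩ <;> refine ⟨?_, ?_⟩ <;> linarith

theorem mem_rect_opn (z : Plane) : z ∈ opn C.rect ↔
    (-2 < z 0 ∧ z 0 < 8 / 7) ∧ (-C.N < z 1 ∧ z 1 < C.N) := by
  simp only [opn, rect, List.mem_cons, List.not_mem_nil, or_false, forall_eq_or_imp,
    forall_eq, mem_ofPred_eq, Aff.ev]
  constructor
  · rintro ⟨h1, h2, h3, h4⟩
    refine ⟨⟨?_, ?_⟩, ?_, ?_⟩ <;> linarith
  · rintro ⟨⟨h1, h2⟩, h3, h4⟩
    refine ⟨?_, ?_, ?_, ?_⟩ <;> linarith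

theorem mem_rect_cls (z : Plane) : z ∈ cls C.rect ↔
    (-2 ≤ z 0 ∧ z 0 ≤ 8 / 7) ∧ (-C.N ≤ z 1 ∧ z 1 ≤ C.N) := by
  simp only [cls, rect, List.mem_cons, List.not_mem_nil, or_false, forall_eq_or_imp,
    forall_eq, mem_ofPred_eq, Aff.ev]
  constructor
  · rintro ⟨h1, h2, h3, h4⟩
    refine ⟨⟨?_, ?_⟩, ?_, ?_⟩ <;> linarith
  · rintro ⟨⟨h1, h2⟩, h3, h4⟩
    refine ⟨?_, ?_, ?_, ?_⟩ <;> linarith

/-! ### The two cells at a crease -/

/-- The cell on one side of a crease. -/
def adA : Cr → Cell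
  | .ch k => if k = C.m + 1 then .Q1 else .F k
  | .vt k => .G (k - 1)
  | .sp k => .F (k - 1)
  | .vw => .F C.m
  | .o2 => .O1
  | .o3 => .O2
  | .q2 => .Q1
  | .q3 => .Q2

/-- The cell on the other side of a crease. -/
def adB : Cr → Cell
  | .ch k => if k = C.m + 1 then .G C.m else .G k
  | .vt k => .G k
  | .sp k => .F k
  | .vw => .O1
  | .o2 => .O2
  | .o3 => .F 0
  | .q2 => .Q2
  | .q3 => .O1

theorem adA_ok {c : Cr} (hc : c.Ok C.m) : (C.adA c).Ok C.m := by
  cases c with
  | ch k =>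
    have hk : k ≤ C.m + 1 := hc
    rw [adA]
    split_ifs with h
    · trivial
    · show k ≤ C.m
      omega
  | vt k => have := hc.2; show k - 1 ≤ C.m; omega
  | sp k => have := hc.2; show k - 1 ≤ C.m; omega
  | vw => exact le_rfl
  | o2 => trivial
  | o3 => trivial
  | q2 => trivial
  | q3 => trivial

theorem adB_ok {c : Cr} (hc : c.Ok C.m) : (C.adB c).Ok C.m := by
  cases c with
  | ch k =>
    have hk : k ≤ C.m + 1 := hc
    rw [adB]
    split_ifs with h
    · exact le_rfl
    · show k ≤ C.m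
      omega
  | vt k => exact hc.2
  | sp k => exact hc.2
  | vw => trivial
  | o2 => trivial
  | o3 => exact Nat.zero_le _
  | q2 => trivial
  | q3 => trivial

/-- On a piece of the lower curve left of `1/7`, the adjacent cells. -/
theorem CC_of_piece {k : ℕ} (hk : k ≤ C.m) {x : ℝ} (h1 : k = 0 ∨ C.x k ≤ x)
    (h2 : k = C.m ∨ x ≤ C.x (k + 1)) (h3 : x ≤ 1 / 7) :
    C.CC (.F k) x (C.s k * x - C.r k) ∧ C.CC (.G k) x (C.s k * x - C.r k) := by
  have hm := C.hm
  refine ⟨⟨?_, ?_, le_rfl⟩, ⟨?_, ?_, le_rfl⟩⟩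
  · rcases Nat.eq_zero_or_pos k with h0 | h0
    · left
      refine ⟨h0, ?_⟩
      subst h0
      rcases h2 with h2 | h2
      · omega
      · rw [zero_add, x_one] at h2; linarith
    · right
      refine ⟨h0, ?_⟩
      have h4 : C.x k ≤ x := by
        rcases h1 with h | h
        · omega
        · exact h
      have h5 := C.spoke_sub k x
      have h6 := mul_nonneg (C.r_pos k).le (C.one_add_nonneg h0 h4)
      linarith
  · by_cases h : k = C.m
    · left
      refine ⟨h, ?_⟩
      subst h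
      rw [s_last, r_last]; linarith
    · right
      refine ⟨h, ?_⟩
      have h4 : x ≤ C.x (k + 1) := by
        rcases h2 with h2 | h2
        · omega
        · exact h2
      have h5 := C.spoke_sub' k x
      have h6 := mul_nonneg (C.r_pos k).le (neg_nonneg.2 (C.one_add_nonpos (show 1 ≤ k + 1 by omega) h4))
      linarith
  · rcases Nat.eq_zero_or_pos k with h0 | h0
    · exact Or.inl h0
    · right
      refine ⟨h0, ?_⟩
      rcases h1 with h | h
      · omega
      · exact h
  · by_cases h : k = C.m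
    · left
      refine ⟨h, ?_⟩
      subst h
      rw [s_last, r_last]; linarith
    · right
      refine ⟨h, ?_⟩
      rcases h2 with h2 | h2
      · omega
      · exact h2

/-- A crease is contained in the two adjacent closed cells. -/
theorem CC_of_Seg {c : Cr} (hc : c.Ok C.m) {x y : ℝ} (h : C.Seg c x y) :
    C.CC (C.adA c) x y ∧ C.CC (C.adB c) x y := by
  have hm := C.hm
  have hDg := C.D_lt
  cases c with
  | ch k =>
    have hk : k ≤ C.m + 1 := hc
    obtain ⟨⟨h1, h2⟩, rfl⟩ := h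
    by_cases hk' : k = C.m + 1
    · subst hk'
      rw [adA, adB, if_pos rfl, if_pos rfl]
      rw [ξ_m1] at h1
      rw [C.Γ_right h1]
      refine ⟨⟨by linarith, by linarith⟩, ?_, Or.inl ⟨rfl, le_rfl⟩, ?_⟩
      · right
        have := C.x_neg (show 1 ≤ C.m by omega)
        exact ⟨by omega, by linarith⟩
      · rw [s_last, r_last]; linarith
    · rw [adA, adB, if_neg hk', if_neg hk']
      have hk2 : k ≤ C.m := by omega
      have e1 : k = 0 ∨ C.x k ≤ x := by
        rcases Nat.eq_zero_or_pos k with h0 | h0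
        · exact Or.inl h0
        · rw [C.ξ_mid h0 hk2] at h1
          exact Or.inr h1
      have e2 : k = C.m ∨ x ≤ C.x (k + 1) := by
        by_cases h0 : k = C.m
        · exact Or.inl h0
        · rw [C.ξ_mid (by omega) (by omega)] at h2
          exact Or.inr h2
      have e3 : x ≤ 1 / 7 := by
        have := C.ξ_le (show k + 1 ≤ C.m + 1 by omega) (by omega)
        rw [ξ_m1] at this
        linarith
      rw [C.Γ_eq hk2 e1 e2 e3]
      exact C.CC_of_piece hk2 e1 e2 e3
  | vt k =>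
    obtain ⟨hk1, hk2⟩ := hc
    obtain ⟨rfl, h1, h2⟩ := h
    have h3 := C.x_neg hk1
    obtain ⟨j, rfl⟩ : ∃ j, k = j + 1 := ⟨k - 1, by omega⟩
    have e := C.x_mul hk1
    refine ⟨⟨?_, ?_, ?_⟩, ⟨?_, ?_, ?_⟩⟩
    · rw [Nat.add_sub_cancel]
      rcases Nat.eq_zero_or_pos j with h0 | h0
      · exact Or.inl h0
      · exact Or.inr ⟨h0, C.x_le h0 (by omega)⟩
    · rw [Nat.add_sub_cancel]
      exact Or.inr ⟨by omega, le_rfl⟩
    · rw [Nat.add_sub_cancel]
      have := C.spoke_sub' j (C.x (j + 1))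
      rw [e] at this
      linarith
    · exact Or.inr ⟨hk1, le_rfl⟩
    · by_cases h0 : j + 1 = C.m
      · left
        refine ⟨h0, ?_⟩
        rw [h0] at h2 h3 e ⊢
        have : C.g C.m = C.D + C.i C.m := by rw [D]; ring
        rw [this] at h2
        linarith
      · exact Or.inr ⟨h0, C.x_le (by omega) (by omega)⟩
    · have := C.spoke_sub (j + 1) (C.x (j + 1))
      rw [e] at this
      linarith
  | sp k =>
    obtain ⟨hk1, hk2⟩ := hc
    obtain ⟨⟨h1, h2⟩, rfl⟩ := h
    obtain ⟨j, rfl⟩ : ∃ j, k = j + 1 := ⟨k - 1, by omega⟩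
    have h5 := mul_nonneg (C.r_pos (j + 1)).le (C.one_add_nonneg hk1 h1)
    have h6 := mul_nonneg (C.r_pos j).le (C.one_add_nonneg hk1 h1)
    refine ⟨⟨?_, ?_, ?_⟩, ⟨?_, ?_, ?_⟩⟩
    · rw [Nat.add_sub_cancel]
      rcases Nat.eq_zero_or_pos j with h0 | h0
      · exact Or.inl ⟨h0, h2⟩
      · refine Or.inr ⟨h0, ?_⟩
        have := C.g_lt (Nat.lt_succ_self j)
        nlinarith
    · rw [Nat.add_sub_cancel]
      exact Or.inr ⟨by omega, le_rfl⟩
    · rw [Nat.add_sub_cancel]
      have := C.spoke_sub' j x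
      linarith
    · exact Or.inr ⟨hk1, le_rfl⟩
    · by_cases h0 : j + 1 = C.m
      · left
        refine ⟨h0, ?_⟩
        rw [h0]
        nlinarith
      · refine Or.inr ⟨h0, ?_⟩
        have := C.g_lt (Nat.lt_succ_self (j + 1))
        nlinarith
    · have := C.spoke_sub (j + 1) x
      linarith
  | vw =>
    obtain ⟨⟨h1, h2⟩, rfl⟩ := h
    refine ⟨⟨Or.inr ⟨by omega, by nlinarith⟩, Or.inl ⟨rfl, le_rfl⟩, ?_⟩, le_rfl, by linarith,
      by linarith⟩
    rw [s_last, r_last]; linarith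
  | o2 =>
    obtain ⟨⟨h1, h2⟩, rfl⟩ := h
    exact ⟨⟨by linarith, le_rfl, by linarith⟩, h1, le_rfl⟩
  | o3 =>
    obtain ⟨rfl, h1, h2⟩ := h
    refine ⟨⟨le_rfl, by linarith⟩, Or.inl ⟨rfl, le_rfl⟩, Or.inr ⟨by omega, by linarith⟩, ?_⟩
    rw [s_zero, r_zero]; linarith
  | q2 =>
    obtain ⟨⟨h1, h2⟩, rfl⟩ := h
    exact ⟨⟨by linarith, le_rfl⟩, le_rfl, by linarith⟩
  | q3 =>
    obtain ⟨⟨h1, h2⟩, rfl⟩ := h
    exact ⟨⟨by linarith, le_rfl⟩, by linarith, by linarith, le_rfl⟩

end Ch

end Pool.Agent.MP_7070f9_lc
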