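import Pool.Agent.MP_7070f9_lc.Cells

/-!
# The open cells are disjoint from the creases and cover the rest of the paper
-/

open Set Filter Topology

namespace Pool.Agent.MP_7070f9_lc

/-- The cells above the lower curve. -/
def Cell.Up : Cell → Prop
  | .G _ => False
  | _ => True

namespace Ch
variable (C : Ch)

theorem CO_G {k : ℕ} (hk : k ≤ C.m) {x y : ℝ} (h : C.CO (.G k) x y) :
    y < C.Γ x ∧ ∀ j, 1 ≤ j → j ≤ C.m → x ≠ C.x j := by
  have hm := C.hm
  obtain ⟨h1, h2, h3⟩ := h
  constructor
  · rcases hk.eq_or_lt with h0 | h0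
    · subst h0
      have h4 : C.x C.m < x := by
        rcases h1 with h | h
        · omega
        · exact h.2
      have h5 : y < (C.D - 2) * x - 5 / 7 := by
        rcases h2 with h | h
        · exact h.2
        · exact absurd rfl h.1
      rw [s_last, r_last] at h3
      rcases le_total x (1 / 7) with h6 | h6
      · rwa [C.Γ_mid h4.le h6]
      · rwa [C.Γ_right h6]
    · have h4 : x < C.x (k + 1) := by
        rcases h2 with h | h
        · omega
        · exact h.2
      have := C.x_neg (show 1 ≤ k + 1 by omega)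
      rwa [C.Γ_eq hk (h1.imp_right fun h => h.2.le) (Or.inr h4.le) (by linarith)]
  · rintro j hj1 hj2 rfl
    rcases Nat.lt_or_ge k j with h0 | h0
    · rcases h2 with h | h
      · omega
      · have := C.x_le (show 1 ≤ k + 1 by omega) (show k + 1 ≤ j from h0)
        linarith [h.2]
    · rcases h1 with h | h
      · omega
      · have := C.x_le hj1 h0
        linarith [h.2]

theorem CO_F_neg {k : ℕ} (hk : k < C.m) {x y : ℝ} (h : C.CO (.F k) x y) : x < 0 := by
  obtain ⟨h1, h2, h3⟩ := h
  rcases h1 with h | h
  · exact h.2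
  · rcases h2 with h' | h'
    · omega
    · have := C.g_lt (Nat.lt_succ_self k)
      by_contra hx
      push Not at hx
      nlinarith [h.2, h'.2]

theorem CO_up {c : Cell} (hc : c.Ok C.m) (hu : c.Up) {x y : ℝ} (h : C.CO c x y) : C.Γ x < y := by
  have hm := C.hm
  cases c with
  | G k => exact hu.elim
  | F k =>
    have hk : k ≤ C.m := hc
    rcases hk.eq_or_lt with h0 | h0
    · subst h0
      obtain ⟨h1, h2, h3⟩ := h
      have h4 : y < C.g C.m * x := by
        rcases h1 with h | h
        · omega
        · exact h.2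
      have h5 : y < (C.D - 7) * x := by
        rcases h2 with h | h
        · exact h.2
        · exact absurd rfl h.1
      have h6 := C.spoke_sub C.m x
      have h7 : C.x C.m ≤ x := by
        by_contra h8
        push Not at h8
        have := mul_neg_of_pos_of_neg (C.r_pos C.m) (C.one_add_neg (by omega) h8)
        linarith
      rw [s_last, r_last] at h3
      rw [C.Γ_mid h7 (by linarith)]
      exact h3
    · have hx := C.CO_F_neg h0 h
      obtain ⟨h1, h2, h3⟩ := h
      have h5 : C.g (k + 1) * x < y := by
        rcases h2 with h | h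
        · omega
        · exact h.2
      obtain ⟨l, hl, hl1, hl2⟩ := C.locate x
      rcases lt_trichotomy l k with h8 | h8 | h8
      · exfalso
        have h9 : 1 ≤ k := by omega
        have h4 : y < C.g k * x := by
          rcases h1 with h | h
          · omega
          · exact h.2
        have h10 : x < C.x k := by
          rcases hl2 with h | h
          · omega
          · exact lt_of_lt_of_le h (C.x_le (by omega) h8)
        have h6 := C.spoke_sub k x
        have := mul_neg_of_pos_of_neg (C.r_pos k) (C.one_add_neg h9 h10)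
        linarith
      · subst h8
        rw [C.Γ_eq hl hl1 (hl2.imp_right le_of_lt) (by linarith)]
        exact h3
      · have h10 : C.x (k + 1) ≤ x := by
          rcases hl1 with h | h
          · omega
          · exact le_trans (C.x_le (by omega) h8) h
        have := C.Γ_le_spoke (show 1 ≤ k + 1 by omega) (by omega) h10 hx.le
        linarith
  | O1 =>
    obtain ⟨h1, h2, h3⟩ := h
    have hx : 0 < x := by linarith
    rcases le_total x (1 / 7) with h6 | h6
    · rw [C.Γ_pos hx.le h6]; linarith
    · rw [C.Γ_right h6]; linarith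
  | O2 =>
    obtain ⟨h1, h2⟩ := h
    rcases le_total x (1 / 7) with h6 | h6
    · rw [C.Γ_pos h1.le h6]; linarith
    · rw [C.Γ_right h6]; linarith
  | Q1 =>
    obtain ⟨h1, h2⟩ := h
    rw [C.Γ_right (by linarith)]; exact h1
  | Q2 =>
    obtain ⟨h1, h2⟩ := h
    rw [C.Γ_right (by linarith)]; linarith

/-- The open cells do not meet the creases. -/
theorem CO_not_Seg {c : Cell} (hc : c.Ok C.m) {e : Cr} (he : e.Ok C.m) {x y : ℝ}
    (h : C.CO c x y) (h' : C.Seg e x y) : False := by
  have hm := C.hm
  have hDg := C.D_lt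
  by_cases hu : c.Up
  · have h0 := C.CO_up hc hu h
    cases e with
    | ch k =>
      have := h'.2
      linarith
    | vt k =>
      have := (C.seg_vt he.1 he.2 h').2
      linarith
    | sp j =>
      obtain ⟨⟨h4, h5⟩, h6⟩ := h'
      obtain ⟨hj1, hj2⟩ := he
      cases c with
      | G k => exact hu
      | F k =>
        have hk : k ≤ C.m := hc
        obtain ⟨h1, h2, h3⟩ := h
        rcases Nat.lt_or_ge k j with h8 | h8
        · rcases h2 with h | h
          · omega
          · have := C.g_le (show k + 1 ≤ j from h8)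
            nlinarith [h.2]
        · rcases h1 with h | h
          · omega
          · have := C.g_le h8
            nlinarith [h.2]
      | O1 => obtain ⟨h1, h2, h3⟩ := h; linarith
      | O2 => obtain ⟨h1, h2⟩ := h; linarith
      | Q1 => obtain ⟨h1, h2⟩ := h; linarith
      | Q2 => obtain ⟨h1, h2⟩ := h; linarith
    | vw =>
      obtain ⟨⟨h4, h5⟩, h6⟩ := h'
      cases c with
      | G k => exact hu
      | F k =>
        have hk : k ≤ C.m := hc
        rcases hk.eq_or_lt with h8 | h8
        · obtain ⟨h1, h2, h3⟩ := h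
          rcases h2 with h | h
          · linarith [h.2]
          · exact h.1 h8
        · linarith [C.CO_F_neg h8 h]
      | O1 => obtain ⟨h1, h2, h3⟩ := h; linarith
      | O2 => obtain ⟨h1, h2⟩ := h; linarith
      | Q1 => obtain ⟨h1, h2⟩ := h; linarith
      | Q2 => obtain ⟨h1, h2⟩ := h; linarith
    | o2 =>
      obtain ⟨⟨h4, h5⟩, h6⟩ := h'
      cases c with
      | G k => exact hu
      | F k =>
        have hk : k ≤ C.m := hc
        rcases hk.eq_or_lt with h8 | h8
        · obtain ⟨h1, h2, h3⟩ := h
          rcases h2 with h | h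
          · linarith [h.2]
          · exact h.1 h8
        · linarith [C.CO_F_neg h8 h]
      | O1 => obtain ⟨h1, h2, h3⟩ := h; linarith
      | O2 => obtain ⟨h1, h2⟩ := h; linarith
      | Q1 => obtain ⟨h1, h2⟩ := h; linarith
      | Q2 => obtain ⟨h1, h2⟩ := h; linarith
    | o3 =>
      obtain ⟨h4, h5, h6⟩ := h'
      subst h4
      cases c with
      | G k => exact hu
      | F k =>
        have hk : k ≤ C.m := hc
        rcases hk.eq_or_lt with h8 | h8
        · obtain ⟨h1, h2, h3⟩ := h
          rcases h2 with h | h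
          · linarith [h.2]
          · exact h.1 h8
        · linarith [C.CO_F_neg h8 h]
      | O1 => obtain ⟨h1, h2, h3⟩ := h; linarith
      | O2 => obtain ⟨h1, h2⟩ := h; linarith
      | Q1 => obtain ⟨h1, h2⟩ := h; linarith
      | Q2 => obtain ⟨h1, h2⟩ := h; linarith
    | q2 =>
      obtain ⟨⟨h4, h5⟩, h6⟩ := h'
      cases c with
      | G k => exact hu
      | F k =>
        have hk : k ≤ C.m := hc
        rcases hk.eq_or_lt with h8 | h8
        · obtain ⟨h1, h2, h3⟩ := h
          rcases h2 with h | h
          · linarith [h.2]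
          · exact h.1 h8
        · linarith [C.CO_F_neg h8 h]
      | O1 => obtain ⟨h1, h2, h3⟩ := h; linarith
      | O2 => obtain ⟨h1, h2⟩ := h; linarith
      | Q1 => obtain ⟨h1, h2⟩ := h; linarith
      | Q2 => obtain ⟨h1, h2⟩ := h; linarith
    | q3 =>
      obtain ⟨⟨h4, h5⟩, h6⟩ := h'
      cases c with
      | G k => exact hu
      | F k =>
        have hk : k ≤ C.m := hc
        rcases hk.eq_or_lt with h8 | h8
        · obtain ⟨h1, h2, h3⟩ := h
          rcases h2 with h | h
          · linarith [h.2]
          · exact h.1 h8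
        · linarith [C.CO_F_neg h8 h]
      | O1 => obtain ⟨h1, h2, h3⟩ := h; linarith
      | O2 => obtain ⟨h1, h2⟩ := h; linarith
      | Q1 => obtain ⟨h1, h2⟩ := h; linarith
      | Q2 => obtain ⟨h1, h2⟩ := h; linarith
  · cases c with
    | G k =>
      obtain ⟨h1, h2⟩ := C.CO_G hc h
      by_cases hu' : e.Up
      · have := (C.seg_up he hu' h').1
        linarith
      · cases e with
        | ch k =>
          have := h'.2
          linarith
        | vt k => exact h2 k he.1 he.2 h'.1
        | _ => exact hu' trivial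
    | _ => exact hu trivial

/-- Every cell has a point in the interior of the paper. -/
theorem exists_CO (hD : 7 ≤ C.D) {c : Cell} (hc : c.Ok C.m) :
    ∃ x y, C.CO c x y ∧ (-2 < x ∧ x < 8 / 7) ∧ (-C.N < y ∧ y < C.N) := by
  have hm := C.hm
  have hg := C.g_ge_one (show 1 ≤ C.m by omega)
  have hDg := C.D_lt
  cases c with
  | F k =>
    have hk : k ≤ C.m := hc
    rcases Nat.eq_zero_or_pos k with h0 | h0
    · subst h0
      refine ⟨-1 / 2, 0, ⟨Or.inl ⟨rfl, by norm_num⟩, Or.inr ⟨by omega, ?_⟩, ?_⟩,
        ⟨by norm_num, by norm_num⟩, by linarith [C.N_pos], C.N_pos⟩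
      · rw [zero_add, g_one]; norm_num
      · rw [s_zero, r_zero]; norm_num
    · rcases hk.eq_or_lt with h1 | h1
      · subst h1
        refine ⟨0, -1 / 2, ⟨Or.inr ⟨h0, by norm_num⟩, Or.inl ⟨rfl, by norm_num⟩, ?_⟩,
          ⟨by norm_num, by norm_num⟩, ?_, ?_⟩
        · rw [s_last, r_last]; norm_num
        · rw [N]; linarith
        · rw [N]; linarith
      · have hx := C.x_neg (show 1 ≤ k + 1 by omega)
        have hx' := C.x_ge (show 1 ≤ k + 1 by omega)
        have hgk := C.g_lt (Nat.lt_succ_self k)
        have hgk' := C.g_le (show k + 1 ≤ C.m from h1)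
        have hg0 := C.g_pos h0
        have h5 := C.spoke_sub' k (C.x (k + 1) / 2)
        have h6 := mul_pos (C.r_pos k) (C.one_add_pos (show 1 ≤ k + 1 by omega)
          (show C.x (k + 1) < C.x (k + 1) / 2 by linarith))
        refine ⟨C.x (k + 1) / 2, (C.g k + C.g (k + 1)) / 2 * (C.x (k + 1) / 2),
          ⟨Or.inr ⟨h0, by nlinarith⟩, Or.inr ⟨by omega, by nlinarith⟩, by nlinarith⟩,
          ⟨by linarith, by linarith⟩, ?_, ?_⟩
        · rw [N]; nlinarith
        · rw [N]; nlinarith
  | G k =>
    have hk : k ≤ C.m := hc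
    rcases Nat.eq_zero_or_pos k with h0 | h0
    · subst h0
      refine ⟨-3 / 2, -2, ⟨Or.inl rfl, Or.inr ⟨by omega, ?_⟩, ?_⟩,
        ⟨by norm_num, by norm_num⟩, ?_, ?_⟩
      · rw [zero_add, x_one]; norm_num
      · rw [s_zero, r_zero]; norm_num
      · rw [N]; linarith
      · rw [N]; linarith
    · rcases hk.eq_or_lt with h1 | h1
      · subst h1
        have hx := C.x_neg h0
        refine ⟨0, -2, ⟨Or.inr ⟨h0, hx⟩, Or.inl ⟨rfl, by norm_num⟩, ?_⟩,
          ⟨by norm_num, by norm_num⟩, ?_, ?_⟩
        · rw [s_last, r_last]; norm_num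
        · rw [N]; linarith
        · rw [N]; linarith
      · have hx := C.x_neg (show 1 ≤ k + 1 by omega)
        have hx' := C.x_ge h0
        have hxk := C.x_lt h0 (Nat.lt_succ_self k)
        have hx3 := C.x_le (show 1 ≤ k + 1 by omega) (show k + 1 ≤ C.m from h1)
        have h5 := C.Γ_ge (x := (C.x k + C.x (k + 1)) / 2) (by linarith) (by linarith)
        rw [C.Γ_eq hk (Or.inr (by linarith)) (Or.inr (by linarith)) (by linarith)] at h5
        refine ⟨(C.x k + C.x (k + 1)) / 2, -C.g C.m - 1,
          ⟨Or.inr ⟨h0, by linarith⟩, Or.inr ⟨by omega, by linarith⟩, by linarith⟩,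
          ⟨by linarith, by linarith⟩, ?_, ?_⟩
        · rw [N]; linarith
        · rw [N]; linarith
  | O1 =>
    refine ⟨1 / 14, C.D / 14, ⟨by linarith, by linarith, by linarith⟩,
      ⟨by norm_num, by norm_num⟩, ?_, ?_⟩
    · rw [N]; linarith
    · rw [N]; linarith
  | O2 =>
    refine ⟨1 / 14, (C.D + 18) / 14 + 1, ⟨by norm_num, by linarith⟩,
      ⟨by norm_num, by norm_num⟩, ?_, ?_⟩
    · rw [N]; linarith
    · rw [N]; linarith
  | Q1 =>
    refine ⟨1, C.D - 2, ⟨by linarith, by linarith⟩, ⟨by norm_num, by norm_num⟩, ?_, ?_⟩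
    · rw [N]; linarith
    · rw [N]; linarith
  | Q2 =>
    refine ⟨1, C.D, ⟨by linarith, by linarith⟩, ⟨by norm_num, by norm_num⟩, ?_, ?_⟩
    · rw [N]; linarith
    · rw [N]; linarith

/-- The open cells cover the paper minus the creases. -/
theorem cover {x y : ℝ} (hx1 : -2 ≤ x) (hx2 : x ≤ 8 / 7) (hy1 : -C.N ≤ y) (hy2 : y ≤ C.N)
    (hn : ∀ e : Cr, e.Ok C.m → ¬ C.Seg e x y) : ∃ c : Cell, c.Ok C.m ∧ C.CO c x y := by
  classical
  have hm := C.hm
  have hm1 : 1 ≤ C.m := by omega
  have hDg := C.D_lt
  rcases lt_trichotomy y (C.Γ x) with hlt | heq | hgt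
  · -- below the curve
    obtain ⟨k, hk, hk1, hk2⟩ := C.locate x
    have hk3 : k = 0 ∨ 1 ≤ k ∧ C.x k < x := by
      rcases Nat.eq_zero_or_pos k with h0 | h0
      · exact Or.inl h0
      · right
        refine ⟨h0, ?_⟩
        rcases hk1 with h | h
        · omega
        · rcases h.eq_or_lt with h' | h'
          · exfalso
            refine hn (.vt k) ⟨h0, hk⟩ ⟨h'.symm, hy1, ?_⟩
            rw [← C.Γ_x h0 hk, h']
            exact hlt.le
          · exact h'
    refine ⟨.G k, hk, hk3, ?_, ?_⟩
    · rcases hk.eq_or_lt with h0 | h0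
      · left
        refine ⟨h0, ?_⟩
        subst h0
        rcases le_total x (1 / 7) with h6 | h6
        · have h7 : C.x C.m ≤ x := by
            rcases hk1 with h | h
            · omega
            · exact h
          rw [C.Γ_mid h7 h6] at hlt
          linarith
        · rwa [C.Γ_right h6] at hlt
      · right
        refine ⟨by omega, ?_⟩
        rcases hk2 with h | h
        · omega
        · exact h
    · rcases le_total x (1 / 7) with h6 | h6
      · rwa [C.Γ_eq hk hk1 (hk2.imp_right le_of_lt) h6] at hlt
      · have hkm : k = C.m := by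
          rcases hk2 with h | h
          · exact h
          · have := C.x_neg (show 1 ≤ k + 1 by omega)
            linarith
        subst hkm
        rw [C.Γ_right h6] at hlt
        rw [s_last, r_last]
        linarith
  · -- on the curve
    exfalso
    obtain ⟨k, hk, hk1, hk2⟩ := C.ξ_locate hx1 hx2
    exact hn (.ch k) hk ⟨⟨hk1, hk2⟩, heq⟩
  · -- above the curve
    rcases lt_trichotomy x 0 with hx | hx | hx
    · -- on the left
      have hns : ∀ j, 1 ≤ j → j ≤ C.m → y ≠ C.g j * x := by
        intro j hj1 hj2 hy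
        refine hn (.sp j) ⟨hj1, hj2⟩ ⟨⟨?_, hx.le⟩, hy⟩
        by_contra h
        push Not at h
        have := C.spoke_le_Γ hj1 hj2 h.le
        linarith
      have h := Nat.findGreatest_spec (P := fun k => k = 0 ∨ y < C.g k * x) (Nat.zero_le C.m)
        (Or.inl rfl)
      set k := Nat.findGreatest (fun k => k = 0 ∨ y < C.g k * x) C.m with hkdef
      have hk : k ≤ C.m := Nat.findGreatest_le _
      have hk1 : k = 0 ∧ x < 0 ∨ 1 ≤ k ∧ y < C.g k * x := by
        rcases Nat.eq_zero_or_pos k with h0 | h0
        · exact Or.inl ⟨h0, hx⟩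
        · right
          refine ⟨h0, ?_⟩
          rcases h with h | h
          · omega
          · exact h
      have hk2 : k = C.m ∧ y < (C.D - 7) * x ∨ k ≠ C.m ∧ C.g (k + 1) * x < y := by
        rcases hk.eq_or_lt with h0 | h0
        · left
          refine ⟨h0, ?_⟩
          rcases hk1 with h | h
          · omega
          · have := h.2
            rw [h0] at this
            nlinarith
        · right
          refine ⟨by omega, ?_⟩
          have h1 := Nat.findGreatest_is_greatest (P := fun k => k = 0 ∨ y < C.g k * x) (n := C.m)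
            (k := k + 1) (by omega) (by omega)
          have h2 : ¬ (y < C.g (k + 1) * x) := fun h => h1 (Or.inr h)
          push Not at h2
          exact lt_of_le_of_ne h2 (Ne.symm (hns (k + 1) (by omega) (by omega)))
      refine ⟨.F k, hk, hk1, hk2, ?_⟩
      obtain ⟨l, hl, hl1, hl2⟩ := C.locate x
      rcases lt_trichotomy l k with h8 | h8 | h8
      · exfalso
        have h9 : 1 ≤ k := by omega
        have h10 : x < C.x k := by
          rcases hl2 with h | h
          · omega
          · exact lt_of_lt_of_le h (C.x_le (by omega) h8)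
        have := C.spoke_le_Γ h9 hk h10.le
        rcases hk1 with h | h
        · omega
        · linarith [h.2]
      · rw [← h8]
        rwa [C.Γ_eq hl hl1 (hl2.imp_right le_of_lt) (by linarith)] at hgt
      · have h10 : C.x (k + 1) ≤ x := by
          rcases hl1 with h | h
          · omega
          · exact le_trans (C.x_le (by omega) h8) h
        have h11 := C.spoke_sub' k x
        have h12 := mul_nonneg (C.r_pos k).le (C.one_add_nonneg (show 1 ≤ k + 1 by omega) h10)
        rcases hk2 with h | h
        · omega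
        · linarith [h.2]
    · -- in the middle
      subst hx
      rw [Γ_zero] at hgt
      rcases lt_or_ge y 0 with h | h
      · refine ⟨.F C.m, le_rfl, Or.inr ⟨hm1, by linarith⟩, Or.inl ⟨rfl, by linarith⟩, ?_⟩
        rw [s_last, r_last]; linarith
      · exact absurd ⟨rfl, h, hy2⟩ (hn .o3 trivial)
    · -- on the right
      rcases lt_trichotomy y ((C.D + 18) * x) with h1 | h1 | h1
      · rcases le_or_gt x (1 / 7) with h2 | h2
        · rw [C.Γ_pos hx.le h2] at hgt
          rcases lt_trichotomy y ((C.D - 7) * x) with h3 | h3 | h3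
          · refine ⟨.F C.m, le_rfl, Or.inr ⟨hm1, by nlinarith⟩, Or.inl ⟨rfl, h3⟩, ?_⟩
            rw [s_last, r_last]; exact hgt
          · exact absurd ⟨⟨hx.le, h2⟩, h3⟩ (hn .vw trivial)
          · exact ⟨.O1, trivial, h3, h1, by linarith⟩
        · rw [C.Γ_right h2.le] at hgt
          rcases lt_trichotomy y (C.D * x - 1) with h3 | h3 | h3
          · exact ⟨.Q1, trivial, hgt, h3⟩
          · exact absurd ⟨⟨h2.le, hx2⟩, h3⟩ (hn .q2 trivial)
          · rcases lt_trichotomy y ((C.D + 7) * x - 2) with h4 | h4 | h4
            · exact ⟨.Q2, trivial, h3, h4⟩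
            · exact absurd ⟨⟨h2.le, hx2⟩, h4⟩ (hn .q3 trivial)
            · exact ⟨.O1, trivial, by linarith, h1, h4⟩
      · exact absurd ⟨⟨hx.le, hx2⟩, h1⟩ (hn .o2 trivial)
      · exact ⟨.O2, trivial, hx, h1⟩

end Ch

end Pool.Agent.MP_7070f9_lc
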