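import Pool.Agent.MP_7070f9_lc.Geo

/-!
# The degrees of the vertices
-/

open Set

namespace Pool.Agent.MP_7070f9_lc

open Classical in
/-- The degree of a point: the number of creases that have it as an end point. -/
noncomputable def Pattern.degree (G : Pattern) (v : Plane) : ℕ :=
  (G.creases.filter fun e => decide (toPlane e.1 = v ∨ toPlane e.2 = v)).length

/-- All vertices in the interior of the paper, with at most two exceptions, have degree four. -/
def Pattern.AlmostFour (G : Pattern) : Prop :=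
  ∃ V W : Plane, ∀ v ∈ interior G.paper, v ≠ V → v ≠ W → G.degree v = 0 ∨ G.degree v = 4

namespace Ch
variable (C : Ch)

/-- The `k`-th path vertex. -/
noncomputable def pv (k : ℕ) : Plane := pt (C.x k) (C.g k * C.x k)

theorem pA_ch {k : ℕ} (h1 : 1 ≤ k) (hk : k ≤ C.m) : C.pA (.ch k) = C.pv k := by
  rw [pA, C.ξ_mid h1 hk, C.Γ_x h1 hk]; rfl

theorem pB_ch {k : ℕ} (hk : k + 1 ≤ C.m) : C.pB (.ch k) = C.pv (k + 1) := by
  rw [pB, C.ξ_mid (by omega) hk, C.Γ_x (by omega) hk]; rfl

theorem pv_inj {j k : ℕ} (hj : 1 ≤ j) (hk : 1 ≤ k) (h : C.pv j = C.pv k) : j = k := by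
  have h0 : C.x j = C.x k := congrArg (fun z : Plane => z 0) h
  rcases lt_trichotomy j k with h1 | h1 | h1
  · exact absurd h0 (C.x_lt hj h1).ne
  · exact h1
  · exact absurd h0 (C.x_lt hk h1).ne'

end Ch

namespace Geo
variable {G : Pattern} {C : Ch} {seg : Cr → (Frac × Frac) × (Frac × Frac)} (hG : Geo G C seg)
include hG

theorem interior_sub {v : Plane} (hv : v ∈ interior G.paper) :
    (-2 < v 0 ∧ v 0 < 8 / 7) ∧ (-C.N < v 1 ∧ v 1 < C.N) := by
  obtain ⟨ε, hε, hb⟩ := Metric.isOpen_iff.1 isOpen_interior v hv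
  have key : ∀ a b : ℝ, a ^ 2 + b ^ 2 < ε ^ 2 → pt (v 0 + a) (v 1 + b) ∈ cls C.rect := by
    intro a b hab
    rw [← hG.paper_eq]
    apply interior_subset
    apply hb
    rw [Metric.mem_ball]
    have := dist_sq_plane (pt (v 0 + a) (v 1 + b)) v
    simp only [pt_0, pt_1] at this
    have h2 : dist (pt (v 0 + a) (v 1 + b)) v ^ 2 < ε ^ 2 := by rw [this]; convert hab using 1; ring
    exact lt_of_pow_lt_pow_left₀ 2 hε.le h2
  have k1 := (C.mem_rect_cls _).1 (key (-(ε / 2)) 0 (by nlinarith))
  have k2 := (C.mem_rect_cls _).1 (key (ε / 2) 0 (by nlinarith))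
  have k3 := (C.mem_rect_cls _).1 (key 0 (-(ε / 2)) (by nlinarith))
  have k4 := (C.mem_rect_cls _).1 (key 0 (ε / 2) (by nlinarith))
  simp only [pt_0, pt_1] at k1 k2 k3 k4
  exact ⟨⟨by linarith [k1.1.1], by linarith [k2.1.2]⟩, by linarith [k3.2.1], by linarith [k4.2.2]⟩

/-- The end points in the interior of the paper are the path vertices, `V` and `W`. -/
theorem end_cases {c : Cr} (hc : c.Ok C.m) {v : Plane} (hv : v ∈ interior G.paper)
    (h0 : v ≠ pt 0 0) (hW : v ≠ pt (1 / 7) ((C.D - 7) / 7)) (h : C.pA c = v ∨ C.pB c = v) :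
    ∃ k, 1 ≤ k ∧ k ≤ C.m ∧ v = C.pv k ∧ (c = .ch k ∨ c = .ch (k - 1) ∨ c = .vt k ∨ c = .sp k) := by
  have hm := C.hm
  have hi := hG.interior_sub hv
  cases c with
  | ch k =>
    have hk : k ≤ C.m + 1 := hc
    rcases h with h | h
    · rcases Nat.eq_zero_or_pos k with hk0 | hk0
      · subst hk0
        have : v 0 = -2 := by rw [← h, Ch.pA, C.ξ_zero]; rfl
        linarith [hi.1.1]
      · rcases Nat.lt_or_ge C.m k with hk1 | hk1
        · have : k = C.m + 1 := by omega
          subst this
          rw [Ch.pA, C.ξ_m1, C.Γ_17] at h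
          exact absurd h.symm hW
        · exact ⟨k, hk0, hk1, by rw [← h, C.pA_ch hk0 hk1], Or.inl rfl⟩
    · rcases lt_trichotomy k C.m with hk1 | hk1 | hk1
      · exact ⟨k + 1, by omega, hk1, by rw [← h, C.pB_ch hk1], Or.inr (Or.inl rfl)⟩
      · subst hk1
        rw [Ch.pB, C.ξ_m1, C.Γ_17] at h
        exact absurd h.symm hW
      · have : k = C.m + 1 := by omega
        subst this
        have : v 0 = 8 / 7 := by rw [← h, Ch.pB, C.ξ_m2]; rfl
        linarith [hi.1.2]
  | vt k =>
    rcases h with h | h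
    · exact ⟨k, hc.1, hc.2, h.symm, by tauto⟩
    · have : v 1 = -C.N := by rw [← h]; rfl
      linarith [hi.2.1]
  | sp k =>
    rcases h with h | h
    · exact ⟨k, hc.1, hc.2, h.symm, by tauto⟩
    · exact absurd h.symm h0
  | vw =>
    rcases h with h | h
    · exact absurd h.symm h0
    · exact absurd h.symm hW
  | o2 =>
    rcases h with h | h
    · exact absurd h.symm h0
    · have : v 0 = 8 / 7 := by rw [← h]; rfl
      linarith [hi.1.2]
  | o3 =>
    rcases h with h | h
    · exact absurd h.symm h0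
    · have : v 1 = C.N := by rw [← h]; rfl
      linarith [hi.2.2]
  | q2 =>
    rcases h with h | h
    · exact absurd h.symm hW
    · have : v 0 = 8 / 7 := by rw [← h]; rfl
      linarith [hi.1.2]
  | q3 =>
    rcases h with h | h
    · exact absurd h.symm hW
    · have : v 0 = 8 / 7 := by rw [← h]; rfl
      linarith [hi.1.2]

theorem almostFour : G.AlmostFour := by
  classical
  refine ⟨pt 0 0, pt (1 / 7) ((C.D - 7) / 7), fun v hv h0 hW => ?_⟩
  have hm := C.hm
  have hdeg : G.degree v =
      ((crList C.m).filter fun c => decide (C.pA c = v ∨ C.pB c = v)).length := by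
    rw [Pattern.degree, hG.creases, List.filter_map, List.length_map]
    congr 1
    apply List.filter_congr
    intro c hc
    rw [mem_crList] at hc
    simp only [Function.comp, hG.endA c hc, hG.endB c hc]
  by_cases hex : ∃ c : Cr, c.Ok C.m ∧ (C.pA c = v ∨ C.pB c = v)
  · right
    obtain ⟨c, hc, h⟩ := hex
    obtain ⟨k, hk1, hk2, hvk, -⟩ := hG.end_cases hc hv h0 hW h
    rw [hdeg]
    have hperm : ((crList C.m).filter fun c => decide (C.pA c = v ∨ C.pB c = v)).Perm
        [.ch k, .ch (k - 1), .vt k, .sp k] := by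
      rw [List.perm_ext_iff_of_nodup ((nodup_crList C.m).filter _)]
      · intro d
        rw [List.mem_filter, mem_crList, decide_eq_true_iff]
        simp only [List.mem_cons, List.not_mem_nil, or_false]
        constructor
        · rintro ⟨hd, hd'⟩
          obtain ⟨j, hj1, hj2, hvj, hdj⟩ := hG.end_cases hd hv h0 hW hd'
          have : j = k := C.pv_inj hj1 hk1 (hvj.symm.trans hvk)
          subst this
          exact hdj
        · rintro (rfl | rfl | rfl | rfl)
          · exact ⟨show k ≤ C.m + 1 by omega, Or.inl (by rw [C.pA_ch hk1 hk2, hvk])⟩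
          · refine ⟨show k - 1 ≤ C.m + 1 by omega, Or.inr ?_⟩
            rw [C.pB_ch (show k - 1 + 1 ≤ C.m by omega), Nat.sub_add_cancel hk1, hvk]
          · exact ⟨⟨hk1, hk2⟩, Or.inl hvk.symm⟩
          · exact ⟨⟨hk1, hk2⟩, Or.inl hvk.symm⟩
      · have : k ≠ k - 1 := by omega
        simp [this]
    rw [hperm.length_eq]
    rfl
  · left
    rw [hdeg, List.length_eq_zero_iff, List.filter_eq_nil_iff]
    intro c hc
    rw [mem_crList] at hc
    rw [decide_eq_true_iff]
    exact fun h => hex ⟨c, hc, h⟩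

end Geo

end Pool.Agent.MP_7070f9_lc
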