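import Pool.Agent.MP_7070f9_lc.Net

/-!
# Two creases meet at most in end points
-/

open Set Filter Topology

namespace Pool.Agent.MP_7070f9_lc

/-- The creases above the lower curve. -/
def Cr.Up : Cr → Prop
  | .ch _ => False
  | .vt _ => False
  | _ => True

namespace Ch
variable (C : Ch)

theorem Γ_17 : C.Γ (1 / 7) = (C.D - 7) / 7 := by
  rw [C.Γ_right le_rfl]; ring

theorem seg_up {c : Cr} (hc : c.Ok C.m) (hu : c.Up) {x y : ℝ} (h : C.Seg c x y) :
    C.Γ x ≤ y ∧ (y = C.Γ x → ∃ j, 1 ≤ j ∧ j ≤ C.m + 1 ∧ x = C.ξ j) := by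
  cases c with
  | ch k => exact hu.elim
  | vt k => exact hu.elim
  | sp k =>
    obtain ⟨⟨h1, h2⟩, rfl⟩ := h
    refine ⟨C.Γ_le_spoke hc.1 hc.2 h1 h2, fun h3 => ⟨k, hc.1, by have := hc.2; omega, ?_⟩⟩
    rw [C.ξ_mid hc.1 hc.2]
    rcases h1.eq_or_lt with h4 | h4
    · exact h4.symm
    rcases h2.eq_or_lt with h5 | h5
    · subst h5
      rw [Γ_zero] at h3
      norm_num at h3
    · have := C.Γ_lt_spoke hc.1 hc.2 h4 h5
      linarith
  | vw =>
    obtain ⟨⟨h1, h2⟩, rfl⟩ := h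
    rw [C.Γ_pos h1 h2]
    refine ⟨by linarith, fun h3 => ⟨C.m + 1, by omega, le_rfl, ?_⟩⟩
    rw [ξ_m1]; linarith
  | o2 =>
    obtain ⟨⟨h1, h2⟩, rfl⟩ := h
    rcases le_total x (1 / 7) with h3 | h3
    · rw [C.Γ_pos h1 h3]
      exact ⟨by linarith, fun h4 => absurd h4 (by intro h4; linarith)⟩
    · rw [C.Γ_right h3]
      exact ⟨by linarith, fun h4 => absurd h4 (by intro h4; linarith)⟩
  | o3 =>
    obtain ⟨rfl, h1, h2⟩ := h
    rw [Γ_zero]
    exact ⟨by linarith, fun h4 => absurd h4 (by intro h4; linarith)⟩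
  | q2 =>
    obtain ⟨⟨h1, h2⟩, rfl⟩ := h
    rw [C.Γ_right h1]
    refine ⟨by linarith, fun h3 => ⟨C.m + 1, by omega, le_rfl, ?_⟩⟩
    rw [ξ_m1]; linarith
  | q3 =>
    obtain ⟨⟨h1, h2⟩, rfl⟩ := h
    rw [C.Γ_right h1]
    refine ⟨by linarith, fun h3 => ⟨C.m + 1, by omega, le_rfl, ?_⟩⟩
    rw [ξ_m1]; linarith

theorem opn_up {c : Cr} (hc : c.Ok C.m) (hu : c.Up) {x y : ℝ} (h : C.Opn c x y) : C.Γ x < y := by
  cases c with
  | ch k => exact hu.elim
  | vt k => exact hu.elim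
  | sp k =>
    obtain ⟨⟨h1, h2⟩, rfl⟩ := h
    exact C.Γ_lt_spoke hc.1 hc.2 h1 h2
  | vw =>
    obtain ⟨⟨h1, h2⟩, rfl⟩ := h
    rw [C.Γ_pos h1.le h2.le]; linarith
  | o2 =>
    obtain ⟨⟨h1, h2⟩, rfl⟩ := h
    rcases le_total x (1 / 7) with h3 | h3
    · rw [C.Γ_pos h1.le h3]; linarith
    · rw [C.Γ_right h3]; linarith
  | o3 =>
    obtain ⟨rfl, h1, h2⟩ := h
    rw [Γ_zero]; linarith
  | q2 =>
    obtain ⟨⟨h1, h2⟩, rfl⟩ := h
    rw [C.Γ_right h1.le]; linarith
  | q3 =>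
    obtain ⟨⟨h1, h2⟩, rfl⟩ := h
    rw [C.Γ_right h1.le]; linarith

theorem ξ_not_between {j k : ℕ} (hj : j ≤ C.m + 1) (hk : k ≤ C.m + 2) (h1 : C.ξ j < C.ξ k)
    (h2 : C.ξ k < C.ξ (j + 1)) : False := by
  rcases Nat.lt_or_ge j k with h | h
  · have := C.ξ_le (show j + 1 ≤ k from h) hk
    linarith
  · have := C.ξ_le h (by omega)
    linarith

theorem seg_vt {k : ℕ} (h1 : 1 ≤ k) (hk : k ≤ C.m) {x y : ℝ} (h : C.Seg (.vt k) x y) :
    x = C.ξ k ∧ y ≤ C.Γ x := by
  obtain ⟨rfl, h2, h3⟩ := h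
  exact ⟨(C.ξ_mid h1 hk).symm, by rw [C.Γ_x h1 hk]; exact h3⟩

theorem opn_vt {k : ℕ} (h1 : 1 ≤ k) (hk : k ≤ C.m) {x y : ℝ} (h : C.Opn (.vt k) x y) :
    x = C.ξ k ∧ y < C.Γ x := by
  obtain ⟨rfl, h2, h3⟩ := h
  exact ⟨(C.ξ_mid h1 hk).symm, by rw [C.Γ_x h1 hk]; exact h3⟩

/-- The relative interior of a crease does not meet another crease. -/
theorem disj {c c' : Cr} (hc : c.Ok C.m) (hc' : c'.Ok C.m) (hne : c ≠ c') {x y : ℝ}
    (h : C.Opn c x y) (h' : C.Seg c' x y) : False := by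
  by_cases hu : c.Up
  · have hu1 := C.opn_up hc hu h
    by_cases hu' : c'.Up
    · cases c with
      | ch k => exact hu
      | vt k => exact hu
      | sp k =>
        obtain ⟨⟨h1, h2⟩, h3⟩ := h
        cases c' with
        | ch k => exact hu'
        | vt k => exact hu'
        | sp j =>
          obtain ⟨⟨h4, h5⟩, h6⟩ := h'
          rw [h3] at h6
          have h7 : C.g k = C.g j := mul_right_cancel₀ h2.ne h6
          rcases lt_trichotomy k j with h8 | h8 | h8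
          · exact absurd h7 (C.g_lt h8).ne
          · exact hne (by rw [h8])
          · exact absurd h7 (C.g_lt h8).ne'
        | vw => obtain ⟨⟨h4, h5⟩, h6⟩ := h'; linarith
        | o2 => obtain ⟨⟨h4, h5⟩, h6⟩ := h'; linarith
        | o3 => obtain ⟨h4, h5, h6⟩ := h'; linarith
        | q2 => obtain ⟨⟨h4, h5⟩, h6⟩ := h'; linarith
        | q3 => obtain ⟨⟨h4, h5⟩, h6⟩ := h'; linarith
      | vw =>
        obtain ⟨⟨h1, h2⟩, h3⟩ := h
        cases c' with
        | ch k => exact hu'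
        | vt k => exact hu'
        | sp j => obtain ⟨⟨h4, h5⟩, h6⟩ := h'; linarith
        | vw => exact hne rfl
        | o2 => obtain ⟨⟨h4, h5⟩, h6⟩ := h'; linarith
        | o3 => obtain ⟨h4, h5, h6⟩ := h'; linarith
        | q2 => obtain ⟨⟨h4, h5⟩, h6⟩ := h'; linarith
        | q3 => obtain ⟨⟨h4, h5⟩, h6⟩ := h'; linarith
      | o2 =>
        obtain ⟨⟨h1, h2⟩, h3⟩ := h
        cases c' with
        | ch k => exact hu'
        | vt k => exact hu'
        | sp j => obtain ⟨⟨h4, h5⟩, h6⟩ := h'; linarith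
        | vw => obtain ⟨⟨h4, h5⟩, h6⟩ := h'; linarith
        | o2 => exact hne rfl
        | o3 => obtain ⟨h4, h5, h6⟩ := h'; linarith
        | q2 => obtain ⟨⟨h4, h5⟩, h6⟩ := h'; linarith
        | q3 => obtain ⟨⟨h4, h5⟩, h6⟩ := h'; linarith
      | o3 =>
        obtain ⟨h1, h2, h3⟩ := h
        subst h1
        cases c' with
        | ch k => exact hu'
        | vt k => exact hu'
        | sp j => obtain ⟨⟨h4, h5⟩, h6⟩ := h'; linarith
        | vw => obtain ⟨⟨h4, h5⟩, h6⟩ := h'; linarith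
        | o2 => obtain ⟨⟨h4, h5⟩, h6⟩ := h'; linarith
        | o3 => exact hne rfl
        | q2 => obtain ⟨⟨h4, h5⟩, h6⟩ := h'; linarith
        | q3 => obtain ⟨⟨h4, h5⟩, h6⟩ := h'; linarith
      | q2 =>
        obtain ⟨⟨h1, h2⟩, h3⟩ := h
        cases c' with
        | ch k => exact hu'
        | vt k => exact hu'
        | sp j => obtain ⟨⟨h4, h5⟩, h6⟩ := h'; linarith
        | vw => obtain ⟨⟨h4, h5⟩, h6⟩ := h'; linarith
        | o2 => obtain ⟨⟨h4, h5⟩, h6⟩ := h'; linarith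
        | o3 => obtain ⟨h4, h5, h6⟩ := h'; linarith
        | q2 => exact hne rfl
        | q3 => obtain ⟨⟨h4, h5⟩, h6⟩ := h'; linarith
      | q3 =>
        obtain ⟨⟨h1, h2⟩, h3⟩ := h
        cases c' with
        | ch k => exact hu'
        | vt k => exact hu'
        | sp j => obtain ⟨⟨h4, h5⟩, h6⟩ := h'; linarith
        | vw => obtain ⟨⟨h4, h5⟩, h6⟩ := h'; linarith
        | o2 => obtain ⟨⟨h4, h5⟩, h6⟩ := h'; linarith
        | o3 => obtain ⟨h4, h5, h6⟩ := h'; linarith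
        | q2 => obtain ⟨⟨h4, h5⟩, h6⟩ := h'; linarith
        | q3 => exact hne rfl
    · cases c' with
      | ch k =>
        have := h'.2
        linarith
      | vt k =>
        have := (C.seg_vt hc'.1 hc'.2 h').2
        linarith
      | _ => exact hu' trivial
  · cases c with
    | ch k =>
      have hk : k ≤ C.m + 1 := hc
      obtain ⟨⟨h1, h2⟩, h3⟩ := h
      by_cases hu' : c'.Up
      · obtain ⟨j, hj1, hj2, hj3⟩ := (C.seg_up hc' hu' h').2 h3
        rw [hj3] at h1 h2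
        exact C.ξ_not_between hk (by omega) h1 h2
      · cases c' with
        | ch j =>
          have hj : j ≤ C.m + 1 := hc'
          obtain ⟨⟨h4, h5⟩, h6⟩ := h'
          rcases lt_trichotomy k j with h8 | h8 | h8
          · have := C.ξ_le (show k + 1 ≤ j from h8) (by omega)
            linarith
          · exact hne (by rw [h8])
          · have := C.ξ_le (show j + 1 ≤ k from h8) (by omega)
            linarith
        | vt j =>
          have h4 := (C.seg_vt hc'.1 hc'.2 h').1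
          have hj := hc'.2
          rw [h4] at h1 h2
          exact C.ξ_not_between hk (by omega) h1 h2
        | _ => exact hu' trivial
    | vt k =>
      obtain ⟨h1, h2⟩ := C.opn_vt hc.1 hc.2 h
      by_cases hu' : c'.Up
      · have := (C.seg_up hc' hu' h').1
        linarith
      · cases c' with
        | ch j =>
          have := h'.2
          linarith
        | vt j =>
          have h4 := (C.seg_vt hc'.1 hc'.2 h').1
          rw [h1] at h4
          have hk := hc.2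
          have hj := hc'.2
          rcases lt_trichotomy k j with h8 | h8 | h8
          · exact absurd h4 (C.ξ_lt h8 (by omega)).ne
          · exact hne (by rw [h8])
          · exact absurd h4 (C.ξ_lt h8 (by omega)).ne'
        | _ => exact hu' trivial
    | _ => exact hu trivial

/-! ### The creases lie on the paper -/

theorem Γ_ge_N (hD : 7 ≤ C.D) {x : ℝ} (h1 : -2 ≤ x) (h2 : x ≤ 8 / 7) : -C.N < C.Γ x := by
  have hm : 1 ≤ C.m := by have := C.hm; omega
  have hg := C.g_ge_one hm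
  rcases le_total x (C.x C.m) with h | h
  · rcases le_total (-1) x with h3 | h3
    · have := C.Γ_ge h h3
      rw [N]; linarith
    · rw [C.Γ_eq (Nat.zero_le _) (Or.inl rfl) (Or.inr (by rw [zero_add, x_one]; exact h3))
        (by linarith), s_zero, r_zero, N]
      linarith
  · rcases le_total x (1 / 7) with h3 | h3
    · rw [C.Γ_mid h h3, N]
      have h4 := C.x_ge hm
      have h5 := C.D_lt
      nlinarith
    · rw [C.Γ_right h3, N]
      nlinarith

/-- The points of the creases lie on the paper. -/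
theorem seg_paper (hD : 7 ≤ C.D) {c : Cr} (hc : c.Ok C.m) {x y : ℝ} (h : C.Seg c x y) :
    (-2 ≤ x ∧ x ≤ 8 / 7) ∧ (-C.N ≤ y ∧ y ≤ C.N) := by
  have hm : 1 ≤ C.m := by have := C.hm; omega
  have hg := C.g_ge_one hm
  have hDg := C.D_lt
  cases c with
  | ch k =>
    have hk : k ≤ C.m + 1 := hc
    obtain ⟨⟨h1, h2⟩, rfl⟩ := h
    have h3 := C.ξ_le (Nat.zero_le k) (by omega)
    have h4 := C.ξ_le (show k + 1 ≤ C.m + 2 by omega) le_rfl
    rw [ξ_zero] at h3
    rw [ξ_m2] at h4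
    refine ⟨⟨by linarith, by linarith⟩, (C.Γ_ge_N hD (by linarith) (by linarith)).le, ?_⟩
    have h5 : C.Γ x ≤ max 0 (C.Γ x) := le_max_right _ _
    rcases le_total x 0 with h0 | h0
    · have h6 : C.Γ x ≤ 1 := by
        rcases le_total (-1) x with h7 | h7
        · have := C.Γ_le_spoke le_rfl hm (by rw [x_one]; exact h7) h0
          rw [g_one] at this
          linarith
        · rw [C.Γ_eq (Nat.zero_le _) (Or.inl rfl) (Or.inr (by rw [zero_add, x_one]; exact h7))
            (by linarith), s_zero, r_zero]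
          linarith
      rw [N]; linarith
    · rcases le_total x (1 / 7) with h7 | h7
      · rw [C.Γ_pos h0 h7, N]; nlinarith
      · rw [C.Γ_right h7, N]; nlinarith
  | vt k =>
    obtain ⟨rfl, h1, h2⟩ := h
    have h3 := C.x_ge hc.1
    have h4 := C.x_neg hc.1
    have h5 := C.g_pos hc.1
    refine ⟨⟨by linarith, by linarith⟩, h1, ?_⟩
    rw [N]; nlinarith
  | sp k =>
    obtain ⟨⟨h1, h2⟩, rfl⟩ := h
    have h3 := C.x_ge hc.1
    have h5 := C.g_pos hc.1
    have h6 := C.g_le hc.2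
    refine ⟨⟨by linarith, by linarith⟩, ?_, ?_⟩
    · rw [N]; nlinarith
    · rw [N]; nlinarith
  | vw =>
    obtain ⟨⟨h1, h2⟩, rfl⟩ := h
    refine ⟨⟨by linarith, by linarith⟩, ?_, ?_⟩
    · rw [N]; nlinarith
    · rw [N]; nlinarith
  | o2 =>
    obtain ⟨⟨h1, h2⟩, rfl⟩ := h
    refine ⟨⟨by linarith, by linarith⟩, ?_, ?_⟩
    · rw [N]; nlinarith
    · rw [N]; nlinarith
  | o3 =>
    obtain ⟨rfl, h1, h2⟩ := h
    exact ⟨⟨by norm_num, by norm_num⟩, by linarith [C.N_pos], h2⟩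
  | q2 =>
    obtain ⟨⟨h1, h2⟩, rfl⟩ := h
    refine ⟨⟨by linarith, by linarith⟩, ?_, ?_⟩
    · rw [N]; nlinarith
    · rw [N]; nlinarith
  | q3 =>
    obtain ⟨⟨h1, h2⟩, rfl⟩ := h
    refine ⟨⟨by linarith, by linarith⟩, ?_, ?_⟩
    · rw [N]; nlinarith
    · rw [N]; nlinarith

/-- The relative interiors of the creases lie in the interior of the paper. -/
theorem opn_paper (hD : 7 ≤ C.D) {c : Cr} (hc : c.Ok C.m) {x y : ℝ} (h : C.Opn c x y) :
    (-2 < x ∧ x < 8 / 7) ∧ (-C.N < y ∧ y < C.N) := by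
  have hm : 1 ≤ C.m := by have := C.hm; omega
  have hg := C.g_ge_one hm
  have hDg := C.D_lt
  cases c with
  | ch k =>
    have hk : k ≤ C.m + 1 := hc
    obtain ⟨⟨h1, h2⟩, rfl⟩ := h
    have h3 := C.ξ_le (Nat.zero_le k) (by omega)
    have h4 := C.ξ_le (show k + 1 ≤ C.m + 2 by omega) le_rfl
    rw [ξ_zero] at h3
    rw [ξ_m2] at h4
    refine ⟨⟨by linarith, by linarith⟩, C.Γ_ge_N hD (by linarith) (by linarith), ?_⟩
    rcases le_total x 0 with h0 | h0
    · have h6 : C.Γ x ≤ 1 := by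
        rcases le_total (-1) x with h7 | h7
        · have := C.Γ_le_spoke le_rfl hm (by rw [x_one]; exact h7) h0
          rw [g_one] at this
          linarith
        · rw [C.Γ_eq (Nat.zero_le _) (Or.inl rfl) (Or.inr (by rw [zero_add, x_one]; exact h7))
            (by linarith), s_zero, r_zero]
          linarith
      rw [N]; linarith
    · rcases le_total x (1 / 7) with h7 | h7
      · rw [C.Γ_pos h0 h7, N]; nlinarith
      · rw [C.Γ_right h7, N]; nlinarith
  | vt k =>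
    obtain ⟨rfl, h1, h2⟩ := h
    have h3 := C.x_ge hc.1
    have h4 := C.x_neg hc.1
    have h5 := C.g_pos hc.1
    refine ⟨⟨by linarith, by linarith⟩, h1, ?_⟩
    rw [N]; nlinarith
  | sp k =>
    obtain ⟨⟨h1, h2⟩, rfl⟩ := h
    have h3 := C.x_ge hc.1
    have h5 := C.g_pos hc.1
    have h6 := C.g_le hc.2
    refine ⟨⟨by linarith, by linarith⟩, ?_, ?_⟩
    · rw [N]; nlinarith
    · rw [N]; nlinarith
  | vw =>
    obtain ⟨⟨h1, h2⟩, rfl⟩ := h
    refine ⟨⟨by linarith, by linarith⟩, ?_, ?_⟩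
    · rw [N]; nlinarith
    · rw [N]; nlinarith
  | o2 =>
    obtain ⟨⟨h1, h2⟩, rfl⟩ := h
    refine ⟨⟨by linarith, by linarith⟩, ?_, ?_⟩
    · rw [N]; nlinarith
    · rw [N]; nlinarith
  | o3 =>
    obtain ⟨rfl, h1, h2⟩ := h
    exact ⟨⟨by norm_num, by norm_num⟩, by linarith [C.N_pos], h2⟩
  | q2 =>
    obtain ⟨⟨h1, h2⟩, rfl⟩ := h
    refine ⟨⟨by linarith, by linarith⟩, ?_, ?_⟩
    · rw [N]; nlinarith
    · rw [N]; nlinarith
  | q3 =>
    obtain ⟨⟨h1, h2⟩, rfl⟩ := h
    refine ⟨⟨by linarith, by linarith⟩, ?_, ?_⟩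
    · rw [N]; nlinarith
    · rw [N]; nlinarith

end Ch

end Pool.Agent.MP_7070f9_lc
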