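import Pool.Agent.MP_7070f9_lc.Alg

/-!
# The limit `t → 0` of a nontrivial family of frames
-/

open Filter Topology

namespace Pool.Agent.MP_7070f9_lc

theorem l1_dot_smul_left (a : ℝ) (x y : Space) : dot (a • x) y = a * dot x y := by
  unfold dot
  simp only [PiLp.smul_apply, smul_eq_mul]
  ring

theorem l1_dot_smul_right (a : ℝ) (x y : Space) : dot x (a • y) = a * dot x y := by
  unfold dot
  simp only [PiLp.smul_apply, smul_eq_mul]
  ring

theorem l1_cont_dot : Continuous (fun p : Space × Space => dot p.1 p.2) := by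
  unfold dot
  fun_prop

theorem l1_tendsto_dot {F : Filter ℝ} {f g : ℝ → Space} {x y : Space} (hf : Tendsto f F (𝓝 x))
    (hg : Tendsto g F (𝓝 y)) : Tendsto (fun t => dot (f t) (g t)) F (𝓝 (dot x y)) :=
  (l1_cont_dot.tendsto (x, y)).comp (hf.prodMk_nhds hg)

/-- a bounded family of vectors converges along an ultrafilter -/
theorem l1_lim (U : Ultrafilter ℝ) (f : ℝ → Space) (B : ℝ)
    (h : ∀ᶠ t in (U : Filter ℝ), dot (f t) (f t) ≤ B) : ∃ L, Tendsto f U (𝓝 L) := by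
  have hc : IsCompact (Metric.closedBall (0 : Space) (|B| + 1)) := isCompact_closedBall _ _
  obtain ⟨L, -, hL⟩ := hc.ultrafilter_le_nhds (U.map f) (by
    rw [le_principal_iff, Ultrafilter.coe_map, mem_map]
    filter_upwards [h] with t ht
    rw [Set.mem_preimage, Metric.mem_closedBall]
    have h1 := dist_sq (f t) 0
    rw [sub_zero] at h1
    have h2 : dist (f t) 0 ^ 2 ≤ |B| := by
      rw [h1]
      exact ht.trans (le_abs_self B)
    have h3 : 0 ≤ dist (f t) 0 := dist_nonneg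
    nlinarith [sq_nonneg (dist (f t) 0 - 1), abs_nonneg B])
  exact ⟨L, hL⟩

theorem l1_dot_e1 (x : Space) : dot e1 x = x 0 := by
  unfold dot e1
  simp

theorem l1_dot_e2 (x : Space) : dot e2 x = x 1 := by
  unfold dot e2
  simp

theorem l1_dot_flat {x y : Space} (h0 : x 0 = 0) (h1 : x 1 = 0) : dot x y = x 2 * y 2 := by
  unfold dot
  rw [h0, h1]
  ring

/-- Let `R = √⟨c_0, c_0⟩ > 0`. Take an ultrafilter `𝒰 ≤ 𝓝[>] 0`. The vectors `c_k / R` (`k ≤ m`)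
and `v_2 / R`, `v_2 = Q_{O2} - Q_{O1}`, are bounded (`PRel.norm`, `Rel.V`), so they converge
along `𝒰`. Their limits are multiples of `e3`: `⟨Q', c_k⟩ / R = r_k⁻¹ R / 2 → 0` (`PRel.dotQ`) and
`⟨P_k, c_k⟩ / R → 0` (`PRel.dotP`), similarly for `v_2` with `Rel.v2Q`, `Rel.v2P`; note `R → 0`
because `Q' - Q_0 → e2 - e2 = 0`. Call the third coordinates of the limits `z k` and `τ`. Dividing
`PRel.norm`, `Rel.V` by `R²` and passing to the limit gives the equations, and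
`Rel.W` (with `Rel.vo`; its left side is nonnegative) gives the inequality. -/
theorem no_limit (C : Ch) (P Q : Cell → ℝ → Space)
    (hP : ∀ c, c.Ok C.m → Tendsto (P c) (𝓝[>] 0) (𝓝 e1))
    (hQ : ∀ c, c.Ok C.m → Tendsto (Q c) (𝓝[>] 0) (𝓝 e2))
    (hrel : ∀ᶠ t in 𝓝[>] (0 : ℝ), Rel C (fun c => P c t) (fun c => Q c t))
    (hne : ∀ᶠ t in 𝓝[>] (0 : ℝ), cv (fun c => Q c t) 0 ≠ 0) :
    ∃ (z : ℕ → ℝ) (τ : ℝ), z 0 ^ 2 = 1 ∧ (∀ k ≤ C.m, C.r k * z k ^ 2 = 1) ∧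
      25 * τ ^ 2 = (7 + C.i C.m) * (z C.m - z 0) ^ 2 -
        ∑ k ∈ Finset.Ico 1 C.m, C.η k * (z k - z 0) ^ 2 ∧
      0 ≤ z C.m ^ 2 - 4 * z C.m * (z C.m - z 0 - τ) - 5 * (z C.m - z 0 - τ) ^ 2 := by
  classical
  set U : Ultrafilter ℝ := Ultrafilter.of (𝓝[>] (0 : ℝ)) with hU
  have hUle : (U : Filter ℝ) ≤ 𝓝[>] (0 : ℝ) := Ultrafilter.of_le _
  set c : ℕ → ℝ → Space := fun k t => cv (fun c => Q c t) k with hc
  set R : ℝ → ℝ := fun t => √(dot (c 0 t) (c 0 t)) with hR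
  set u : ℕ → ℝ → Space := fun k t => (R t)⁻¹ • c k t with hu
  set w : ℝ → Space := fun t => (R t)⁻¹ • (Q .O2 t - Q .O1 t) with hw
  have hrelU : ∀ᶠ t in (U : Filter ℝ), Rel C (fun c => P c t) (fun c => Q c t) :=
    hrel.filter_mono hUle
  have hRU : ∀ᶠ t in (U : Filter ℝ), 0 < R t ∧ R t ^ 2 = dot (c 0 t) (c 0 t) := by
    filter_upwards [hne.filter_mono hUle] with t ht
    have h1 : 0 ≤ dot (c 0 t) (c 0 t) := dot_self_nonneg _
    have h2 : dot (c 0 t) (c 0 t) ≠ 0 := fun h => ht (dot_self_eq_zero h)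
    exact ⟨Real.sqrt_pos.2 (lt_of_le_of_ne h1 (Ne.symm h2)), Real.sq_sqrt h1⟩
  have hm0 : 0 ≤ C.m := Nat.zero_le _
  -- `R` tends to zero
  have hc0 : Tendsto (c 0) U (𝓝 0) := by
    have h1 := (hQ (.G 0) hm0).mono_left hUle
    have h2 := (hQ (.F 0) hm0).mono_left hUle
    have h3 := h1.sub h2
    rw [sub_self] at h3
    exact h3
  have hR0 : Tendsto R U (𝓝 0) := by
    have h1 := l1_tendsto_dot hc0 hc0
    have h2 : dot (0 : Space) 0 = 0 := by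
      unfold dot
      simp
    rw [h2] at h1
    have h3 := (Real.continuous_sqrt.tendsto 0).comp h1
    rw [Real.sqrt_zero] at h3
    exact h3
  -- scaled products
  have hscale : ∀ t, 0 < R t → ∀ x y : Space,
      dot ((R t)⁻¹ • x) ((R t)⁻¹ • y) = dot x y / R t ^ 2 := by
    intro t ht x y
    rw [l1_dot_smul_left, l1_dot_smul_right]
    field_simp
  have hsq : ∀ k ≤ C.m, ∀ᶠ t in (U : Filter ℝ), C.r k * dot (u k t) (u k t) = 1 := by
    intro k hk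
    filter_upwards [hrelU, hRU] with t h1 h2
    have h3 := h1.prel.norm hk
    have h4 : dot (u k t) (u k t) = dot (c k t) (c k t) / R t ^ 2 := hscale t h2.1 _ _
    rw [h4, ← mul_div_assoc, div_eq_one_iff_eq (pow_pos h2.1 2).ne', h2.2]
    exact h3
  have hlim : ∀ k : ℕ, ∃ L : Space, k ≤ C.m → Tendsto (u k) U (𝓝 L) := by
    intro k
    by_cases hk : k ≤ C.m
    · obtain ⟨L, hL⟩ := l1_lim U (u k) (1 / C.r k) (by
        filter_upwards [hsq k hk] with t ht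
        rw [le_div_iff₀ (C.r_pos k), mul_comm]
        exact ht.le)
      exact ⟨L, fun _ => hL⟩
    · exact ⟨0, fun h => absurd h hk⟩
  choose ℓ hℓ using hlim
  -- the first two coordinates of the limits are zero
  have hgen : ∀ (A : ℝ → Space) (a : Space) (x : ℝ → Space) (L : Space) (s : ℝ),
      Tendsto A U (𝓝 a) → Tendsto (fun t => (R t)⁻¹ • x t) U (𝓝 L) →
      (∀ᶠ t in (U : Filter ℝ), dot (A t) (x t) = s * dot (x t) (x t)) → dot a L = 0 := by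
    intro A a x L s hA hx hd
    have h1 := l1_tendsto_dot hA hx
    have h2 := (l1_tendsto_dot hx hx).const_mul s
    have h3 := hR0.mul h2
    rw [zero_mul] at h3
    refine tendsto_nhds_unique h1 (h3.congr' ?_)
    filter_upwards [hd, hRU] with t h4 h5
    have h6 := h5.1.ne'
    rw [hscale t h5.1, l1_dot_smul_right, h4]
    field_simp
  have hPU : ∀ c', c'.Ok C.m → Tendsto (P c') U (𝓝 e1) := fun c' h => (hP c' h).mono_left hUle
  have hQU : ∀ c', c'.Ok C.m → Tendsto (Q c') U (𝓝 e2) := fun c' h => (hQ c' h).mono_left hUle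
  have hℓ1 : ∀ k ≤ C.m, ℓ k 1 = 0 := by
    intro k hk
    have h1 := hgen (Q (.G 0)) e2 (c k) (ℓ k) (1 / 2) (hQU _ hm0) (hℓ k hk) (by
      filter_upwards [hrelU] with t h1
      have h2 := h1.prel.dotQ hk
      have h3 : dot (Q (.G 0) t) (c k t) = dot (c k t) (c k t) / 2 := h2
      rw [h3]
      ring)
    rwa [l1_dot_e2] at h1
  have hℓ0 : ∀ k ≤ C.m, ℓ k 0 = 0 := by
    intro k hk
    have h1 := hgen (P (.F k)) e1 (c k) (ℓ k) (C.s k / 2) (hPU _ hk) (hℓ k hk) (by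
      filter_upwards [hrelU] with t h1
      exact h1.prel.dotP hk)
    rwa [l1_dot_e1] at h1
  have hz : ∀ k ≤ C.m, C.r k * ℓ k 2 ^ 2 = 1 := by
    intro k hk
    have h1 := (l1_tendsto_dot (hℓ k hk) (hℓ k hk)).const_mul (C.r k)
    rw [l1_dot_flat (hℓ0 k hk) (hℓ1 k hk)] at h1
    have h2 : Tendsto (fun _ : ℝ => (1 : ℝ)) U (𝓝 1) := tendsto_const_nhds
    have h3 := tendsto_nhds_unique h1 (h2.congr' (by
      filter_upwards [hsq k hk] with t ht
      exact ht.symm))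
    rw [← h3]
    ring
  -- the vector `w`
  set D : ℕ → ℝ → ℝ := fun k t => dot (u k t - u 0 t) (u k t - u 0 t) with hD
  have hDlim : ∀ k ≤ C.m, Tendsto (D k) U (𝓝 ((ℓ k 2 - ℓ 0 2) ^ 2)) := by
    intro k hk
    have h1 := (hℓ k hk).sub (hℓ 0 hm0)
    have h2 := l1_tendsto_dot h1 h1
    have h3 : dot (ℓ k - ℓ 0) (ℓ k - ℓ 0) = (ℓ k 2 - ℓ 0 2) ^ 2 := by
      rw [l1_dot_flat]
      · rw [PiLp.sub_apply]
        ring
      · rw [PiLp.sub_apply, hℓ0 k hk, hℓ0 0 hm0, sub_zero]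
      · rw [PiLp.sub_apply, hℓ1 k hk, hℓ1 0 hm0, sub_zero]
    rw [h3] at h2
    exact h2
  set E : ℝ → ℝ := fun t => (7 + C.i C.m) * D C.m t - ∑ k ∈ Finset.Ico 1 C.m, C.η k * D k t with hE
  have hElim : Tendsto E U (𝓝 ((7 + C.i C.m) * (ℓ C.m 2 - ℓ 0 2) ^ 2 -
      ∑ k ∈ Finset.Ico 1 C.m, C.η k * (ℓ k 2 - ℓ 0 2) ^ 2)) := by
    refine ((hDlim C.m le_rfl).const_mul _).sub (tendsto_finsetSum _ ?_)
    intro k hk
    exact (hDlim k (Finset.mem_Ico.1 hk).2.le).const_mul _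
  have hDeq : ∀ k t, 0 < R t → D k t = dot (c k t - c 0 t) (c k t - c 0 t) / R t ^ 2 := by
    intro k t ht
    have h1 : u k t - u 0 t = (R t)⁻¹ • (c k t - c 0 t) := by
      simp only [hu]
      rw [smul_sub]
    simp only [hD]
    rw [h1, hscale t ht]
  have hwE : ∀ᶠ t in (U : Filter ℝ), 25 * dot (w t) (w t) = E t := by
    filter_upwards [hrelU, hRU] with t h1 h2
    have h3 := h1.V
    have h4 : dot (w t) (w t) = dot (Q .O2 t - Q .O1 t) (Q .O2 t - Q .O1 t) / R t ^ 2 :=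
      hscale t h2.1 _ _
    have h5 : E t = ((7 + C.i C.m) * dot (c C.m t - c 0 t) (c C.m t - c 0 t) -
        ∑ k ∈ Finset.Ico 1 C.m, C.η k * dot (c k t - c 0 t) (c k t - c 0 t)) / R t ^ 2 := by
      simp only [hE]
      rw [hDeq _ t h2.1, sub_div, Finset.sum_div, mul_div_assoc]
      congr 1
      apply Finset.sum_congr rfl
      intro k _
      rw [hDeq _ t h2.1, mul_div_assoc]
    rw [h4, h5, ← h3]
    ring
  obtain ⟨β, hβ⟩ := l1_lim U w (((7 + C.i C.m) * (ℓ C.m 2 - ℓ 0 2) ^ 2 -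
      ∑ k ∈ Finset.Ico 1 C.m, C.η k * (ℓ k 2 - ℓ 0 2) ^ 2 + 1) / 25) (by
    have h1 := hElim.eventually (eventually_le_nhds (lt_add_one _))
    filter_upwards [h1, hwE] with t h2 h3
    rw [le_div_iff₀ (by norm_num), mul_comm, h3]
    exact h2)
  have hβ1 : β 1 = 0 := by
    have h1 := hgen (Q .O2) e2 (fun t => Q .O2 t - Q .O1 t) β (1 / 2) (hQU _ trivial) hβ (by
      filter_upwards [hrelU] with t h1
      have h2 : dot (Q .O2 t) (Q .O2 t - Q .O1 t) =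
        dot (Q .O2 t - Q .O1 t) (Q .O2 t - Q .O1 t) / 2 := h1.v2Q
      rw [h2]
      ring)
    rwa [l1_dot_e2] at h1
  have hβ0 : β 0 = 0 := by
    have h1 := hgen (P .O1) e1 (fun t => Q .O2 t - Q .O1 t) β ((C.D + 18) / 2) (hPU _ trivial) hβ (by
      filter_upwards [hrelU] with t h1
      exact h1.v2P)
    rwa [l1_dot_e1] at h1
  have heq : 25 * β 2 ^ 2 = (7 + C.i C.m) * (ℓ C.m 2 - ℓ 0 2) ^ 2 -
        ∑ k ∈ Finset.Ico 1 C.m, C.η k * (ℓ k 2 - ℓ 0 2) ^ 2 := by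
    have h1 := (l1_tendsto_dot hβ hβ).const_mul 25
    rw [l1_dot_flat hβ0 hβ1] at h1
    have h3 := tendsto_nhds_unique h1 (hElim.congr' (by
      filter_upwards [hwE] with t ht
      exact ht.symm))
    rw [← h3]
    ring
  -- the inequality at `W`
  have hvo : Tendsto (fun t => u C.m t - u 0 t - w t) U (𝓝 (ℓ C.m - ℓ 0 - β)) :=
    ((hℓ C.m le_rfl).sub (hℓ 0 hm0)).sub hβ
  have hineq : 0 ≤ ℓ C.m 2 ^ 2 - 4 * ℓ C.m 2 * (ℓ C.m 2 - ℓ 0 2 - β 2) -
      5 * (ℓ C.m 2 - ℓ 0 2 - β 2) ^ 2 := by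
    have h1 := ((l1_tendsto_dot (hℓ C.m le_rfl) (hℓ C.m le_rfl)).sub
      ((l1_tendsto_dot (hℓ C.m le_rfl) hvo).const_mul 4)).sub
      ((l1_tendsto_dot hvo hvo).const_mul 5)
    have h2 : dot (ℓ C.m) (ℓ C.m) - 4 * dot (ℓ C.m) (ℓ C.m - ℓ 0 - β) -
        5 * dot (ℓ C.m - ℓ 0 - β) (ℓ C.m - ℓ 0 - β) =
        ℓ C.m 2 ^ 2 - 4 * ℓ C.m 2 * (ℓ C.m 2 - ℓ 0 2 - β 2) -
        5 * (ℓ C.m 2 - ℓ 0 2 - β 2) ^ 2 := by
      unfold dot
      simp only [PiLp.sub_apply]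
      rw [hℓ0 C.m le_rfl, hℓ1 C.m le_rfl, hℓ0 0 hm0, hℓ1 0 hm0, hβ0, hβ1]
      ring
    rw [h2] at h1
    refine ge_of_tendsto h1 ?_
    filter_upwards [hrelU, hRU] with t h3 h4
    have h5 := h3.W
    have h6 : u C.m t - u 0 t - w t = (R t)⁻¹ • (Q .O1 t - Q (.F C.m) t) := by
      have h7 : Q .O1 t - Q (.F C.m) t = c C.m t - c 0 t - (Q .O2 t - Q .O1 t) := h3.vo
      rw [h7, smul_sub, smul_sub]
    have h8 : 0 ≤ dot (Q .Q1 t - Q .Q2 t) (Q .Q1 t - Q .Q2 t) := dot_self_nonneg _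
    rw [h6]
    have h9 : dot (u C.m t) (u C.m t) = dot (c C.m t) (c C.m t) / R t ^ 2 := hscale t h4.1 _ _
    have h10 : dot (u C.m t) ((R t)⁻¹ • (Q .O1 t - Q (.F C.m) t)) =
        dot (c C.m t) (Q .O1 t - Q (.F C.m) t) / R t ^ 2 := hscale t h4.1 _ _
    rw [h9, h10, hscale t h4.1]
    have h11 : dot (c C.m t) (c C.m t) / R t ^ 2 - 4 * (dot (c C.m t) (Q .O1 t - Q (.F C.m) t) / R t ^ 2) -
        5 * (dot (Q .O1 t - Q (.F C.m) t) (Q .O1 t - Q (.F C.m) t) / R t ^ 2) =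
        dot (Q .Q1 t - Q .Q2 t) (Q .Q1 t - Q .Q2 t) / R t ^ 2 := by
      rw [h5]
      ring
    rw [h11]
    exact div_nonneg h8 (sq_nonneg _)
  refine ⟨fun k => ℓ k 2, β 2, ?_, fun k hk => hz k hk, heq, hineq⟩
  have h1 := hz 0 hm0
  rw [C.r_zero, one_mul] at h1
  exact h1

end Pool.Agent.MP_7070f9_lc
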