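import Pool.Agent.MP_7070f9_lc.Defs

/-!
# A sum of square roots of natural numbers is rational only if all of them are natural numbers
-/

namespace Pool.Agent.MP_7070f9_lc

/-- The trace of an irrational square root of a rational number is zero. -/
theorem n1_trace {K : Type} [Field K] [Algebra ℚ K] [FiniteDimensional ℚ K] (y : K) (c : ℚ)
    (hy : y ^ 2 = algebraMap ℚ K c) (hn : ∀ r : ℚ, algebraMap ℚ K r ≠ y) :
    Algebra.trace ℚ K y = 0 := by
  have hmonic : (Polynomial.X ^ 2 - Polynomial.C c : Polynomial ℚ).Monic :=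
    Polynomial.monic_X_pow_sub_C c two_ne_zero
  have hdeg : (Polynomial.X ^ 2 - Polynomial.C c : Polynomial ℚ).natDegree = 2 :=
    Polynomial.natDegree_X_pow_sub_C
  have hroot : ∀ r : ℚ, ¬ (Polynomial.X ^ 2 - Polynomial.C c : Polynomial ℚ).IsRoot r := by
    intro r hr
    rw [Polynomial.IsRoot, Polynomial.eval_sub, Polynomial.eval_pow, Polynomial.eval_X,
      Polynomial.eval_C, sub_eq_zero] at hr
    have h1 : y ^ 2 = (algebraMap ℚ K r) ^ 2 := by rw [hy, ← hr, map_pow]
    rcases sq_eq_sq_iff_eq_or_eq_neg.1 h1 with h2 | h2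
    · exact hn r h2.symm
    · apply hn (-r)
      rw [map_neg, h2]
  have hirr : Irreducible (Polynomial.X ^ 2 - Polynomial.C c : Polynomial ℚ) := by
    rw [hmonic.irreducible_iff_roots_eq_zero_of_degree_le_three (by rw [hdeg]) (by rw [hdeg]; norm_num)]
    rw [Multiset.eq_zero_iff_forall_notMem]
    intro r hr
    exact hroot r (Polynomial.mem_roots'.1 hr).2
  have hmin : (Polynomial.X ^ 2 - Polynomial.C c : Polynomial ℚ) = minpoly ℚ y := by
    apply minpoly.eq_of_irreducible_of_monic hirr _ hmonic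
    simp [hy]
  rw [trace_eq_finrank_mul_minpoly_nextCoeff, ← hmin]
  have hnc : (Polynomial.X ^ 2 - Polynomial.C c : Polynomial ℚ).nextCoeff = 0 := by
    rw [Polynomial.nextCoeff_of_natDegree_pos (by rw [hdeg]; norm_num), hdeg]
    simp [Polynomial.coeff_X_pow]
  rw [hnc]
  simp

theorem n1_sqrtSum (a : List ℕ) : sqrtSum a = (a.map (fun x : ℕ => √(x : ℝ))).sum := rfl

/-- the rational part -/
noncomputable def n1_d (x : ℕ) : ℕ := by
  classical
  exact if IsSquare x then Nat.sqrt x else 0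

theorem n1_d_sq {x : ℕ} (h : IsSquare x) : ((n1_d x : ℕ) : ℝ) = √(x : ℝ) := by
  obtain ⟨r, rfl⟩ := h
  unfold n1_d
  rw [if_pos ⟨r, rfl⟩, Nat.sqrt_eq]
  push_cast
  rw [Real.sqrt_mul_self (Nat.cast_nonneg r)]

theorem n1_d_nsq {x : ℕ} (h : ¬ IsSquare x) : n1_d x = 0 := by
  unfold n1_d
  rw [if_neg h]

theorem n1_d_le (x : ℕ) : ((n1_d x : ℕ) : ℝ) ≤ √(x : ℝ) := by
  by_cases h : IsSquare x
  · exact (n1_d_sq h).le
  · rw [n1_d_nsq h]
    push_cast
    exact Real.sqrt_nonneg _

/-- Proof: let `K ⊆ ℝ` be the subfield generated over `ℚ` by the numbers `√x`, `x ∈ a`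
(`IntermediateField.adjoin ℚ`, finite-dimensional since the generators are integral and finitely
many). The trace of `√x` from `K` to `ℚ` is `0` if `√x` is irrational (its minimal polynomial is
`X² - x`; `Algebra.trace_eq_finrank_mul_minpoly_nextCoeff` or `trace_eq_sum_roots`) and
`[K : ℚ] √x ≥ 0` if it is rational. Taking the trace of `∑ √x = q` and comparing with
`[K : ℚ] q` shows that the sum of the irrational `√x` is `0`, so there are none (they are
positive). A rational `√x` is a natural number (`irrational_sqrt_natCast_iff` or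
`Nat.Prime`-free lemmas such as `irrational_sqrt_natCast_iff`). -/
theorem isSquare_of_sqrtSum_rat (a : List ℕ) (q : ℚ) (h : sqrtSum a = q) :
    ∀ x ∈ a, IsSquare x := by
  classical
  set S : Set ℝ := ↑(a.toFinset.image (fun x : ℕ => √(x : ℝ))) with hS
  have hSfin : Finite S := Finset.finite_toSet _ |>.to_subtype
  have hint : ∀ y ∈ S, IsIntegral ℚ y := by
    intro y hy
    rw [hS, Finset.mem_coe, Finset.mem_image] at hy
    obtain ⟨x, -, rfl⟩ := hy
    refine ⟨Polynomial.X ^ 2 - Polynomial.C (x : ℚ), Polynomial.monic_X_pow_sub_C _ two_ne_zero, ?_⟩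
    simp [Real.sq_sqrt (Nat.cast_nonneg x)]
  have hfd : FiniteDimensional ℚ (IntermediateField.adjoin ℚ S) :=
    IntermediateField.finiteDimensional_adjoin hint
  set K := IntermediateField.adjoin ℚ S with hK
  have hmem : ∀ x ∈ a, √(x : ℝ) ∈ K := by
    intro x hx
    apply IntermediateField.subset_adjoin
    rw [hS, Finset.mem_coe, Finset.mem_image]
    exact ⟨x, List.mem_toFinset.2 hx, rfl⟩
  let f : ℕ → K := fun x => if hx : √(x : ℝ) ∈ K then ⟨√(x : ℝ), hx⟩ else 0
  have hf : ∀ x ∈ a, ((f x : K) : ℝ) = √(x : ℝ) := by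
    intro x hx
    simp only [f]
    rw [dif_pos (hmem x hx)]
  have hcoe : ∀ r : ℚ, ((algebraMap ℚ K r : K) : ℝ) = (r : ℝ) := by
    intro r
    simp
  set n : ℕ := Module.finrank ℚ K with hn
  have hnpos : 0 < n := Module.finrank_pos
  have htr : ∀ x ∈ a, Algebra.trace ℚ K (f x) = (n : ℚ) * (n1_d x : ℚ) := by
    intro x hx
    by_cases hsq : IsSquare x
    · have h1 : f x = algebraMap ℚ K (n1_d x : ℚ) := by
        apply Subtype.ext
        rw [hf x hx, hcoe, ← n1_d_sq hsq]
        push_cast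
        rfl
      rw [h1, Algebra.trace_algebraMap]
      simp [hn]
    · rw [n1_d_nsq hsq]
      rw [n1_trace (f x) (x : ℚ)]
      · simp
      · apply Subtype.ext
        have h2 : (((f x) ^ 2 : K) : ℝ) = ((f x : K) : ℝ) ^ 2 := by simp
        rw [h2, hf x hx, hcoe, Real.sq_sqrt (Nat.cast_nonneg x)]
        push_cast
        rfl
      · intro r hr
        have h2 : ((algebraMap ℚ K r : K) : ℝ) = ((f x : K) : ℝ) := by rw [hr]
        rw [hcoe, hf x hx] at h2
        exact (irrational_sqrt_natCast_iff.2 hsq) ⟨r, h2⟩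
  -- the sum in `K`
  have hsumK : (a.map f).sum = algebraMap ℚ K q := by
    apply Subtype.ext
    rw [hcoe, ← h, n1_sqrtSum]
    have h3 : (((a.map f).sum : K) : ℝ) = ((a.map f).map (fun z : K => (z : ℝ))).sum := by
      have := map_list_sum (algebraMap K ℝ) (a.map f)
      exact this
    rw [h3, List.map_map]
    congr 1
    apply List.map_congr_left
    intro x hx
    exact hf x hx
  have hq : (a.map (fun x => (n1_d x : ℚ))).sum = q := by
    have h4 := congrArg (Algebra.trace ℚ K) hsumK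
    rw [map_list_sum, List.map_map, Algebra.trace_algebraMap] at h4
    have h5 : (a.map ((Algebra.trace ℚ K) ∘ f)) = a.map (fun x => (n : ℚ) * (n1_d x : ℚ)) := by
      apply List.map_congr_left
      intro x hx
      exact htr x hx
    rw [h5, List.sum_map_mul_left, nsmul_eq_mul] at h4
    have h6 : (n : ℚ) ≠ 0 := by exact_mod_cast hnpos.ne'
    exact mul_left_cancel₀ h6 h4
  have hqR : (a.map (fun x => ((n1_d x : ℕ) : ℝ))).sum = (q : ℝ) := by
    rw [← hq]
    have h7 := map_list_sum (algebraMap ℚ ℝ) (a.map (fun x => (n1_d x : ℚ)))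
    rw [List.map_map] at h7
    have h8 : (algebraMap ℚ ℝ) (a.map (fun x => (n1_d x : ℚ))).sum =
        (((a.map (fun x => (n1_d x : ℚ))).sum : ℚ) : ℝ) := rfl
    rw [← h8, h7]
    have h9 : (⇑(algebraMap ℚ ℝ) ∘ fun x => ((n1_d x : ℕ) : ℚ)) = fun x => ((n1_d x : ℕ) : ℝ) := by
      funext x
      exact Rat.cast_natCast (n1_d x)
    rw [h9]
  have hdiff : (a.map (fun x : ℕ => √(x : ℝ) - ((n1_d x : ℕ) : ℝ))).sum = 0 := by
    have h9 : (a.map (fun x : ℕ => (√(x : ℝ) - ((n1_d x : ℕ) : ℝ)) + ((n1_d x : ℕ) : ℝ))).sum =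
        (a.map (fun x : ℕ => √(x : ℝ) - ((n1_d x : ℕ) : ℝ))).sum +
          (a.map (fun x => ((n1_d x : ℕ) : ℝ))).sum := List.sum_map_add
    have h10 : (a.map (fun x : ℕ => (√(x : ℝ) - ((n1_d x : ℕ) : ℝ)) + ((n1_d x : ℕ) : ℝ))).sum =
        sqrtSum a := by
      rw [n1_sqrtSum]
      congr 1
      apply List.map_congr_left
      intro x _
      ring
    rw [h10, hqR, h] at h9
    linarith
  intro x hx
  by_contra hsq
  have h11 : √(x : ℝ) - ((n1_d x : ℕ) : ℝ) ≤
      (a.map (fun x : ℕ => √(x : ℝ) - ((n1_d x : ℕ) : ℝ))).sum := by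
    apply List.single_le_sum
    · intro y hy
      obtain ⟨z, -, rfl⟩ := List.mem_map.1 hy
      linarith [n1_d_le z]
    · exact List.mem_map.2 ⟨x, hx, rfl⟩
  rw [hdiff, n1_d_nsq hsq] at h11
  push_cast at h11
  have h12 : √(x : ℝ) ≤ 0 := by linarith
  have h13 : (x : ℝ) ≤ 0 := Real.sqrt_eq_zero'.1 (le_antisymm h12 (Real.sqrt_nonneg _))
  have h14 : x = 0 := by
    have : (x : ℝ) = 0 := le_antisymm h13 (Nat.cast_nonneg x)
    exact_mod_cast this
  apply hsq
  rw [h14]
  exact ⟨0, rfl⟩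

end Pool.Agent.MP_7070f9_lc
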