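import Pool.Agent.MP_7070f9_lc.Build
import Pool.Agent.MP_7070f9_lc.NT

/-!
# Correctness of the selection
-/

namespace Pool.Agent.MP_7070f9_lc

/-- The instances for which the pattern is correct. -/
structure Good (I : List ℕ × ℕ) : Prop where
  ne : I.1 ≠ []
  pos : ∀ x ∈ I.1, 0 < x
  irr : Irrational (sqrtSum I.1)
  lt : sqrtSum I.1 < I.2 + 2

/-- The sum lies in the window. -/
def Win (I : List ℕ × ℕ) : Prop := (I.2 : ℝ) < sqrtSum I.1 ∧ sqrtSum I.1 < I.2 + 1

@[simp] theorem sqrtSum_nil : sqrtSum [] = 0 := rfl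
@[simp] theorem sqrtSum_cons (x : ℕ) (a : List ℕ) : sqrtSum (x :: a) = √(x : ℝ) + sqrtSum a := by
  simp [sqrtSum]

theorem sqrtSum_two : sqrtSum [2] = √2 := by simp

theorem sqrt_two_gt : 1 < √(2 : ℝ) := by
  rw [show (1 : ℝ) = √1 by simp]
  exact Real.sqrt_lt_sqrt (by norm_num) (by norm_num)

theorem sqrt_two_lt : √(2 : ℝ) < 2 := by
  rw [Real.sqrt_lt' (by norm_num)]
  norm_num

theorem good_yes : Good (yesB natOps) where
  ne := List.cons_ne_nil _ _
  pos x hx := by
    simp only [yesB, natOps, List.mem_singleton] at hx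
    omega
  irr := by
    show Irrational (sqrtSum [2])
    rw [sqrtSum_two]
    exact irrational_sqrt_two
  lt := by
    show sqrtSum [2] < ((1 : ℕ) : ℝ) + 2
    rw [sqrtSum_two]
    have := sqrt_two_lt
    push_cast
    linarith

theorem good_no : Good (noB natOps) where
  ne := List.cons_ne_nil _ _
  pos x hx := by
    simp only [noB, natOps, List.mem_singleton] at hx
    omega
  irr := by
    show Irrational (sqrtSum [2])
    rw [sqrtSum_two]
    exact irrational_sqrt_two
  lt := by
    show sqrtSum [2] < ((0 : ℕ) : ℝ) + 2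
    rw [sqrtSum_two]
    have := sqrt_two_lt
    push_cast
    linarith

theorem win_yes : Win (yesB natOps) := by
  show ((1 : ℕ) : ℝ) < sqrtSum [2] ∧ sqrtSum [2] < ((1 : ℕ) : ℝ) + 1
  rw [sqrtSum_two]
  have := sqrt_two_lt
  have := sqrt_two_gt
  push_cast
  constructor <;> linarith

theorem not_win_no : ¬ Win (noB natOps) := by
  show ¬ (((0 : ℕ) : ℝ) < sqrtSum [2] ∧ sqrtSum [2] < ((0 : ℕ) : ℝ) + 1)
  rw [sqrtSum_two]
  have := sqrt_two_gt
  push_cast
  rintro ⟨-, h⟩
  linarith

theorem sqrtSum_nz (a : List ℕ) : sqrtSum (nzB natOps a) = sqrtSum a := by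
  induction a with
  | nil => rfl
  | cons x a ih =>
    rcases Nat.eq_zero_or_pos x with rfl | hx
    · have : nzB natOps (0 :: a) = nzB natOps a := rfl
      rw [this, ih]; simp
    · have : nzB natOps (x :: a) = x :: nzB natOps a := by
        simp [nzB, natOps, hx]
      rw [this, sqrtSum_cons, sqrtSum_cons, ih]

theorem nz_pos (a : List ℕ) : ∀ x ∈ nzB natOps a, 0 < x := by
  intro x hx
  simp only [nzB, natOps, List.mem_filter, decide_eq_true_eq] at hx
  exact hx.2

theorem sqrt_shl (n x : ℕ) : √(((2 ^ (n + n) * x : ℕ) : ℝ)) = 2 ^ n * √(x : ℝ) := by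
  push_cast
  rw [Real.sqrt_mul (by positivity), pow_add, Real.sqrt_mul_self (by positivity)]

theorem natsqrt_le (y : ℕ) : (Nat.sqrt y : ℝ) ≤ √(y : ℝ) := by
  apply Real.le_sqrt_of_sq_le
  exact_mod_cast Nat.sqrt_le' y

theorem lt_natsqrt (y : ℕ) : √(y : ℝ) < Nat.sqrt y + 1 := by
  rw [Real.sqrt_lt' (by positivity)]
  exact_mod_cast Nat.lt_succ_sqrt' y

theorem app_eq (n : ℕ) (a : List ℕ) :
    appB natOps n a = (a.map fun x => Nat.sqrt (2 ^ (n + n) * x)).sum := by
  have h : ∀ (l : List ℕ) (s : ℕ),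
      l.foldl (fun s x => s + Nat.sqrt (2 ^ (n + n) * x)) s =
      s + (l.map fun x => Nat.sqrt (2 ^ (n + n) * x)).sum := by
    intro l
    induction l with
    | nil => intro s; simp
    | cons p l ih => intro s; rw [List.foldl_cons, ih]; simp [add_assoc]
  show a.foldl (fun s x => s + Nat.sqrt (2 ^ (n + n) * x)) 0 = _
  rw [h, zero_add]

theorem cnt_eq (a : List ℕ) : cntB natOps a = a.length := by
  have h : ∀ (l : List ℕ) (s : ℕ), l.foldl (fun s _ => s + 1) s = s + l.length := by
    intro l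
    induction l with
    | nil => intro s; simp
    | cons p l ih => intro s; rw [List.foldl_cons, ih]; simp; omega
  show a.foldl (fun s _ => s + 1) 0 = _
  rw [h, zero_add]

theorem app_le (n : ℕ) (a : List ℕ) : ((appB natOps n a : ℕ) : ℝ) ≤ 2 ^ n * sqrtSum a := by
  rw [app_eq]
  induction a with
  | nil => simp
  | cons x a ih =>
    rw [List.map_cons, List.sum_cons, sqrtSum_cons]
    push_cast at ih ⊢
    have h1 := natsqrt_le (2 ^ (n + n) * x)
    rw [sqrt_shl] at h1
    linarith

theorem le_app (n : ℕ) (a : List ℕ) : 2 ^ n * sqrtSum a ≤ ((appB natOps n a : ℕ) : ℝ) + a.length := by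
  rw [app_eq]
  induction a with
  | nil => simp
  | cons x a ih =>
    rw [List.map_cons, List.sum_cons, sqrtSum_cons, List.length_cons]
    push_cast at ih ⊢
    have h1 := lt_natsqrt (2 ^ (n + n) * x)
    rw [sqrt_shl] at h1
    linarith

theorem lt_app (n : ℕ) (a : List ℕ) (hne : a ≠ []) :
    2 ^ n * sqrtSum a < ((appB natOps n a : ℕ) : ℝ) + a.length := by
  cases a with
  | nil => exact absurd rfl hne
  | cons x a =>
    have ih := le_app n a
    rw [app_eq] at ih ⊢
    rw [List.map_cons, List.sum_cons, sqrtSum_cons, List.length_cons]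
    push_cast at ih ⊢
    have h1 := lt_natsqrt (2 ^ (n + n) * x)
    rw [sqrt_shl] at h1
    linarith

theorem sqB_iff (a : List ℕ) : sqB natOps a = true ↔ ∀ x ∈ a, IsSquare x := by
  have h : ∀ (l : List ℕ) (s : Bool),
      l.foldl (fun s x => s && !(decide (Nat.sqrt x * Nat.sqrt x < x))) s = true ↔
        s = true ∧ ∀ x ∈ l, IsSquare x := by
    intro l
    induction l with
    | nil => intro s; simp
    | cons p l ih =>
      intro s
      rw [List.foldl_cons, ih]
      have e : ¬ (Nat.sqrt p * Nat.sqrt p < p) ↔ IsSquare p := by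
        constructor
        · intro h
          exact ⟨Nat.sqrt p, le_antisymm (not_lt.1 h) (Nat.sqrt_le p)⟩
        · rintro ⟨r, rfl⟩
          rw [Nat.sqrt_eq]
          exact lt_irrefl _
      simp only [Bool.and_eq_true, Bool.not_eq_true', decide_eq_false_iff_not, e, List.mem_cons,
        forall_eq_or_imp]
      tauto
  have h1 := h a true
  simp only [true_and] at h1
  exact h1

theorem app_exact (n : ℕ) (a : List ℕ) (h : ∀ x ∈ a, IsSquare x) :
    ((appB natOps n a : ℕ) : ℝ) = 2 ^ n * sqrtSum a := by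
  rw [app_eq]
  induction a with
  | nil => simp
  | cons x a ih =>
    rw [List.map_cons, List.sum_cons, sqrtSum_cons]
    have ih' := ih fun y hy => h y (List.mem_cons_of_mem _ hy)
    push_cast at ih' ⊢
    obtain ⟨r, rfl⟩ := h x List.mem_cons_self
    have e : 2 ^ (n + n) * (r * r) = (2 ^ n * r) * (2 ^ n * r) := by rw [pow_add]; ring
    rw [e, Nat.sqrt_eq, ih']
    push_cast
    rw [Real.sqrt_mul_self (by positivity)]
    ring

theorem sqrtSum_ge_one (a : List ℕ) (hne : a ≠ []) (hp : ∀ x ∈ a, 0 < x) : 1 ≤ sqrtSum a := by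
  cases a with
  | nil => exact absurd rfl hne
  | cons x a =>
    rw [sqrtSum_cons]
    have h1 : 1 ≤ √(x : ℝ) := by
      rw [Real.one_le_sqrt]
      exact_mod_cast hp x List.mem_cons_self
    have h2 : 0 ≤ sqrtSum a := by
      unfold sqrtSum
      apply List.sum_nonneg
      intro y hy
      obtain ⟨z, -, rfl⟩ := List.mem_map.1 hy
      exact Real.sqrt_nonneg _
    linarith

theorem two_mul_le (n : ℕ) (hn : 1 ≤ n) : 2 * n ≤ 2 ^ n := by
  induction n, hn using Nat.le_induction with
  | base => norm_num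
  | succ n hn ih => rw [pow_succ]; omega

theorem irr_of (a : List ℕ) (h : ¬ ∀ x ∈ a, IsSquare x) : Irrational (sqrtSum a) := by
  rintro ⟨q, hq⟩
  exact h (isSquare_of_sqrtSum_rat a q hq.symm)

/-- The common analysis of the cases. -/
theorem sel_cases (a : List ℕ) (t : ℕ) :
    (sqB natOps (nzB natOps a) = true →
      ((natOps.lt (natOps.shl (nzB natOps a).length t)
        (appB natOps (nzB natOps a).length (nzB natOps a))) = true ↔ (t : ℝ) < sqrtSum a)) ∧
    (sqB natOps (nzB natOps a) = false →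
      Irrational (sqrtSum (nzB natOps a)) ∧ nzB natOps a ≠ [] ∧
      (natOps.lt (appB natOps (nzB natOps a).length (nzB natOps a))
        (natOps.shl (nzB natOps a).length t) = false → (t : ℝ) < sqrtSum a) ∧
      (natOps.lt (natOps.shl (nzB natOps a).length t)
        (natOps.add (appB natOps (nzB natOps a).length (nzB natOps a))
          (cntB natOps (nzB natOps a))) = false → sqrtSum a < t) ∧
      (natOps.lt (appB natOps (nzB natOps a).length (nzB natOps a))
        (natOps.shl (nzB natOps a).length t) = true →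
        natOps.lt (natOps.shl (nzB natOps a).length t)
        (natOps.add (appB natOps (nzB natOps a).length (nzB natOps a))
          (cntB natOps (nzB natOps a))) = true → (t : ℝ) - 1 / 2 < sqrtSum a ∧
          sqrtSum a < t + 1 / 2 ∧ 1 ≤ t)) := by
  rw [← sqrtSum_nz a]
  set b := nzB natOps a with hb
  have hpos : ∀ x ∈ b, 0 < x := nz_pos a
  clear_value b
  set n := b.length with hn
  have e1 : ∀ x y : ℕ, natOps.lt x y = decide (x < y) := fun _ _ => rfl
  have e2 : natOps.shl n t = 2 ^ n * t := rfl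
  have e3 : ∀ x y : ℕ, natOps.add x y = x + y := fun _ _ => rfl
  have h2n : (0 : ℝ) < 2 ^ n := by positivity
  rw [e1, e1, e1, e2, e3, cnt_eq]
  constructor
  · intro hs
    rw [sqB_iff] at hs
    have h1 := app_exact n b hs
    rw [decide_eq_true_eq]
    constructor
    · intro h
      have h' : ((2 ^ n * t : ℕ) : ℝ) < ((appB natOps n b : ℕ) : ℝ) := by exact_mod_cast h
      rw [h1] at h'
      push_cast at h'
      exact lt_of_mul_lt_mul_left h' h2n.le
    · intro h
      have h' : (2 : ℝ) ^ n * t < 2 ^ n * sqrtSum b := mul_lt_mul_of_pos_left h h2n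
      rw [← h1] at h'
      exact_mod_cast h'
  · intro hs
    have hs' : ¬ ∀ x ∈ b, IsSquare x := by
      rw [← sqB_iff, hs]
      simp
    have hirr := irr_of b hs'
    have hne : b ≠ [] := by
      rintro rfl
      exact hs' (by simp)
    have hn1 : 1 ≤ n := List.length_pos_of_ne_nil hne
    have h2 := two_mul_le n hn1
    have h2' : (2 : ℝ) * n ≤ 2 ^ n := by exact_mod_cast h2
    have l1 := app_le n b
    have l2 := lt_app n b hne
    rw [← hn] at l2
    refine ⟨hirr, hne, ?_, ?_, ?_⟩
    · intro h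
      rw [decide_eq_false_iff_not, not_lt] at h
      have h' : ((2 ^ n * t : ℕ) : ℝ) ≤ ((appB natOps n b : ℕ) : ℝ) := by exact_mod_cast h
      push_cast at h'
      have h3 : (t : ℝ) ≤ sqrtSum b := le_of_mul_le_mul_left (h'.trans l1) h2n
      exact lt_of_le_of_ne h3 fun h4 => hirr.ne_nat t h4.symm
    · intro h
      rw [decide_eq_false_iff_not, not_lt] at h
      have h' : ((appB natOps n b + n : ℕ) : ℝ) ≤ ((2 ^ n * t : ℕ) : ℝ) := by exact_mod_cast h
      push_cast at h'
      exact lt_of_mul_lt_mul_left (l2.trans_le h') h2n.le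
    · intro h h4
      rw [decide_eq_true_eq] at h h4
      have h' : ((appB natOps n b : ℕ) : ℝ) < ((2 ^ n * t : ℕ) : ℝ) := by exact_mod_cast h
      have h4' : ((2 ^ n * t : ℕ) : ℝ) < ((appB natOps n b + n : ℕ) : ℝ) := by exact_mod_cast h4
      push_cast at h' h4'
      have k1 : (t : ℝ) - 1 / 2 < sqrtSum b := by
        apply lt_of_mul_lt_mul_left _ h2n.le
        have : (2 : ℝ) ^ n * (t - 1 / 2) = 2 ^ n * t - 2 ^ n / 2 := by ring
        rw [this]
        linarith
      have k2 : sqrtSum b < t + 1 / 2 := by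
        apply lt_of_mul_lt_mul_left _ h2n.le
        have : (2 : ℝ) ^ n * (t + 1 / 2) = 2 ^ n * t + 2 ^ n / 2 := by ring
        rw [this]
        linarith
      refine ⟨k1, k2, ?_⟩
      have k3 := sqrtSum_ge_one b hne hpos
      by_contra h5
      have : t = 0 := by omega
      subst this
      push_cast at k2
      linarith

theorem selLe_spec (I : List ℕ × ℕ) :
    Good (selLe natOps I) ∧ (sqrtSum I.1 ≤ I.2 ↔ Win (selLe natOps I)) := by
  obtain ⟨a, t⟩ := I
  obtain ⟨hA, hB⟩ := sel_cases a t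
  rw [selLe, leB]
  simp only
  split_ifs with h1 h2 h3 h4
  · refine ⟨good_no, ?_⟩
    have := (hA h1).1 h2
    exact ⟨fun h => absurd h (not_le.2 this), fun h => absurd h not_win_no⟩
  · refine ⟨good_yes, ?_⟩
    have : ¬ ((t : ℝ) < sqrtSum a) := fun h => h2 ((hA h1).2 h)
    exact ⟨fun _ => win_yes, fun _ => not_lt.1 this⟩
  · obtain ⟨hirr, hne, -, -, h5⟩ := hB (by simpa using h1)
    obtain ⟨k1, k2, k3⟩ := h5 h3 h4
    have e : ((natOps.sub t (natOps.nat 1) : ℕ) : ℝ) = t - 1 := by
      show ((t - 1 : ℕ) : ℝ) = t - 1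
      rw [Nat.cast_sub k3]
      norm_num
    refine ⟨⟨hne, nz_pos a, hirr, ?_⟩, ?_⟩
    · simp only
      rw [sqrtSum_nz, e]
      linarith
    · simp only [Win]
      rw [sqrtSum_nz, e]
      rw [sqrtSum_nz] at hirr
      constructor
      · intro h
        refine ⟨by linarith, ?_⟩
        have := lt_of_le_of_ne h (hirr.ne_nat t)
        linarith
      · rintro ⟨-, h⟩
        linarith
  · obtain ⟨-, -, -, h5, -⟩ := hB (by simpa using h1)
    refine ⟨good_yes, fun _ => win_yes, fun _ => (h5 ?_).le⟩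
    simpa using h4
  · obtain ⟨-, -, h5, -, -⟩ := hB (by simpa using h1)
    refine ⟨good_no, fun h => ?_, fun h => absurd h not_win_no⟩
    exact absurd h (not_le.2 (h5 (by simpa using h3)))

theorem selGt_spec (I : List ℕ × ℕ) :
    Good (selGt natOps I) ∧ ((I.2 : ℝ) < sqrtSum I.1 ↔ Win (selGt natOps I)) := by
  obtain ⟨a, t⟩ := I
  obtain ⟨hA, hB⟩ := sel_cases a t
  rw [selGt, gtB]
  simp only
  split_ifs with h1 h2 h3 h4
  · exact ⟨good_yes, fun _ => win_yes, fun _ => (hA h1).1 h2⟩
  · exact ⟨good_no, fun h => absurd ((hA h1).2 h) h2, fun h => absurd h not_win_no⟩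
  · obtain ⟨hirr, hne, -, -, h5⟩ := hB (by simpa using h1)
    obtain ⟨k1, k2, k3⟩ := h5 h3 h4
    refine ⟨⟨hne, nz_pos a, hirr, ?_⟩, ?_⟩
    · simp only
      rw [sqrtSum_nz]
      linarith
    · simp only [Win]
      rw [sqrtSum_nz]
      exact ⟨fun h => ⟨h, by linarith⟩, fun h => h.1⟩
  · obtain ⟨-, -, -, h5, -⟩ := hB (by simpa using h1)
    refine ⟨good_no, fun h => ?_, fun h => absurd h not_win_no⟩
    exact absurd h (not_lt.2 (h5 (by simpa using h4)).le)
  · obtain ⟨-, -, h5, -, -⟩ := hB (by simpa using h1)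
    exact ⟨good_yes, fun _ => win_yes, fun _ => h5 (by simpa using h3)⟩

end Pool.Agent.MP_7070f9_lc
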