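import Pool.Agent.MP_7070f9_lc.GeoBuild
import Pool.Agent.MP_7070f9_lc.Sem
import Pool.Agent.MP_7070f9_lc.BuildPT
import Pool.Agent.MP_7070f9_lc.Limit
import Pool.Agent.Lib.helper66.Basic

/-!
# The reductions
-/

open Turing Pool.Agent.H66

namespace Pool.Agent.MP_7070f9_lc

/-! ### The pattern of an instance -/

theorem xB_nat (a : List ℕ) (t : ℕ) : xB natOps a t = bigX a t := by
  have h : ∀ (l : List ℕ) (s : ℕ), l.foldl (fun s x => s + (216 * x + 36)) s =
      s + (216 * l.sum + 36 * l.length) := by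
    intro l
    induction l with
    | nil => intro s; simp
    | cons x l ih =>
      intro s
      rw [List.foldl_cons, ih, List.sum_cons, List.length_cons]
      ring
  show a.foldl (fun s x => s + (216 * x + 36)) (144 * t) - 49 = _
  rw [h, bigX]
  congr 1
  ring

theorem incrB_nat (a : List ℕ) (t : ℕ) : incrB natOps a (xB natOps a t) = incr a t := by
  rw [xB_nat]
  rfl

/-- The pattern. -/
def pattern (I : List ℕ × ℕ) : Pattern := toPattern (patB natOps I)

theorem sum_fst_incr (a : List ℕ) (t : ℕ) :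
    ((incr a t).map fun p => p.1).sum = 17 * bigX a t + 216 * a.length := by
  have h : ((a.flatMap fun x => [(144, 36), (72, 72 * x)]).map fun p : ℕ × ℕ => p.1).sum =
      216 * a.length := by
    induction a with
    | nil => rfl
    | cons x a ih =>
      rw [List.flatMap_cons, List.map_append, List.sum_append, ih]
      simp only [List.map_cons, List.map_nil, List.sum_cons, List.sum_nil, List.length_cons]
      omega
  rw [incr, List.map_cons, List.map_cons, List.sum_cons, List.sum_cons, h]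
  ring

theorem sum_snd_incr (a : List ℕ) (t : ℕ) :
    ((incr a t).map fun p => p.2).sum = 2 * bigX a t + 36 * a.length + 72 * a.sum := by
  have h : ((a.flatMap fun x => [(144, 36), (72, 72 * x)]).map fun p : ℕ × ℕ => p.2).sum =
      36 * a.length + 72 * a.sum := by
    induction a with
    | nil => rfl
    | cons x a ih =>
      rw [List.flatMap_cons, List.map_append, List.sum_append, ih]
      simp only [List.map_cons, List.map_nil, List.sum_cons, List.sum_nil, List.length_cons]
      ring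
  rw [incr, List.map_cons, List.map_cons, List.sum_cons, List.sum_cons, h]
  ring

theorem sum_pos_of {a : List ℕ} (hne : a ≠ []) (ha : ∀ x ∈ a, 0 < x) :
    1 ≤ a.sum ∧ 1 ≤ a.length := by
  cases a with
  | nil => exact absurd rfl hne
  | cons x a =>
    have := ha x List.mem_cons_self
    rw [List.sum_cons, List.length_cons]
    omega

theorem geo_pattern (a : List ℕ) (t : ℕ) (hne : a ≠ []) (ha : ∀ x ∈ a, 0 < x) :
    ∃ seg, Geo (pattern (a, t)) (ch a t hne ha) seg := by
  have hE : patB natOps (a, t) = patOf natOps (incr a t) (nB natOps (incr a t)) := by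
    rw [patB, incrB_nat]
  refine ⟨fun c => toSg (sgN (incr a t) (nB natOps (incr a t)) c), ?_⟩
  rw [pattern, hE]
  apply geo_patOf
  rw [gN_last, iN_last, sum_fst_incr, sum_snd_incr]
  obtain ⟨h1, h2⟩ := sum_pos_of hne ha
  rw [bigX]
  omega

theorem rfOpt_of_rfAll {G : Pattern} (h : G.RFall) : G.RFopt := by
  obtain ⟨hv, ε, hε, σ, hσ, h⟩ := h
  refine ⟨hv, ε, hε, σ, hσ, fun t ht => ?_⟩
  obtain ⟨hne, hall⟩ := h t ht
  obtain ⟨e, he⟩ := List.exists_mem_of_ne_nil _ hne
  exact ⟨e, he, hall e he⟩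

theorem win_of_rfOpt {I : List ℕ × ℕ} (hI : Good I) (h : (pattern I).RFopt) : Win I := by
  obtain ⟨a, t⟩ := I
  obtain ⟨seg, hG⟩ := geo_pattern a t hI.ne hI.pos
  obtain ⟨P, Q, hP, hQ, hrel, hcv⟩ := hG.no h
  obtain ⟨z, τ, h0, hz, hV, hW⟩ := no_limit _ P Q hP hQ hrel hcv
  obtain ⟨ε, hε, h81, h225⟩ := window_no _ (ch_r1 a t hI.ne hI.pos) z τ h0 hz hV hW
  obtain ⟨h1, h2⟩ := ch_no a t hI.ne hI.pos hI.lt ε hε h81 h225
  have hirr := hI.irr
  refine ⟨lt_of_le_of_ne h1 (hirr.ne_nat t).symm, lt_of_le_of_ne h2 ?_⟩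
  have := hirr.ne_nat (t + 1)
  push_cast at this
  exact this

theorem rfAll_of_win {I : List ℕ × ℕ} (hI : Good I) (h : Win I) : (pattern I).RFall := by
  obtain ⟨a, t⟩ := I
  obtain ⟨seg, hG⟩ := geo_pattern a t hI.ne hI.pos
  obtain ⟨χ, τ, ω, hL⟩ := ch_yes a t hI.ne hI.pos h.1 h.2 hI.irr
  obtain ⟨ε, hε, P, Q, hc, h0, hrel, hnf⟩ := frames_exist _ χ τ ω hL
  exact hG.rfAll hε hc h0 hrel hnf

/-- The pattern of a good instance can be folded if and only if the sum lies in the window. -/
theorem rf_iff {I : List ℕ × ℕ} (hI : Good I) :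
    (Win I ↔ (pattern I).RFopt) ∧ (Win I ↔ (pattern I).RFall) :=
  ⟨⟨fun h => rfOpt_of_rfAll (rfAll_of_win hI h), win_of_rfOpt hI⟩,
    ⟨rfAll_of_win hI, fun h => win_of_rfOpt hI (rfOpt_of_rfAll h)⟩⟩

/-! ### Codes -/

theorem codeBit_eq (b : Bool) : codeBit b = enc b := by cases b <;> rfl

theorem codeList_eq {α β : Type} [Enc β] (c : α → List Bool) (f : α → β)
    (h : ∀ x, c x = enc (f x)) (l : List α) : codeList c l = enc (l.map f) := by
  induction l with
  | nil => rfl
  | cons x l ih => rw [codeList, ih, h, List.map_cons, enc_cons]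

theorem codeNat_eq (n : ℕ) : codeNat n = enc n.bits := by
  rw [codeNat, codeList_eq codeBit (fun b => b) codeBit_eq, List.map_id']

/-- The digits of the numbers of an instance. -/
def digits (I : List ℕ × ℕ) : List (List Bool) × List Bool := (I.1.map Nat.bits, I.2.bits)

theorem codeInst_eq (I : List ℕ × ℕ) : codeInst I = enc (digits I) := by
  rw [codeInst, codePair, codeList_eq codeNat Nat.bits codeNat_eq, codeNat_eq, digits, enc_pair]

theorem mapI_digits (I : List ℕ × ℕ) : mapI val (digits I) = I := by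
  obtain ⟨a, t⟩ := I
  simp only [mapI, digits, List.map_map, val_bits]
  congr 1
  induction a with
  | nil => rfl
  | cons x a ih => rw [List.map_cons, ih, Function.comp, val_bits]

/-- Negative fractions have a positive numerator. -/
def PosF (q : FrB ℕ) : Prop := q.1.1 = true → 0 < q.1.2

/-- All negative fractions of the segment have positive numerators. -/
def PosS (s : SgB ℕ) : Prop := (PosF s.1.1 ∧ PosF s.1.2) ∧ (PosF s.2.1 ∧ PosF s.2.2)

theorem code_frac (q : FrB (List Bool)) (h : PosF (mapF val q)) :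
    (toFrac (mapF val q)).code = enc (canF q) := by
  obtain ⟨⟨b, x⟩, y⟩ := q
  rw [canF, enc_pair, enc_pair, trimB_eq, trimB_eq, ← codeNat_eq, ← codeNat_eq, Frac.code,
    codePair, codeInt, codePair, ← codeBit_eq]
  cases b with
  | false =>
    have e1 : (toFrac (mapF val ((false, x), y))).num = (val x : ℤ) := rfl
    have e2 : (toFrac (mapF val ((false, x), y))).den = val y := rfl
    rw [e1, e2]
    have e3 : decide ((val x : ℤ) < 0) = false := by
      rw [decide_eq_false_iff_not]
      have := Int.natCast_nonneg (val x)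
      omega
    rw [e3, Int.natAbs_natCast]
  | true =>
    have hx : 0 < val x := h rfl
    have e1 : (toFrac (mapF val ((true, x), y))).num = -(val x : ℤ) := rfl
    have e2 : (toFrac (mapF val ((true, x), y))).den = val y := rfl
    rw [e1, e2]
    have e3 : decide (-(val x : ℤ) < 0) = true := by
      rw [decide_eq_true_iff]
      have : (0 : ℤ) < val x := by exact_mod_cast hx
      omega
    rw [e3, Int.natAbs_neg, Int.natAbs_natCast]

theorem code_seg (s : SgB (List Bool)) (h : PosS (mapS val s)) :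
    codePair (Pattern.codePt (toSg (mapS val s)).1) (Pattern.codePt (toSg (mapS val s)).2) =
      enc (canS s) := by
  obtain ⟨⟨h1, h2⟩, h3, h4⟩ := h
  have e1 := code_frac s.1.1 h1
  have e2 := code_frac s.1.2 h2
  have e3 := code_frac s.2.1 h3
  have e4 := code_frac s.2.2 h4
  have e : enc (canS s) = true :: ((true :: (enc (canF s.1.1) ++ enc (canF s.1.2))) ++
    (true :: (enc (canF s.2.1) ++ enc (canF s.2.2)))) := rfl
  rw [e, ← e1, ← e2, ← e3, ← e4]
  rfl

theorem code_pattern (q : PatB (List Bool)) (h1 : PosF (mapF val q.1.1))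
    (h2 : PosF (mapF val q.1.2)) (h3 : PosF (mapF val q.2.1.1)) (h4 : PosF (mapF val q.2.1.2))
    (h5 : ∀ s ∈ q.2.2, PosS (mapS val s)) :
    (toPattern (mapPat val q)).code = enc (canPat q) := by
  have e1 := code_frac _ h1
  have e2 := code_frac _ h2
  have e3 := code_frac _ h3
  have e4 := code_frac _ h4
  have e5 : ∀ l : List (SgB (List Bool)), (∀ s ∈ l, PosS (mapS val s)) →
      codeList (fun e => codePair (Pattern.codePt e.1) (Pattern.codePt e.2))
        ((l.map (mapS val)).map toSg) = enc (l.map canS) := by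
    intro l
    induction l with
    | nil => intro _; rfl
    | cons s l ih =>
      intro hl
      rw [List.map_cons, List.map_cons, codeList, ih fun s hs => hl s (List.mem_cons_of_mem _ hs),
        code_seg s (hl s List.mem_cons_self), List.map_cons, enc_cons]
  have e : enc (canPat q) = true :: ((true :: (enc (canF q.1.1) ++ enc (canF q.1.2))) ++
    (true :: ((true :: (enc (canF q.2.1.1) ++ enc (canF q.2.1.2))) ++ enc (q.2.2.map canS)))) := rfl
  rw [e, ← e1, ← e2, ← e3, ← e4, ← e5 _ h5]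
  rfl

theorem gN_pos (E : List (ℕ × ℕ)) {k : ℕ} (hk : 1 ≤ k) : 0 < gN E k := by
  have h : (ext E 0).1 ≤ gN E k :=
    Finset.single_le_sum (f := fun j => (ext E j).1) (fun _ _ => Nat.zero_le _)
      (Finset.mem_range.2 hk)
  have h0 : (ext E 0).1 = 1 := rfl
  omega

theorem posS_sgN (E : List (ℕ × ℕ)) {N : ℕ} (hN : 0 < N) (c : Cr) (hc : c.Ok (E.length + 1)) :
    PosS (sgN E N c) := by
  have t : ∀ x y : ℕ, PosF (fp x y) := fun x y h => absurd h (by simp [fp])
  have one : ∀ y : ℕ, PosF (fn' (natOps.nat 1) y) := fun y _ => Nat.one_pos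
  have n1 : ∀ y : ℕ, PosF (fn' 1 y) := fun y _ => Nat.one_pos
  have n2 : PosF (fn' 2 1) := fun _ => by show 0 < 2; norm_num
  have hg : ∀ {k : ℕ} (y : ℕ), 1 ≤ k → PosF (fn' (gN E k) y) := fun y hk _ => gN_pos E hk
  have hN' : ∀ y : ℕ, PosF (fn' N y) := fun y _ => hN
  cases c with
  | ch k =>
    have hk : k ≤ E.length + 1 + 1 := hc
    simp only [sgN]
    split_ifs with h1 h2 h3
    · exact ⟨⟨n2, n1 1⟩, one _, hg _ le_rfl⟩
    · exact ⟨⟨one _, hg _ (by omega)⟩, one _, hg _ (by omega)⟩
    · exact ⟨⟨one _, hg _ (by omega)⟩, t _ _, t _ _⟩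
    · exact ⟨⟨t _ _, t _ _⟩, t _ _, t _ _⟩
  | vt k => exact ⟨⟨one _, hg _ hc.1⟩, one _, hN' _⟩
  | sp k => exact ⟨⟨one _, hg _ hc.1⟩, t _ _, t _ _⟩
  | vw => exact ⟨⟨t _ _, t _ _⟩, t _ _, t _ _⟩
  | o2 => exact ⟨⟨t _ _, t _ _⟩, t _ _, t _ _⟩
  | o3 => exact ⟨⟨t _ _, t _ _⟩, t _ _, t _ _⟩
  | q2 => exact ⟨⟨t _ _, t _ _⟩, t _ _, t _ _⟩
  | q3 => exact ⟨⟨t _ _, t _ _⟩, t _ _, t _ _⟩

theorem code_patB (I : List (List Bool) × List Bool) :
    (pattern (mapI val I)).code = enc (canPat (patB bitOps I)) := by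
  have h := map_patB bitHom I
  obtain ⟨E, hE⟩ : ∃ E, mapPat val (patB bitOps I) = patOf natOps E (nB natOps E) :=
    ⟨_, map_patB bitHom I⟩
  have hN : 0 < nB natOps E := by rw [nB_eq]; omega
  rw [pattern, ← h]
  have k1 := congrArg (fun p : PatB ℕ => p.1.1) hE
  have k2 := congrArg (fun p : PatB ℕ => p.1.2) hE
  have k3 := congrArg (fun p : PatB ℕ => p.2.1.1) hE
  have k4 := congrArg (fun p : PatB ℕ => p.2.1.2) hE
  have k5 : (patB bitOps I).2.2.map (mapS val) = (patOf natOps E (nB natOps E)).2.2 :=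
    congrArg (fun p : PatB ℕ => p.2.2) hE
  apply code_pattern
  · rw [show mapF val (patB bitOps I).1.1 = fn' 2 1 from k1]
    intro _
    show 0 < 2
    norm_num
  · rw [show mapF val (patB bitOps I).1.2 = fp 8 7 from k2]
    intro h
    exact absurd h (by simp [fp])
  · rw [show mapF val (patB bitOps I).2.1.1 = fn' (nB natOps E) 1 from k3]
    intro _
    exact hN
  · rw [show mapF val (patB bitOps I).2.1.2 = fp (nB natOps E) 1 from k4]
    intro h
    exact absurd h (by simp [fp])
  · intro s hs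
    have hs' : mapS val s ∈ (patOf natOps E (nB natOps E)).2.2 := by
      rw [← k5]
      exact List.mem_map_of_mem hs
    rw [creases_patOf, List.mem_map] at hs'
    obtain ⟨c, hc, hcs⟩ := hs'
    rw [← hcs]
    exact posS_sgN E hN c (mem_crList.1 hc)

/-! ### The machines -/

theorem tm2_transport {α β α' β' : Type} {ea : α → List Bool} {eb : β → List Bool}
    {ea' : α' → List Bool} {eb' : β' → List Bool} {F : α → β} {f : α' → β'} (i : α' → α)
    (h1 : ∀ x, ea' x = ea (i x)) (h2 : ∀ x, eb' (f x) = eb (F (i x)))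
    (h : Nonempty (TM2ComputableInPolyTime ea eb F)) :
    Nonempty (TM2ComputableInPolyTime ea' eb' f) := by
  obtain ⟨M⟩ := h
  refine ⟨{ M.toTM2ComputableAux with time := M.time, outputsFun := fun x => ?_ }⟩
  have := M.outputsFun (i x)
  rw [← h1, ← h2] at this
  exact this

/-- The first reduction. -/
def redLe (I : List ℕ × ℕ) : Pattern := pattern (selLe natOps I)
/-- The second reduction. -/
def redGt (I : List ℕ × ℕ) : Pattern := pattern (selGt natOps I)

theorem redLe_poly : Nonempty (TM2ComputableInPolyTime codeInst Pattern.code redLe) := by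
  refine tm2_transport (F := progLe) digits codeInst_eq (fun I => ?_) (pt_progLe.tm2)
  rw [redLe, progLe, ← code_patB, map_selLe bitHom, mapI_digits]

theorem redGt_poly : Nonempty (TM2ComputableInPolyTime codeInst Pattern.code redGt) := by
  refine tm2_transport (F := progGt) digits codeInst_eq (fun I => ?_) (pt_progGt.tm2)
  rw [redGt, progGt, ← code_patB, map_selGt bitHom, mapI_digits]

theorem redLe_spec (I : List ℕ × ℕ) :
    (sqrtSum I.1 ≤ I.2 ↔ (redLe I).RFopt) ∧ (sqrtSum I.1 ≤ I.2 ↔ (redLe I).RFall) := by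
  obtain ⟨hg, hw⟩ := selLe_spec I
  obtain ⟨h1, h2⟩ := rf_iff hg
  exact ⟨hw.trans h1, hw.trans h2⟩

theorem redGt_spec (I : List ℕ × ℕ) :
    ((I.2 : ℝ) < sqrtSum I.1 ↔ (redGt I).RFopt) ∧ ((I.2 : ℝ) < sqrtSum I.1 ↔ (redGt I).RFall) := by
  obtain ⟨hg, hw⟩ := selGt_spec I
  obtain ⟨h1, h2⟩ := rf_iff hg
  exact ⟨hw.trans h1, hw.trans h2⟩

end Pool.Agent.MP_7070f9_lc
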