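import Pool.Agent.MP_7070f9_lc.Alg

/-!
# The frames at the two vertices `V` and `W`: algebra at one time
-/

namespace Pool.Agent.MP_7070f9_lc

theorem w1_dot_comm (x y : Space) : dot x y = dot y x := by
  unfold dot; ring

theorem w1_dot_add_left (x y z : Space) : dot (x + y) z = dot x z + dot y z := by
  unfold dot; simp only [PiLp.add_apply]; ring

theorem w1_dot_add_right (x y z : Space) : dot z (x + y) = dot z x + dot z y := by
  unfold dot; simp only [PiLp.add_apply]; ring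

theorem w1_dot_sub_left (x y z : Space) : dot (x - y) z = dot x z - dot y z := by
  unfold dot; simp only [PiLp.sub_apply]; ring

theorem w1_dot_sub_right (x y z : Space) : dot z (x - y) = dot z x - dot z y := by
  unfold dot; simp only [PiLp.sub_apply]; ring

theorem w1_dot_smul_left (a : ℝ) (x z : Space) : dot (a • x) z = a * dot x z := by
  unfold dot; simp only [PiLp.smul_apply, smul_eq_mul]; ring

theorem w1_dot_smul_right (a : ℝ) (x z : Space) : dot z (a • x) = a * dot z x := by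
  unfold dot; simp only [PiLp.smul_apply, smul_eq_mul]; ring

/-- The frame of the cell `O1`. With `M = Pm - (7-D) Qm`, `vo = Q0 - Qm - v`,
`QO = Qm + vo = Q0 - v` and `PO = Pm + (7-D) vo = M + (7-D) QO`. From
`⟨Q0, v⟩ = |v|²/2` one gets `|QO| = 1`; from `⟨M, Q0⟩ + (7-D) = 25|v|²/2` and
`⟨M, v⟩ = 25|v|²/2` one gets `⟨M, QO⟩ = -(7-D)`; and `|M|² = 1 + (7-D)²`. -/
theorem fr_O1 (D : ℝ) (Pm Qm P0 Q0 v : Space) (hm : Fr Pm Qm) (h0 : Fr P0 Q0)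
    (h1 : dot Q0 v = dot v v / 2) (h2 : dot (Pm - (7 - D) • Qm) v = 25 / 2 * dot v v)
    (h3 : dot (Pm - (7 - D) • Qm) Q0 + (7 - D) = 25 / 2 * dot v v) :
    Fr (Pm + (7 - D) • (Q0 - Qm - v)) (Q0 - v) := by
  have h4 : dot (Q0 - v) (Q0 - v) = 1 := by
    have h5 := w1_dot_comm v Q0
    simp only [w1_dot_sub_left, w1_dot_sub_right]
    linear_combination h0.qq - 2 * h1 - h5
  have h6 : dot (Pm - (7 - D) • Qm) (Q0 - v) = -(7 - D) := by
    rw [w1_dot_sub_right, h2]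
    linear_combination h3
  have h7 : dot (Pm - (7 - D) • Qm) (Pm - (7 - D) • Qm) = 1 + (7 - D) ^ 2 := by
    have h5 := w1_dot_comm Pm Qm
    simp only [w1_dot_sub_left, w1_dot_sub_right, w1_dot_smul_left, w1_dot_smul_right]
    linear_combination hm.pp - 2 * (7 - D) * hm.pq + (7 - D) ^ 2 * hm.qq + (7 - D) * h5
  have e : Pm + (7 - D) • (Q0 - Qm - v) = (Pm - (7 - D) • Qm) + (7 - D) • (Q0 - v) := by module
  rw [e]
  refine ⟨?_, h4, ?_⟩
  · have h8 := w1_dot_comm (Pm - (7 - D) • Qm) (Q0 - v)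
    rw [w1_dot_add_left, w1_dot_add_right, w1_dot_smul_left, w1_dot_add_right, w1_dot_smul_right,
      w1_dot_smul_right]
    linear_combination h7 + 2 * (7 - D) * h6 - (7 - D) * h8 + (7 - D) ^ 2 * h4
  · rw [w1_dot_add_left, w1_dot_smul_left, h6, h4]
    ring

/-- The frame of the cell `O2`: `PO2 = PO1 - (D + 18) v`, `QO2 = Q0`. Same computations. -/
theorem fr_O2 (D : ℝ) (Pm Qm P0 Q0 v : Space) (hm : Fr Pm Qm) (h0 : Fr P0 Q0)
    (h1 : dot Q0 v = dot v v / 2) (h2 : dot (Pm - (7 - D) • Qm) v = 25 / 2 * dot v v)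
    (h3 : dot (Pm - (7 - D) • Qm) Q0 + (7 - D) = 25 / 2 * dot v v) :
    Fr (Pm + (7 - D) • (Q0 - Qm - v) - (D + 18) • v) Q0 := by
  have h := fr_O1 D Pm Qm P0 Q0 v hm h0 h1 h2 h3
  have hc := w1_dot_comm v Q0
  have h6 : dot (Pm + (7 - D) • (Q0 - Qm - v)) v = (D + 18) / 2 * dot v v := by
    have e : Pm + (7 - D) • (Q0 - Qm - v) = (Pm - (7 - D) • Qm) + (7 - D) • (Q0 - v) := by module
    rw [e, w1_dot_add_left, h2, w1_dot_smul_left, w1_dot_sub_left]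
    linear_combination (7 - D) * h1
  have h7 : dot (Pm + (7 - D) • (Q0 - Qm - v)) Q0 = (D + 18) / 2 * dot v v := by
    have e : Q0 = (Q0 - v) + v := by abel
    conv_lhs => arg 2; rw [e]
    rw [w1_dot_add_right, h.pq, h6, zero_add]
  refine ⟨?_, h0.qq, ?_⟩
  · have h8 := w1_dot_comm (Pm + (7 - D) • (Q0 - Qm - v)) v
    rw [w1_dot_sub_left, w1_dot_sub_right, w1_dot_sub_right, w1_dot_smul_left, w1_dot_smul_left,
      w1_dot_smul_right, w1_dot_smul_right]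
    linear_combination h.pp - 2 * (D + 18) * h6 + (D + 18) * h8
  · rw [w1_dot_sub_left, w1_dot_smul_left, h7]
    linear_combination -(D + 18) * (hc + h1)

/-- The data at `W`: the frames `(Pm, Qm)` of `F m`, `(P', Q')` of `G m` and `(PO, QO)` of `O1`,
with the relations across the creases between them, and the vector `w`; `c = Q' - Qm`,
`v = QO - Qm`, `u = (7 c - 14 v - 7 w)/9`. -/
structure WDat (D : ℝ) (Pm Qm P' Q' PO QO w : Space) : Prop where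
  hm : Fr Pm Qm
  hG : Fr P' Q'
  hO : Fr PO QO
  path : Pm + D • Qm = P' + D • Q'
  vw : Pm + (D - 7) • Qm = PO + (D - 7) • QO
  w1 : dot w w = dot (Q' - Qm) (Q' - Qm) - 4 * dot (Q' - Qm) (QO - Qm)
    - 5 * dot (QO - Qm) (QO - Qm)
  w2 : dot ((1 / 2 : ℝ) • (Q' + QO) + (1 / 18 : ℝ) • ((-5 : ℝ) • (Q' - Qm) + (19 : ℝ) • (QO - Qm)))
    w = - (5 / 18) * dot w w
  w3 : dot (P' + D • Q' - (14 / 9 : ℝ) • ((Q' - Qm) - (2 : ℝ) • (QO - Qm))) w =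
    - (14 / 9) * dot w w

set_option linter.unusedSimpArgs false in
/-- the four products -/
theorem w2_main (D : ℝ) (Pm Qm P' Q' PO QO w : Space) (h : WDat D Pm Qm P' Q' PO QO w) (u : Space)
    (hu : u = (1 / 9 : ℝ) • ((7 : ℝ) • (Q' - Qm) - (14 : ℝ) • (QO - Qm) - (7 : ℝ) • w)) :
    dot Q' u = dot u u / 2 ∧ dot P' u = - ((D - 2) / 2) * dot u u ∧
    dot (Q' - u) w = dot w w / 2 ∧ dot (P' + (D - 2) • u) w = - (D / 2) * dot w w := by
  obtain ⟨hm, hG, hO, path, vw, w1, w2, w3⟩ := h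
  obtain ⟨c, hc⟩ : ∃ c, Q' = Qm + c := ⟨Q' - Qm, by abel⟩
  obtain ⟨v, hv⟩ : ∃ v, QO = Qm + v := ⟨QO - Qm, by abel⟩
  have hP' : P' = Pm - D • c := by
    have : P' = Pm + D • Qm - D • Q' := by rw [path]; abel
    rw [this, hc]; module
  have hPO : PO = Pm - (D - 7) • v := by
    have : PO = Pm + (D - 7) • Qm - (D - 7) • QO := by rw [vw]; abel
    rw [this, hv]; module
  subst hc hv hP' hPO hu
  have m1 := hm.pp
  have m2 := hm.qq
  have m3 := hm.pq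
  have g1 := hG.pp
  have g2 := hG.qq
  have g3 := hG.pq
  have o1 := hO.pp
  have o2 := hO.qq
  have o3 := hO.pq
  have Ec0 : dot Qm c = - (dot c c / 2) := by
    simp only [dot, PiLp.add_apply, PiLp.sub_apply, PiLp.smul_apply, smul_eq_mul] at m2 g2 ⊢
    linear_combination 1 / 2 * (g2 - m2)
  have Ev0 : dot Qm v = - (dot v v / 2) := by
    simp only [dot, PiLp.add_apply, PiLp.sub_apply, PiLp.smul_apply, smul_eq_mul] at m2 o2 ⊢
    linear_combination 1 / 2 * (o2 - m2)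
  have Ec1 : dot Pm c = D / 2 * dot c c := by
    simp only [dot, PiLp.add_apply, PiLp.sub_apply, PiLp.smul_apply, smul_eq_mul] at m3 g3 Ec0 ⊢
    linear_combination g3 - m3 + D * Ec0
  have Ev1 : dot Pm v = (D - 7) / 2 * dot v v := by
    simp only [dot, PiLp.add_apply, PiLp.sub_apply, PiLp.smul_apply, smul_eq_mul] at m3 o3 Ev0 ⊢
    linear_combination o3 - m3 + (D - 7) * Ev0
  clear m1 m2 m3 g1 g2 g3 o1 o2 o3 hm hG hO path vw
  simp only [dot, PiLp.add_apply, PiLp.sub_apply, PiLp.smul_apply, smul_eq_mul] at Ec0 Ev0 Ec1 Ev1 w1 w2 w3 ⊢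
  have F1 : (Qm 0 + c 0) * (1 / 9 * (7 * (Qm 0 + c 0 - Qm 0) - 14 * (Qm 0 + v 0 - Qm 0) - 7 * w 0)) +
      (Qm 1 + c 1) * (1 / 9 * (7 * (Qm 1 + c 1 - Qm 1) - 14 * (Qm 1 + v 1 - Qm 1) - 7 * w 1)) +
      (Qm 2 + c 2) * (1 / 9 * (7 * (Qm 2 + c 2 - Qm 2) - 14 * (Qm 2 + v 2 - Qm 2) - 7 * w 2)) =
      (1 / 9 * (7 * (Qm 0 + c 0 - Qm 0) - 14 * (Qm 0 + v 0 - Qm 0) - 7 * w 0) *
        (1 / 9 * (7 * (Qm 0 + c 0 - Qm 0) - 14 * (Qm 0 + v 0 - Qm 0) - 7 * w 0)) +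
      1 / 9 * (7 * (Qm 1 + c 1 - Qm 1) - 14 * (Qm 1 + v 1 - Qm 1) - 7 * w 1) *
        (1 / 9 * (7 * (Qm 1 + c 1 - Qm 1) - 14 * (Qm 1 + v 1 - Qm 1) - 7 * w 1)) +
      1 / 9 * (7 * (Qm 2 + c 2 - Qm 2) - 14 * (Qm 2 + v 2 - Qm 2) - 7 * w 2) *
        (1 / 9 * (7 * (Qm 2 + c 2 - Qm 2) - 14 * (Qm 2 + v 2 - Qm 2) - 7 * w 2))) / 2 := by
    linear_combination (7 / 9 : ℝ) * Ec0 - (14 / 9 : ℝ) * Ev0 - (7 / 9 : ℝ) * w2 - (7 / 81 : ℝ) * w1
  refine ⟨F1, ?_, ?_, ?_⟩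
  · linear_combination (-D) * F1 + (7 / 9 : ℝ) * (Ec1 + D * Ec0) - (14 / 9 : ℝ) * (Ev1 + D * Ev0) -
      (7 / 9 : ℝ) * w3 + (49 / 81 : ℝ) * w1
  · linear_combination w2
  · linear_combination w3 - D * w2
/-- Write `B1 = Q' - u`, `B2 = B1 - w`, `A1 = P' + (D-2) u`, `A2 = A1 + D w`,
`L1 = P' + D Q' - 2 u = A1 + D B1 = A2 + D B2`. Let `U`, `Y` be the two vectors whose products
with `w` are given by `w2`, `w3`; then `(B1 + B2)/2 = U + (5/18) w` and `L1 = Y + (14/9) w`, so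
`⟨(B1+B2)/2, w⟩ = 0`, `⟨L1, w⟩ = 0`. With
`⟨Q', c⟩ = |c|²/2`, `⟨QO, c⟩ = -|c|²/2 + ⟨c,v⟩`, `⟨QO, v⟩ = |v|²/2`, `⟨Q', v⟩ = -|v|²/2 + ⟨c,v⟩`
one gets `|U|² = 1 - (14/81)|w|²`, hence `|(B1+B2)/2|² = 1 - |w|²/4` and `|B1| = |B2| = 1`.
With `L = P' + D Q' = Pm + D Qm`: `⟨L,c⟩ = 0`, `⟨L,v⟩ = -(7/2)|v|²`, `|L|² = 1 + D²` one gets
`|Y|² = |L|² + (196/81)|w|²`, so `|L1|² = 1 + D²`; and `⟨Y,U⟩ = D + (35/81)|w|²`, so
`⟨L1,(B1+B2)/2⟩ = D`. Then `A1 = L1 - D B1` etc. -/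
theorem fr_Q1 (D : ℝ) (Pm Qm P' Q' PO QO w : Space) (h : WDat D Pm Qm P' Q' PO QO w) :
    Fr (P' + (D - 2) • ((1 / 9 : ℝ) • ((7 : ℝ) • (Q' - Qm) - (14 : ℝ) • (QO - Qm) - (7 : ℝ) • w)))
      (Q' - (1 / 9 : ℝ) • ((7 : ℝ) • (Q' - Qm) - (14 : ℝ) • (QO - Qm) - (7 : ℝ) • w)) := by
  set u := (1 / 9 : ℝ) • ((7 : ℝ) • (Q' - Qm) - (14 : ℝ) • (QO - Qm) - (7 : ℝ) • w) with hu
  obtain ⟨f1, f2, f3, f4⟩ := w2_main D Pm Qm P' Q' PO QO w h u hu
  have g1 := h.hG.pp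
  have g2 := h.hG.qq
  have g3 := h.hG.pq
  have c1 := w1_dot_comm u Q'
  have c2 := w1_dot_comm u P'
  refine ⟨?_, ?_, ?_⟩
  · simp only [w1_dot_add_left, w1_dot_add_right, w1_dot_smul_left, w1_dot_smul_right]
    linear_combination g1 + 2 * (D - 2) * f2 + (D - 2) * c2
  · simp only [w1_dot_sub_left, w1_dot_sub_right]
    linear_combination g2 - 2 * f1 - c1
  · simp only [w1_dot_add_left, w1_dot_sub_right, w1_dot_smul_left]
    linear_combination g3 - f2 + (D - 2) * (f1 + c1)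

/-- See `fr_Q1`. -/
theorem fr_Q2 (D : ℝ) (Pm Qm P' Q' PO QO w : Space) (h : WDat D Pm Qm P' Q' PO QO w) :
    Fr (P' + (D - 2) • ((1 / 9 : ℝ) • ((7 : ℝ) • (Q' - Qm) - (14 : ℝ) • (QO - Qm) - (7 : ℝ) • w))
        + D • w)
      (Q' - (1 / 9 : ℝ) • ((7 : ℝ) • (Q' - Qm) - (14 : ℝ) • (QO - Qm) - (7 : ℝ) • w) - w) := by
  have h1 := fr_Q1 D Pm Qm P' Q' PO QO w h
  set u := (1 / 9 : ℝ) • ((7 : ℝ) • (Q' - Qm) - (14 : ℝ) • (QO - Qm) - (7 : ℝ) • w) with hu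
  obtain ⟨f1, f2, f3, f4⟩ := w2_main D Pm Qm P' Q' PO QO w h u hu
  set A := P' + (D - 2) • u with hA
  set B := Q' - u with hB
  have c1 := w1_dot_comm w A
  have c2 := w1_dot_comm w B
  refine ⟨?_, ?_, ?_⟩
  · simp only [w1_dot_add_left, w1_dot_add_right, w1_dot_smul_left, w1_dot_smul_right]
    linear_combination h1.pp + 2 * D * f4 + D * c1
  · simp only [w1_dot_sub_left, w1_dot_sub_right]
    linear_combination h1.qq - 2 * f3 - c2
  · simp only [w1_dot_add_left, w1_dot_sub_right, w1_dot_smul_left]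
    linear_combination h1.pq - f4 + D * (f3 + c2)

/-- The relation across the crease `q3`, linear algebra. -/
theorem rel_q3 (D : ℝ) (Pm Qm P' Q' PO QO w : Space) (h : WDat D Pm Qm P' Q' PO QO w) :
    (P' + (D - 2) • ((1 / 9 : ℝ) • ((7 : ℝ) • (Q' - Qm) - (14 : ℝ) • (QO - Qm) - (7 : ℝ) • w))
        + D • w) + (D + 7) •
      (Q' - (1 / 9 : ℝ) • ((7 : ℝ) • (Q' - Qm) - (14 : ℝ) • (QO - Qm) - (7 : ℝ) • w) - w) =
    PO + (D + 7) • QO := by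
  have k0 := h.path
  have k1 := h.vw
  ext j
  have e0 := congrArg (fun x : Space => x j) k0
  have e1 := congrArg (fun x : Space => x j) k1
  simp only [PiLp.add_apply, PiLp.sub_apply, PiLp.smul_apply, smul_eq_mul] at e0 e1 ⊢
  linear_combination e1 - e0

end Pool.Agent.MP_7070f9_lc
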