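import Pool.Agent.MP_7070f9_lc.Path
import Pool.Agent.MP_7070f9_lc.VW

/-!
# Existence of the frames of all cells, depending continuously on `t`
-/

open Filter Topology

namespace Pool.Agent.MP_7070f9_lc

/-- All creases are folded. -/
structure NonFlat (C : Ch) (P Q : Cell → Space) : Prop where
  spoke : ∀ k < C.m, Q (.F k) ≠ Q (.F (k + 1))
  path : ∀ k ≤ C.m, Q (.F k) ≠ Q (.G k)
  vert : ∀ k < C.m, P (.G k) ≠ P (.G (k + 1))
  vw : Q (.F C.m) ≠ Q .O1
  o2 : Q .O1 ≠ Q .O2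
  o3 : P .O2 ≠ P (.F 0)
  q1 : Q (.G C.m) ≠ Q .Q1
  q2 : Q .Q1 ≠ Q .Q2
  q3 : Q .Q2 ≠ Q .O1

/-- The limit data: `χ k`, `τ`, `ω` are the limits of the third coordinates of `c_k / t`,
`v_2 / t`, `w / t`. -/
structure LDat (C : Ch) (χ : ℕ → ℝ) (τ ω : ℝ) : Prop where
  zero : χ 0 = 1
  norm : ∀ k ≤ C.m, C.r k * χ k ^ 2 = 1
  V : 25 * τ ^ 2 = (7 + C.i C.m) * (χ C.m - χ 0) ^ 2 -
    ∑ k ∈ Finset.Ico 1 C.m, C.η k * (χ k - χ 0) ^ 2
  W : ω ^ 2 = χ C.m ^ 2 - 4 * χ C.m * (χ C.m - χ 0 - τ) - 5 * (χ C.m - χ 0 - τ) ^ 2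
  τ0 : τ ≠ 0
  ω0 : ω ≠ 0
  sp : ∀ k < C.m, χ k ≠ χ (k + 1)
  vt : ∀ k < C.m, C.r k * χ k ≠ C.r (k + 1) * χ (k + 1)
  vo : χ C.m - χ 0 - τ ≠ 0
  o3 : ∑ k ∈ Finset.range C.m, C.g (k + 1) * (χ (k + 1) - χ k) +
    (7 - C.D) * (χ C.m - χ 0 - τ) - (C.D + 18) * τ ≠ 0
  q1 : 7 * χ C.m - 14 * (χ C.m - χ 0 - τ) - 7 * ω ≠ 0
  q3 : 2 * χ C.m + 5 * (χ C.m - χ 0 - τ) - 2 * ω ≠ 0

theorem f1_add_left (x y z : Space) : dot (x + y) z = dot x z + dot y z := by
  unfold dot; simp only [PiLp.add_apply]; ring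

theorem f1_add_right (x y z : Space) : dot z (x + y) = dot z x + dot z y := by
  unfold dot; simp only [PiLp.add_apply]; ring

theorem f1_sub_left (x y z : Space) : dot (x - y) z = dot x z - dot y z := by
  unfold dot; simp only [PiLp.sub_apply]; ring

theorem f1_sub_right (x y z : Space) : dot z (x - y) = dot z x - dot z y := by
  unfold dot; simp only [PiLp.sub_apply]; ring

theorem f1_smul_left (a : ℝ) (x z : Space) : dot (a • x) z = a * dot x z := by
  unfold dot; simp only [PiLp.smul_apply, smul_eq_mul]; ring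

theorem f1_smul_right (a : ℝ) (x z : Space) : dot z (a • x) = a * dot z x := by
  unfold dot; simp only [PiLp.smul_apply, smul_eq_mul]; ring

theorem f1_comm (x y : Space) : dot x y = dot y x := by
  unfold dot; ring

theorem f1_e22 : dot e2 e2 = 1 := by simp [dot, e2]

theorem f1_e33 : dot e3 e3 = 1 := by simp [dot, e3]

theorem f1_coord {x : ℝ → Space} {t : ℝ} (h : ContinuousAt x t) (i : Fin 3) :
    ContinuousAt (fun t => x t i) t := by
  have h1 : Continuous (fun y : Space => y i) := by fun_prop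
  exact h1.continuousAt.comp h

theorem f1_dot {x y : ℝ → Space} {t : ℝ} (hx : ContinuousAt x t) (hy : ContinuousAt y t) :
    ContinuousAt (fun t => dot (x t) (y t)) t := by
  unfold dot
  exact (((f1_coord hx 0).mul (f1_coord hy 0)).add ((f1_coord hx 1).mul (f1_coord hy 1))).add
    ((f1_coord hx 2).mul (f1_coord hy 2))

/-- the first vectors of the frames of the cells `F k`, `G k` -/
noncomputable def f1_P (C : Ch) (p c : ℕ → ℝ → Space) (t : ℝ) : Cell → Space
  | .F k => p k t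
  | .G k => p k t - (C.s k * t) • c k t
  | _ => 0

/-- the second vectors of the frames of the cells `F k`, `G k` -/
noncomputable def f1_Q (c : ℕ → ℝ → Space) (t : ℝ) : Cell → Space
  | .F k => e2 - t • c k t
  | _ => e2

theorem f1_prel (C : Ch) (p c : ℕ → ℝ → Space) (t : ℝ)
    (h : ∀ k ≤ C.m, dot (p k t) (p k t) = 1 ∧ dot (p k t) e2 = C.s k / (2 * C.r k) * t ^ 2 ∧
      dot (p k t) (c k t) = C.s k / (2 * C.r k) * t ∧
      dot e2 (c k t) = t / (2 * C.r k) ∧ C.r k * dot (c k t) (c k t) = 1)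
    (hs : ∀ k < C.m, p k t + C.g (k + 1) • (e2 - t • c k t) =
        p (k + 1) t + C.g (k + 1) • (e2 - t • c (k + 1) t)) :
    PRel C (f1_P C p c t) (f1_Q c t) := by
  refine ⟨?_, ?_, hs, ?_, fun k _ => rfl⟩
  · intro k hk
    obtain ⟨h1, h2, h3, h4, h5⟩ := h k hk
    have hr : 0 < C.r k := C.r_pos k
    have h5' : dot (c k t) (c k t) = 1 / C.r k := by field_simp; linear_combination h5
    have c1 := f1_comm (c k t) e2
    refine ⟨h1, ?_, ?_⟩
    · change dot (e2 - t • c k t) (e2 - t • c k t) = 1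
      simp only [f1_sub_left, f1_sub_right, f1_smul_left, f1_smul_right]
      rw [c1, h4, h5', f1_e22]
      field_simp
      ring
    · change dot (p k t) (e2 - t • c k t) = 0
      simp only [f1_sub_right, f1_smul_right]
      rw [h2, h3]
      ring
  · intro k hk
    obtain ⟨h1, h2, h3, h4, h5⟩ := h k hk
    have hr : 0 < C.r k := C.r_pos k
    have h5' : dot (c k t) (c k t) = 1 / C.r k := by field_simp; linear_combination h5
    have c1 := f1_comm (c k t) e2
    have c2 := f1_comm (c k t) (p k t)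
    refine ⟨?_, f1_e22, ?_⟩
    · change dot (p k t - (C.s k * t) • c k t) (p k t - (C.s k * t) • c k t) = 1
      simp only [f1_sub_left, f1_sub_right, f1_smul_left, f1_smul_right]
      rw [c2, h1, h3, h5']
      field_simp
      ring
    · change dot (p k t - (C.s k * t) • c k t) e2 = 0
      simp only [f1_sub_left, f1_smul_left]
      rw [c1, h2, h4]
      field_simp
      ring
  · intro k hk
    change p k t + C.s k • (e2 - t • c k t) = p k t - (C.s k * t) • c k t + C.s k • e2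
    module

/-- The vector `v_2 / t` at the vertex `V`: apply `solve` with `U = Q_0 = e2 - t c_0`,
`V = M = p_m - (7-D)(e2 - t c_m)`, `a = t ρ / 2`, `b = 25 t ρ / 2`, where
`ρ(t) = ((7 + i_m) |c_m - c_0|² - ∑_{k=1}^{m-1} η_k |c_k - c_0|²)/25`, `s = τ`. At `t = 0`:
`U = e2`, `V = e1 - (7-D) e2`, `ρ(0) = τ²` by `LDat.V`. The last conclusion is `PRel.DV` (from
`Alg`), applied at fixed `t` to the cells `P (.F k) = p k t`, `Q (.F k) = e2 - t c_k`,
`P (.G k) = p k t - (s_k t) c_k`, `Q (.G k) = e2` (so that `cv Q k = t c_k`); the orthonormality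
of these frames follows from `PInv`. -/
theorem exists_v (C : Ch) (χ : ℕ → ℝ) (τ ω : ℝ) (hL : LDat C χ τ ω) (p c : ℕ → ℝ → Space)
    (hp : ∀ k ≤ C.m, PInv C χ k (p k, c k))
    (hs : ∀ k < C.m, ∀ t, p k t + C.g (k + 1) • (e2 - t • c k t) =
        p (k + 1) t + C.g (k + 1) • (e2 - t • c (k + 1) t)) :
    ∃ v : ℝ → Space, (∀ᶠ t in 𝓝 (0 : ℝ), ContinuousAt v t ∧
      dot (e2 - t • c 0 t) (v t) = t / 2 * dot (v t) (v t) ∧
      dot (p C.m t - (7 - C.D) • (e2 - t • c C.m t)) (v t) = 25 / 2 * t * dot (v t) (v t) ∧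
      dot (p C.m t - (7 - C.D) • (e2 - t • c C.m t)) (e2 - t • c 0 t) + (7 - C.D) =
        25 / 2 * t ^ 2 * dot (v t) (v t)) ∧ v 0 = τ • e3 := by
  have hev : ∀ᶠ t in 𝓝 (0 : ℝ), ∀ k ∈ Set.Iic C.m,
      ContinuousAt (p k) t ∧ ContinuousAt (c k) t ∧
      dot (p k t) (p k t) = 1 ∧ dot (p k t) e2 = C.s k / (2 * C.r k) * t ^ 2 ∧
      dot (p k t) (c k t) = C.s k / (2 * C.r k) * t ∧
      dot e2 (c k t) = t / (2 * C.r k) ∧ C.r k * dot (c k t) (c k t) = 1 := by
    rw [Filter.eventually_all_finite (Set.finite_Iic C.m)]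
    intro k hk
    exact (hp k hk).ev
  set ρ : ℝ → ℝ := fun t => ((7 + C.i C.m) * dot (c C.m t - c 0 t) (c C.m t - c 0 t) -
    ∑ k ∈ Finset.Ico 1 C.m, C.η k * dot (c k t - c 0 t) (c k t - c 0 t)) / 25 with hρ
  have hc0 : ∀ k ≤ C.m, c k 0 = χ k • e3 := fun k hk => (hp k hk).zero2
  have hd0 : ∀ k ≤ C.m, dot (c k 0 - c 0 0) (c k 0 - c 0 0) = (χ k - χ 0) ^ 2 := by
    intro k hk
    rw [hc0 k hk, hc0 0 (Nat.zero_le _), ← sub_smul, f1_smul_left, f1_smul_right, f1_e33]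
    ring
  have hρ0 : ρ 0 = τ ^ 2 := by
    rw [hρ]
    dsimp only
    rw [hd0 C.m le_rfl]
    have h1 : ∑ k ∈ Finset.Ico 1 C.m, C.η k * dot (c k 0 - c 0 0) (c k 0 - c 0 0) =
        ∑ k ∈ Finset.Ico 1 C.m, C.η k * (χ k - χ 0) ^ 2 := by
      refine Finset.sum_congr rfl fun k hk => ?_
      rw [hd0 k (Finset.mem_Ico.1 hk).2.le]
    rw [h1, ← hL.V]
    ring
  have hτ := hL.τ0
  have h0m : (0 : ℕ) ∈ Set.Iic C.m := Nat.zero_le _
  have hmm : C.m ∈ Set.Iic C.m := le_refl C.m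
  have cρ : ∀ᶠ t in 𝓝 (0 : ℝ), ContinuousAt ρ t := by
    filter_upwards [hev] with t ht
    rw [hρ]
    have c0 := (ht 0 h0m).2.1
    have cd : ∀ k ∈ Set.Iic C.m, ContinuousAt (fun t => dot (c k t - c 0 t) (c k t - c 0 t)) t :=
      fun k hk => f1_dot ((ht k hk).2.1.sub c0) ((ht k hk).2.1.sub c0)
    refine ContinuousAt.div_const (ContinuousAt.sub (continuousAt_const.mul (cd C.m hmm)) ?_) 25
    refine tendsto_finsetSum _ fun k hk => ?_
    exact continuousAt_const.mul (cd k (Finset.mem_Ico.1 hk).2.le)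
  have cU : ∀ k ∈ Set.Iic C.m, ∀ᶠ t in 𝓝 (0 : ℝ), ContinuousAt (fun t => e2 - t • c k t) t := by
    intro k hk
    filter_upwards [hev] with t ht
    have h1 := (ht k hk).2.1
    fun_prop
  set M : ℝ → Space := fun t => p C.m t - (7 - C.D) • (e2 - t • c C.m t) with hM
  have cM : ∀ᶠ t in 𝓝 (0 : ℝ), ContinuousAt M t := by
    filter_upwards [hev, cU C.m hmm] with t ht h1
    have h2 := (ht C.m hmm).1
    have h3 := (ht C.m hmm).2.1
    rw [hM]
    fun_prop
  have U0 : e2 - (0 : ℝ) • c 0 0 = e2 := by rw [zero_smul, sub_zero]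
  have M0 : M 0 = e1 - (7 - C.D) • e2 := by
    have h1 : p C.m 0 = e1 := (hp C.m le_rfl).zero1
    rw [hM]
    dsimp only
    rw [h1, zero_smul, sub_zero]
  obtain ⟨v, hv, hv0⟩ := solve (fun t => e2 - t • c 0 t) M (fun t => t * ρ t / 2)
    (fun t => 25 * t * ρ t / 2) ρ τ (cU 0 h0m) cM
    (by filter_upwards [cρ] with t h1; fun_prop)
    (by filter_upwards [cρ] with t h1; fun_prop) cρ
    (by rw [U0]; simp [e2]) (by rw [M0]; simp [e1, e2]) (by rw [U0, M0]; simp [e1, e2])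
    (by simp) (by simp) (by rw [hρ0]; positivity) hρ0.symm
  refine ⟨v, ?_, hv0⟩
  filter_upwards [hv, hev] with t h1 ht
  obtain ⟨b1, b2, b3, b4⟩ := h1
  refine ⟨b1, ?_, ?_, ?_⟩
  · rw [b4]; rw [b2]; ring
  · rw [b4]; rw [b3]; ring
  · rw [b4]
    have hrel := f1_prel C p c t (fun k hk => (ht k hk).2.2) (fun k hk => hs k hk t)
    have h2 := hrel.DV (7 - C.D)
    have hcv : ∀ k, cv (f1_Q c t) k = t • c k t := by
      intro k
      change e2 - (e2 - t • c k t) = t • c k t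
      abel
    have hd : ∀ k, dot (cv (f1_Q c t) k - cv (f1_Q c t) 0) (cv (f1_Q c t) k - cv (f1_Q c t) 0) =
        t ^ 2 * dot (c k t - c 0 t) (c k t - c 0 t) := by
      intro k
      rw [hcv, hcv, ← smul_sub, f1_smul_left, f1_smul_right]
      ring
    have h3 : ∑ k ∈ Finset.Ico 1 C.m, C.η k *
        dot (cv (f1_Q c t) k - cv (f1_Q c t) 0) (cv (f1_Q c t) k - cv (f1_Q c t) 0) =
        t ^ 2 * ∑ k ∈ Finset.Ico 1 C.m, C.η k * dot (c k t - c 0 t) (c k t - c 0 t) := by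
      rw [Finset.mul_sum]
      refine Finset.sum_congr rfl fun k _ => ?_
      rw [hd k]
      ring
    rw [h3, hd] at h2
    change dot (p C.m t - (7 - C.D) • (e2 - t • c C.m t)) (e2 - t • c 0 t) + (7 - C.D) = _ at h2
    have h4 : C.g C.m + (7 - C.D) = 7 + C.i C.m := by unfold Ch.D; ring
    rw [h4] at h2
    rw [h2, hρ]
    ring

/-- The vector `w / t` at the vertex `W`; here `vo = c_m - c_0 - v` (all divided by `t`) and
`QO = e2 - t c_0 - t v`. Apply `solve` with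
`U = (e2 + QO)/2 + (t/18)(-5 c_m + 19 vo)`,
`V = P'_m + D e2 - (14/9) t (c_m - 2 vo)`, `P'_m = p_m - (s_m t) c_m`, `s_m = D`,
`ρ = |c_m|² - 4 ⟨c_m, vo⟩ - 5 |vo|²`, `a = -(5/18) t ρ`, `b = -(14/9) t ρ`, `s = ω`. At `t = 0`:
`U = e2`, `V = e1 + D e2`, `ρ(0) = ω²` by `LDat.W`. -/
theorem exists_w (C : Ch) (χ : ℕ → ℝ) (τ ω : ℝ) (hL : LDat C χ τ ω) (p c : ℕ → ℝ → Space)
    (hp : ∀ k ≤ C.m, PInv C χ k (p k, c k)) (v : ℝ → Space)
    (hv : ∀ᶠ t in 𝓝 (0 : ℝ), ContinuousAt v t) (hv0 : v 0 = τ • e3) :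
    ∃ w : ℝ → Space, (∀ᶠ t in 𝓝 (0 : ℝ), ContinuousAt w t ∧
      dot (w t) (w t) = dot (c C.m t) (c C.m t) - 4 * dot (c C.m t) (c C.m t - c 0 t - v t)
        - 5 * dot (c C.m t - c 0 t - v t) (c C.m t - c 0 t - v t) ∧
      dot ((1 / 2 : ℝ) • (e2 + (e2 - t • c 0 t - t • v t)) + (1 / 18 : ℝ) •
        ((-5 : ℝ) • (t • c C.m t) + (19 : ℝ) • (t • (c C.m t - c 0 t - v t)))) (w t) =
          - (5 / 18) * t * dot (w t) (w t) ∧
      dot (p C.m t - (C.D * t) • c C.m t + C.D • e2 - (14 / 9 : ℝ) •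
        (t • c C.m t - (2 : ℝ) • (t • (c C.m t - c 0 t - v t)))) (w t) =
          - (14 / 9) * t * dot (w t) (w t)) ∧ w 0 = ω • e3 := by
  have hc := (hp C.m le_rfl).ev
  have hc' := (hp 0 (Nat.zero_le _)).ev
  dsimp only at hc hc'
  have hcm0 : c C.m 0 = χ C.m • e3 := (hp C.m le_rfl).zero2
  have hc00 : c 0 0 = χ 0 • e3 := (hp 0 (Nat.zero_le _)).zero2
  have hpm0 : p C.m 0 = e1 := (hp C.m le_rfl).zero1
  set vo : ℝ → Space := fun t => c C.m t - c 0 t - v t with hvo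
  have cvo : ∀ᶠ t in 𝓝 (0 : ℝ), ContinuousAt vo t := by
    filter_upwards [hc, hc', hv] with t h1 h2 h3
    exact (h1.2.1.sub h2.2.1).sub h3
  have vo0 : vo 0 = (χ C.m - χ 0 - τ) • e3 := by
    rw [hvo]
    dsimp only
    rw [hcm0, hc00, hv0, ← sub_smul, ← sub_smul]
  set ρ : ℝ → ℝ := fun t => dot (c C.m t) (c C.m t) - 4 * dot (c C.m t) (vo t) -
    5 * dot (vo t) (vo t) with hρ
  have cρ : ∀ᶠ t in 𝓝 (0 : ℝ), ContinuousAt ρ t := by
    filter_upwards [hc, cvo] with t h1 h2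
    exact ((f1_dot h1.2.1 h1.2.1).sub (continuousAt_const.mul (f1_dot h1.2.1 h2))).sub
      (continuousAt_const.mul (f1_dot h2 h2))
  have hρ0 : ρ 0 = ω ^ 2 := by
    rw [hρ]
    dsimp only
    rw [hcm0, vo0, hL.W]
    simp only [f1_smul_left, f1_smul_right, f1_e33]
    ring
  have hω := hL.ω0
  set U : ℝ → Space := fun t => (1 / 2 : ℝ) • (e2 + (e2 - t • c 0 t - t • v t)) + (1 / 18 : ℝ) •
        ((-5 : ℝ) • (t • c C.m t) + (19 : ℝ) • (t • vo t)) with hU
  set V : ℝ → Space := fun t => p C.m t - (C.D * t) • c C.m t + C.D • e2 - (14 / 9 : ℝ) •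
        (t • c C.m t - (2 : ℝ) • (t • vo t)) with hV
  have cU : ∀ᶠ t in 𝓝 (0 : ℝ), ContinuousAt U t := by
    filter_upwards [hc, hc', hv, cvo] with t h1 h2 h3 h4
    have h5 := h1.2.1
    have h6 := h2.2.1
    rw [hU]
    fun_prop
  have cV : ∀ᶠ t in 𝓝 (0 : ℝ), ContinuousAt V t := by
    filter_upwards [hc, hc', hv, cvo] with t h1 h2 h3 h4
    have h5 := h1.2.1
    have h6 := h2.2.1
    have h7 := h1.1
    rw [hV]
    fun_prop
  have U0 : U 0 = e2 := by
    rw [hU]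
    dsimp only
    simp only [zero_smul, smul_zero, sub_zero, add_zero]
    rw [← two_smul ℝ e2, smul_smul]
    norm_num
  have V0 : V 0 = e1 + C.D • e2 := by
    rw [hV]
    dsimp only
    rw [hpm0]
    simp only [zero_smul, smul_zero, sub_zero, mul_zero]
  obtain ⟨w, hw, hw0⟩ := solve U V (fun t => -(5 / 18) * t * ρ t)
    (fun t => -(14 / 9) * t * ρ t) ρ ω cU cV
    (by filter_upwards [cρ] with t h1; fun_prop)
    (by filter_upwards [cρ] with t h1; fun_prop) cρ
    (by rw [U0]; simp [e2]) (by rw [V0]; simp [e1, e2]) (by rw [U0, V0]; simp [e1, e2])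
    (by simp) (by simp) (by rw [hρ0]; positivity) hρ0.symm
  refine ⟨w, ?_, hw0⟩
  filter_upwards [hw] with t h1
  obtain ⟨b1, b2, b3, b4⟩ := h1
  exact ⟨b1, b4, by rw [b4]; exact b2, by rw [b4]; exact b3⟩

theorem f3_ne (A B d : ℝ → Space) (hd : ContinuousAt d 0) (h0 : d 0 2 ≠ 0)
    (hAB : ∀ t, A t - B t = t • d t) : ∀ᶠ t in 𝓝[>] (0 : ℝ), A t ≠ B t := by
  have h1 : ContinuousAt (fun t => d t 2) 0 := by
    have : Continuous fun x : Space => x 2 := by fun_prop
    exact this.continuousAt.comp hd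
  have h2 : ∀ᶠ t in 𝓝[>] (0 : ℝ), d t 2 ≠ 0 := (h1.eventually_ne h0).filter_mono nhdsWithin_le_nhds
  have h3 : ∀ᶠ t in 𝓝[>] (0 : ℝ), (0 : ℝ) < t := eventually_mem_nhdsWithin
  filter_upwards [h2, h3] with t ht ht0 hh
  have h4 := hAB t
  rw [hh, sub_self] at h4
  have h5 : d t = 0 := (smul_eq_zero.1 h4.symm).resolve_left ht0.ne'
  rw [h5] at ht
  exact ht rfl

theorem f3_sm (x : ℝ) (a b : Space) : dot (x • a) b = x * dot a b := by
  simp only [dot, PiLp.smul_apply, smul_eq_mul]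
  ring

theorem f3_ms (x : ℝ) (a b : Space) : dot a (x • b) = x * dot a b := by
  simp only [dot, PiLp.smul_apply, smul_eq_mul]
  ring

theorem f3_sub (a b c : Space) : dot a (b - c) = dot a b - dot a c := by
  simp only [dot, PiLp.sub_apply]
  ring

theorem f3_sub' (a b c : Space) : dot (b - c) a = dot b a - dot c a := by
  simp only [dot, PiLp.sub_apply]
  ring

theorem f3_comm (a b : Space) : dot a b = dot b a := by
  simp only [dot]
  ring

theorem f3_e2 : dot e2 e2 = 1 := by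
  simp [dot, e2]

theorem f3_fr (p c : Space) (s r t : ℝ) (hr : 0 < r) (h1 : dot p p = 1)
    (h2 : dot p e2 = s / (2 * r) * t ^ 2) (h3 : dot p c = s / (2 * r) * t)
    (h4 : dot e2 c = t / (2 * r)) (h5 : r * dot c c = 1) :
    Fr p (e2 - t • c) ∧ Fr (p - (s * t) • c) e2 := by
  have h6 : dot c c = 1 / r := by field_simp; linarith
  refine ⟨⟨h1, ?_, ?_⟩, ⟨?_, f3_e2, ?_⟩⟩
  · rw [f3_sub, f3_sub', f3_sub', f3_ms, f3_ms, f3_sm, f3_sm, f3_comm c e2, f3_e2, h4, h6]
    field_simp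
    ring
  · rw [f3_sub, f3_ms, h2, h3]
    ring
  · rw [f3_sub, f3_sub', f3_sub', f3_ms, f3_ms, f3_sm, f3_sm, f3_comm c p, h1, h3, h6]
    field_simp
    ring
  · rw [f3_sub', f3_sm, f3_comm c e2, h2, h4]
    field_simp
    ring

theorem f3_sum (C : Ch) (p c : ℕ → ℝ → Space) (t : ℝ)
    (hs : ∀ k < C.m, p k t + C.g (k + 1) • (e2 - t • c k t) =
        p (k + 1) t + C.g (k + 1) • (e2 - t • c (k + 1) t)) :
    ∀ n ≤ C.m, p n t - p 0 t = t • ∑ k ∈ Finset.range n, C.g (k + 1) • (c (k + 1) t - c k t) := by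
  intro n
  induction n with
  | zero => intro _; simp
  | succ n ih =>
    intro hn
    have h1 := ih (by omega)
    have h2 := hs n (by omega)
    rw [Finset.sum_range_succ, smul_add, ← h1]
    have h3 : p (n + 1) t = p n t + C.g (n + 1) • (e2 - t • c n t) - C.g (n + 1) • (e2 - t • c (n + 1) t) := by
      rw [h2]; abel
    rw [h3]
    module

/-- The frames, for all `t` near `0` (assembly): from `path_exists`, `exists_v`, `exists_w` put
`F k : (p k, e2 - t c_k)`, `G k : (p k - (s_k t) c_k, e2)`,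
`O1 : (p_m + (7-D) t vo, e2 - t c_0 - t v)` with `vo = c_m - c_0 - v`,
`O2 : (PO1 - (D+18) t v, e2 - t c_0)`,
`Q1 : (P'_m + (D-2) t u, e2 - t u)` with `u = (7 c_m - 14 vo - 7 w)/9`,
`Q2 : (PQ1 + D t w, QQ1 - t w)`, for indices `k ≤ m` (for `k > m` take the constants
`(e1, e2)`). Use `fr_O1`, ..., `rel_q3` (with `v`, `w` multiplied by `t`). -/
theorem frames_near (C : Ch) (χ : ℕ → ℝ) (τ ω : ℝ) (hL : LDat C χ τ ω) :
    ∃ P Q : Cell → ℝ → Space,
      (∀ᶠ t in 𝓝 (0 : ℝ), ∀ c, ContinuousAt (P c) t ∧ ContinuousAt (Q c) t) ∧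
      (∀ c, P c 0 = e1 ∧ Q c 0 = e2) ∧
      (∀ᶠ t in 𝓝 (0 : ℝ), Rel C (fun c => P c t) (fun c => Q c t)) ∧
      (∀ᶠ t in 𝓝[>] (0 : ℝ), NonFlat C (fun c => P c t) (fun c => Q c t)) := by
  obtain ⟨p, c, hp, hs⟩ := path_exists C χ hL.norm
  obtain ⟨v, hv, hv0⟩ := exists_v C χ τ ω hL p c hp hs
  obtain ⟨w, hw, hw0⟩ := exists_w C χ τ ω hL p c hp v (hv.mono fun t h => h.1) hv0
  have hev : ∀ᶠ t in 𝓝 (0 : ℝ), ∀ k ∈ Finset.range (C.m + 1), ContinuousAt (p k) t ∧ ContinuousAt (c k) t ∧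
    dot (p k t) (p k t) = 1 ∧ dot (p k t) e2 = C.s k / (2 * C.r k) * t ^ 2 ∧
    dot (p k t) (c k t) = C.s k / (2 * C.r k) * t ∧
    dot e2 (c k t) = t / (2 * C.r k) ∧ C.r k * dot (c k t) (c k t) = 1 := by
    rw [Filter.eventually_all_finset]
    intro k hk
    exact (hp k (Nat.lt_succ_iff.1 (Finset.mem_range.1 hk))).ev
  have hc0 := hev.self_of_nhds
  have hpc0 : ∀ k ≤ C.m, ContinuousAt (p k) 0 ∧ ContinuousAt (c k) 0 := fun k hk =>
    ⟨(hc0 k (Finset.mem_range.2 (by omega))).1, (hc0 k (Finset.mem_range.2 (by omega))).2.1⟩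
  have hvc0 : ContinuousAt v 0 := hv.self_of_nhds.1
  have hwc0 : ContinuousAt w 0 := hw.self_of_nhds.1
  have hpz : ∀ k ≤ C.m, p k 0 = e1 := fun k hk => (hp k hk).zero1
  have hcz : ∀ k ≤ C.m, c k 0 = χ k • e3 := fun k hk => (hp k hk).zero2
  have hcz2 : ∀ k ≤ C.m, c k 0 2 = χ k := fun k hk => by rw [hcz k hk]; simp [e3]
  have hvz2 : v 0 2 = τ := by rw [hv0]; simp [e3]
  have hwz2 : w 0 2 = ω := by rw [hw0]; simp [e3]
  let P : Cell → ℝ → Space := fun x => match x with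
    | .F k => fun t => if k ≤ C.m then p k t else e1
    | .G k => fun t => if k ≤ C.m then p k t - (C.s k * t) • c k t else e1
    | .O1 => fun t => p C.m t + (7 - C.D) • (t • (c C.m t - c 0 t - v t))
    | .O2 => fun t => p C.m t + (7 - C.D) • (t • (c C.m t - c 0 t - v t)) - (C.D + 18) • (t • v t)
    | .Q1 => fun t => (p C.m t - (C.s C.m * t) • c C.m t) + (C.D - 2) • ((1 / 9 : ℝ) •
        ((7 : ℝ) • (t • c C.m t) - (14 : ℝ) • (t • (c C.m t - c 0 t - v t)) - (7 : ℝ) • (t • w t)))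
    | .Q2 => fun t => (p C.m t - (C.s C.m * t) • c C.m t) + (C.D - 2) • ((1 / 9 : ℝ) •
        ((7 : ℝ) • (t • c C.m t) - (14 : ℝ) • (t • (c C.m t - c 0 t - v t)) - (7 : ℝ) • (t • w t)))
        + C.D • (t • w t)
  let Q : Cell → ℝ → Space := fun x => match x with
    | .F k => fun t => if k ≤ C.m then e2 - t • c k t else e2
    | .G _ => fun _ => e2
    | .O1 => fun t => e2 - t • c 0 t - t • v t
    | .O2 => fun t => e2 - t • c 0 t
    | .Q1 => fun t => e2 - (1 / 9 : ℝ) •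
        ((7 : ℝ) • (t • c C.m t) - (14 : ℝ) • (t • (c C.m t - c 0 t - v t)) - (7 : ℝ) • (t • w t))
    | .Q2 => fun t => e2 - (1 / 9 : ℝ) •
        ((7 : ℝ) • (t • c C.m t) - (14 : ℝ) • (t • (c C.m t - c 0 t - v t)) - (7 : ℝ) • (t • w t))
        - t • w t
  have PF : ∀ k ≤ C.m, ∀ t, P (.F k) t = p k t := fun k hk t => if_pos hk
  have PG : ∀ k ≤ C.m, ∀ t, P (.G k) t = p k t - (C.s k * t) • c k t := fun k hk t => if_pos hk
  have QF : ∀ k ≤ C.m, ∀ t, Q (.F k) t = e2 - t • c k t := fun k hk t => if_pos hk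
  refine ⟨P, Q, ?_, ?_, ?_, ?_⟩
  · filter_upwards [hev, hv, hw] with t h1 h2 h3
    have hm := h1 C.m (Finset.mem_range.2 (by omega))
    have h0 := h1 0 (Finset.mem_range.2 (by omega))
    have m1 := hm.1
    have m2 := hm.2.1
    have z1 := h0.1
    have z2 := h0.2.1
    have v1 := h2.1
    have w1 := h3.1
    intro x
    cases x with
    | F k =>
      by_cases hk : k ≤ C.m
      · have hk' := h1 k (Finset.mem_range.2 (by omega))
        have a1 := hk'.1
        have a2 := hk'.2.1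
        have e1' : P (.F k) = fun t => p k t := funext (PF k hk)
        have e2' : Q (.F k) = fun t => e2 - t • c k t := funext (QF k hk)
        rw [e1', e2']
        exact ⟨a1, by fun_prop⟩
      · have e1' : P (.F k) = fun t => e1 := funext fun t => if_neg hk
        have e2' : Q (.F k) = fun t => e2 := funext fun t => if_neg hk
        rw [e1', e2']
        exact ⟨continuousAt_const, continuousAt_const⟩
    | G k =>
      refine ⟨?_, continuousAt_const⟩
      by_cases hk : k ≤ C.m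
      · have hk' := h1 k (Finset.mem_range.2 (by omega))
        have a1 := hk'.1
        have a2 := hk'.2.1
        have e1' : P (.G k) = fun t => p k t - (C.s k * t) • c k t := funext (PG k hk)
        rw [e1']
        fun_prop
      · have e1' : P (.G k) = fun t => e1 := funext fun t => if_neg hk
        rw [e1']
        exact continuousAt_const
    | O1 => exact ⟨by simp only [P]; fun_prop, by simp only [Q]; fun_prop⟩
    | O2 => exact ⟨by simp only [P]; fun_prop, by simp only [Q]; fun_prop⟩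
    | Q1 => exact ⟨by simp only [P]; fun_prop, by simp only [Q]; fun_prop⟩
    | Q2 => exact ⟨by simp only [P]; fun_prop, by simp only [Q]; fun_prop⟩
  · intro x
    have hm0 := hpz C.m le_rfl
    cases x with
    | F k =>
      by_cases hk : k ≤ C.m
      · rw [PF k hk, QF k hk, hpz k hk]
        simp
      · exact ⟨if_neg hk, if_neg hk⟩
    | G k =>
      refine ⟨?_, rfl⟩
      by_cases hk : k ≤ C.m
      · rw [PG k hk, hpz k hk]
        simp
      · exact if_neg hk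
    | O1 => simp [P, Q, hm0]
    | O2 => simp [P, Q, hm0]
    | Q1 => simp [P, Q, hm0]
    | Q2 => simp [P, Q, hm0]
  · filter_upwards [hev, hv, hw] with t h1 h2 h3
    obtain ⟨-, hv1, hv2, hv3⟩ := h2
    obtain ⟨-, hw1, hw2, hw3⟩ := h3
    have hfr : ∀ k ≤ C.m, Fr (p k t) (e2 - t • c k t) ∧ Fr (p k t - (C.s k * t) • c k t) e2 := by
      intro k hk
      obtain ⟨-, -, a1, a2, a3, a4, a5⟩ := h1 k (Finset.mem_range.2 (by omega))
      exact f3_fr _ _ _ _ _ (C.r_pos k) a1 a2 a3 a4 a5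
    have hm := hfr C.m le_rfl
    have h0 := hfr 0 (Nat.zero_le _)
    have hv1' : dot (e2 - t • c 0 t) (t • v t) = dot (t • v t) (t • v t) / 2 := by
      rw [f3_ms, f3_ms, f3_sm, hv1]; ring
    have hv2' : dot (p C.m t - (7 - C.D) • (e2 - t • c C.m t)) (t • v t) =
        25 / 2 * dot (t • v t) (t • v t) := by
      rw [f3_ms, f3_ms, f3_sm, hv2]; ring
    have hv3' : dot (p C.m t - (7 - C.D) • (e2 - t • c C.m t)) (e2 - t • c 0 t) + (7 - C.D) =
        25 / 2 * dot (t • v t) (t • v t) := by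
      rw [hv3, f3_ms, f3_sm]; ring
    have evo : e2 - t • c 0 t - (e2 - t • c C.m t) - t • v t = t • (c C.m t - c 0 t - v t) := by
      module
    have fO1 := fr_O1 C.D (p C.m t) (e2 - t • c C.m t) (p 0 t) (e2 - t • c 0 t) (t • v t) hm.1 h0.1
      hv1' hv2' hv3'
    have fO2 := fr_O2 C.D (p C.m t) (e2 - t • c C.m t) (p 0 t) (e2 - t • c 0 t) (t • v t) hm.1 h0.1
      hv1' hv2' hv3'
    rw [evo] at fO1 fO2
    have ec : e2 - (e2 - t • c C.m t) = t • c C.m t := by abel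
    have eo : e2 - t • c 0 t - t • v t - (e2 - t • c C.m t) = t • (c C.m t - c 0 t - v t) := by
      module
    have hW : WDat C.D (p C.m t) (e2 - t • c C.m t) (p C.m t - (C.s C.m * t) • c C.m t) e2
        (p C.m t + (7 - C.D) • (t • (c C.m t - c 0 t - v t))) (e2 - t • c 0 t - t • v t) (t • w t) := by
      refine ⟨hm.1, hm.2, fO1, ?_, ?_, ?_, ?_, ?_⟩
      · rw [C.s_last]; module
      · module
      · rw [ec, eo, f3_ms, f3_sm, hw1]
        simp only [f3_ms, f3_sm]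
        ring
      · rw [ec, eo, f3_ms, hw2, f3_ms, f3_sm]
        ring
      · rw [ec, eo, C.s_last, f3_ms, hw3, f3_ms, f3_sm]
        ring
    have fQ1 := fr_Q1 C.D _ _ _ _ _ _ _ hW
    have fQ2 := fr_Q2 C.D _ _ _ _ _ _ _ hW
    have rq3 := rel_q3 C.D _ _ _ _ _ _ _ hW
    rw [ec, eo] at fQ1 fQ2 rq3
    refine ⟨?_, ?_, ?_, ?_, ?_, ?_, rfl, ?_, ?_, ?_⟩
    · intro x hx
      cases x with
      | F k =>
        show Fr (P (.F k) t) (Q (.F k) t)
        rw [PF k hx, QF k hx]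
        exact (hfr k hx).1
      | G k =>
        show Fr (P (.G k) t) e2
        rw [PG k hx]
        exact (hfr k hx).2
      | O1 => exact fO1
      | O2 => exact fO2
      | Q1 => exact fQ1
      | Q2 => exact fQ2
    · intro k hk
      show P (.F k) t + C.g (k + 1) • Q (.F k) t = P (.F (k + 1)) t + C.g (k + 1) • Q (.F (k + 1)) t
      rw [PF k hk.le, QF k hk.le, PF (k + 1) hk, QF (k + 1) hk]
      exact hs k hk t
    · intro k hk
      show P (.F k) t + C.s k • Q (.F k) t = P (.G k) t + C.s k • e2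
      rw [PF k hk, QF k hk, PG k hk]
      module
    · intro k hk
      rfl
    · show P (.F C.m) t + (C.D - 7) • Q (.F C.m) t = p C.m t + (7 - C.D) • (t • (c C.m t - c 0 t - v t)) +
        (C.D - 7) • (e2 - t • c 0 t - t • v t)
      rw [PF C.m le_rfl, QF C.m le_rfl]
      module
    · show p C.m t + (7 - C.D) • (t • (c C.m t - c 0 t - v t)) + (C.D + 18) • (e2 - t • c 0 t - t • v t) =
        p C.m t + (7 - C.D) • (t • (c C.m t - c 0 t - v t)) - (C.D + 18) • (t • v t) +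
          (C.D + 18) • (e2 - t • c 0 t)
      module
    · show P (.G C.m) t + (C.D - 2) • e2 = (p C.m t - (C.s C.m * t) • c C.m t) + (C.D - 2) • ((1 / 9 : ℝ) •
        ((7 : ℝ) • (t • c C.m t) - (14 : ℝ) • (t • (c C.m t - c 0 t - v t)) - (7 : ℝ) • (t • w t))) +
        (C.D - 2) • (e2 - (1 / 9 : ℝ) •
        ((7 : ℝ) • (t • c C.m t) - (14 : ℝ) • (t • (c C.m t - c 0 t - v t)) - (7 : ℝ) • (t • w t)))
      rw [PG C.m le_rfl]
      module
    · simp only [P, Q]
      module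
    · exact rq3
  · have n1 : ∀ᶠ t in 𝓝[>] (0 : ℝ), ∀ k ∈ Finset.range C.m, Q (.F k) t ≠ Q (.F (k + 1)) t := by
      rw [Filter.eventually_all_finset]
      intro k hk
      have hk := Finset.mem_range.1 hk
      have a1 := (hpc0 k hk.le).2
      have a2 := (hpc0 (k + 1) hk).2
      refine f3_ne _ _ (fun t => c (k + 1) t - c k t) (by fun_prop) ?_ ?_
      · show (c (k + 1) 0 - c k 0) 2 ≠ 0
        rw [PiLp.sub_apply, hcz2 _ hk, hcz2 _ hk.le]
        exact sub_ne_zero.2 (hL.sp k hk).symm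
      · intro t
        rw [QF k hk.le, QF (k + 1) hk]
        module
    have n2 : ∀ᶠ t in 𝓝[>] (0 : ℝ), ∀ k ∈ Finset.range (C.m + 1), Q (.F k) t ≠ Q (.G k) t := by
      rw [Filter.eventually_all_finset]
      intro k hk
      have hk : k ≤ C.m := Nat.lt_succ_iff.1 (Finset.mem_range.1 hk)
      have a1 := (hpc0 k hk).2
      refine f3_ne _ _ (fun t => -c k t) (by fun_prop) ?_ ?_
      · show (-c k 0) 2 ≠ 0
        rw [PiLp.neg_apply, hcz2 _ hk]
        intro h
        have h1 := hL.norm k hk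
        rw [neg_eq_zero.1 h] at h1
        norm_num at h1
      · intro t
        rw [QF k hk]
        show e2 - t • c k t - e2 = _
        module
    have n3 : ∀ᶠ t in 𝓝[>] (0 : ℝ), ∀ k ∈ Finset.range C.m, P (.G k) t ≠ P (.G (k + 1)) t := by
      rw [Filter.eventually_all_finset]
      intro k hk
      have hk := Finset.mem_range.1 hk
      have a1 := (hpc0 k hk.le).2
      have a2 := (hpc0 (k + 1) hk).2
      refine f3_ne _ _ (fun t => C.i (k + 1) • (C.r k • c k t - C.r (k + 1) • c (k + 1) t)) (by fun_prop) ?_ ?_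
      · show (C.i (k + 1) • (C.r k • c k 0 - C.r (k + 1) • c (k + 1) 0)) 2 ≠ 0
        rw [PiLp.smul_apply, PiLp.sub_apply, PiLp.smul_apply, PiLp.smul_apply, hcz2 _ hk, hcz2 _ hk.le]
        simp only [smul_eq_mul]
        exact mul_ne_zero (C.i_pos (by omega)).ne' (sub_ne_zero.2 (hL.vt k hk))
      · intro t
        rw [PG k hk.le, PG (k + 1) hk]
        have h2 := hs k hk t
        have h3 : p (k + 1) t = p k t + C.g (k + 1) • (e2 - t • c k t) - C.g (k + 1) • (e2 - t • c (k + 1) t) := by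
          rw [h2]; abel
        have e1' : C.s k = C.g (k + 1) - C.i (k + 1) * C.r k := C.s_eq k
        have e2' : C.s (k + 1) = C.g (k + 1) - C.i (k + 1) * C.r (k + 1) := rfl
        rw [h3, e1', e2']
        module
    have am := (hpc0 C.m le_rfl).2
    have apm := (hpc0 C.m le_rfl).1
    have a0 := (hpc0 0 (Nat.zero_le _)).2
    have ap0 := (hpc0 0 (Nat.zero_le _)).1
    have cm2 := hcz2 C.m le_rfl
    have c02 := hcz2 0 (Nat.zero_le _)
    have n4 : ∀ᶠ t in 𝓝[>] (0 : ℝ), Q (.F C.m) t ≠ Q .O1 t := by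
      refine f3_ne _ _ (fun t => -(c C.m t - c 0 t - v t)) (by fun_prop) ?_ ?_
      · show (-(c C.m 0 - c 0 0 - v 0)) 2 ≠ 0
        rw [PiLp.neg_apply, PiLp.sub_apply, PiLp.sub_apply, cm2, c02, hvz2]
        exact neg_ne_zero.2 hL.vo
      · intro t
        rw [QF C.m le_rfl]
        simp only [Q]
        module
    have n5 : ∀ᶠ t in 𝓝[>] (0 : ℝ), Q .O1 t ≠ Q .O2 t := by
      refine f3_ne _ _ (fun t => -v t) (by fun_prop) ?_ ?_
      · show (-v 0) 2 ≠ 0
        rw [PiLp.neg_apply, hvz2]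
        exact neg_ne_zero.2 hL.τ0
      · intro t
        simp only [Q]
        module
    have n6 : ∀ᶠ t in 𝓝[>] (0 : ℝ), P .O2 t ≠ P (.F 0) t := by
      have hck : ∀ k ∈ Finset.range C.m, ContinuousAt (fun t => C.g (k + 1) • (c (k + 1) t - c k t)) 0 := by
        intro k hk
        have hk := Finset.mem_range.1 hk
        have a1 := (hpc0 k hk.le).2
        have a2 := (hpc0 (k + 1) hk).2
        fun_prop
      have hcs : ContinuousAt (fun t => ∑ k ∈ Finset.range C.m, C.g (k + 1) • (c (k + 1) t - c k t)) 0 :=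
        tendsto_finsetSum _ hck
      refine f3_ne _ _ (fun t => (∑ k ∈ Finset.range C.m, C.g (k + 1) • (c (k + 1) t - c k t)) +
        (7 - C.D) • (c C.m t - c 0 t - v t) - (C.D + 18) • v t) (by fun_prop) ?_ ?_
      · show ((∑ k ∈ Finset.range C.m, C.g (k + 1) • (c (k + 1) 0 - c k 0)) +
          (7 - C.D) • (c C.m 0 - c 0 0 - v 0) - (C.D + 18) • v 0) 2 ≠ 0
        have e1' : (∑ k ∈ Finset.range C.m, C.g (k + 1) • (c (k + 1) 0 - c k 0)) =
            (∑ k ∈ Finset.range C.m, C.g (k + 1) * (χ (k + 1) - χ k)) • e3 := by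
          rw [Finset.sum_smul]
          refine Finset.sum_congr rfl fun k hk => ?_
          have hk := Finset.mem_range.1 hk
          rw [hcz k hk.le, hcz (k + 1) hk]
          module
        rw [e1']
        simp only [PiLp.sub_apply, PiLp.add_apply, PiLp.smul_apply, smul_eq_mul, cm2, c02, hvz2]
        have e2' : e3 2 = 1 := by simp [e3]
        rw [e2', mul_one]
        exact hL.o3
      · intro t
        have h1 := f3_sum C p c t (fun k hk => hs k hk t) C.m le_rfl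
        rw [PF 0 (Nat.zero_le _)]
        have h2 : p 0 t = p C.m t - t • ∑ k ∈ Finset.range C.m, C.g (k + 1) • (c (k + 1) t - c k t) := by
          rw [← h1]; abel
        rw [h2]
        simp only [P]
        module
    have n7 : ∀ᶠ t in 𝓝[>] (0 : ℝ), Q (.G C.m) t ≠ Q .Q1 t := by
      refine f3_ne _ _ (fun t => (1 / 9 : ℝ) • ((7 : ℝ) • c C.m t - (14 : ℝ) • (c C.m t - c 0 t - v t) -
        (7 : ℝ) • w t)) (by fun_prop) ?_ ?_
      · show ((1 / 9 : ℝ) • ((7 : ℝ) • c C.m 0 - (14 : ℝ) • (c C.m 0 - c 0 0 - v 0) - (7 : ℝ) • w 0)) 2 ≠ 0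
        simp only [PiLp.sub_apply, PiLp.add_apply, PiLp.smul_apply, smul_eq_mul, cm2, c02, hvz2, hwz2]
        exact mul_ne_zero (by norm_num) hL.q1
      · intro t
        simp only [Q]
        module
    have n8 : ∀ᶠ t in 𝓝[>] (0 : ℝ), Q .Q1 t ≠ Q .Q2 t := by
      refine f3_ne _ _ (fun t => w t) (by fun_prop) ?_ ?_
      · show (w 0) 2 ≠ 0
        rw [hwz2]
        exact hL.ω0
      · intro t
        simp only [Q]
        module
    have n9 : ∀ᶠ t in 𝓝[>] (0 : ℝ), Q .Q2 t ≠ Q .O1 t := by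
      refine f3_ne _ _ (fun t => (1 / 9 : ℝ) • ((2 : ℝ) • c C.m t + (5 : ℝ) • (c C.m t - c 0 t - v t) -
        (2 : ℝ) • w t)) (by fun_prop) ?_ ?_
      · show ((1 / 9 : ℝ) • ((2 : ℝ) • c C.m 0 + (5 : ℝ) • (c C.m 0 - c 0 0 - v 0) - (2 : ℝ) • w 0)) 2 ≠ 0
        simp only [PiLp.sub_apply, PiLp.add_apply, PiLp.smul_apply, smul_eq_mul, cm2, c02, hvz2, hwz2]
        exact mul_ne_zero (by norm_num) hL.q3
      · intro t
        simp only [Q]
        module
    filter_upwards [n1, n2, n3, n4, n5, n6, n7, n8, n9] with t b1 b2 b3 b4 b5 b6 b7 b8 b9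
    exact ⟨fun k hk => b1 k (Finset.mem_range.2 hk), fun k hk => b2 k (Finset.mem_range.2 (by omega)),
      fun k hk => b3 k (Finset.mem_range.2 hk), b4, b5, b6, b7, b8, b9⟩

/-- The final form: restrict to a small interval and extend the functions constantly
(compose with `t ↦ max 0 (min t ε)`). -/
theorem frames_exist (C : Ch) (χ : ℕ → ℝ) (τ ω : ℝ) (hL : LDat C χ τ ω) :
    ∃ ε > 0, ∃ P Q : Cell → ℝ → Space,
      (∀ c, Continuous (P c) ∧ Continuous (Q c)) ∧ (∀ c, P c 0 = e1 ∧ Q c 0 = e2) ∧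
      (∀ t ∈ Set.Icc 0 ε, Rel C (fun c => P c t) (fun c => Q c t)) ∧
      ∀ t ∈ Set.Ioc 0 ε, NonFlat C (fun c => P c t) (fun c => Q c t) := by
  obtain ⟨P0, Q0, h1, h2, h3, h4⟩ := frames_near C χ τ ω hL
  obtain ⟨δ, hδ, hb⟩ := Metric.eventually_nhds_iff.1 (h1.and h3)
  obtain ⟨δ', hδ', hb'⟩ := Metric.eventually_nhds_iff.1 (eventually_nhdsWithin_iff.1 h4)
  have hε : 0 < min δ δ' / 2 := by positivity
  have hεδ : min δ δ' / 2 < δ := by
    have := min_le_left δ δ'
    linarith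
  have hεδ' : min δ δ' / 2 < δ' := by
    have := min_le_right δ δ'
    linarith
  set ε := min δ δ' / 2 with hεdef
  have hcl : ∀ t : ℝ, 0 ≤ max 0 (min t ε) ∧ max 0 (min t ε) ≤ ε := fun t =>
    ⟨le_max_left _ _, max_le hε.le (min_le_right _ _)⟩
  have hfix : ∀ t ∈ Set.Icc 0 ε, max 0 (min t ε) = t := by
    intro t ht
    rw [min_eq_left ht.2, max_eq_right ht.1]
  have hnear : ∀ s : ℝ, 0 ≤ s → s ≤ ε → dist s 0 < δ := by
    intro s hs hs'
    rw [Real.dist_eq, sub_zero, abs_of_nonneg hs]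
    linarith
  have hcc : Continuous fun t : ℝ => max 0 (min t ε) := by fun_prop
  refine ⟨ε, hε, fun c t => P0 c (max 0 (min t ε)), fun c t => Q0 c (max 0 (min t ε)), ?_, ?_, ?_, ?_⟩
  · intro c
    constructor
    · rw [continuous_iff_continuousAt]
      intro t
      exact ContinuousAt.comp (g := P0 c) ((hb (hnear _ (hcl t).1 (hcl t).2)).1 c).1 hcc.continuousAt
    · rw [continuous_iff_continuousAt]
      intro t
      exact ContinuousAt.comp (g := Q0 c) ((hb (hnear _ (hcl t).1 (hcl t).2)).1 c).2 hcc.continuousAt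
  · intro c
    have h0 := hfix 0 ⟨le_rfl, hε.le⟩
    show P0 c (max 0 (min 0 ε)) = e1 ∧ Q0 c (max 0 (min 0 ε)) = e2
    rw [h0]
    exact h2 c
  · intro t ht
    have h0 := hfix t ht
    show Rel C (fun c => P0 c (max 0 (min t ε))) (fun c => Q0 c (max 0 (min t ε)))
    rw [h0]
    exact (hb (hnear t ht.1 ht.2)).2
  · intro t ht
    have h0 := hfix t ⟨ht.1.le, ht.2⟩
    show NonFlat C (fun c => P0 c (max 0 (min t ε))) (fun c => Q0 c (max 0 (min t ε)))
    rw [h0]
    refine hb' ?_ ht.1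
    rw [Real.dist_eq, sub_zero, abs_of_pos ht.1]
    linarith [ht.2]

end Pool.Agent.MP_7070f9_lc
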