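import Pool.Agent.MP_7070f9_lc.Gen

/-!
# The lower curve
-/

open Set Filter Topology

namespace Pool.Agent.MP_7070f9_lc

namespace Ch
variable (C : Ch)

/-- Abscissa of the `k`-th path vertex. -/
noncomputable def x (k : ℕ) : ℝ := -1 / C.i k

/-- The lower curve: the chain of the path edges, prolonged by the crease `q1`. -/
noncomputable def Γ (x : ℝ) : ℝ :=
  -1 + ∑ j ∈ Finset.range C.m, (C.s (j + 1) - C.s j) * max 0 (x - C.x (j + 1)) -
    2 * max 0 (x - 1 / 7)

theorem x_mul {k : ℕ} (hk : 1 ≤ k) : C.i k * C.x k = -1 := by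
  have := (C.i_pos hk).ne'
  rw [x]; field_simp

theorem x_one : C.x 1 = -1 := by rw [x, i_one]; norm_num

theorem x_neg {k : ℕ} (hk : 1 ≤ k) : C.x k < 0 := by
  have := C.i_pos hk
  rw [x]
  exact div_neg_of_neg_of_pos (by norm_num) this

theorem x_lt {j k : ℕ} (hj : 1 ≤ j) (h : j < k) : C.x j < C.x k := by
  have h1 := C.i_pos hj
  have h2 := C.i_lt h
  rw [x, x, neg_div, neg_div, neg_lt_neg_iff]
  exact one_div_lt_one_div_of_lt h1 h2

theorem x_le {j k : ℕ} (hj : 1 ≤ j) (h : j ≤ k) : C.x j ≤ C.x k := by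
  rcases h.eq_or_lt with rfl | h
  · exact le_rfl
  · exact (C.x_lt hj h).le

theorem x_ge {k : ℕ} (hk : 1 ≤ k) : -1 ≤ C.x k := by
  have := C.x_le le_rfl hk
  rwa [x_one] at this

theorem Γ_continuous : Continuous C.Γ := by
  unfold Γ
  fun_prop

theorem slope_step (k : ℕ) : C.s (k + 1) - C.s k = C.i (k + 1) * (C.r k - C.r (k + 1)) := by
  rw [C.s_eq k, s]; ring

theorem partial_sum (x : ℝ) (k : ℕ) :
    -1 + ∑ j ∈ Finset.range k, (C.s (j + 1) - C.s j) * (x - C.x (j + 1)) = C.s k * x - C.r k := by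
  induction k with
  | zero => simp [s_zero, r_zero]
  | succ k ih =>
    rw [Finset.sum_range_succ, ← add_assoc, ih]
    have h1 := C.x_mul (Nat.le_add_left 1 k)
    rw [slope_step]
    have h2 : C.s (k + 1) = C.s k + C.i (k + 1) * (C.r k - C.r (k + 1)) := by
      rw [← slope_step]; ring
    rw [h2]
    linear_combination (C.r (k + 1) - C.r k) * h1

/-- The value of the lower curve left of `1/7`. -/
theorem Γ_eq {x : ℝ} {k : ℕ} (hk : k ≤ C.m) (h1 : k = 0 ∨ C.x k ≤ x)
    (h2 : k = C.m ∨ x ≤ C.x (k + 1)) (h3 : x ≤ 1 / 7) : C.Γ x = C.s k * x - C.r k := by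
  have e1 : max 0 (x - 1 / 7) = 0 := max_eq_left (by linarith)
  rw [Γ, e1, mul_zero, sub_zero, ← C.partial_sum x k]
  congr 1
  rw [← Finset.sum_subset (Finset.range_subset_range.2 hk)]
  · refine Finset.sum_congr rfl fun j hj => ?_
    rw [Finset.mem_range] at hj
    congr 1
    refine max_eq_right ?_
    rcases h1 with h1 | h1
    · omega
    · have := C.x_le (show 1 ≤ j + 1 by omega) (show j + 1 ≤ k by omega)
      linarith
  · intro j hj hj'
    rw [Finset.mem_range] at hj hj'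
    rcases h2 with h2 | h2
    · omega
    · have := C.x_le (show 1 ≤ k + 1 by omega) (show k + 1 ≤ j + 1 by omega)
      rw [max_eq_left (by linarith), mul_zero]

theorem Γ_right {x : ℝ} (h : 1 / 7 ≤ x) : C.Γ x = (C.D - 2) * x - 5 / 7 := by
  have e1 : max 0 (x - 1 / 7) = x - 1 / 7 := max_eq_right (by linarith)
  have := C.partial_sum x C.m
  rw [s_last, r_last] at this
  rw [Γ, e1]
  have e2 : ∑ j ∈ Finset.range C.m, (C.s (j + 1) - C.s j) * max 0 (x - C.x (j + 1)) =
      ∑ j ∈ Finset.range C.m, (C.s (j + 1) - C.s j) * (x - C.x (j + 1)) := by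
    refine Finset.sum_congr rfl fun j _ => ?_
    congr 1
    refine max_eq_right ?_
    have := C.x_neg (show 1 ≤ j + 1 by omega)
    linarith
  rw [e2]
  linarith

/-- Location of an abscissa among those of the path vertices. -/
theorem locate (x : ℝ) : ∃ k ≤ C.m, (k = 0 ∨ C.x k ≤ x) ∧ (k = C.m ∨ x < C.x (k + 1)) := by
  classical
  have h := Nat.findGreatest_spec (P := fun k => k = 0 ∨ C.x k ≤ x) (Nat.zero_le C.m)
    (Or.inl rfl)
  set k := Nat.findGreatest (fun k => k = 0 ∨ C.x k ≤ x) C.m with hk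
  have hk' : k ≤ C.m := Nat.findGreatest_le _
  refine ⟨k, hk', h, ?_⟩
  rcases hk'.eq_or_lt with h1 | h1
  · exact Or.inl h1
  · right
    by_contra h2
    have := Nat.findGreatest_is_greatest (P := fun k => k = 0 ∨ C.x k ≤ x) (n := C.m)
      (k := k + 1) (by omega) (by omega)
    exact this (Or.inr (not_lt.1 h2))

/-- The values at the path vertices. -/
theorem Γ_x {k : ℕ} (h1 : 1 ≤ k) (hk : k ≤ C.m) : C.Γ (C.x k) = C.g k * C.x k := by
  have h2 : k = C.m ∨ C.x k ≤ C.x (k + 1) := Or.inr (C.x_le h1 (by omega))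
  have h3 := C.x_neg h1
  rw [C.Γ_eq hk (Or.inr le_rfl) h2 (by linarith), s]
  linear_combination (-C.r k) * C.x_mul h1

/-- The difference between a spoke and the line of the path edge which starts at the same
vertex. -/
theorem spoke_sub (k : ℕ) (x : ℝ) :
    C.g k * x - (C.s k * x - C.r k) = C.r k * (1 + C.i k * x) := by
  rw [s]; ring

/-- The same for the path edge which ends at that vertex. -/
theorem spoke_sub' (k : ℕ) (x : ℝ) :
    C.g (k + 1) * x - (C.s k * x - C.r k) = C.r k * (1 + C.i (k + 1) * x) := by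
  rw [s_eq]; ring

theorem one_add_nonneg {k : ℕ} (hk : 1 ≤ k) {x : ℝ} (h : C.x k ≤ x) : 0 ≤ 1 + C.i k * x := by
  have h1 := C.x_mul hk
  have h2 := C.i_pos hk
  nlinarith

theorem one_add_pos {k : ℕ} (hk : 1 ≤ k) {x : ℝ} (h : C.x k < x) : 0 < 1 + C.i k * x := by
  have h1 := C.x_mul hk
  have h2 := C.i_pos hk
  nlinarith

theorem one_add_nonpos {k : ℕ} (hk : 1 ≤ k) {x : ℝ} (h : x ≤ C.x k) : 1 + C.i k * x ≤ 0 := by
  have h1 := C.x_mul hk
  have h2 := C.i_pos hk
  nlinarith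

theorem one_add_neg {k : ℕ} (hk : 1 ≤ k) {x : ℝ} (h : x < C.x k) : 1 + C.i k * x < 0 := by
  have h1 := C.x_mul hk
  have h2 := C.i_pos hk
  nlinarith

/-- Right of its lower end a spoke is above the curve. -/
theorem Γ_le_spoke {j : ℕ} (hj : 1 ≤ j) (hjm : j ≤ C.m) {x : ℝ} (h1 : C.x j ≤ x) (h0 : x ≤ 0) :
    C.Γ x ≤ C.g j * x := by
  obtain ⟨k, hk, hk1, hk2⟩ := C.locate x
  rw [C.Γ_eq hk hk1 (hk2.imp_right le_of_lt) (by linarith)]
  have hjk : j ≤ k := by
    by_contra hlt
    have : x < C.x j := by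
      rcases hk2 with h | h
      · omega
      · exact lt_of_lt_of_le h (C.x_le (by omega) (by omega))
    linarith
  have hk0 : 1 ≤ k := by omega
  have h3 : C.x k ≤ x := by
    rcases hk1 with h | h
    · omega
    · exact h
  have h4 := C.spoke_sub k x
  have h5 := mul_nonneg (C.r_pos k).le (C.one_add_nonneg hk0 h3)
  have h6 := C.g_le hjk
  nlinarith

theorem Γ_lt_spoke {j : ℕ} (hj : 1 ≤ j) (hjm : j ≤ C.m) {x : ℝ} (h1 : C.x j < x) (h0 : x < 0) :
    C.Γ x < C.g j * x := by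
  obtain ⟨k, hk, hk1, hk2⟩ := C.locate x
  rw [C.Γ_eq hk hk1 (hk2.imp_right le_of_lt) (by linarith)]
  have hjk : j ≤ k := by
    by_contra hlt
    have : x < C.x j := by
      rcases hk2 with h | h
      · omega
      · exact lt_of_lt_of_le h (C.x_le (by omega) (by omega))
    linarith
  have hk0 : 1 ≤ k := by omega
  have h3 : C.x k ≤ x := by
    rcases hk1 with h | h
    · omega
    · exact h
  have h4 := C.spoke_sub k x
  rcases hjk.eq_or_lt with rfl | hlt
  · have h5 := mul_pos (C.r_pos j) (C.one_add_pos hk0 h1)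
    linarith
  · have h5 := mul_nonneg (C.r_pos k).le (C.one_add_nonneg hk0 h3)
    have h6 := C.g_lt hlt
    nlinarith

/-- Left of the lower end of a spoke its line is below the curve. -/
theorem spoke_le_Γ {j : ℕ} (hj : 1 ≤ j) (hjm : j ≤ C.m) {x : ℝ} (h1 : x ≤ C.x j) :
    C.g j * x ≤ C.Γ x := by
  have hx0 : x < 0 := lt_of_le_of_lt h1 (C.x_neg hj)
  rcases h1.eq_or_lt with rfl | h1
  · rw [C.Γ_x hj hjm]
  obtain ⟨k, hk, hk1, hk2⟩ := C.locate x
  rw [C.Γ_eq hk hk1 (hk2.imp_right le_of_lt) (by linarith)]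
  have hjk : k < j := by
    by_contra hlt
    have : C.x j ≤ x := by
      rcases hk1 with h | h
      · omega
      · exact le_trans (C.x_le (by omega) (by omega)) h
    linarith
  have h3 : x ≤ C.x (k + 1) := by
    rcases hk2 with h | h
    · omega
    · exact h.le
  have h4 := C.spoke_sub' k x
  have h5 := mul_nonneg (C.r_pos k).le (neg_nonneg.2 (C.one_add_nonpos (show 1 ≤ k + 1 by omega) h3))
  have h6 := C.g_le (show k + 1 ≤ j by omega)
  nlinarith

theorem Γ_zero : C.Γ 0 = -1 := by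
  have h := C.x_neg (show 1 ≤ C.m by have := C.hm; omega)
  rw [C.Γ_eq le_rfl (Or.inr h.le) (Or.inl rfl) (by norm_num), r_last]; ring

/-- Between the last path vertex and `1/7` the curve is the line of slope `D`. -/
theorem Γ_mid {x : ℝ} (h1 : C.x C.m ≤ x) (h2 : x ≤ 1 / 7) : C.Γ x = C.D * x - 1 := by
  rw [C.Γ_eq le_rfl (Or.inr h1) (Or.inl rfl) h2, r_last, s_last]

theorem Γ_pos {x : ℝ} (h1 : 0 ≤ x) (h2 : x ≤ 1 / 7) : C.Γ x = C.D * x - 1 := by
  have h := C.x_neg (show 1 ≤ C.m by have := C.hm; omega)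
  exact C.Γ_mid (by linarith) h2

theorem D_lt : C.D < C.g C.m := by
  have := C.i_pos (show 1 ≤ C.m by have := C.hm; omega)
  rw [D]; linarith

theorem g_ge_one {k : ℕ} (hk : 1 ≤ k) : 1 ≤ C.g k := by
  have := C.g_le hk
  rwa [g_one] at this

/-- The curve stays above `- g m` on the left. -/
theorem Γ_ge {x : ℝ} (h : x ≤ C.x C.m) (h1 : -1 ≤ x) : -C.g C.m ≤ C.Γ x := by
  have hm : 1 ≤ C.m := by have := C.hm; omega
  have h2 := C.spoke_le_Γ hm le_rfl h
  have h3 := C.g_ge_one hm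
  nlinarith

/-! ### The break points -/

/-- The abscissas of the break points of the lower curve and its ends. -/
noncomputable def ξ (k : ℕ) : ℝ :=
  if k = 0 then -2 else if k ≤ C.m then C.x k else if k = C.m + 1 then 1 / 7 else 8 / 7

theorem ξ_zero : C.ξ 0 = -2 := by simp [ξ]
theorem ξ_mid {k : ℕ} (h1 : 1 ≤ k) (hk : k ≤ C.m) : C.ξ k = C.x k := by
  rw [ξ, if_neg (by omega), if_pos hk]
theorem ξ_m1 : C.ξ (C.m + 1) = 1 / 7 := by
  rw [ξ, if_neg (by omega), if_neg (by omega), if_pos rfl]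
theorem ξ_m2 : C.ξ (C.m + 2) = 8 / 7 := by
  rw [ξ, if_neg (by omega), if_neg (by omega), if_neg (by omega)]

theorem ξ_step {k : ℕ} (hk : k ≤ C.m + 1) : C.ξ k < C.ξ (k + 1) := by
  have hm := C.hm
  rcases Nat.eq_zero_or_pos k with rfl | h0
  · rw [ξ_zero, C.ξ_mid le_rfl (by omega), x_one]; norm_num
  rcases lt_trichotomy k C.m with h | h | h
  · rw [C.ξ_mid h0 (by omega), C.ξ_mid (by omega) (by omega)]
    exact C.x_lt h0 (by omega)
  · subst h
    rw [C.ξ_mid h0 le_rfl, ξ_m1]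
    have := C.x_neg h0
    linarith
  · have : k = C.m + 1 := by omega
    subst this
    rw [ξ_m1, ξ_m2]; norm_num

theorem ξ_lt {j k : ℕ} (h : j < k) (hk : k ≤ C.m + 2) : C.ξ j < C.ξ k := by
  induction k, h using Nat.le_induction with
  | base => exact C.ξ_step (by omega)
  | succ k h ih => exact (ih (by omega)).trans (C.ξ_step (by omega))

theorem ξ_le {j k : ℕ} (h : j ≤ k) (hk : k ≤ C.m + 2) : C.ξ j ≤ C.ξ k := by
  rcases h.eq_or_lt with rfl | h
  · exact le_rfl
  · exact (C.ξ_lt h hk).le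

/-- Slope of the `k`-th piece of the curve. -/
noncomputable def sl (k : ℕ) : ℝ := if k ≤ C.m then C.s k else C.D - 2
/-- Intercept of the `k`-th piece of the curve. -/
noncomputable def ic (k : ℕ) : ℝ := if k ≤ C.m then -C.r k else -(5 / 7)

theorem Γ_piece {k : ℕ} (hk : k ≤ C.m + 1) {x : ℝ} (h1 : C.ξ k ≤ x) (h2 : x ≤ C.ξ (k + 1)) :
    C.Γ x = C.sl k * x + C.ic k := by
  have hm := C.hm
  rcases Nat.lt_or_ge C.m k with h | h
  · have : k = C.m + 1 := by omega
    subst this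
    rw [ξ_m1] at h1
    rw [sl, ic, if_neg (by omega), if_neg (by omega), C.Γ_right h1]; ring
  · have h3 : x ≤ 1 / 7 := by
      have := C.ξ_le (show k + 1 ≤ C.m + 1 by omega) (by omega)
      rw [ξ_m1] at this
      linarith
    rw [sl, ic, if_pos h, if_pos h, C.Γ_eq h ?_ ?_ h3]
    · ring
    · rcases Nat.eq_zero_or_pos k with h0 | h0
      · exact Or.inl h0
      · rw [C.ξ_mid h0 h] at h1
        exact Or.inr h1
    · rcases h.eq_or_lt with h0 | h0
      · exact Or.inl h0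
      · rw [C.ξ_mid (by omega) (by omega)] at h2
        exact Or.inr h2

theorem ξ_locate {x : ℝ} (h1 : -2 ≤ x) (h2 : x ≤ 8 / 7) :
    ∃ k ≤ C.m + 1, C.ξ k ≤ x ∧ x ≤ C.ξ (k + 1) := by
  have hm := C.hm
  rcases le_total x (1 / 7) with h | h
  · obtain ⟨k, hk, hk1, hk2⟩ := C.locate x
    refine ⟨k, by omega, ?_, ?_⟩
    · rcases Nat.eq_zero_or_pos k with h0 | h0
      · subst h0; rwa [ξ_zero]
      · rw [C.ξ_mid h0 hk]
        rcases hk1 with h | h
        · omega
        · exact h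
    · rcases hk.eq_or_lt with h0 | h0
      · subst h0; rwa [ξ_m1]
      · rw [C.ξ_mid (by omega) (by omega)]
        rcases hk2 with h | h
        · omega
        · exact h.le
  · exact ⟨C.m + 1, le_rfl, by rwa [ξ_m1], by rwa [ξ_m2]⟩

end Ch

end Pool.Agent.MP_7070f9_lc
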