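import Pool.Agent.MP_7070f9_lc.Vec

/-!
# General facts: convex cells, affine isometries, faces
-/

open Set Metric Filter Topology

namespace Pool.Agent.MP_7070f9_lc

/-- The point with coordinates `x`, `y`. -/
noncomputable def pt (x y : ℝ) : Plane := !₂[x, y]

@[simp] theorem pt_0 (x y : ℝ) : pt x y 0 = x := rfl
@[simp] theorem pt_1 (x y : ℝ) : pt x y 1 = y := rfl

theorem plane_ext {z w : Plane} (h0 : z 0 = w 0) (h1 : z 1 = w 1) : z = w := by
  ext i
  fin_cases i
  · exact h0
  · exact h1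

theorem pt_eta (z : Plane) : pt (z 0) (z 1) = z := plane_ext rfl rfl

/-- An affine function on the plane. -/
structure Aff where
  /-- coefficient of the first coordinate -/
  a : ℝ
  /-- coefficient of the second coordinate -/
  b : ℝ
  /-- constant term -/
  c : ℝ

/-- The value of an affine function. -/
def Aff.ev (f : Aff) (z : Plane) : ℝ := f.a * z 0 + f.b * z 1 + f.c

/-- The open convex set where all functions of the list are positive. -/
def opn (L : List Aff) : Set Plane := {z | ∀ f ∈ L, 0 < f.ev z}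
/-- The closed convex set where all functions of the list are nonnegative. -/
def cls (L : List Aff) : Set Plane := {z | ∀ f ∈ L, 0 ≤ f.ev z}

theorem Aff.continuous (f : Aff) : Continuous f.ev := by
  unfold Aff.ev
  fun_prop

theorem Aff.comb (f : Aff) (z w : Plane) (s t : ℝ) (h : s + t = 1) :
    f.ev (s • z + t • w) = s * f.ev z + t * f.ev w := by
  simp only [Aff.ev, PiLp.add_apply, PiLp.smul_apply, smul_eq_mul]
  linear_combination (-f.c) * h

theorem isOpen_opn (L : List Aff) : IsOpen (opn L) := by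
  induction L with
  | nil => convert isOpen_univ; simp [opn]
  | cons f L ih =>
    have : opn (f :: L) = {z | 0 < f.ev z} ∩ opn L := by
      ext z; simp [opn]
    rw [this]
    exact (isOpen_lt continuous_const f.continuous).inter ih

theorem isClosed_cls (L : List Aff) : IsClosed (cls L) := by
  induction L with
  | nil => convert isClosed_univ; simp [cls]
  | cons f L ih =>
    have : cls (f :: L) = {z | 0 ≤ f.ev z} ∩ cls L := by
      ext z; simp [cls]
    rw [this]
    exact (isClosed_le continuous_const f.continuous).inter ih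

theorem convex_opn (L : List Aff) : Convex ℝ (opn L) := by
  intro z hz w hw s t hs ht hst f hf
  rw [f.comb z w s t hst]
  rcases hs.eq_or_lt with rfl | hs
  · have : t = 1 := by linarith
    subst this
    simpa using hw f hf
  · have := mul_pos hs (hz f hf)
    have := mul_nonneg ht (hw f hf).le
    linarith

theorem convex_cls (L : List Aff) : Convex ℝ (cls L) := by
  intro z hz w hw s t hs ht hst f hf
  rw [f.comb z w s t hst]
  have := mul_nonneg hs (hz f hf)
  have := mul_nonneg ht (hw f hf)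
  linarith

theorem opn_subset_cls (L : List Aff) : opn L ⊆ cls L := fun _ hz f hf => (hz f hf).le

theorem cls_subset_closure {L : List Aff} (h : (opn L).Nonempty) : cls L ⊆ closure (opn L) := by
  obtain ⟨w, hw⟩ := h
  intro z hz
  have hc : Tendsto (fun s : ℝ => (1 - s) • z + s • w) (𝓝[>] 0) (𝓝 ((1 - (0 : ℝ)) • z + (0 : ℝ) • w)) := by
    apply Tendsto.mono_left _ nhdsWithin_le_nhds
    apply Continuous.tendsto
    fun_prop
  have h0 : (1 - (0 : ℝ)) • z + (0 : ℝ) • w = z := by simp
  rw [h0] at hc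
  refine mem_closure_of_tendsto hc ?_
  filter_upwards [Ioo_mem_nhdsGT (show (0 : ℝ) < 1 by norm_num)] with s hs f hf
  rw [f.comb z w _ _ (by ring)]
  have := mul_pos hs.1 (hw f hf)
  have := mul_nonneg (sub_nonneg.2 hs.2.le) (hz f hf)
  linarith

/-! ### Affine isometries -/

/-- The affine map with the given data. -/
def am (c P Q : Space) (z : Plane) : Space := c + z 0 • P + z 1 • Q

theorem am_continuous (c P Q : Space) : Continuous (am c P Q) := by
  unfold am
  fun_prop

theorem dist_am {P Q : Space} (h : Fr P Q) (c : Space) (z w : Plane) :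
    dist (am c P Q z) (am c P Q w) = dist z w := by
  have h1 := dist_sq (am c P Q z) (am c P Q w)
  have h2 := dist_sq_plane z w
  have h3 : dot (am c P Q z - am c P Q w) (am c P Q z - am c P Q w) =
      (z 0 - w 0) ^ 2 + (z 1 - w 1) ^ 2 := by
    have hpp := h.pp
    have hqq := h.qq
    have hpq := h.pq
    simp only [dot, am, PiLp.add_apply, PiLp.smul_apply, PiLp.sub_apply, smul_eq_mul] at *
    linear_combination (z 0 - w 0) ^ 2 * hpp + (z 1 - w 1) ^ 2 * hqq +
      2 * (z 0 - w 0) * (z 1 - w 1) * hpq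
  rw [h3, ← h2] at h1
  exact (sq_eq_sq₀ dist_nonneg dist_nonneg).1 h1

/-- Two affine maps which agree near a point are equal. -/
theorem am_unique {c P Q c' P' Q' : Space} {U : Set Plane} (hU : IsOpen U) (hne : U.Nonempty)
    (h : ∀ z ∈ U, am c P Q z = am c' P' Q' z) : c = c' ∧ P = P' ∧ Q = Q' := by
  obtain ⟨z, hz⟩ := hne
  obtain ⟨ε, hε, hb⟩ := Metric.isOpen_iff.1 hU z hz
  have key : ∀ a b : ℝ, a ^ 2 + b ^ 2 < ε ^ 2 → pt (z 0 + a) (z 1 + b) ∈ U := by
    intro a b hab
    apply hb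
    rw [Metric.mem_ball]
    have := dist_sq_plane (pt (z 0 + a) (z 1 + b)) z
    simp only [pt_0, pt_1] at this
    have h2 : dist (pt (z 0 + a) (z 1 + b)) z ^ 2 < ε ^ 2 := by rw [this]; convert hab using 1; ring
    exact lt_of_pow_lt_pow_left₀ 2 hε.le h2
  have h0 := h _ (key 0 0 (by nlinarith))
  have h1 := h _ (key (ε / 2) 0 (by nlinarith))
  have h2 := h _ (key 0 (ε / 2) (by nlinarith))
  simp only [am, pt_0, pt_1, add_zero] at h0 h1 h2
  have hP : P = P' := by
    have : (ε / 2) • P = (ε / 2) • P' := by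
      have e : (c + (z 0 + ε / 2) • P + z 1 • Q) - (c + z 0 • P + z 1 • Q) =
        (c' + (z 0 + ε / 2) • P' + z 1 • Q') - (c' + z 0 • P' + z 1 • Q') := by rw [h1, h0]
      rw [add_smul, add_smul] at e
      have e1 : (c + (z 0 • P + (ε / 2) • P) + z 1 • Q) - (c + z 0 • P + z 1 • Q) = (ε / 2) • P := by
        abel
      have e2 : (c' + (z 0 • P' + (ε / 2) • P') + z 1 • Q') - (c' + z 0 • P' + z 1 • Q') =
        (ε / 2) • P' := by abel
      rwa [e1, e2] at e
    exact smul_right_injective _ (half_pos hε).ne' this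
  have hQ : Q = Q' := by
    have : (ε / 2) • Q = (ε / 2) • Q' := by
      have e : (c + z 0 • P + (z 1 + ε / 2) • Q) - (c + z 0 • P + z 1 • Q) =
        (c' + z 0 • P' + (z 1 + ε / 2) • Q') - (c' + z 0 • P' + z 1 • Q') := by rw [h2, h0]
      rw [add_smul, add_smul] at e
      have e1 : (c + z 0 • P + (z 1 • Q + (ε / 2) • Q)) - (c + z 0 • P + z 1 • Q) = (ε / 2) • Q := by
        abel
      have e2 : (c' + z 0 • P' + (z 1 • Q' + (ε / 2) • Q')) - (c' + z 0 • P' + z 1 • Q') =
        (ε / 2) • Q' := by abel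
      rwa [e1, e2] at e
    exact smul_right_injective _ (half_pos hε).ne' this
  refine ⟨?_, hP, hQ⟩
  rw [hP, hQ] at h0
  have e : (c + z 0 • P' + z 1 • Q') - z 1 • Q' - z 0 • P' =
    (c' + z 0 • P' + z 1 • Q') - z 1 • Q' - z 0 • P' := by rw [h0]
  have e1 : (c + z 0 • P' + z 1 • Q') - z 1 • Q' - z 0 • P' = c := by abel
  have e2 : (c' + z 0 • P' + z 1 • Q') - z 1 • Q' - z 0 • P' = c' := by abel
  rwa [e1, e2] at e

/-- A map which preserves the distances in a set that contains a small right angle is affine and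
isometric on it. -/
theorem exists_frame {K : Set Plane} {f : Plane → Space} {x y ρ : ℝ} (hρ : 0 < ρ)
    (h0 : pt x y ∈ K) (h1 : pt (x + ρ) y ∈ K) (h2 : pt x (y + ρ) ∈ K)
    (hf : ∀ z ∈ K, ∀ w ∈ K, dist (f z) (f w) = dist z w) :
    Fr ((1 / ρ) • (f (pt (x + ρ) y) - f (pt x y))) ((1 / ρ) • (f (pt x (y + ρ)) - f (pt x y))) ∧
      ∀ z ∈ K, f z = f (pt x y) + (z 0 - x) • ((1 / ρ) • (f (pt (x + ρ) y) - f (pt x y))) +
        (z 1 - y) • ((1 / ρ) • (f (pt x (y + ρ)) - f (pt x y))) := by
  have D : ∀ z ∈ K, ∀ w ∈ K, dot (f z - f w) (f z - f w) = (z 0 - w 0) ^ 2 + (z 1 - w 1) ^ 2 := by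
    intro z hz w hw
    rw [← dist_sq, hf z hz w hw, dist_sq_plane]
  set A := f (pt x y) with hA
  set P := (1 / ρ) • (f (pt (x + ρ) y) - A) with hP
  set Q := (1 / ρ) • (f (pt x (y + ρ)) - A) with hQ
  have hP' : f (pt (x + ρ) y) = A + ρ • P := by
    rw [hP, smul_smul]; field_simp; simp
  have hQ' : f (pt x (y + ρ)) = A + ρ • Q := by
    rw [hQ, smul_smul]; field_simp; simp
  have d1 := D _ h1 _ h0
  have d2 := D _ h2 _ h0
  have d3 := D _ h1 _ h2
  rw [hP'] at d1 d3
  rw [hQ'] at d2 d3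
  rw [← hA] at d1 d2
  simp only [pt_0, pt_1] at d1 d2 d3
  have ρ2 : ρ ^ 2 ≠ 0 := by positivity
  have pp : dot P P = 1 := by
    apply mul_left_cancel₀ ρ2
    simp only [dot, PiLp.add_apply, PiLp.smul_apply, PiLp.sub_apply, smul_eq_mul] at *
    linear_combination d1
  have qq : dot Q Q = 1 := by
    apply mul_left_cancel₀ ρ2
    simp only [dot, PiLp.add_apply, PiLp.smul_apply, PiLp.sub_apply, smul_eq_mul] at *
    linear_combination d2
  have pq : dot P Q = 0 := by
    apply mul_left_cancel₀ ρ2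
    simp only [dot, PiLp.add_apply, PiLp.smul_apply, PiLp.sub_apply, smul_eq_mul] at *
    linear_combination (d1 + d2 - d3) / 2
  refine ⟨⟨pp, qq, pq⟩, fun z hz => ?_⟩
  have d0 := D z hz _ h0
  have e1 := D z hz _ h1
  have e2 := D z hz _ h2
  rw [hP'] at e1
  rw [hQ'] at e2
  rw [← hA] at d0
  simp only [pt_0, pt_1] at d0 e1 e2
  have zp : dot (f z - A) P = z 0 - x := by
    apply mul_left_cancel₀ hρ.ne'
    simp only [dot, PiLp.add_apply, PiLp.smul_apply, PiLp.sub_apply, smul_eq_mul] at *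
    linear_combination (d0 - e1 + ρ ^ 2 * pp) / 2
  have zq : dot (f z - A) Q = z 1 - y := by
    apply mul_left_cancel₀ hρ.ne'
    simp only [dot, PiLp.add_apply, PiLp.smul_apply, PiLp.sub_apply, smul_eq_mul] at *
    linear_combination (d0 - e2 + ρ ^ 2 * qq) / 2
  have : f z - (A + (z 0 - x) • P + (z 1 - y) • Q) = 0 := by
    apply dot_self_eq_zero
    simp only [dot, PiLp.add_apply, PiLp.smul_apply, PiLp.sub_apply, smul_eq_mul] at *
    linear_combination d0 - 2 * (z 0 - x) * zp - 2 * (z 1 - y) * zq + (z 0 - x) ^ 2 * pp +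
      (z 1 - y) ^ 2 * qq + 2 * (z 0 - x) * (z 1 - y) * pq
  rw [sub_eq_zero] at this
  exact this

/-! ### Faces -/

/-- If a map is affine and isometric on the members of an open cover of the complement of the net
in the paper, then it preserves the distances in the closure of every component. -/
theorem dist_on_face {R N : Set Plane} (hRc : IsClosed R) (hRi : R ⊆ closure (interior R))
    {ι : Type} (U : ι → Set Plane) (hU : ∀ i, IsOpen (U i)) (hcov : R \ N ⊆ ⋃ i, U i)
    (c P Q : ι → Space) (hfr : ∀ i, (U i ∩ R).Nonempty → Fr (P i) (Q i)) {f : Plane → Space}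
    (hf : ContinuousOn f R) (heq : ∀ i, ∀ z ∈ U i ∩ R, f z = am (c i) (P i) (Q i) z)
    (z₀ : Plane) (hz₀ : z₀ ∈ R \ N) :
    ∀ z ∈ closure (connectedComponentIn (R \ N) z₀),
      ∀ w ∈ closure (connectedComponentIn (R \ N) z₀), dist (f z) (f w) = dist z w := by
  obtain ⟨i₀, hi₀⟩ := mem_iUnion.1 (hcov hz₀)
  set C := connectedComponentIn (R \ N) z₀ with hC
  have hCpre : IsPreconnected C := isPreconnected_connectedComponentIn
  have hCsub : C ⊆ R \ N := connectedComponentIn_subset _ _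
  have hz₀C : z₀ ∈ C := mem_connectedComponentIn hz₀
  -- the set where `f` is locally the affine map of `i₀`, and the set where it is another one
  set S : Set Plane := {z | ∃ V : Set Plane, IsOpen V ∧ z ∈ V ∧
    ∀ w ∈ V ∩ R, f w = am (c i₀) (P i₀) (Q i₀) w} with hS
  set T : Set Plane := ⋃ i, ⋃ (_ : ¬ (c i = c i₀ ∧ P i = P i₀ ∧ Q i = Q i₀)), U i with hT
  have hSo : IsOpen S := by
    rw [isOpen_iff_forall_mem_open]
    rintro z ⟨V, hV, hzV, hV'⟩
    exact ⟨V, fun w hw => ⟨V, hV, hw, hV'⟩, hV, hzV⟩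
  have hTo : IsOpen T := isOpen_iUnion fun i => isOpen_iUnion fun _ => hU i
  have hST : C ⊆ S ∪ T := by
    intro z hz
    obtain ⟨i, hi⟩ := mem_iUnion.1 (hcov (hCsub hz))
    by_cases h : c i = c i₀ ∧ P i = P i₀ ∧ Q i = Q i₀
    · left
      refine ⟨U i, hU i, hi, fun w hw => ?_⟩
      rw [heq i w hw, h.1, h.2.1, h.2.2]
    · right
      exact mem_iUnion.2 ⟨i, mem_iUnion.2 ⟨h, hi⟩⟩
  have hdis : ¬ (C ∩ (S ∩ T)).Nonempty := by
    rintro ⟨z, hz, ⟨V, hV, hzV, hV'⟩, hzT⟩
    obtain ⟨i, hi⟩ := mem_iUnion.1 hzT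
    obtain ⟨h, hi⟩ := mem_iUnion.1 hi
    have hzR : z ∈ closure (interior R) := hRi (hCsub hz).1
    have hne : ((V ∩ U i) ∩ interior R).Nonempty :=
      mem_closure_iff.1 hzR _ (hV.inter (hU i)) ⟨hzV, hi⟩
    refine h (am_unique ((hV.inter (hU i)).inter isOpen_interior) hne fun w hw => ?_)
    rw [← heq i w ⟨hw.1.2, interior_subset hw.2⟩, hV' w ⟨hw.1.1, interior_subset hw.2⟩]
  have hCS : C ⊆ S := by
    intro z hz
    rcases hST hz with h | h
    · exact h
    · exact absurd (hCpre S T hSo hTo hST ⟨z₀, hz₀C, ⟨U i₀, hU i₀, hi₀, heq i₀⟩⟩ ⟨z, hz, h⟩) hdis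
  have hC1 : EqOn f (am (c i₀) (P i₀) (Q i₀)) C := by
    intro z hz
    obtain ⟨V, -, hzV, hV'⟩ := hCS hz
    exact hV' z ⟨hzV, (hCsub hz).1⟩
  have hcl : closure C ⊆ R := closure_minimal (fun z hz => (hCsub hz).1) hRc
  have hC2 : EqOn f (am (c i₀) (P i₀) (Q i₀)) (closure C) :=
    hC1.of_subset_closure (hf.mono hcl) (am_continuous _ _ _).continuousOn subset_closure
      le_rfl
  have hF := hfr i₀ ⟨z₀, hi₀, hz₀.1⟩
  intro z hz w hw
  rw [hC2 hz, hC2 hw, dist_am hF]

end Pool.Agent.MP_7070f9_lc
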