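import Pool.Agent.MP_7070f9_lc.Glue
import Pool.Agent.MP_7070f9_lc.Frames

/-!
# From frames to foldings
-/

open Set Filter Topology

namespace Pool.Agent.MP_7070f9_lc

/-- The pattern `G` is the one described by the chain data `C`. -/
structure Geo (G : Pattern) (C : Ch) (seg : Cr → (Frac × Frac) × (Frac × Frac)) : Prop where
  left : G.left.val = -2
  right : G.right.val = 8 / 7
  bottom : G.bottom.val = -C.N
  top : G.top.val = C.N
  den_paper : 0 < G.left.den ∧ 0 < G.right.den ∧ 0 < G.bottom.den ∧ 0 < G.top.den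
  D7 : 7 ≤ C.D
  creases : G.creases = (crList C.m).map seg
  endA : ∀ c : Cr, c.Ok C.m → toPlane (seg c).1 = C.pA c
  endB : ∀ c : Cr, c.Ok C.m → toPlane (seg c).2 = C.pB c
  den : ∀ c : Cr, c.Ok C.m → 0 < (seg c).1.1.den ∧ 0 < (seg c).1.2.den ∧ 0 < (seg c).2.1.den ∧
    0 < (seg c).2.2.den

namespace Geo
variable {G : Pattern} {C : Ch} {seg : Cr → (Frac × Frac) × (Frac × Frac)} (hG : Geo G C seg)
include hG

theorem paper_eq : G.paper = cls C.rect := by
  ext z
  rw [C.mem_rect_cls, Pattern.paper, mem_ofPred_eq, hG.left, hG.right, hG.bottom, hG.top]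

theorem opn_rect_sub : opn C.rect ⊆ interior G.paper := by
  rw [hG.paper_eq]
  exact interior_maximal (opn_subset_cls _) (isOpen_opn _)

theorem rect_nonempty : (opn C.rect).Nonempty := by
  refine ⟨pt 0 0, (C.mem_rect_opn _).2 ?_⟩
  have := C.N_pos
  simp only [pt_0, pt_1]
  exact ⟨⟨by norm_num, by norm_num⟩, by linarith, this⟩

theorem paper_sub : G.paper ⊆ closure (interior G.paper) := by
  refine Subset.trans ?_ (closure_mono hG.opn_rect_sub)
  rw [hG.paper_eq]
  exact cls_subset_closure hG.rect_nonempty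

theorem paper_closed : IsClosed G.paper := by
  rw [hG.paper_eq]
  exact isClosed_cls _

theorem mem_net (z : Plane) : z ∈ G.net ↔ ∃ c : Cr, c.Ok C.m ∧ C.Seg c (z 0) (z 1) := by
  rw [Pattern.net, hG.creases]
  simp only [mem_iUnion, exists_prop, List.mem_map]
  constructor
  · rintro ⟨e, ⟨c, hc, rfl⟩, hz⟩
    rw [mem_crList] at hc
    rw [hG.endA c hc, hG.endB c hc, C.mem_seg_iff hc] at hz
    exact ⟨c, hc, hz⟩
  · rintro ⟨c, hc, hz⟩
    refine ⟨seg c, ⟨c, mem_crList.2 hc, rfl⟩, ?_⟩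
    rwa [hG.endA c hc, hG.endB c hc, C.mem_seg_iff hc]

theorem pA_ne_pB {c : Cr} (hc : c.Ok C.m) : C.pA c ≠ C.pB c := by
  intro h
  have hm := C.hm
  have h0 := congrArg (fun z : Plane => z 0) h
  have h1 := congrArg (fun z : Plane => z 1) h
  cases c with
  | ch k => exact absurd h0 (C.ξ_step hc).ne
  | vt k => exact absurd h1 (C.vt_lt hc.1 hc.2).ne'
  | sp k => exact absurd h0 (C.x_neg hc.1).ne
  | vw => simp only [Ch.pA, Ch.pB, pt_0] at h0; norm_num at h0
  | o2 => simp only [Ch.pA, Ch.pB, pt_0] at h0; norm_num at h0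
  | o3 => exact absurd h1 C.N_pos.ne
  | q2 => simp only [Ch.pA, Ch.pB, pt_0] at h0; norm_num at h0
  | q3 => simp only [Ch.pA, Ch.pB, pt_0] at h0; norm_num at h0

theorem valid : G.Valid := by
  have hmem : ∀ {c : Cr}, c.Ok C.m → ∀ {z : Plane}, C.Seg c (z 0) (z 1) → z ∈ G.paper := by
    intro c hc z hz
    rw [hG.paper_eq, C.mem_rect_cls]
    exact C.seg_paper hG.D7 hc hz
  refine ⟨hG.den_paper, ?_, ?_, ?_, ?_, ?_⟩
  · intro e he
    rw [hG.creases, List.mem_map] at he
    obtain ⟨c, hc, rfl⟩ := he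
    exact hG.den c (mem_crList.1 hc)
  · rw [hG.left, hG.right, hG.bottom, hG.top]
    have := C.N_pos
    exact ⟨by norm_num, by linarith⟩
  · intro e he
    rw [hG.creases, List.mem_map] at he
    obtain ⟨c, hc, rfl⟩ := he
    rw [mem_crList] at hc
    rw [hG.endA c hc, hG.endB c hc]
    exact ⟨hG.pA_ne_pB hc, hmem hc ((C.mem_seg_iff hc _).1 (left_mem_segment _ _ _)),
      hmem hc ((C.mem_seg_iff hc _).1 (right_mem_segment _ _ _))⟩
  · intro e he z hz
    rw [hG.creases, List.mem_map] at he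
    obtain ⟨c, hc, rfl⟩ := he
    rw [mem_crList] at hc
    rw [hG.endA c hc, hG.endB c hc] at hz
    exact hG.opn_rect_sub ((C.mem_rect_opn z).2 (C.opn_paper hG.D7 hc (C.opn_of_mem hc z hz)))
  · rw [hG.creases, List.pairwise_map]
    have hnd : (crList C.m).Pairwise fun c c' => c ≠ c' := nodup_crList C.m
    refine List.Pairwise.imp_of_mem ?_ hnd
    intro c c' hc hc' hne
    rw [mem_crList] at hc hc'
    rw [hG.endA c hc, hG.endB c hc, hG.endA c' hc', hG.endB c' hc']
    constructor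
    · rw [Set.disjoint_left]
      intro z hz hz'
      exact C.disj hc hc' hne (C.opn_of_mem hc z hz) ((C.mem_seg_iff hc' z).1 hz')
    · rw [Set.disjoint_left]
      intro z hz hz'
      exact C.disj hc' hc hne.symm (C.opn_of_mem hc' z hz') ((C.mem_seg_iff hc z).1 hz)

/-! ### Cells and faces -/

theorem cell_sub {c : Cell} (hc : c.Ok C.m) :
    opn (C.fn c ++ C.rect) ⊆ G.paper \ G.net := by
  intro z hz
  have h1 : z ∈ opn (C.fn c) := fun f hf => hz f (List.mem_append_left _ hf)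
  have h2 : z ∈ opn C.rect := fun f hf => hz f (List.mem_append_right _ hf)
  refine ⟨?_, ?_⟩
  · rw [hG.paper_eq]; exact opn_subset_cls _ h2
  · rw [hG.mem_net]
    rintro ⟨e, he, hz'⟩
    exact C.CO_not_Seg hc he ((C.mem_opn_iff c z).1 h1) hz'

theorem exists_pt {c : Cell} (hc : c.Ok C.m) : ∃ x y, pt x y ∈ opn (C.fn c ++ C.rect) := by
  obtain ⟨x, y, h1, h2, h3⟩ := C.exists_CO hG.D7 hc
  refine ⟨x, y, fun f hf => ?_⟩
  rcases List.mem_append.1 hf with h | h
  · exact (C.mem_opn_iff c (pt x y)).2 h1 f h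
  · exact (C.mem_rect_opn (pt x y)).2 ⟨h2, h3⟩ f h

/-- Every cell is contained in a face whose closure contains the closed cell. -/
theorem exists_face {c : Cell} (hc : c.Ok C.m) :
    ∃ F, G.IsFace F ∧ opn (C.fn c ++ C.rect) ⊆ F ∧ cls (C.fn c ++ C.rect) ⊆ closure F := by
  obtain ⟨x, y, hxy⟩ := hG.exists_pt hc
  have h1 : opn (C.fn c ++ C.rect) ⊆ connectedComponentIn (G.paper \ G.net) (pt x y) :=
    (convex_opn _).isPreconnected.subset_connectedComponentIn hxy (hG.cell_sub hc)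
  exact ⟨_, ⟨pt x y, hG.cell_sub hc hxy, rfl⟩, h1,
    (cls_subset_closure ⟨_, hxy⟩).trans (closure_mono h1)⟩

theorem mem_cls_of_Seg {c : Cr} (hc : c.Ok C.m) {z : Plane} (hz : C.Seg c (z 0) (z 1)) :
    z ∈ cls (C.fn (C.adA c) ++ C.rect) ∧ z ∈ cls (C.fn (C.adB c) ++ C.rect) := by
  have h1 := C.CC_of_Seg hc hz
  have h2 := C.seg_paper hG.D7 hc hz
  constructor
  · intro f hf
    rcases List.mem_append.1 hf with h | h
    · exact (C.mem_cls_iff _ z).2 h1.1 f h
    · exact (C.mem_rect_cls z).2 h2 f h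
  · intro f hf
    rcases List.mem_append.1 hf with h | h
    · exact (C.mem_cls_iff _ z).2 h1.2 f h
    · exact (C.mem_rect_cls z).2 h2 f h

/-- The closed cells cover the paper. -/
theorem closed_cover {z : Plane} (hz : z ∈ G.paper) :
    ∃ c : Cell, c.Ok C.m ∧ z ∈ cls (C.fn c ++ C.rect) := by
  rw [hG.paper_eq] at hz
  have hz' := (C.mem_rect_cls z).1 hz
  by_cases h : ∃ e : Cr, e.Ok C.m ∧ C.Seg e (z 0) (z 1)
  · obtain ⟨e, he, h⟩ := h
    exact ⟨C.adA e, C.adA_ok he, (hG.mem_cls_of_Seg he h).1⟩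
  · push Not at h
    obtain ⟨c, hc, h1⟩ := C.cover hz'.1.1 hz'.1.2 hz'.2.1 hz'.2.2 h
    refine ⟨c, hc, fun f hf => ?_⟩
    rcases List.mem_append.1 hf with h | h
    · exact ((C.mem_opn_iff c z).2 h1 f h).le
    · exact hz f h

end Geo

/-! ### The folding -/

theorem fold_continuous (C : Ch) {P Q : Cell → ℝ → Space} (hP : ∀ c, Continuous (P c))
    (hQ : ∀ c, Continuous (Q c)) :
    Continuous fun q : ℝ × Plane => C.fold (fun c => P c q.1) (fun c => Q c q.1) q.2 := by
  have hΓ := C.Γ_continuous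
  unfold Ch.fold Ch.UP Ch.UL Ch.UR Ch.UB
  fun_prop

theorem fold_continuous' (C : Ch) (P Q : Cell → Space) : Continuous (C.fold P Q) := by
  have hΓ := C.Γ_continuous
  unfold Ch.fold Ch.UP Ch.UL Ch.UR Ch.UB
  fun_prop

theorem fold_zero (C : Ch) {P Q : Cell → Space} (hP : ∀ c, P c = e1) (hQ : ∀ c, Q c = e2)
    (z : Plane) : C.fold P Q z = incl z := by
  have h1 := min_add_max (z 0) 0
  have h2 : max (z 1) (C.Γ (z 0)) + min (z 1 - C.Γ (z 0)) 0 = z 1 := by
    rcases le_total (z 1) (C.Γ (z 0)) with h | h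
    · rw [max_eq_right h, min_eq_left (by linarith)]; ring
    · rw [max_eq_left h, min_eq_right (by linarith)]; ring
  unfold Ch.fold Ch.UP Ch.UL Ch.UR Ch.UB
  simp only [hP, hQ, sub_self, smul_zero, Finset.sum_const_zero, add_zero]
  ext i
  simp only [PiLp.add_apply, PiLp.smul_apply, PiLp.sub_apply, smul_eq_mul, e1, e2, incl]
  fin_cases i
  · simp only [Fin.zero_eta, Matrix.cons_val_zero]
    linear_combination h1
  · simp only [Fin.mk_one, Matrix.cons_val_one, Matrix.cons_val_zero]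
    linear_combination h2
  · simp

/-- Two frames are equal if the distances between the points of two open sets are preserved. -/
theorem frames_eq {P Q c P' Q' c' : Space} {f : Plane → Space} {U U' : Set Plane}
    (h : Fr P Q) (h' : Fr P' Q') (hU : IsOpen U) (hU' : IsOpen U') (hne : U.Nonempty)
    (hne' : U'.Nonempty) (hf : ∀ z ∈ U, f z = am c P Q z) (hf' : ∀ z ∈ U', f z = am c' P' Q' z)
    (hd : ∀ z ∈ U, ∀ w ∈ U', dist (f z) (f w) = dist z w) : P = P' ∧ Q = Q' := by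
  obtain ⟨z, hz⟩ := hne
  obtain ⟨w, hw⟩ := hne'
  obtain ⟨ε, hε, hb⟩ := Metric.isOpen_iff.1 hU z hz
  obtain ⟨ε', hε', hb'⟩ := Metric.isOpen_iff.1 hU' w hw
  have key : ∀ {V : Set Plane} {v : Plane} {δ : ℝ}, 0 < δ → Metric.ball v δ ⊆ V →
      ∀ a b : ℝ, a ^ 2 + b ^ 2 < δ ^ 2 → pt (v 0 + a) (v 1 + b) ∈ V := by
    intro V v δ hδ hV a b hab
    apply hV
    rw [Metric.mem_ball]
    have := dist_sq_plane (pt (v 0 + a) (v 1 + b)) v
    simp only [pt_0, pt_1] at this
    have h2 : dist (pt (v 0 + a) (v 1 + b)) v ^ 2 < δ ^ 2 := by rw [this]; convert hab using 1; ring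
    exact lt_of_pow_lt_pow_left₀ 2 hδ.le h2
  obtain ⟨δ, hδ, h1, h2⟩ : ∃ δ, 0 < δ ∧ δ < ε ∧ δ < ε' :=
    ⟨min ε ε' / 2, by positivity, by linarith [min_le_left ε ε', lt_min hε hε'],
      by linarith [min_le_right ε ε', lt_min hε hε']⟩
  have E : ∀ a b a' b' : ℝ, a ^ 2 + b ^ 2 < ε ^ 2 → a' ^ 2 + b' ^ 2 < ε' ^ 2 →
      dot (am c P Q (pt (z 0 + a) (z 1 + b)) - am c' P' Q' (pt (w 0 + a') (w 1 + b')))
        (am c P Q (pt (z 0 + a) (z 1 + b)) - am c' P' Q' (pt (w 0 + a') (w 1 + b'))) =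
      (z 0 + a - (w 0 + a')) ^ 2 + (z 1 + b - (w 1 + b')) ^ 2 := by
    intro a b a' b' hab hab'
    have e1 := key hε hb a b hab
    have e2 := key hε' hb' a' b' hab'
    rw [← hf _ e1, ← hf' _ e2, ← dist_sq, hd _ e1 _ e2, dist_sq_plane]
    simp only [pt_0, pt_1]
  have hδε : δ ^ 2 < ε ^ 2 := by nlinarith
  have hδε' : δ ^ 2 < ε' ^ 2 := by nlinarith
  have hε2 : (0 : ℝ) ^ 2 + 0 ^ 2 < ε ^ 2 := by nlinarith
  have hε2' : (0 : ℝ) ^ 2 + 0 ^ 2 < ε' ^ 2 := by nlinarith
  have x1 := E δ 0 δ 0 (by linarith) (by linarith)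
  have x2 := E δ 0 0 0 (by linarith) hε2'
  have x3 := E 0 0 δ 0 hε2 (by linarith)
  have x4 := E 0 0 0 0 hε2 hε2'
  have y1 := E 0 δ 0 δ (by linarith) (by linarith)
  have y2 := E 0 δ 0 0 (by linarith) hε2'
  have y3 := E 0 0 0 δ hε2 (by linarith)
  have hδ2 : δ ^ 2 ≠ 0 := by positivity
  have hPP : dot P P' = 1 := by
    apply mul_left_cancel₀ hδ2
    simp only [dot, am, pt_0, pt_1, PiLp.add_apply, PiLp.smul_apply, PiLp.sub_apply,
      smul_eq_mul] at *
    linear_combination (-x1 + x2 + x3 - x4) / 2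
  have hQQ : dot Q Q' = 1 := by
    apply mul_left_cancel₀ hδ2
    simp only [dot, am, pt_0, pt_1, PiLp.add_apply, PiLp.smul_apply, PiLp.sub_apply,
      smul_eq_mul] at *
    linear_combination (-y1 + y2 + y3 - x4) / 2
  have k1 := h.pp
  have k2 := h'.pp
  have k3 := h.qq
  have k4 := h'.qq
  constructor
  · have : P - P' = 0 := by
      apply dot_self_eq_zero
      simp only [dot, PiLp.sub_apply] at *
      linear_combination k1 + k2 - 2 * hPP
    exact sub_eq_zero.1 this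
  · have : Q - Q' = 0 := by
      apply dot_self_eq_zero
      simp only [dot, PiLp.sub_apply] at *
      linear_combination k3 + k4 - 2 * hQQ
    exact sub_eq_zero.1 this

theorem nonflat_ne {C : Ch} {P Q : Cell → Space} (h : NonFlat C P Q) {c : Cr} (hc : c.Ok C.m) :
    ¬ (P (C.adA c) = P (C.adB c) ∧ Q (C.adA c) = Q (C.adB c)) := by
  rintro ⟨h1, h2⟩
  cases c with
  | ch k =>
    have hk : k ≤ C.m + 1 := hc
    rw [Ch.adA, Ch.adB] at h2
    by_cases hk' : k = C.m + 1
    · rw [if_pos hk', if_pos hk'] at h2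
      exact h.q1 h2.symm
    · rw [if_neg hk', if_neg hk'] at h2
      exact h.path k (by omega) h2
  | vt k =>
    obtain ⟨hk1, hk2⟩ := hc
    have := h.vert (k - 1) (by omega)
    rw [Nat.sub_add_cancel hk1] at this
    exact this h1
  | sp k =>
    obtain ⟨hk1, hk2⟩ := hc
    have := h.spoke (k - 1) (by omega)
    rw [Nat.sub_add_cancel hk1] at this
    exact this h2
  | vw => exact h.vw h2
  | o2 => exact h.o2 h2
  | o3 => exact h.o3 h1
  | q2 => exact h.q2 h2
  | q3 => exact h.q3 h2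

/-- If the frames exist then all creases can be folded. -/
theorem Geo.rfAll {G : Pattern} {C : Ch} {seg : Cr → (Frac × Frac) × (Frac × Frac)}
    (hG : Geo G C seg) {ε : ℝ} (hε : 0 < ε) {P Q : Cell → ℝ → Space}
    (hc : ∀ c, Continuous (P c) ∧ Continuous (Q c)) (h0 : ∀ c, P c 0 = e1 ∧ Q c 0 = e2)
    (hrel : ∀ t ∈ Set.Icc 0 ε, Rel C (fun c => P c t) (fun c => Q c t))
    (hnf : ∀ t ∈ Set.Ioc 0 ε, NonFlat C (fun c => P c t) (fun c => Q c t)) : G.RFall := by
  have hcont := fold_continuous C (fun c => (hc c).1) (fun c => (hc c).2)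
  refine ⟨hG.valid, ε, hε, fun t z => C.fold (fun c => P c t) (fun c => Q c t) z,
    ⟨hcont.continuousOn, ?_, ?_⟩, ?_⟩
  · intro z _
    exact fold_zero C (fun c => (h0 c).1) (fun c => (h0 c).2) z
  · rintro t ht F ⟨z₀, hz₀, rfl⟩
    have hr := hrel t ht
    have hft : Continuous (C.fold (fun c => P c t) (fun c => Q c t)) :=
      fold_continuous' C _ _
    refine dist_on_face (R := G.paper) (N := G.net) hG.paper_closed hG.paper_sub
      (ι := {c : Cell // c.Ok C.m}) (fun i => opn (C.fn i.1)) (fun i => isOpen_opn _) ?_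
      (fun i => C.tr (fun c => Q c t) i.1) (fun i => P i.1 t) (fun i => Q i.1 t)
      (fun i _ => hr.fr i.1 i.2) hft.continuousOn ?_ z₀ hz₀
    · intro z hz
      have hz1 := hz.1
      rw [hG.paper_eq, C.mem_rect_cls] at hz1
      have hz2 := hz.2
      rw [hG.mem_net] at hz2
      push Not at hz2
      obtain ⟨c, hc, h1⟩ := C.cover hz1.1.1 hz1.1.2 hz1.2.1 hz1.2.2 hz2
      exact mem_iUnion.2 ⟨⟨c, hc⟩, (C.mem_opn_iff c z).2 h1⟩
    · intro i z hz
      exact Ch.fold_eq hr hG.D7 i.2 ((C.mem_opn_iff i.1 z).1 hz.1)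
  · intro t ht
    have hr := hrel t ⟨ht.1.le, ht.2⟩
    refine ⟨?_, ?_⟩
    · rw [hG.creases]
      intro h
      have h2 := List.map_eq_nil_iff.1 h
      have h3 : Cr.vw ∈ crList C.m := mem_crList.2 trivial
      rw [h2] at h3
      simp at h3
    · intro e he
      rw [hG.creases, List.mem_map] at he
      obtain ⟨c, hc, rfl⟩ := he
      rw [mem_crList] at hc
      intro hun
      obtain ⟨F, hF, hF1, hF2⟩ := hG.exists_face (C.adA_ok hc)
      obtain ⟨F', hF', hF1', hF2'⟩ := hG.exists_face (C.adB_ok hc)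
      have hsegm : ∀ z ∈ segment ℝ (toPlane (seg c).1) (toPlane (seg c).2),
          C.Seg c (z 0) (z 1) := by
        intro z hz
        rwa [hG.endA c hc, hG.endB c hc, C.mem_seg_iff hc] at hz
      have hsA : segment ℝ (toPlane (seg c).1) (toPlane (seg c).2) ⊆ closure F :=
        fun z hz => hF2 (hG.mem_cls_of_Seg hc (hsegm z hz)).1
      have hsB : segment ℝ (toPlane (seg c).1) (toPlane (seg c).2) ⊆ closure F' :=
        fun z hz => hF2' (hG.mem_cls_of_Seg hc (hsegm z hz)).2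
      have hd := hun F F' hF hF' hsA hsB
      obtain ⟨x, y, hxy⟩ := hG.exists_pt (C.adA_ok hc)
      obtain ⟨x', y', hxy'⟩ := hG.exists_pt (C.adB_ok hc)
      have hfA : ∀ z ∈ opn (C.fn (C.adA c) ++ C.rect),
          C.fold (fun c => P c t) (fun c => Q c t) z =
          am (C.tr (fun c => Q c t) (C.adA c)) (P (C.adA c) t) (Q (C.adA c) t) z := fun z hz =>
        Ch.fold_eq hr hG.D7 (C.adA_ok hc)
          ((C.mem_opn_iff _ z).1 fun f hf => hz f (List.mem_append_left _ hf))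
      have hfB : ∀ z ∈ opn (C.fn (C.adB c) ++ C.rect),
          C.fold (fun c => P c t) (fun c => Q c t) z =
          am (C.tr (fun c => Q c t) (C.adB c)) (P (C.adB c) t) (Q (C.adB c) t) z := fun z hz =>
        Ch.fold_eq hr hG.D7 (C.adB_ok hc)
          ((C.mem_opn_iff _ z).1 fun f hf => hz f (List.mem_append_left _ hf))
      have hdd : ∀ z ∈ opn (C.fn (C.adA c) ++ C.rect), ∀ w ∈ opn (C.fn (C.adB c) ++ C.rect),
          dist (C.fold (fun c => P c t) (fun c => Q c t) z)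
            (C.fold (fun c => P c t) (fun c => Q c t) w) = dist z w := fun z hz w hw =>
        hd z (subset_closure (hF1 hz)) w (subset_closure (hF1' hw))
      have hkey := frames_eq (f := C.fold (fun c => P c t) (fun c => Q c t))
        (hr.fr _ (C.adA_ok hc)) (hr.fr _ (C.adB_ok hc))
        (isOpen_opn _) (isOpen_opn _) ⟨_, hxy⟩ ⟨_, hxy'⟩ hfA hfB hdd
      exact nonflat_ne (hnf t ht) hc hkey

end Pool.Agent.MP_7070f9_lc
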