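import Pool.Agent.MP_7070f9_lc.Geo

/-!
# From foldings to frames
-/

open Set Filter Topology

namespace Pool.Agent.MP_7070f9_lc

theorem line_rel {P Q P' Q' : Space} {d s : ℝ} (hd : d ≠ 0)
    (h : d • P + (s * d) • Q = d • P' + (s * d) • Q') : P + s • Q = P' + s • Q' := by
  have h1 : d • (P + s • Q) = d • (P' + s • Q') := by
    rw [smul_add, smul_add, smul_smul, smul_smul, mul_comm d s]
    exact h
  exact smul_right_injective _ hd h1

namespace Geo
variable {G : Pattern} {C : Ch} {seg : Cr → (Frac × Frac) × (Frac × Frac)} (hG : Geo G C seg)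
include hG

theorem exists_tri (c : Cell) (hc : c.Ok C.m) : ∃ x y ρ, 0 < ρ ∧
    pt x y ∈ opn (C.fn c ++ C.rect) ∧ pt (x + ρ) y ∈ opn (C.fn c ++ C.rect) ∧
    pt x (y + ρ) ∈ opn (C.fn c ++ C.rect) := by
  obtain ⟨x, y, hxy⟩ := hG.exists_pt hc
  obtain ⟨ε, hε, hb⟩ := Metric.isOpen_iff.1 (isOpen_opn _) _ hxy
  have key : ∀ a b : ℝ, a ^ 2 + b ^ 2 < ε ^ 2 → pt (x + a) (y + b) ∈ opn (C.fn c ++ C.rect) := by
    intro a b hab
    apply hb
    rw [Metric.mem_ball]
    have := dist_sq_plane (pt (x + a) (y + b)) (pt x y)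
    simp only [pt_0, pt_1] at this
    have h2 : dist (pt (x + a) (y + b)) (pt x y) ^ 2 < ε ^ 2 := by
      rw [this]; convert hab using 1; ring
    exact lt_of_pow_lt_pow_left₀ 2 hε.le h2
  refine ⟨x, y, ε / 2, by positivity, hxy, ?_, ?_⟩
  · have := key (ε / 2) 0 (by nlinarith)
    rwa [add_zero] at this
  · have := key 0 (ε / 2) (by nlinarith)
    rwa [add_zero] at this

/-- The relation between the frames at a crease. -/
theorem edge_rel {c : Cr} (hc : c.Ok C.m) {f : Plane → Space} {a P Q a' P' Q' : Space}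
    (h : ∀ z ∈ cls (C.fn (C.adA c) ++ C.rect), f z = am a P Q z)
    (h' : ∀ z ∈ cls (C.fn (C.adB c) ++ C.rect), f z = am a' P' Q' z) :
    (C.pB c 0 - C.pA c 0) • P + (C.pB c 1 - C.pA c 1) • Q =
      (C.pB c 0 - C.pA c 0) • P' + (C.pB c 1 - C.pA c 1) • Q' := by
  have hA := hG.mem_cls_of_Seg hc ((C.mem_seg_iff hc _).1 (left_mem_segment ℝ (C.pA c) (C.pB c)))
  have hB := hG.mem_cls_of_Seg hc ((C.mem_seg_iff hc _).1 (right_mem_segment ℝ (C.pA c) (C.pB c)))
  have e1 := (h _ hA.1).symm.trans (h' _ hA.2)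
  have e2 := (h _ hB.1).symm.trans (h' _ hB.2)
  ext i
  have k1 := congrArg (fun v : Space => v i) e1
  have k2 := congrArg (fun v : Space => v i) e2
  simp only [am, PiLp.add_apply, PiLp.smul_apply, smul_eq_mul] at k1 k2 ⊢
  linear_combination k2 - k1

/-- The frames of a folded state satisfy the relations. -/
theorem rel_of {f : Plane → Space} {a P Q : Cell → Space} (hfr : ∀ c : Cell, c.Ok C.m → Fr (P c) (Q c))
    (h : ∀ c : Cell, c.Ok C.m → ∀ z ∈ cls (C.fn c ++ C.rect), f z = am (a c) (P c) (Q c) z) :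
    Rel C P Q := by
  have hm := C.hm
  have E : ∀ c : Cr, c.Ok C.m →
      (C.pB c 0 - C.pA c 0) • P (C.adA c) + (C.pB c 1 - C.pA c 1) • Q (C.adA c) =
      (C.pB c 0 - C.pA c 0) • P (C.adB c) + (C.pB c 1 - C.pA c 1) • Q (C.adB c) := fun c hc =>
    hG.edge_rel hc (h _ (C.adA_ok hc)) (h _ (C.adB_ok hc))
  refine ⟨hfr, ?_, ?_, ?_, ?_, ?_, ?_, ?_, ?_, ?_⟩
  · intro k hk
    have hc : (Cr.sp (k + 1)).Ok C.m := ⟨by omega, by omega⟩
    have e := E _ hc
    have hx := C.x_neg (show 1 ≤ k + 1 by omega)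
    simp only [Ch.pA, Ch.pB, Ch.adA, Ch.adB, pt_0, pt_1, Nat.add_sub_cancel] at e
    refine line_rel (d := 0 - C.x (k + 1)) (by linarith) ?_
    convert e using 3 <;> ring
  · intro k hk
    have hc : (Cr.ch k).Ok C.m := show k ≤ C.m + 1 by omega
    have e := E _ hc
    have hx := C.ξ_step hc
    have hs := C.Γ_piece (show k ≤ C.m + 1 by omega) (le_refl (C.ξ k)) hx.le
    have hs' := C.Γ_piece (show k ≤ C.m + 1 by omega) hx.le (le_refl (C.ξ (k + 1)))
    simp only [Ch.pA, Ch.pB, Ch.adA, Ch.adB, pt_0, pt_1, hs, hs',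
      if_neg (show ¬ k = C.m + 1 by omega)] at e
    simp only [Ch.sl, Ch.ic, if_pos hk] at e
    refine line_rel (d := C.ξ (k + 1) - C.ξ k) (by linarith) ?_
    convert e using 3 <;> ring
  · intro k hk
    have hc : (Cr.vt (k + 1)).Ok C.m := ⟨by omega, by omega⟩
    have e := E _ hc
    have hx := C.vt_lt (show 1 ≤ k + 1 by omega) (show k + 1 ≤ C.m by omega)
    simp only [Ch.pA, Ch.pB, Ch.adA, Ch.adB, pt_0, pt_1, Nat.add_sub_cancel, sub_self,
      zero_smul, zero_add] at e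
    exact smul_right_injective _ (show -C.N - C.g (k + 1) * C.x (k + 1) ≠ 0 by linarith) e
  · have e := E .vw trivial
    simp only [Ch.pA, Ch.pB, Ch.adA, Ch.adB, pt_0, pt_1] at e
    refine line_rel (d := 1 / 7 - 0) (by norm_num) ?_
    convert e using 3 <;> ring
  · have e := E .o2 trivial
    simp only [Ch.pA, Ch.pB, Ch.adA, Ch.adB, pt_0, pt_1] at e
    refine line_rel (d := 8 / 7 - 0) (by norm_num) ?_
    convert e using 3 <;> ring
  · have e := E .o3 trivial
    simp only [Ch.pA, Ch.pB, Ch.adA, Ch.adB, pt_0, pt_1, sub_self,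
      zero_smul, zero_add] at e
    exact smul_right_injective _ (show C.N - 0 ≠ 0 by linarith [C.N_pos]) e
  · have hc : (Cr.ch (C.m + 1)).Ok C.m := show C.m + 1 ≤ C.m + 1 from le_rfl
    have e := E _ hc
    have hx := C.ξ_step hc
    have hs := C.Γ_piece (le_refl (C.m + 1)) (le_refl (C.ξ (C.m + 1))) hx.le
    have hs' := C.Γ_piece (le_refl (C.m + 1)) hx.le (le_refl (C.ξ (C.m + 1 + 1)))
    simp only [Ch.pA, Ch.pB, Ch.adA, Ch.adB, pt_0, pt_1, hs, hs', if_true] at e
    simp only [Ch.sl, Ch.ic, if_neg (show ¬ C.m + 1 ≤ C.m by omega)] at e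
    refine line_rel (d := C.ξ (C.m + 1 + 1) - C.ξ (C.m + 1)) (by linarith) ?_
    rw [eq_comm]
    convert e using 3 <;> ring
  · have e := E .q2 trivial
    simp only [Ch.pA, Ch.pB, Ch.adA, Ch.adB, pt_0, pt_1] at e
    refine line_rel (d := 8 / 7 - 1 / 7) (by norm_num) ?_
    convert e using 3 <;> ring
  · have e := E .q3 trivial
    simp only [Ch.pA, Ch.pB, Ch.adA, Ch.adB, pt_0, pt_1] at e
    refine line_rel (d := 8 / 7 - 1 / 7) (by norm_num) ?_
    convert e using 3 <;> ring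

/-- If all frames are equal then the map is one affine isometry. -/
theorem flat_of {f : Plane → Space} {a : Cell → Space} {P Q : Space}
    (h : ∀ c : Cell, c.Ok C.m → ∀ z ∈ cls (C.fn c ++ C.rect), f z = am (a c) P Q z) :
    ∀ z ∈ G.paper, f z = am (a (.F 0)) P Q z := by
  have hm := C.hm
  have E : ∀ c : Cr, c.Ok C.m → a (C.adA c) = a (C.adB c) := by
    intro c hc
    have hA := hG.mem_cls_of_Seg hc ((C.mem_seg_iff hc _).1 (left_mem_segment ℝ (C.pA c) (C.pB c)))
    have e1 := (h _ (C.adA_ok hc) _ hA.1).symm.trans (h _ (C.adB_ok hc) _ hA.2)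
    simpa only [am, add_left_inj] using e1
  have hF : ∀ k ≤ C.m, a (.F k) = a (.F 0) := by
    intro k
    induction k with
    | zero => intro _; rfl
    | succ k ih =>
      intro hk
      rw [← ih (by omega)]
      have := E (.sp (k + 1)) ⟨by omega, by omega⟩
      simp only [Ch.adA, Ch.adB, Nat.add_sub_cancel] at this
      exact this.symm
  have hGk : ∀ k ≤ C.m, a (.G k) = a (.F 0) := by
    intro k hk
    have := E (.ch k) (show k ≤ C.m + 1 by omega)
    simp only [Ch.adA, Ch.adB, if_neg (show ¬ k = C.m + 1 by omega)] at this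
    rw [← this, hF k hk]
  have hO1 : a .O1 = a (.F 0) := by
    have := E .vw trivial
    simp only [Ch.adA, Ch.adB] at this
    rw [← this, hF _ le_rfl]
  have hO2 : a .O2 = a (.F 0) := by
    have := E .o2 trivial
    simp only [Ch.adA, Ch.adB] at this
    rw [← this, hO1]
  have hQ1 : a .Q1 = a (.F 0) := by
    have := E (.ch (C.m + 1)) (show C.m + 1 ≤ C.m + 1 from le_rfl)
    simp only [Ch.adA, Ch.adB, if_true] at this
    rw [this, hGk _ le_rfl]
  have hQ2 : a .Q2 = a (.F 0) := by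
    have := E .q2 trivial
    simp only [Ch.adA, Ch.adB] at this
    rw [← this, hQ1]
  intro z hz
  obtain ⟨c, hc, hz'⟩ := hG.closed_cover hz
  rw [h c hc z hz']
  congr 1
  cases c with
  | F k => exact hF k hc
  | G k => exact hGk k hc
  | O1 => exact hO1
  | O2 => exact hO2
  | Q1 => exact hQ1
  | Q2 => exact hQ2

theorem face_sub {F : Set Plane} (hF : G.IsFace F) : closure F ⊆ G.paper := by
  obtain ⟨z₀, hz₀, rfl⟩ := hF
  exact closure_minimal (fun z hz => (connectedComponentIn_subset _ _ hz).1) hG.paper_closed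

/-- A folding yields a nontrivial family of frames. -/
theorem no (h : G.RFopt) :
    ∃ P Q : Cell → ℝ → Space,
      (∀ c : Cell, c.Ok C.m → Tendsto (P c) (𝓝[>] 0) (𝓝 e1)) ∧
      (∀ c : Cell, c.Ok C.m → Tendsto (Q c) (𝓝[>] 0) (𝓝 e2)) ∧
      (∀ᶠ t in 𝓝[>] (0 : ℝ), Rel C (fun c => P c t) (fun c => Q c t)) ∧
      ∀ᶠ t in 𝓝[>] (0 : ℝ), cv (fun c => Q c t) 0 ≠ 0 := by
  obtain ⟨-, ε, hε, σ, hσ, hnt⟩ := h
  choose! X Y ρ hρ h0 h1 h2 using hG.exists_tri
  have hev : ∀ᶠ t in 𝓝[>] (0 : ℝ), t ∈ Set.Ioc 0 ε := Ioc_mem_nhdsGT hε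
  have hlim : ∀ z ∈ G.paper, Tendsto (fun t => σ t z) (𝓝[>] 0) (𝓝 (incl z)) := by
    intro z hz
    have hc := hσ.cont (0, z) ⟨⟨le_rfl, hε.le⟩, hz⟩
    have hc' : Tendsto (fun q : ℝ × Plane => σ q.1 q.2) (𝓝[Set.Icc 0 ε ×ˢ G.paper] (0, z))
      (𝓝 (σ 0 z)) := hc
    rw [hσ.start z hz] at hc'
    have h3 : Tendsto (fun t : ℝ => ((t, z) : ℝ × Plane)) (𝓝[>] 0)
        (𝓝[Set.Icc 0 ε ×ˢ G.paper] (0, z)) := by
      refine tendsto_nhdsWithin_iff.2 ⟨?_, ?_⟩
      · have : Tendsto (fun t : ℝ => (t, z)) (𝓝 0) (𝓝 ((0 : ℝ), z)) :=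
          (Continuous.prodMk_left z).tendsto 0
        exact this.mono_left nhdsWithin_le_nhds
      · filter_upwards [hev] with t ht
        exact ⟨⟨ht.1.le, ht.2⟩, hz⟩
    exact hc'.comp h3
  have hpap : ∀ c : Cell, c.Ok C.m → ∀ z ∈ opn (C.fn c ++ C.rect), z ∈ G.paper := fun c hc z hz =>
    (hG.cell_sub hc hz).1
  set P : Cell → ℝ → Space := fun c t =>
    (1 / ρ c) • (σ t (pt (X c + ρ c) (Y c)) - σ t (pt (X c) (Y c))) with hP
  set Q : Cell → ℝ → Space := fun c t =>
    (1 / ρ c) • (σ t (pt (X c) (Y c + ρ c)) - σ t (pt (X c) (Y c))) with hQ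
  have hfr : ∀ t ∈ Set.Icc 0 ε, ∀ c : Cell, c.Ok C.m → Fr (P c t) (Q c t) ∧
      ∀ z ∈ cls (C.fn c ++ C.rect), σ t z =
        am (σ t (pt (X c) (Y c)) - X c • P c t - Y c • Q c t) (P c t) (Q c t) z := by
    intro t ht c hc
    obtain ⟨F, hF, hF1, hF2⟩ := hG.exists_face hc
    obtain ⟨e1, e2⟩ := exists_frame (K := closure F) (f := σ t) (hρ c hc)
      (subset_closure (hF1 (h0 c hc))) (subset_closure (hF1 (h1 c hc)))
      (subset_closure (hF1 (h2 c hc))) (hσ.rigid t ht F hF)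
    refine ⟨e1, fun z hz => ?_⟩
    rw [e2 z (hF2 hz), am]
    simp only [hP, hQ, sub_smul]
    abel
  have hrel : ∀ t ∈ Set.Icc 0 ε, Rel C (fun c => P c t) (fun c => Q c t) := by
    intro t ht
    exact hG.rel_of (f := σ t)
      (a := fun c => σ t (pt (X c) (Y c)) - X c • P c t - Y c • Q c t)
      (fun c hc => (hfr t ht c hc).1) (fun c hc => (hfr t ht c hc).2)
  refine ⟨P, Q, ?_, ?_, ?_, ?_⟩
  · intro c hc
    have l1 := hlim _ (hpap c hc _ (h1 c hc))
    have l0 := hlim _ (hpap c hc _ (h0 c hc))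
    have := (l1.sub l0).const_smul (1 / ρ c)
    have he : (1 / ρ c) • (incl (pt (X c + ρ c) (Y c)) - incl (pt (X c) (Y c))) = e1 := by
      have := (hρ c hc).ne'
      ext i
      simp only [PiLp.smul_apply, PiLp.sub_apply, smul_eq_mul, incl, pt_0, pt_1, e1]
      fin_cases i
      · simp
        field_simp
      · simp
      · simp
    rwa [he] at this
  · intro c hc
    have l1 := hlim _ (hpap c hc _ (h2 c hc))
    have l0 := hlim _ (hpap c hc _ (h0 c hc))
    have := (l1.sub l0).const_smul (1 / ρ c)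
    have he : (1 / ρ c) • (incl (pt (X c) (Y c + ρ c)) - incl (pt (X c) (Y c))) = e2 := by
      have := (hρ c hc).ne'
      ext i
      simp only [PiLp.smul_apply, PiLp.sub_apply, smul_eq_mul, incl, pt_0, pt_1, e2]
      fin_cases i
      · simp
      · simp
        field_simp
      · simp
    rwa [he] at this
  · filter_upwards [hev] with t ht
    exact hrel t ⟨ht.1.le, ht.2⟩
  · filter_upwards [hev] with t ht
    intro hcv
    have hr := hrel t ⟨ht.1.le, ht.2⟩
    have hfl := hr.flat hcv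
    have haff := hG.flat_of (f := σ t)
      (a := fun c => σ t (pt (X c) (Y c)) - X c • P c t - Y c • Q c t)
      (P := P (.F 0) t) (Q := Q (.F 0) t) (fun c hc z hz => by
        have e1 := (hfr t ⟨ht.1.le, ht.2⟩ c hc).2 z hz
        have e2 := hfl c hc
        rw [e1]
        congr 1
        · exact e2.1
        · exact e2.2)
    obtain ⟨e, -, hne⟩ := hnt t ht
    apply hne
    intro F F' hF hF' _ _ z hz w hw
    rw [haff z (hG.face_sub hF hz), haff w (hG.face_sub hF' hw)]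
    exact dist_am (hr.fr (.F 0) (Nat.zero_le _)) _ z w

end Geo

end Pool.Agent.MP_7070f9_lc
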