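import Pool.Agent.MP_7070f9_lc.Frames

/-!
# Arithmetic: the window
-/

namespace Pool.Agent.MP_7070f9_lc

namespace Ch
variable (C : Ch)

/-- The quantity which decides foldability, for a choice `ε` of signs. -/
noncomputable def Wd (ε : ℕ → ℝ) : ℝ :=
  4 * (7 + C.i C.m) - ∑ k ∈ Finset.Ico 1 C.m, (C.η k + C.η' k) +
    2 * ∑ k ∈ Finset.Ico 1 C.m, ε k * √(C.η k * C.η' k)

end Ch

/-- From the limit relations to the window. Put `χ k = z k * z 0` (so `χ 0 = 1`) and replace `τ`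
by `τ z 0`. `χ_m² = 1`. If `χ_m = 1` then `25 τ² + ∑ η_k (χ_k - 1)² = 0`, so `χ_1 = 1` (as
`1 ∈ Ico 1 m`), contradicting `r_1 χ_1² = 1`, `r_1 ≠ 1`. So `χ_m = -1`; put
`τo = -2 - τ`; the inequality says `1 + 4 τo - 5 τo² ≥ 0`, so `τo ∈ [-1/5, 1]`,
`τ ∈ [-3, -9/5]`, `25 τ² ∈ [81, 225]`. And
`η_k (χ_k - 1)² = η'_k + η_k - 2 η_k χ_k` with `η_k χ_k = ± √(η_k η'_k)`. -/
theorem window_no (C : Ch) (h1 : C.r 1 ≠ 1) (z : ℕ → ℝ) (τ : ℝ) (h0 : z 0 ^ 2 = 1)
    (hz : ∀ k ≤ C.m, C.r k * z k ^ 2 = 1)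
    (hV : 25 * τ ^ 2 = (7 + C.i C.m) * (z C.m - z 0) ^ 2 -
        ∑ k ∈ Finset.Ico 1 C.m, C.η k * (z k - z 0) ^ 2)
    (hW : 0 ≤ z C.m ^ 2 - 4 * z C.m * (z C.m - z 0 - τ) - 5 * (z C.m - z 0 - τ) ^ 2) :
    ∃ ε : ℕ → ℝ, (∀ k, ε k = 1 ∨ ε k = -1) ∧ 81 ≤ C.Wd ε ∧ C.Wd ε ≤ 225 := by
  have hm2 := C.hm
  have hzm : z C.m ^ 2 = 1 := by
    have h := hz C.m le_rfl
    rw [C.r_last, one_mul] at h
    exact h
  have hsq : (z C.m - z 0) * (z C.m + z 0) = 0 := by linear_combination hzm - h0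
  rcases mul_eq_zero.1 hsq with hc | hc
  · -- the case `z m = z 0`
    exfalso
    rw [hc] at hV
    have hnn : ∀ k ∈ Finset.Ico 1 C.m, 0 ≤ C.η k * (z k - z 0) ^ 2 := fun k _ =>
      mul_nonneg (C.pos k).le (sq_nonneg _)
    have hs0 : ∑ k ∈ Finset.Ico 1 C.m, C.η k * (z k - z 0) ^ 2 = 0 := by
      apply le_antisymm _ (Finset.sum_nonneg hnn)
      nlinarith [sq_nonneg τ]
    have h2 := (Finset.sum_eq_zero_iff_of_nonneg hnn).1 hs0 1
      (Finset.mem_Ico.2 ⟨le_rfl, by omega⟩)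
    have h3 : z 1 = z 0 := by
      rcases mul_eq_zero.1 h2 with h | h
      · exact absurd h (C.pos 1).ne'
      · exact sub_eq_zero.1 (pow_eq_zero_iff (two_ne_zero) |>.1 h)
    have h4 := hz 1 (by omega)
    rw [h3, h0, mul_one] at h4
    exact h1 h4
  · have hzm' : z C.m = - z 0 := by linarith
    refine ⟨fun k => if 0 ≤ z k * z 0 then 1 else -1, fun k => ?_, ?_⟩
    · dsimp only
      split_ifs
      · exact Or.inl rfl
      · exact Or.inr rfl
    have habs : |z 0| = 1 := by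
      have h : |z 0| ^ 2 = 1 := by rw [sq_abs]; exact h0
      nlinarith [abs_nonneg (z 0)]
    have key : ∀ k ∈ Finset.Ico 1 C.m, C.η k * (z k - z 0) ^ 2 = (C.η k + C.η' k) -
        2 * ((if 0 ≤ z k * z 0 then 1 else -1) * √(C.η k * C.η' k)) := by
      intro k hk
      have hzk := hz k (Finset.mem_Ico.1 hk).2.le
      have e1 : C.η k * z k ^ 2 = C.η' k := by
        rw [← C.r_mul k]
        linear_combination C.η' k * hzk
      have e2 : √(C.η k * C.η' k) = C.η k * |z k| := by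
        rw [← e1, show C.η k * (C.η k * z k ^ 2) = (C.η k * z k) ^ 2 by ring, Real.sqrt_sq_eq_abs,
          abs_mul, abs_of_pos (C.pos k)]
      have e3 : (if 0 ≤ z k * z 0 then (1 : ℝ) else -1) * |z k| = z k * z 0 := by
        have e4 : |z k| = |z k * z 0| := by rw [abs_mul, habs, mul_one]
        split_ifs with h
        · rw [e4, abs_of_nonneg h, one_mul]
        · rw [e4, abs_of_neg (not_le.1 h)]; ring
      rw [e2]
      linear_combination e1 + C.η k * h0 + 2 * C.η k * e3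
    have hW2 : C.Wd (fun k => if 0 ≤ z k * z 0 then 1 else -1) = 25 * τ ^ 2 := by
      rw [hV, Finset.sum_congr rfl key, Finset.sum_sub_distrib, ← Finset.mul_sum]
      unfold Ch.Wd
      rw [hzm']
      linear_combination (-4 * (7 + C.i C.m)) * h0
    rw [hW2]
    have e5 : z C.m - z 0 - τ = z 0 * (-2 - τ * z 0) := by
      rw [hzm']
      linear_combination τ * h0
    rw [e5, hzm'] at hW
    have hW' : 0 ≤ 1 + 4 * (-2 - τ * z 0) - 5 * (-2 - τ * z 0) ^ 2 := by
      have e6 : (-z 0) ^ 2 - 4 * -z 0 * (z 0 * (-2 - τ * z 0)) - 5 * (z 0 * (-2 - τ * z 0)) ^ 2 =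
        1 + 4 * (-2 - τ * z 0) - 5 * (-2 - τ * z 0) ^ 2 := by
        linear_combination (1 + 4 * (-2 - τ * z 0) - 5 * (-2 - τ * z 0) ^ 2) * h0
      rw [← e6]
      exact hW
    set y := τ * z 0 with hy
    have hy2 : τ ^ 2 = y ^ 2 := by
      rw [hy]
      linear_combination (-τ ^ 2) * h0
    rw [hy2]
    have h5 : y ≤ -9 / 5 := by
      by_contra h
      have h6 : (1 - (-2 - y)) * (1 + 5 * (-2 - y)) < 0 := by
        have : 1 + 5 * (-2 - y) < 0 := by linarith [not_le.1 h]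
        have : 0 < 1 - (-2 - y) := by linarith [not_le.1 h]
        exact mul_neg_of_pos_of_neg this (by linarith)
      nlinarith
    have h6 : -3 ≤ y := by
      by_contra h
      have h6 : (1 - (-2 - y)) * (1 + 5 * (-2 - y)) < 0 := by
        have h7 : 1 - (-2 - y) < 0 := by linarith [not_le.1 h]
        have h8 : 0 < 1 + 5 * (-2 - y) := by linarith [not_le.1 h]
        exact mul_neg_of_neg_of_pos h7 h8
      nlinarith
    constructor <;> nlinarith

theorem x2_abel (C : Ch) (χ : ℕ → ℝ) (n : ℕ) :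
    ∑ k ∈ Finset.range n, C.g (k + 1) * (χ (k + 1) - χ k) =
      C.g n * χ n - ∑ k ∈ Finset.range n, C.η k * χ k := by
  induction n with
  | zero => simp [C.g_zero]
  | succ n ih =>
    rw [Finset.sum_range_succ, Finset.sum_range_succ, ih, C.g_succ n]
    ring

theorem x2_g (C : Ch) : C.g C.m = 1 + ∑ k ∈ Finset.Ico 1 C.m, C.η k := by
  have h := C.hm
  unfold Ch.g
  rw [← Finset.sum_range_add_sum_Ico _ (by omega : 1 ≤ C.m), Finset.sum_range_one, C.η0]

theorem x2_i (C : Ch) : C.i C.m = 1 + ∑ k ∈ Finset.Ico 1 C.m, C.η' k := by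
  have h := C.hm
  unfold Ch.i
  rw [← Finset.sum_range_add_sum_Ico _ (by omega : 1 ≤ C.m), Finset.sum_range_one, C.η0']

/-- Conversely the limit data exist inside the window: `χ_0 = 1`, `χ_k = √(η'_k/η_k)` for
`1 ≤ k < m`, `χ_m = -1`, `τ = -√W/5`, `ω = -√(1 + 4 τo - 5 τo²)` with `τo = -2 - τ`, where
`W = C.Wd 1`. Then `τo ∈ (-1/5, 1)`, and `τo ≠ 0` because `W ≠ 100`. The quantity in `o3` equals
`g_m - 15 - 2 i_m - T + 5 √W = 15 + i_m + T - W + 5 √W > 0` with
`T = ∑ √(η_k η'_k)` (Abel summation, `g_m = 1 + ∑ η_k`, `i_m = 1 + ∑ η'_k`). For `q1`: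
`ω = -1 - 2 τo` would give `9 τo² = 0`. For `q3`: `2 ω = -2 + 5 τo` would give
`45 τo² = 36 τo`, `τo = 4/5`, `ω = 1 > 0`. -/
theorem window_yes (C : Ch) (h81 : 81 < C.Wd fun _ => 1) (h225 : C.Wd (fun _ => 1) < 225)
    (h100 : C.Wd (fun _ => 1) ≠ 100) (hr : ∀ k, k + 1 < C.m → C.r k ≠ C.r (k + 1))
    (hT : 225 ≤ ∑ k ∈ Finset.Ico 1 C.m, √(C.η k * C.η' k)) :
    ∃ (χ : ℕ → ℝ) (τ ω : ℝ), LDat C χ τ ω := by
  have hm2 := C.hm
  set T := ∑ k ∈ Finset.Ico 1 C.m, √(C.η k * C.η' k) with hTdef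
  set W := C.Wd (fun _ => 1) with hW
  have hW0 : 0 < W := by linarith
  have hsW : √W ^ 2 = W := Real.sq_sqrt hW0.le
  have hsW0 : 0 < √W := Real.sqrt_pos.2 hW0
  have hsW9 : 9 < √W := by
    rw [show (9 : ℝ) = √81 by rw [show (81 : ℝ) = 9 ^ 2 by norm_num, Real.sqrt_sq (by norm_num)]]
    exact Real.sqrt_lt_sqrt (by norm_num) h81
  have hsW15 : √W < 15 := by
    rw [show (15 : ℝ) = √225 by rw [show (225 : ℝ) = 15 ^ 2 by norm_num, Real.sqrt_sq (by norm_num)]]
    exact Real.sqrt_lt_sqrt hW0.le h225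
  have hsW10 : √W ≠ 10 := by
    intro h
    rw [h] at hsW
    exact h100 (by rw [← hsW]; norm_num)
  set χ : ℕ → ℝ := fun k => if k = 0 then 1 else if k < C.m then √(C.η' k / C.η k) else -1 with hχ
  have hχ0 : χ 0 = 1 := by rw [hχ]; simp
  have hχm : χ C.m = -1 := by
    rw [hχ]
    dsimp only
    rw [if_neg (by omega), if_neg (lt_irrefl _)]
  have hχk : ∀ k, 1 ≤ k → k < C.m → χ k = √(C.η' k / C.η k) := by
    intro k h1 h2
    rw [hχ]
    dsimp only
    rw [if_neg (by omega), if_pos h2]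
  have hpos : ∀ k, k < C.m → 0 < χ k := by
    intro k hk
    rcases Nat.eq_zero_or_pos k with h | h
    · rw [h, hχ0]; norm_num
    · rw [hχk k h hk]
      exact Real.sqrt_pos.2 (div_pos (C.pos' k) (C.pos k))
  have hnorm : ∀ k ≤ C.m, C.r k * χ k ^ 2 = 1 := by
    intro k hk
    rcases Nat.eq_zero_or_pos k with h | h
    · rw [h, hχ0, C.r_zero]; norm_num
    · rcases hk.lt_or_eq with h' | h'
      · rw [hχk k h h', Real.sq_sqrt (div_pos (C.pos' k) (C.pos k)).le]
        have h1 := (C.pos k).ne'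
        have h2 := (C.pos' k).ne'
        unfold Ch.r
        field_simp
      · rw [h', hχm, C.r_last]; norm_num
  have hprod : ∀ k ∈ Finset.Ico 1 C.m, C.η k * χ k = √(C.η k * C.η' k) := by
    intro k hk
    obtain ⟨h1, h2⟩ := Finset.mem_Ico.1 hk
    have hk0 := C.pos k
    have h3 : C.η k * χ k ^ 2 = C.η' k := by
      rw [← C.r_mul k]
      linear_combination C.η' k * hnorm k h2.le
    rw [← h3, show C.η k * (C.η k * χ k ^ 2) = (C.η k * χ k) ^ 2 by ring,
      Real.sqrt_sq (mul_pos hk0 (hpos k h2)).le]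
  have hηχ : ∀ k ∈ Finset.Ico 1 C.m, C.η k * (χ k - χ 0) ^ 2 = (C.η k + C.η' k) -
      2 * (1 * √(C.η k * C.η' k)) := by
    intro k hk
    obtain ⟨h1, h2⟩ := Finset.mem_Ico.1 hk
    have h3 : C.η k * χ k ^ 2 = C.η' k := by
      rw [← C.r_mul k]
      linear_combination C.η' k * hnorm k h2.le
    rw [← hprod k hk, hχ0]
    linear_combination h3
  have hVW : (7 + C.i C.m) * (χ C.m - χ 0) ^ 2 -
      ∑ k ∈ Finset.Ico 1 C.m, C.η k * (χ k - χ 0) ^ 2 = W := by
    rw [Finset.sum_congr rfl hηχ, Finset.sum_sub_distrib, ← Finset.mul_sum, hW, hχ0, hχm]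
    unfold Ch.Wd
    ring
  have hWform : W = 30 + 3 * C.i C.m - C.g C.m + 2 * T := by
    have h1 : W = 4 * (7 + C.i C.m) - ∑ k ∈ Finset.Ico 1 C.m, (C.η k + C.η' k) +
      2 * ∑ k ∈ Finset.Ico 1 C.m, 1 * √(C.η k * C.η' k) := rfl
    have h2 : ∑ k ∈ Finset.Ico 1 C.m, 1 * √(C.η k * C.η' k) = T := by
      rw [hTdef]
      exact Finset.sum_congr rfl fun k _ => one_mul _
    rw [h2, Finset.sum_add_distrib] at h1
    have h3 := x2_g C
    have h4 := x2_i C
    linear_combination h1 + h3 + h4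
  have hi : 0 < C.i C.m := C.i_pos (by omega)
  set τ : ℝ := -√W / 5 with hτ
  set o : ℝ := -2 - τ with ho
  have ho1 : -1 / 5 < o := by rw [ho, hτ]; linarith
  have ho2 : o < 1 := by rw [ho, hτ]; linarith
  have ho0 : o ≠ 0 := by
    intro h
    apply hsW10
    rw [ho, hτ] at h
    linarith
  have hq : 0 < 1 + 4 * o - 5 * o ^ 2 := by
    have h : 0 < (1 - o) * (1 + 5 * o) := mul_pos (by linarith) (by linarith)
    nlinarith
  set ω : ℝ := -√(1 + 4 * o - 5 * o ^ 2) with hω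
  have hω2 : ω ^ 2 = 1 + 4 * o - 5 * o ^ 2 := by
    rw [hω, neg_sq, Real.sq_sqrt hq.le]
  have hωneg : ω < 0 := by
    rw [hω]
    exact neg_neg_of_pos (Real.sqrt_pos.2 hq)
  have hvo : χ C.m - χ 0 - τ = o := by rw [hχ0, hχm, ho]; ring
  refine ⟨χ, τ, ω, ?_⟩
  constructor
  · exact hχ0
  · exact hnorm
  · rw [hVW, hτ]
    linear_combination hsW
  · rw [hvo, hχm, hω2]
    ring
  · rw [hτ]
    have := hsW0.ne'
    intro h
    apply this
    linarith
  · exact hωneg.ne
  · intro k hk h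
    rcases Nat.lt_or_ge (k + 1) C.m with h' | h'
    · have e1 := hnorm k hk.le
      have e2 := hnorm (k + 1) h'.le
      rw [← h] at e2
      have e3 : 0 < χ k ^ 2 := pow_pos (hpos k hk) 2
      apply hr k h'
      have e4 : (C.r k - C.r (k + 1)) * χ k ^ 2 = 0 := by linear_combination e1 - e2
      rcases mul_eq_zero.1 e4 with h5 | h5
      · linarith
      · exact absurd h5 e3.ne'
    · have : k + 1 = C.m := by omega
      rw [this, hχm] at h
      have := hpos k hk
      linarith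
  · intro k hk h
    rcases Nat.lt_or_ge (k + 1) C.m with h' | h'
    · have e1 := hnorm k hk.le
      have e2 := hnorm (k + 1) h'.le
      apply hr k h'
      have e3 : (C.r k * χ k) ^ 2 = C.r k := by linear_combination C.r k * e1
      have e4 : (C.r (k + 1) * χ (k + 1)) ^ 2 = C.r (k + 1) := by
        linear_combination C.r (k + 1) * e2
      rw [← e3, ← e4, h]
    · have h2 : k + 1 = C.m := by omega
      rw [h2, hχm, C.r_last] at h
      have := mul_pos (C.r_pos k) (hpos k hk)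
      linarith
  · rw [hvo]; exact ho0
  · rw [x2_abel, hvo, hχm]
    have h1 : ∑ k ∈ Finset.range C.m, C.η k * χ k = 1 + T := by
      rw [← Finset.sum_range_add_sum_Ico _ (by omega : 1 ≤ C.m), Finset.sum_range_one, C.η0, hχ0,
        Finset.sum_congr rfl hprod]
      ring
    rw [h1]
    have h2 : C.D = C.g C.m - C.i C.m := rfl
    have h3 : C.g C.m * -1 - (1 + T) + (7 - C.D) * o - (C.D + 18) * τ =
        15 + C.i C.m + T - W + 5 * √W := by
      rw [h2, ho, hτ]
      linear_combination hWform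
    rw [h3]
    have : 0 < 15 + C.i C.m + T - W + 5 * √W := by linarith
    exact this.ne'
  · rw [hvo, hχm]
    intro h
    have h1 : ω = -1 - 2 * o := by linarith
    rw [h1] at hω2
    have h2 : o ^ 2 = 0 := by nlinarith
    exact ho0 (pow_eq_zero_iff two_ne_zero |>.1 h2)
  · rw [hvo, hχm]
    intro h
    have h1 : ω = (-2 + 5 * o) / 2 := by linarith
    rw [h1] at hω2
    have h2 : o * (5 * o - 4) = 0 := by nlinarith
    rcases mul_eq_zero.1 h2 with h3 | h3
    · exact ho0 h3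
    · rw [h1] at hωneg
      linarith

/-! ## The chain of a list -/

/-- The increments, with `(1, 1)` added at both ends. -/
def ext (E : List (ℕ × ℕ)) (k : ℕ) : ℕ × ℕ := if k = 0 then (1, 1) else E.getD (k - 1) (1, 1)

theorem ext_pos (E : List (ℕ × ℕ)) (hE : ∀ p ∈ E, 0 < p.1 ∧ 0 < p.2) (k : ℕ) :
    0 < (ext E k).1 ∧ 0 < (ext E k).2 := by
  rw [ext]
  split_ifs with h
  · simp
  · rcases Nat.lt_or_ge (k - 1) E.length with hk | hk
    · rw [List.getD_eq_getElem _ _ hk]
      exact hE _ (List.getElem_mem hk)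
    · rw [List.getD_eq_default _ _ hk]
      simp

/-- The chain data given by a nonempty list of pairs of positive numbers. -/
noncomputable def chOf (E : List (ℕ × ℕ)) (hE : ∀ p ∈ E, 0 < p.1 ∧ 0 < p.2) (hne : E ≠ []) :
    Ch where
  m := E.length + 1
  η k := (ext E k).1
  η' k := (ext E k).2
  hm := by have := List.length_pos_of_ne_nil hne; omega
  pos k := by exact_mod_cast (ext_pos E hE k).1
  pos' k := by exact_mod_cast (ext_pos E hE k).2
  η0 := by simp [ext]
  η0' := by simp [ext]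
  ηm := by simp [ext]
  ηm' := by simp [ext]

/-- The number `X`. -/
def bigX (a : List ℕ) (t : ℕ) : ℕ := 216 * a.sum + 36 * a.length + 144 * t - 49

/-- The list of increments of the instance `(a, t)`. -/
def incr (a : List ℕ) (t : ℕ) : List (ℕ × ℕ) :=
  (16 * bigX a t, bigX a t) :: (bigX a t, bigX a t) ::
    a.flatMap fun x => [(144, 36), (72, 72 * x)]

theorem incr_ne (a : List ℕ) (t : ℕ) : incr a t ≠ [] := List.cons_ne_nil _ _

theorem x3_bigX (a : List ℕ) (t : ℕ) (hne : a ≠ []) (ha : ∀ x ∈ a, 0 < x) :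
    bigX a t + 49 = 216 * a.sum + 36 * a.length + 144 * t ∧ 203 ≤ bigX a t := by
  have h1 : 0 < a.length := List.length_pos_of_ne_nil hne
  have h2 : 0 < a.sum := by
    obtain ⟨x, l, rfl⟩ := List.exists_cons_of_ne_nil hne
    have := ha x (by simp)
    simp only [List.sum_cons]
    omega
  unfold bigX
  omega

theorem incr_pos (a : List ℕ) (t : ℕ) (hne : a ≠ []) (ha : ∀ x ∈ a, 0 < x) :
    ∀ p ∈ incr a t, 0 < p.1 ∧ 0 < p.2 := by
  have hX := (x3_bigX a t hne ha).2
  intro p hp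
  unfold incr at hp
  rcases List.mem_cons.1 hp with h | hp
  · rw [h]; constructor <;> dsimp only <;> omega
  rcases List.mem_cons.1 hp with h | hp
  · rw [h]; constructor <;> dsimp only <;> omega
  obtain ⟨x, hx, hp⟩ := List.mem_flatMap.1 hp
  have hx0 := ha x hx
  rcases List.mem_cons.1 hp with h | hp
  · rw [h]; constructor <;> dsimp only <;> omega
  rcases List.mem_cons.1 hp with h | hp
  · rw [h]; constructor <;> dsimp only <;> omega
  · exact absurd hp (List.not_mem_nil)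

/-- The chain of the instance `(a, t)`. -/
noncomputable def ch (a : List ℕ) (t : ℕ) (hne : a ≠ []) (ha : ∀ x ∈ a, 0 < x) : Ch :=
  chOf (incr a t) (incr_pos a t hne ha) (incr_ne a t)

theorem x3_sum_aux (f : ℕ × ℕ → ℝ) (E : List (ℕ × ℕ)) :
    ∑ j ∈ Finset.range E.length, f (E.getD j (1, 1)) = (E.map f).sum := by
  induction E with
  | nil => simp
  | cons x E ih =>
    rw [List.length_cons, Finset.sum_range_succ', List.map_cons, List.sum_cons, ← ih]
    simp only [List.getD_cons_succ, List.getD_cons_zero]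
    ring

theorem x3_sum (f : ℕ × ℕ → ℝ) (E : List (ℕ × ℕ)) :
    ∑ k ∈ Finset.Ico 1 (E.length + 1), f (ext E k) = (E.map f).sum := by
  rw [Finset.sum_Ico_eq_sum_range, ← x3_sum_aux]
  refine Finset.sum_congr (by simp) fun j _ => ?_
  unfold ext
  rw [if_neg (by omega)]
  congr 2
  omega

theorem x3_flat (f : ℕ × ℕ → ℝ) (u v : ℝ) (g : ℕ → ℝ) (h1 : f (144, 36) = u)
    (h2 : ∀ x, f (72, 72 * x) = v * g x) (a : List ℕ) :
    ((a.flatMap fun x => [(144, 36), (72, 72 * x)]).map f).sum =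
      u * a.length + v * (a.map g).sum := by
  induction a with
  | nil => simp
  | cons x a ih =>
    simp only [List.flatMap_cons, List.map_append, List.map_cons, List.map_nil, List.sum_append,
      List.sum_cons, List.sum_nil, List.length_cons]
    rw [ih, h1, h2]
    push_cast
    ring

theorem x3_sqrtSum (a : List ℕ) : sqrtSum a = (a.map fun x : ℕ => √(x : ℝ)).sum := by
  unfold sqrtSum
  first
  | rfl
  | (induction a with
      | nil => rfl
      | cons x a ih =>
        rw [List.map_cons, List.sum_cons, ← ih]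
        simp)

theorem x3_sqrt (a : List ℕ) (t : ℕ) :
    ((incr a t).map fun p => √((p.1 : ℝ) * (p.2 : ℝ))).sum =
      5 * bigX a t + 72 * a.length + 72 * sqrtSum a := by
  unfold incr
  rw [List.map_cons, List.map_cons, List.sum_cons, List.sum_cons,
    x3_flat (fun p => √((p.1 : ℝ) * (p.2 : ℝ))) 72 72 (fun x => √(x : ℝ)) _ _ a]
  · have e1 : √(((16 * bigX a t : ℕ) : ℝ) * (bigX a t : ℝ)) = 4 * bigX a t := by
      rw [show ((16 * bigX a t : ℕ) : ℝ) * (bigX a t : ℝ) = (4 * (bigX a t : ℝ)) ^ 2 by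
        push_cast; ring, Real.sqrt_sq (by positivity)]
    have e2 : √((bigX a t : ℝ) * (bigX a t : ℝ)) = bigX a t := Real.sqrt_mul_self (by positivity)
    dsimp only
    rw [e1, e2, x3_sqrtSum]
    ring
  · dsimp only
    rw [show ((144 : ℕ) : ℝ) * ((36 : ℕ) : ℝ) = 72 ^ 2 by norm_num, Real.sqrt_sq (by norm_num)]
  · intro x
    dsimp only
    rw [show ((72 : ℕ) : ℝ) * ((72 * x : ℕ) : ℝ) = 72 ^ 2 * (x : ℝ) by push_cast; ring,
      Real.sqrt_mul (by norm_num), Real.sqrt_sq (by norm_num)]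

theorem x3_natsum (a : List ℕ) : (a.map fun x : ℕ => (x : ℝ)).sum = (a.sum : ℝ) := by
  induction a with
  | nil => simp
  | cons x a ih => simp only [List.map_cons, List.sum_cons, ih]; push_cast; ring

theorem x3_sum1 (a : List ℕ) (t : ℕ) :
    ((incr a t).map fun p => (p.1 : ℝ)).sum = 17 * bigX a t + 216 * a.length := by
  unfold incr
  rw [List.map_cons, List.map_cons, List.sum_cons, List.sum_cons,
    x3_flat (fun p => (p.1 : ℝ)) 144 72 (fun x => 1) (by norm_num) (by intro x; norm_num) a]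
  simp only [List.map_const', List.sum_replicate, nsmul_eq_mul, mul_one]
  push_cast
  ring

theorem x3_sum2 (a : List ℕ) (t : ℕ) :
    ((incr a t).map fun p => (p.2 : ℝ)).sum = 2 * bigX a t + 36 * a.length + 72 * a.sum := by
  unfold incr
  rw [List.map_cons, List.map_cons, List.sum_cons, List.sum_cons,
    x3_flat (fun p => (p.2 : ℝ)) 36 72 (fun x => (x : ℝ)) (by norm_num)
      (by intro x; push_cast; ring) a, x3_natsum]
  ring

theorem x3_m (a : List ℕ) (t : ℕ) (hne : a ≠ []) (ha : ∀ x ∈ a, 0 < x) :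
    (ch a t hne ha).m = (incr a t).length + 1 := rfl

theorem x3_η (a : List ℕ) (t : ℕ) (hne : a ≠ []) (ha : ∀ x ∈ a, 0 < x) (k : ℕ) :
    (ch a t hne ha).η k = ((ext (incr a t) k).1 : ℝ) := rfl

theorem x3_η' (a : List ℕ) (t : ℕ) (hne : a ≠ []) (ha : ∀ x ∈ a, 0 < x) (k : ℕ) :
    (ch a t hne ha).η' k = ((ext (incr a t) k).2 : ℝ) := rfl

theorem x3_T (a : List ℕ) (t : ℕ) (hne : a ≠ []) (ha : ∀ x ∈ a, 0 < x) :
    ∑ k ∈ Finset.Ico 1 (ch a t hne ha).m, √((ch a t hne ha).η k * (ch a t hne ha).η' k) =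
      5 * bigX a t + 72 * a.length + 72 * sqrtSum a := by
  rw [← x3_sqrt, x3_m]
  exact x3_sum (fun p => √((p.1 : ℝ) * (p.2 : ℝ))) (incr a t)

theorem x3_W (a : List ℕ) (t : ℕ) (hne : a ≠ []) (ha : ∀ x ∈ a, 0 < x) :
    (ch a t hne ha).Wd (fun _ => 1) = 81 + 144 * (sqrtSum a - t) := by
  have h1 : ∑ k ∈ Finset.Ico 1 (ch a t hne ha).m, (ch a t hne ha).η k =
      17 * bigX a t + 216 * a.length := by
    rw [← x3_sum1, x3_m]
    exact x3_sum (fun p => (p.1 : ℝ)) (incr a t)
  have h2 : ∑ k ∈ Finset.Ico 1 (ch a t hne ha).m, (ch a t hne ha).η' k =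
      2 * bigX a t + 36 * a.length + 72 * a.sum := by
    rw [← x3_sum2, x3_m]
    exact x3_sum (fun p => (p.2 : ℝ)) (incr a t)
  have h3 := x3_T a t hne ha
  have h4 : ((bigX a t : ℕ) : ℝ) + 49 = 216 * a.sum + 36 * a.length + 144 * t := by
    exact_mod_cast (x3_bigX a t hne ha).1
  unfold Ch.Wd
  rw [Finset.sum_add_distrib, x2_i, Finset.sum_congr rfl fun k _ => one_mul _, h1, h2, h3]
  linear_combination -h4

/-- every element of the list has a product of at least `72²` -/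
theorem x3_prod (a : List ℕ) (t : ℕ) (hne : a ≠ []) (ha : ∀ x ∈ a, 0 < x) :
    ∀ p ∈ incr a t, 72 * 72 ≤ p.1 * p.2 := by
  have hX := (x3_bigX a t hne ha).2
  intro p hp
  unfold incr at hp
  rcases List.mem_cons.1 hp with h | hp
  · rw [h]; dsimp only; nlinarith
  rcases List.mem_cons.1 hp with h | hp
  · rw [h]; dsimp only; nlinarith
  obtain ⟨x, hx, hp⟩ := List.mem_flatMap.1 hp
  have hx0 := ha x hx
  rcases List.mem_cons.1 hp with h | hp
  · rw [h]; norm_num
  rcases List.mem_cons.1 hp with h | hp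
  · rw [h]; dsimp only; nlinarith
  · exact absurd hp (List.not_mem_nil)

theorem x3_ext_mem (E : List (ℕ × ℕ)) {k : ℕ} (h1 : 1 ≤ k) (h2 : k < E.length + 1) :
    ext E k ∈ E := by
  unfold ext
  rw [if_neg (by omega), List.getD_eq_getElem _ _ (by omega)]
  exact List.getElem_mem _

/-- If the all-plus sum is less than `t + 2` then no other signs fit the window: every
`√(η_k η'_k)` is at least `72`, and `C.Wd 1 = 81 + 144 (S - t)`. (Sums over `Ico 1 m` of
functions of `(η_k, η'_k)` are sums over the list `incr a t`.) -/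
theorem ch_no (a : List ℕ) (t : ℕ) (hne : a ≠ []) (ha : ∀ x ∈ a, 0 < x)
    (hS : sqrtSum a < t + 2) (ε : ℕ → ℝ) (hε : ∀ k, ε k = 1 ∨ ε k = -1)
    (h81 : 81 ≤ (ch a t hne ha).Wd ε) (h225 : (ch a t hne ha).Wd ε ≤ 225) :
    (t : ℝ) ≤ sqrtSum a ∧ sqrtSum a ≤ t + 1 := by
  set C := ch a t hne ha with hC
  have hW := x3_W a t hne ha
  rw [← hC] at hW
  have hsq : ∀ k ∈ Finset.Ico 1 C.m, 72 ≤ √(C.η k * C.η' k) := by
    intro k hk
    obtain ⟨h1, h2⟩ := Finset.mem_Ico.1 hk
    have h3 := x3_prod a t hne ha _ (x3_ext_mem (incr a t) h1 h2)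
    have h4 : ((72 : ℝ)) ^ 2 ≤ C.η k * C.η' k := by
      have h5 : ((72 * 72 : ℕ) : ℝ) ≤ (((ext (incr a t) k).1 * (ext (incr a t) k).2 : ℕ) : ℝ) := by
        exact_mod_cast h3
      push_cast at h5
      change (72 : ℝ) ^ 2 ≤ ((ext (incr a t) k).1 : ℝ) * ((ext (incr a t) k).2 : ℝ)
      linarith
    exact Real.le_sqrt_of_sq_le h4
  by_cases hall : ∀ k ∈ Finset.Ico 1 C.m, ε k = 1
  · have h1 : C.Wd ε = C.Wd (fun _ => 1) := by
      unfold Ch.Wd
      congr 2
      refine Finset.sum_congr rfl fun k hk => ?_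
      rw [hall k hk]
    rw [h1, hW] at h81 h225
    constructor <;> linarith
  · exfalso
    push Not at hall
    obtain ⟨k0, hk0, hk1⟩ := hall
    have hk2 : ε k0 = -1 := (hε k0).resolve_left hk1
    have h1 : ∑ k ∈ Finset.Ico 1 C.m, ε k * √(C.η k * C.η' k) + 144 ≤
        ∑ k ∈ Finset.Ico 1 C.m, 1 * √(C.η k * C.η' k) := by
      rw [← Finset.add_sum_erase _ _ hk0, ← Finset.add_sum_erase (Finset.Ico 1 C.m)
        (fun k => 1 * √(C.η k * C.η' k)) hk0, hk2]
      have h2 : ∑ k ∈ (Finset.Ico 1 C.m).erase k0, ε k * √(C.η k * C.η' k) ≤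
          ∑ k ∈ (Finset.Ico 1 C.m).erase k0, 1 * √(C.η k * C.η' k) := by
        refine Finset.sum_le_sum fun k _ => ?_
        refine mul_le_mul_of_nonneg_right ?_ (Real.sqrt_nonneg _)
        rcases hε k with h | h
        · rw [h]
        · rw [h]; norm_num
      have h3 := hsq k0 hk0
      linarith
    have h2 : C.Wd ε + 288 ≤ C.Wd (fun _ => 1) := by
      unfold Ch.Wd
      linarith
    rw [hW] at h2
    linarith

theorem ch_r1 (a : List ℕ) (t : ℕ) (hne : a ≠ []) (ha : ∀ x ∈ a, 0 < x) :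
    (ch a t hne ha).r 1 ≠ 1 := by
  have hX := (x3_bigX a t hne ha).2
  have h1 : (ch a t hne ha).r 1 = ((16 * bigX a t : ℕ) : ℝ) / ((bigX a t : ℕ) : ℝ) := rfl
  have h2 : (0 : ℝ) < (bigX a t : ℕ) := by
    have : 0 < bigX a t := by omega
    exact_mod_cast this
  rw [h1]
  push_cast
  rw [mul_div_assoc, div_self h2.ne']
  norm_num

theorem x3_chain (a : List ℕ) (ha : ∀ x ∈ a, 0 < x) (p : ℕ × ℕ) (hp : (p.1 : ℝ) / p.2 ≠ 4) :
    List.IsChain (fun p q : ℕ × ℕ => (p.1 : ℝ) / p.2 ≠ (q.1 : ℝ) / q.2)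
      (p :: a.flatMap fun x => [(144, 36), (72, 72 * x)]) := by
  induction a generalizing p with
  | nil => simp
  | cons x a ih =>
    have hx : 0 < x := ha x (by simp)
    have hx' : (0 : ℝ) < x := by exact_mod_cast hx
    have hx1 : (1 : ℝ) ≤ x := by exact_mod_cast hx
    have e : ((72 : ℕ) : ℝ) / ((72 * x : ℕ) : ℝ) = 1 / x := by
      push_cast
      field_simp
    have e2 : 1 / (x : ℝ) ≤ 1 := by rw [div_le_one hx']; exact hx1
    have e3 : ((144 : ℕ) : ℝ) / ((36 : ℕ) : ℝ) = 4 := by norm_num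
    have h1 := ih (fun y hy => ha y (by simp [hy])) (72, 72 * x) (by
      dsimp only
      rw [e]
      intro h
      linarith)
    rw [List.flatMap_cons]
    change List.IsChain _ (p :: (144, 36) :: (72, 72 * x) ::
      a.flatMap fun x => [(144, 36), (72, 72 * x)])
    refine List.IsChain.cons_cons ?_ (List.IsChain.cons_cons ?_ h1)
    · dsimp only
      rw [e3]
      exact hp
    · dsimp only
      rw [e, e3]
      intro h
      linarith

theorem ch_yes (a : List ℕ) (t : ℕ) (hne : a ≠ []) (ha : ∀ x ∈ a, 0 < x)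
    (h1 : (t : ℝ) < sqrtSum a) (h2 : sqrtSum a < t + 1) (hirr : Irrational (sqrtSum a)) :
    ∃ (χ : ℕ → ℝ) (τ ω : ℝ), LDat (ch a t hne ha) χ τ ω := by
  have hX := (x3_bigX a t hne ha).2
  have hX0 : (0 : ℝ) < (bigX a t : ℕ) := by
    have : 0 < bigX a t := by omega
    exact_mod_cast this
  have hX1 : (203 : ℝ) ≤ (bigX a t : ℕ) := by exact_mod_cast hX
  have hW := x3_W a t hne ha
  apply window_yes
  · rw [hW]; linarith
  · rw [hW]; linarith
  · rw [hW]
    intro h
    apply hirr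
    refine ⟨(t : ℚ) + 19 / 144, ?_⟩
    push_cast
    linarith
  · have hch : List.IsChain (fun p q : ℕ × ℕ => (p.1 : ℝ) / p.2 ≠ (q.1 : ℝ) / q.2)
        ((1, 1) :: incr a t) := by
      unfold incr
      have e1 : ((16 * bigX a t : ℕ) : ℝ) / ((bigX a t : ℕ) : ℝ) = 16 := by
        push_cast
        field_simp
      have e2 : ((bigX a t : ℕ) : ℝ) / ((bigX a t : ℕ) : ℝ) = 1 := div_self hX0.ne'
      refine List.IsChain.cons_cons ?_ (List.IsChain.cons_cons ?_ (x3_chain a ha _ ?_))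
      · dsimp only
        rw [e1]
        norm_num
      · dsimp only
        rw [e1, e2]
        norm_num
      · dsimp only
        rw [e2]
        norm_num
    intro k hk
    rw [x3_m] at hk
    have h1 := (List.isChain_iff_getElem.1 hch) k (by simp only [List.length_cons]; omega)
    have e1 : ext (incr a t) k = ((1, 1) :: incr a t)[k]'(by simp only [List.length_cons]; omega) := by
      unfold ext
      rcases Nat.eq_zero_or_pos k with h | h
      · subst h
        simp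
      · obtain ⟨j, rfl⟩ : ∃ j, k = j + 1 := ⟨k - 1, by omega⟩
        rw [if_neg (by omega), List.getD_eq_getElem _ _ (by omega)]
        simp
    have e2 : ext (incr a t) (k + 1) =
        ((1, 1) :: incr a t)[k + 1]'(by simp only [List.length_cons]; omega) := by
      unfold ext
      rw [if_neg (by omega), List.getD_eq_getElem _ _ (by omega)]
      simp
    rw [← e1, ← e2] at h1
    exact h1
  · rw [x3_T]
    have h3 : 0 ≤ sqrtSum a := by
      rw [x3_sqrtSum]
      apply List.sum_nonneg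
      intro x hx
      obtain ⟨y, _, rfl⟩ := List.mem_map.1 hx
      exact Real.sqrt_nonneg _
    have h4 : (0 : ℝ) ≤ a.length := by positivity
    linarith

end Pool.Agent.MP_7070f9_lc
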