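import Pool.Agent.MP_7070f9_lc.Build
import Pool.Agent.MP_7070f9_lc.Window
import Pool.Agent.MP_7070f9_lc.GeoNo

/-!
# The pattern produced by the program is the one described by the chain data
-/

open Set Filter Topology

namespace Pool.Agent.MP_7070f9_lc

/-- The fraction described by sign, numerator and denominator. -/
def toFrac (q : FrB ℕ) : Frac := ⟨if q.1.1 then -(q.1.2 : ℤ) else q.1.2, q.2⟩
/-- The point. -/
def toPt (p : PtB ℕ) : Frac × Frac := (toFrac p.1, toFrac p.2)
/-- The segment. -/
def toSg (s : SgB ℕ) : (Frac × Frac) × (Frac × Frac) := (toPt s.1, toPt s.2)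
/-- The pattern. -/
def toPattern (p : PatB ℕ) : Pattern :=
  ⟨toFrac p.1.1, toFrac p.1.2, toFrac p.2.1.1, toFrac p.2.1.2, p.2.2.map toSg⟩

section
variable (E : List (ℕ × ℕ))

/-- Partial sums. -/
def gN (k : ℕ) : ℕ := ∑ j ∈ Finset.range k, (ext E j).1
/-- Partial sums. -/
def iN (k : ℕ) : ℕ := ∑ j ∈ Finset.range k, (ext E j).2

theorem gN_succ (k : ℕ) : gN E (k + 1) = gN E k + (ext E k).1 := Finset.sum_range_succ _ _
theorem iN_succ (k : ℕ) : iN E (k + 1) = iN E k + (ext E k).2 := Finset.sum_range_succ _ _
theorem gN_one : gN E 1 = 1 := by simp [gN, ext]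
theorem iN_one : iN E 1 = 1 := by simp [iN, ext]

/-- The number `D`. -/
def dN : ℕ := gN E (E.length + 1) - iN E (E.length + 1)

/-- The creases, in numbers. -/
def sgN (N : ℕ) : Cr → SgB ℕ
  | .ch k =>
    if k = 0 then ((fn' 2 1, fn' 1 1), pvB natOps (gN E 1) (iN E 1))
    else if k < E.length + 1 then
      (pvB natOps (gN E k) (iN E k), pvB natOps (gN E (k + 1)) (iN E (k + 1)))
    else if k = E.length + 1 then (pvB natOps (gN E k) (iN E k), wB natOps (dN E))
    else (wB natOps (dN E), rB natOps (8 * dN E - 21))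
  | .vt k => vtB natOps N (gN E k) (iN E k)
  | .sp k => spB natOps (gN E k) (iN E k)
  | .vw => (orgB natOps, wB natOps (dN E))
  | .o2 => (orgB natOps, rB natOps (8 * (dN E + 18)))
  | .o3 => (orgB natOps, (fp 0 1, fp N 1))
  | .q2 => (wB natOps (dN E), rB natOps (8 * dN E - 7))
  | .q3 => (wB natOps (dN E), rB natOps (8 * dN E + 42))

theorem ext_succ {j : ℕ} (hj : j < E.length) : ext E (j + 1) = E[j] := by
  rw [ext, if_neg (by omega), Nat.add_sub_cancel, List.getD_eq_getElem _ _ hj]

theorem foldl_path (N : ℕ) {j : ℕ} (hj : j ≤ E.length) :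
    (E.take j).foldl (stepB natOps N) (1, (1, headB natOps N)) =
      (gN E (j + 1), (iN E (j + 1),
        ((List.range (j + 1)).flatMap
          (fun k => [Cr.ch k, Cr.vt (k + 1), Cr.sp (k + 1)])).map (sgN E N))) := by
  induction j with
  | zero =>
    simp only [List.take_zero, List.foldl_nil, zero_add, gN_one, iN_one, List.range_one,
      List.flatMap_singleton, List.map_cons, List.map_nil, sgN, if_true]
    rfl
  | succ j ih =>
    have hj' : j < E.length := by omega
    rw [List.take_succ_eq_append_getElem hj', List.foldl_append, ih (by omega), List.foldl_cons,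
      List.foldl_nil, List.range_succ (n := j + 1), List.flatMap_append, List.map_append]
    simp only [List.flatMap_singleton, List.map_cons, List.map_nil, sgN,
      if_neg (show ¬ j + 1 = 0 by omega), if_pos (show j + 1 < E.length + 1 by omega)]
    rw [← ext_succ E hj', gN_succ E (j + 1), iN_succ E (j + 1)]
    rfl

theorem creases_patOf (N : ℕ) :
    (patOf natOps E N).2.2 = (crList (E.length + 1)).map (sgN E N) := by
  have h := foldl_path E N le_rfl
  rw [List.take_length] at h
  have h' : E.foldl (stepB natOps N) (natOps.nat 1, (natOps.nat 1, headB natOps N)) = _ := h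
  rw [patOf]
  simp only [h']
  rw [crList, List.map_append]
  congr 1
  simp only [List.map_cons, List.map_nil, sgN, tailB, if_neg (show ¬ E.length + 1 = 0 by omega),
    if_neg (show ¬ E.length + 1 < E.length + 1 by omega), if_true,
    if_neg (show ¬ E.length + 1 + 1 = 0 by omega),
    if_neg (show ¬ E.length + 1 + 1 < E.length + 1 by omega),
    if_neg (show ¬ E.length + 1 + 1 = E.length + 1 by omega)]
  rfl

theorem gN_last : gN E (E.length + 1) = 1 + (E.map fun p => p.1).sum := by
  have h : ∀ j ≤ E.length, gN E (j + 1) = 1 + ((E.take j).map fun p => p.1).sum := by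
    intro j
    induction j with
    | zero => intro _; simp [gN_one]
    | succ j ih =>
      intro hj
      rw [gN_succ, ih (by omega), ext_succ E (by omega), List.take_succ_eq_append_getElem (by omega),
        List.map_append, List.sum_append]
      simp only [List.map_cons, List.map_nil, List.sum_cons, List.sum_nil]
      omega
  have := h _ le_rfl
  rwa [List.take_length] at this

theorem iN_last : iN E (E.length + 1) = 1 + (E.map fun p => p.2).sum := by
  have h : ∀ j ≤ E.length, iN E (j + 1) = 1 + ((E.take j).map fun p => p.2).sum := by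
    intro j
    induction j with
    | zero => intro _; simp [iN_one]
    | succ j ih =>
      intro hj
      rw [iN_succ, ih (by omega), ext_succ E (by omega), List.take_succ_eq_append_getElem (by omega),
        List.map_append, List.sum_append]
      simp only [List.map_cons, List.map_nil, List.sum_cons, List.sum_nil]
      omega
  have := h _ le_rfl
  rwa [List.take_length] at this

theorem nB_eq : nB natOps E = 21 + 2 * gN E (E.length + 1) := by
  have h : ∀ (l : List (ℕ × ℕ)) (s : ℕ), l.foldl (fun s p => s + p.1) s =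
      s + (l.map fun p => p.1).sum := by
    intro l
    induction l with
    | nil => intro s; simp
    | cons p l ih => intro s; rw [List.foldl_cons, ih]; simp [add_assoc]
  rw [gN_last]
  show 21 + 2 * E.foldl (fun s p => s + p.1) 1 = _
  rw [h]

variable (hE : ∀ p ∈ E, 0 < p.1 ∧ 0 < p.2) (hne : E ≠ [])

theorem chOf_g (k : ℕ) : (chOf E hE hne).g k = gN E k := by
  rw [Ch.g, gN]
  push_cast
  rfl

theorem chOf_i (k : ℕ) : (chOf E hE hne).i k = iN E k := by
  rw [Ch.i, iN]
  push_cast
  rfl

theorem chOf_D (h : iN E (E.length + 1) ≤ gN E (E.length + 1)) : (chOf E hE hne).D = dN E := by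
  rw [Ch.D, chOf_g, chOf_i, dN, Nat.cast_sub h]
  rfl

theorem toFrac_val_neg (x y : ℕ) : (toFrac (fn' x y)).val = -(x : ℝ) / y := by
  simp [toFrac, fn', Frac.val]

theorem toFrac_val_pos (x y : ℕ) : (toFrac (fp x y)).val = (x : ℝ) / y := by
  simp [toFrac, fp, Frac.val]

theorem toPlane_eq (p : PtB ℕ) : toPlane (toPt p) = pt (toFrac p.1).val (toFrac p.2).val := rfl

theorem pv_eq {k : ℕ} :
    toPlane (toPt (pvB natOps (gN E k) (iN E k))) =
      pt ((chOf E hE hne).x k) ((chOf E hE hne).g k * (chOf E hE hne).x k) := by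
  have e1 : (toFrac (fn' 1 (iN E k))).val = (chOf E hE hne).x k := by
    rw [toFrac_val_neg, Ch.x, chOf_i]
    push_cast
    ring
  have e2 : (toFrac (fn' (gN E k) (iN E k))).val =
      (chOf E hE hne).g k * (chOf E hE hne).x k := by
    rw [toFrac_val_neg, Ch.x, chOf_g, chOf_i]
    ring
  rw [← e2, ← e1]
  rfl

include hE in
theorem den_pos {k : ℕ} (hk : 1 ≤ k) : 0 < iN E k :=
  Finset.sum_pos (fun j _ => (ext_pos E hE j).2) ⟨0, Finset.mem_range.2 hk⟩

/-- The pattern of a list of increments is the one described by its chain data. -/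
theorem geo_patOf (h : iN E (E.length + 1) + 7 ≤ gN E (E.length + 1)) :
    Geo (toPattern (patOf natOps E (nB natOps E))) (chOf E hE hne)
      (fun c => toSg (sgN E (nB natOps E) c)) := by
  set C := chOf E hE hne with hC
  have hm : C.m = E.length + 1 := rfl
  have hD : C.D = dN E := chOf_D E hE hne (by omega)
  have hd7 : 7 ≤ dN E := by rw [dN]; omega
  have hN : ((nB natOps E : ℕ) : ℝ) = C.N := by
    rw [nB_eq, Ch.N, hm, chOf_g]
    push_cast
    ring
  have hW : toPlane (toPt (wB natOps (dN E))) = pt (1 / 7) ((C.D - 7) / 7) := by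
    have e1 : (toFrac (fp 1 7)).val = 1 / 7 := by rw [toFrac_val_pos]; norm_num
    have e2 : (toFrac (fp (dN E - 7) 7)).val = (C.D - 7) / 7 := by
      rw [toFrac_val_pos, Nat.cast_sub hd7, hD]; norm_num
    rw [← e1, ← e2]
    rfl
  have hO : toPlane (toPt (orgB natOps)) = pt 0 0 := by
    have e1 : (toFrac (fp 0 1)).val = 0 := by rw [toFrac_val_pos]; norm_num
    calc toPlane (toPt (orgB natOps)) = pt (toFrac (fp 0 1)).val (toFrac (fp 0 1)).val := rfl
      _ = pt 0 0 := by rw [e1]
  have hR : ∀ y : ℕ, toPlane (toPt (rB natOps y)) = pt (8 / 7) (y / 7) := by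
    intro y
    have e1 : (toFrac (fp 8 7)).val = 8 / 7 := by rw [toFrac_val_pos]; norm_num
    have e2 : (toFrac (fp y 7)).val = y / 7 := by rw [toFrac_val_pos]; norm_num
    rw [← e1, ← e2]
    rfl
  refine ⟨?_, ?_, ?_, ?_, ?_, ?_, ?_, ?_, ?_, ?_⟩
  · show (toFrac (fn' 2 1)).val = -2
    rw [toFrac_val_neg]; norm_num
  · show (toFrac (fp 8 7)).val = 8 / 7
    rw [toFrac_val_pos]; norm_num
  · show (toFrac (fn' (nB natOps E) 1)).val = -C.N
    rw [toFrac_val_neg, hN]; norm_num
  · show (toFrac (fp (nB natOps E) 1)).val = C.N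
    rw [toFrac_val_pos, hN]; norm_num
  · exact ⟨Nat.one_pos, by show 0 < 7; norm_num, Nat.one_pos, Nat.one_pos⟩
  · rw [hD]; exact_mod_cast hd7
  · show (patOf natOps E (nB natOps E)).2.2.map toSg = _
    rw [creases_patOf, List.map_map, hm]
    rfl
  · intro c hc
    cases c with
    | ch k =>
      have hk : k ≤ C.m + 1 := hc
      rw [hm] at hk
      simp only [sgN, Ch.pA]
      split_ifs with h1 h2 h3
      · subst h1
        have e1 : (toFrac (fn' 2 1)).val = -2 := by rw [toFrac_val_neg]; norm_num
        have e2 : (toFrac (fn' 1 1)).val = -1 := by rw [toFrac_val_neg]; norm_num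
        have e3 : C.Γ (-2) = -1 := by
          rw [C.Γ_eq (Nat.zero_le _) (Or.inl rfl) (Or.inr (by rw [zero_add, C.x_one]; norm_num))
            (by norm_num), C.s_zero, C.r_zero]
          norm_num
        rw [C.ξ_zero, e3, ← e1, ← e2]
        rfl
      · rw [C.ξ_mid (by omega) (by omega), C.Γ_x (by omega) (by omega)]
        exact pv_eq E hE hne
      · rw [C.ξ_mid (by omega) (by omega), C.Γ_x (by omega) (by omega)]
        exact pv_eq E hE hne
      · have hk2 : k = C.m + 1 := by omega
        rw [hk2, C.ξ_m1, C.Γ_17]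
        exact hW
    | vt k => exact pv_eq E hE hne
    | sp k => exact pv_eq E hE hne
    | vw => exact hO
    | o2 => exact hO
    | o3 => exact hO
    | q2 => exact hW
    | q3 => exact hW
  · intro c hc
    cases c with
    | ch k =>
      have hk : k ≤ C.m + 1 := hc
      rw [hm] at hk
      simp only [sgN, Ch.pB]
      split_ifs with h1 h2 h3
      · subst h1
        have := C.hm
        rw [zero_add, C.ξ_mid le_rfl (by omega), C.Γ_x le_rfl (by omega)]
        exact pv_eq E hE hne
      · rw [C.ξ_mid (by omega) (by omega), C.Γ_x (by omega) (by omega)]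
        exact pv_eq E hE hne
      · have hk2 : k + 1 = C.m + 1 := by omega
        rw [hk2, C.ξ_m1, C.Γ_17]
        exact hW
      · have hk2 : k + 1 = C.m + 2 := by omega
        rw [hk2, C.ξ_m2, C.Γ_right (by norm_num)]
        refine (hR _).trans ?_
        rw [Nat.cast_sub (by omega), hD]
        congr 1
        push_cast
        ring
    | vt k =>
      have e1 : (toFrac (fn' 1 (iN E k))).val = C.x k := by
        rw [toFrac_val_neg, Ch.x, chOf_i]
        push_cast
        ring
      have e2 : (toFrac (fn' (nB natOps E) 1)).val = -C.N := by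
        rw [toFrac_val_neg, hN]; norm_num
      show toPlane (toPt (fn' 1 (iN E k), fn' (nB natOps E) 1)) = pt (C.x k) (-C.N)
      rw [← e1, ← e2]
      rfl
    | sp k => exact hO
    | vw => exact hW
    | o2 =>
      refine (hR _).trans ?_
      rw [Ch.pB, hD]
      congr 1
      push_cast
      ring
    | o3 =>
      have e1 : (toFrac (fp 0 1)).val = 0 := by rw [toFrac_val_pos]; norm_num
      have e2 : (toFrac (fp (nB natOps E) 1)).val = C.N := by
        rw [toFrac_val_pos, hN]; norm_num
      show toPlane (toPt (fp 0 1, fp (nB natOps E) 1)) = pt 0 C.N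
      rw [toPlane_eq, e1, e2]
    | q2 =>
      refine (hR _).trans ?_
      rw [Ch.pB, hD, Nat.cast_sub (by omega)]
      congr 1
      push_cast
      ring
    | q3 =>
      refine (hR _).trans ?_
      rw [Ch.pB, hD]
      congr 1
      push_cast
      ring
  · intro c hc
    have hi : ∀ {k : ℕ}, 1 ≤ k → 0 < iN E k := fun hk => den_pos E hE hk
    cases c with
    | ch k =>
      have hk : k ≤ C.m + 1 := hc
      rw [hm] at hk
      simp only [sgN]
      split_ifs with h1 h2 h3
      · exact ⟨Nat.one_pos, Nat.one_pos, hi le_rfl, hi le_rfl⟩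
      · exact ⟨hi (by omega), hi (by omega), hi (by omega), hi (by omega)⟩
      · exact ⟨hi (by omega), hi (by omega), by show 0 < 7; norm_num, by show 0 < 7; norm_num⟩
      · exact ⟨by show 0 < 7; norm_num, by show 0 < 7; norm_num, by show 0 < 7; norm_num,
          by show 0 < 7; norm_num⟩
    | vt k => exact ⟨hi hc.1, hi hc.1, hi hc.1, Nat.one_pos⟩
    | sp k => exact ⟨hi hc.1, hi hc.1, Nat.one_pos, Nat.one_pos⟩
    | vw => exact ⟨Nat.one_pos, Nat.one_pos, by show 0 < 7; norm_num, by show 0 < 7; norm_num⟩
    | o2 => exact ⟨Nat.one_pos, Nat.one_pos, by show 0 < 7; norm_num, by show 0 < 7; norm_num⟩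
    | o3 => exact ⟨Nat.one_pos, Nat.one_pos, Nat.one_pos, Nat.one_pos⟩
    | q2 => exact ⟨by show 0 < 7; norm_num, by show 0 < 7; norm_num, by show 0 < 7; norm_num,
        by show 0 < 7; norm_num⟩
    | q3 => exact ⟨by show 0 < 7; norm_num, by show 0 < 7; norm_num, by show 0 < 7; norm_num,
        by show 0 < 7; norm_num⟩

end

end Pool.Agent.MP_7070f9_lc
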