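import Pool.Agent.MP_7070f9_lc.Cover
import Pool.Agent.MP_7070f9_lc.Alg

/-!
# Gluing the affine pieces to a continuous map
-/

open Set Filter Topology

namespace Pool.Agent.MP_7070f9_lc

namespace Ch
variable (C : Ch)

/-- The upper part of the map, on the left. -/
def UL (P Q : Cell → Space) (x y : ℝ) : Space :=
  x • P (.F 0) + y • Q (.F 0) +
    ∑ j ∈ Finset.range C.m, max 0 (C.g (j + 1) * x - y) • (Q (.F j) - Q (.F (j + 1)))

/-- The upper part of the map, on the right. -/
def UR (P Q : Cell → Space) (x y : ℝ) : Space :=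
  x • P .O2 + y • Q .O2 + max 0 ((C.D + 18) * x - y) • (Q .O2 - Q .O1) +
    max 0 ((C.D - 7) * x - y) • (Q .O1 - Q (.F C.m)) +
    max 0 ((C.D + 7) * x - 2 - y) • (Q .O1 - Q .Q2) +
    max 0 (C.D * x - 1 - y) • (Q .Q2 - Q .Q1)

/-- The common values on the vertical axis. -/
def UB (Q : Cell → Space) (y : ℝ) : Space :=
  y • Q (.F 0) + max 0 (-y) • (Q (.F 0) - Q (.F C.m))

/-- The upper part of the map. -/
def UP (P Q : Cell → Space) (x y : ℝ) : Space :=
  C.UL P Q (min x 0) y + C.UR P Q (max x 0) (max y (-1)) - C.UB Q (max y (-1))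

/-- The whole map. -/
noncomputable def fold (P Q : Cell → Space) (z : Plane) : Space :=
  C.UP P Q (z 0) (max (z 1) (C.Γ (z 0))) + min (z 1 - C.Γ (z 0)) 0 • Q (.G 0)

/-- The translation vectors of the pieces. -/
noncomputable def tr (Q : Cell → Space) : Cell → Space
  | .F _ => 0
  | .G k => C.r k • (Q (.G 0) - Q (.F k))
  | .O1 => 0
  | .O2 => 0
  | .Q2 => (-2 : ℝ) • (Q .O1 - Q .Q2)
  | .Q1 => (-2 : ℝ) • (Q .O1 - Q .Q2) - (Q .Q2 - Q .Q1)

variable {C} {P Q : Cell → Space}

theorem UL_partial (h : Rel C P Q) (x y : ℝ) {k : ℕ} (hk : k ≤ C.m) :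
    x • P (.F 0) + y • Q (.F 0) +
      ∑ j ∈ Finset.range k, (C.g (j + 1) * x - y) • (Q (.F j) - Q (.F (j + 1))) =
      x • P (.F k) + y • Q (.F k) := by
  induction k with
  | zero => simp
  | succ k ih =>
    rw [Finset.sum_range_succ, ← add_assoc, ih (by omega)]
    have h1 := h.spoke k (by omega)
    ext i
    have h2 := congrArg (fun v : Space => v i) h1
    simp only [PiLp.add_apply, PiLp.smul_apply, PiLp.sub_apply, smul_eq_mul] at h2 ⊢
    linear_combination x * h2

theorem UL_eval (h : Rel C P Q) {x y : ℝ} (hx : x ≤ 0) {k : ℕ} (hk : k ≤ C.m)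
    (h1 : k = 0 ∨ y ≤ C.g k * x) (h2 : k = C.m ∨ C.g (k + 1) * x ≤ y) :
    C.UL P Q x y = x • P (.F k) + y • Q (.F k) := by
  rw [UL, ← UL_partial h x y hk]
  congr 1
  rw [← Finset.sum_subset (Finset.range_subset_range.2 hk)]
  · refine Finset.sum_congr rfl fun j hj => ?_
    rw [Finset.mem_range] at hj
    congr 1
    refine max_eq_right ?_
    rcases h1 with h1 | h1
    · omega
    · have := C.g_le (show j + 1 ≤ k from hj)
      nlinarith
  · intro j hj hj'
    rw [Finset.mem_range] at hj hj'
    rcases h2 with h2 | h2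
    · omega
    · have := C.g_le (show k + 1 ≤ j + 1 by omega)
      rw [max_eq_left (by nlinarith), zero_smul]

theorem UB_left (h : Rel C P Q) (y : ℝ) : C.UL P Q 0 y = C.UB Q y := by
  rw [UL, UB, zero_smul, zero_add]
  congr 1
  simp only [mul_zero, zero_sub]
  rw [← Finset.smul_sum, Finset.sum_range_sub']

theorem UB_right (h : Rel C P Q) {y : ℝ} (hy : -1 ≤ y) : C.UR P Q 0 y = C.UB Q y := by
  rw [UR, UB, h.o3]
  simp only [mul_zero, zero_sub, zero_smul, zero_add]
  rw [max_eq_left (show -2 - y ≤ 0 by linarith), max_eq_left (show -1 - y ≤ 0 by linarith),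
    zero_smul, zero_smul, add_zero, add_zero, add_assoc, ← smul_add]
  congr 2
  abel

theorem UP_left (h : Rel C P Q) {x y : ℝ} (hx : x ≤ 0) : C.UP P Q x y = C.UL P Q x y := by
  rw [UP, min_eq_left hx, max_eq_right hx, UB_right h (le_max_right _ _)]
  abel

theorem UP_right (h : Rel C P Q) {x y : ℝ} (hx : 0 ≤ x) (hy : -1 ≤ y) :
    C.UP P Q x y = C.UR P Q x y := by
  rw [UP, min_eq_right hx, max_eq_left hx, max_eq_left hy, UB_left h]
  abel

theorem UR_O2 (h : Rel C P Q) {x y : ℝ} (hx : 0 ≤ x) (h1 : (C.D + 18) * x ≤ y) :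
    C.UR P Q x y = x • P .O2 + y • Q .O2 := by
  rw [UR, max_eq_left (by linarith), max_eq_left (by linarith), max_eq_left (by linarith),
    max_eq_left (by linarith)]
  simp

theorem UR_O1 (h : Rel C P Q) {x y : ℝ} (h1 : (C.D - 7) * x ≤ y)
    (h2 : y ≤ (C.D + 18) * x) (h3 : (C.D + 7) * x - 2 ≤ y) :
    C.UR P Q x y = x • P .O1 + y • Q .O1 := by
  rw [UR, max_eq_right (by linarith), max_eq_left (by linarith), max_eq_left (by linarith),
    max_eq_left (by linarith)]
  have h4 := h.o2
  ext i
  have h5 := congrArg (fun v : Space => v i) h4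
  simp only [PiLp.add_apply, PiLp.smul_apply, PiLp.sub_apply, smul_eq_mul, PiLp.zero_apply,
    zero_mul, add_zero] at h5 ⊢
  linear_combination (-x) * h5

theorem UR_F (h : Rel C P Q) {x y : ℝ} (hx : 0 ≤ x) (h1 : y ≤ (C.D - 7) * x)
    (h3 : C.D * x - 1 ≤ y) :
    C.UR P Q x y = x • P (.F C.m) + y • Q (.F C.m) := by
  rw [UR, max_eq_right (by linarith), max_eq_right (by linarith), max_eq_left (by linarith),
    max_eq_left (by linarith)]
  have h4 := h.o2
  have h6 := h.vw
  ext i
  have h5 := congrArg (fun v : Space => v i) h4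
  have h7 := congrArg (fun v : Space => v i) h6
  simp only [PiLp.add_apply, PiLp.smul_apply, PiLp.sub_apply, smul_eq_mul, PiLp.zero_apply,
    zero_mul, add_zero] at h5 h7 ⊢
  linear_combination (-x) * h5 - x * h7

theorem UR_Q2 (h : Rel C P Q) {x y : ℝ} (h1 : C.D * x - 1 ≤ y)
    (h2 : y ≤ (C.D + 7) * x - 2) :
    C.UR P Q x y = (-2 : ℝ) • (Q .O1 - Q .Q2) + x • P .Q2 + y • Q .Q2 := by
  rw [UR, max_eq_right (by linarith), max_eq_left (by linarith), max_eq_right (by linarith),
    max_eq_left (by linarith)]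
  have h4 := h.o2
  have h6 := h.q3
  ext i
  have h5 := congrArg (fun v : Space => v i) h4
  have h7 := congrArg (fun v : Space => v i) h6
  simp only [PiLp.add_apply, PiLp.smul_apply, PiLp.sub_apply, smul_eq_mul, PiLp.zero_apply,
    zero_mul, add_zero] at h5 h7 ⊢
  linear_combination (-x) * h5 - x * h7

theorem UR_Q1 (h : Rel C P Q) {x y : ℝ} (h1 : (C.D - 2) * x - 5 / 7 ≤ y)
    (h2 : y ≤ C.D * x - 1) :
    C.UR P Q x y = ((-2 : ℝ) • (Q .O1 - Q .Q2) - (Q .Q2 - Q .Q1)) + x • P .Q1 + y • Q .Q1 := by
  rw [UR, max_eq_right (by linarith), max_eq_left (by linarith), max_eq_right (by linarith),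
    max_eq_right (by linarith)]
  have h4 := h.o2
  have h6 := h.q3
  have h8 := h.q2
  ext i
  have h5 := congrArg (fun v : Space => v i) h4
  have h7 := congrArg (fun v : Space => v i) h6
  have h9 := congrArg (fun v : Space => v i) h8
  simp only [PiLp.add_apply, PiLp.smul_apply, PiLp.sub_apply, smul_eq_mul, PiLp.zero_apply,
    zero_mul, add_zero] at h5 h7 h9 ⊢
  linear_combination (-x) * h5 - x * h7 - x * h9

theorem Γ_ge_neg_one (hD : 7 ≤ C.D) {x : ℝ} (hx : 0 ≤ x) : -1 ≤ C.Γ x := by
  rcases le_total x (1 / 7) with h | h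
  · rw [C.Γ_pos hx h]; nlinarith
  · rw [C.Γ_right h]; nlinarith

/-- The map is affine on every cell. -/
theorem fold_eq (h : Rel C P Q) (hD : 7 ≤ C.D) {c : Cell} (hc : c.Ok C.m) {z : Plane}
    (hz : C.CO c (z 0) (z 1)) : C.fold P Q z = am (C.tr Q c) (P c) (Q c) z := by
  have hm := C.hm
  by_cases hu : c.Up
  · have h0 := C.CO_up hc hu hz
    rw [fold, max_eq_left h0.le, min_eq_right (by linarith), zero_smul, add_zero, am]
    cases c with
    | G k => exact hu.elim
    | F k =>
      have hk : k ≤ C.m := hc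
      rw [tr, zero_add]
      rcases hk.eq_or_lt with h8 | h8
      · subst h8
        obtain ⟨h1, h2, h3⟩ := hz
        have h4 : z 1 < C.g C.m * z 0 := by
          rcases h1 with h | h
          · omega
          · exact h.2
        have h5 : z 1 < (C.D - 7) * z 0 := by
          rcases h2 with h | h
          · exact h.2
          · exact absurd rfl h.1
        rcases le_total (z 0) 0 with h6 | h6
        · rw [UP_left h h6, UL_eval h h6 le_rfl (Or.inr h4.le) (Or.inl rfl)]
        · have h7 := Γ_ge_neg_one hD h6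
          rw [UP_right h h6 (by linarith), UR_F h h6 h5.le]
          rw [s_last, r_last] at h3
          linarith
      · have hx := C.CO_F_neg h8 hz
        obtain ⟨h1, h2, h3⟩ := hz
        rw [UP_left h hx.le, UL_eval h hx.le hk]
        · exact h1.imp (fun h => h.1) fun h => h.2.le
        · exact h2.imp (fun h => h.1) fun h => h.2.le
    | O1 =>
      obtain ⟨h1, h2, h3⟩ := hz
      have hx : 0 ≤ z 0 := by linarith
      have h7 := Γ_ge_neg_one hD hx
      rw [UP_right h hx (by linarith), UR_O1 h h1.le h2.le h3.le, tr, zero_add]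
    | O2 =>
      obtain ⟨h1, h2⟩ := hz
      have h7 := Γ_ge_neg_one hD h1.le
      rw [UP_right h h1.le (by linarith), UR_O2 h h1.le h2.le, tr, zero_add]
    | Q1 =>
      obtain ⟨h1, h2⟩ := hz
      have hx : 0 ≤ z 0 := by linarith
      have h7 := Γ_ge_neg_one hD hx
      rw [UP_right h hx (by linarith), UR_Q1 h h1.le h2.le, tr]
    | Q2 =>
      obtain ⟨h1, h2⟩ := hz
      have hx : 0 ≤ z 0 := by linarith
      have h7 := Γ_ge_neg_one hD hx
      rw [UP_right h hx (by linarith), UR_Q2 h h1.le h2.le, tr]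
  · cases c with
    | G k =>
      have hk : k ≤ C.m := hc
      obtain ⟨h0, -⟩ := C.CO_G hc hz
      rw [fold, max_eq_right h0.le, min_eq_left (by linarith), am, tr]
      have hvert : Q (.G k) = Q (.G 0) := h.prel.vert' hk
      rw [hvert]
      obtain ⟨h1, h2, h3⟩ := hz
      have e1 : k = 0 ∨ C.x k ≤ z 0 := h1.imp_right fun h => h.2.le
      rcases le_total (z 0) (1 / 7) with h6 | h6
      · have e2 : k = C.m ∨ z 0 ≤ C.x (k + 1) := h2.imp (fun h => h.1) fun h => h.2.le
        have hΓ := C.Γ_eq hk e1 e2 h6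
        have hcc := (C.CC_of_piece hk e1 e2 h6).1
        rw [← hΓ] at hcc
        obtain ⟨c1, c2, c3⟩ := hcc
        have key : C.UP P Q (z 0) (C.Γ (z 0)) = z 0 • P (.F k) + C.Γ (z 0) • Q (.F k) := by
          rcases le_total (z 0) 0 with h7 | h7
          · rw [UP_left h h7, UL_eval h h7 hk]
            · exact c1.imp (fun h => h.1) fun h => h.2
            · exact c2.imp (fun h => h.1) fun h => h.2
          · have hkm : k = C.m := by
              rcases e2 with h | h
              · exact h
              · have := C.x_neg (show 1 ≤ k + 1 by omega)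
                linarith
            subst hkm
            have h8 := Γ_ge_neg_one hD h7
            rw [UP_right h h7 h8, UR_F h h7]
            · rcases c2 with h | h
              · exact h.2
              · exact absurd rfl h.1
            · rw [s_last, r_last] at c3
              exact c3
        rw [key]
        have h9 := h.path k hk
        rw [hvert] at h9
        ext i
        have h10 := congrArg (fun v : Space => v i) h9
        simp only [PiLp.add_apply, PiLp.smul_apply, PiLp.sub_apply, smul_eq_mul] at h10 ⊢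
        rw [hΓ]
        linear_combination (z 0) * h10
      · have hkm : k = C.m := by
          rcases h2 with h | h
          · exact h.1
          · have := C.x_neg (show 1 ≤ k + 1 by omega)
            linarith [h.2]
        subst hkm
        have hx : 0 ≤ z 0 := by linarith
        have hΓ := C.Γ_right h6
        have h8 := Γ_ge_neg_one hD hx
        rw [UP_right h hx h8, UR_Q1 h (by rw [hΓ]) (by rw [hΓ]; linarith), r_last, hΓ]
        have k1 := h.q1
        have k2 := h.q2
        have k3 := h.q3
        have k4 := h.vw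
        have k5 := h.path C.m le_rfl
        rw [s_last] at k5
        rw [hvert] at k1 k5
        ext i
        have l1 := congrArg (fun v : Space => v i) k1
        have l2 := congrArg (fun v : Space => v i) k2
        have l3 := congrArg (fun v : Space => v i) k3
        have l4 := congrArg (fun v : Space => v i) k4
        have l5 := congrArg (fun v : Space => v i) k5
        simp only [PiLp.add_apply, PiLp.smul_apply, PiLp.sub_apply, smul_eq_mul] at l1 l2 l3 l4 l5 ⊢
        linear_combination (-(z 0) + 1 / 7) * l1 + (1 / 7) * l2 + (1 / 7) * l3 - (1 / 7) * l4 +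
          (1 / 7) * l5
    | _ => exact (hu trivial).elim

end Ch

end Pool.Agent.MP_7070f9_lc
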