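import Pool.Agent.MP_7070f9_lc.Gam

/-!
# The creases
-/

open Set Filter Topology

namespace Pool.Agent.MP_7070f9_lc

/-- Names of the creases: the pieces of the lower curve, the vertical creases, the spokes and the
creases at the right. -/
inductive Cr
  | ch (k : ℕ)
  | vt (k : ℕ)
  | sp (k : ℕ)
  | vw
  | o2
  | o3
  | q2
  | q3
  deriving DecidableEq

/-- The creases which occur. -/
def Cr.Ok (m : ℕ) : Cr → Prop
  | .ch k => k ≤ m + 1
  | .vt k => 1 ≤ k ∧ k ≤ m
  | .sp k => 1 ≤ k ∧ k ≤ m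
  | _ => True

/-- The list of the creases. -/
def crList (m : ℕ) : List Cr :=
  (List.range m).flatMap (fun k => [.ch k, .vt (k + 1), .sp (k + 1)]) ++
    [.ch m, .vw, .o2, .o3, .ch (m + 1), .q2, .q3]

theorem mem_crList {m : ℕ} {c : Cr} : c ∈ crList m ↔ c.Ok m := by
  simp only [crList, List.mem_append, List.mem_flatMap, List.mem_range, List.mem_cons,
    List.not_mem_nil, or_false]
  constructor
  · rintro (⟨k, hk, rfl | rfl | rfl⟩ | h)
    · show k ≤ m + 1
      omega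
    · exact ⟨by omega, by omega⟩
    · exact ⟨by omega, by omega⟩
    · rcases h with rfl | rfl | rfl | rfl | rfl | rfl | rfl <;> simp [Cr.Ok]
  · intro h
    cases c with
    | ch k =>
      have h : k ≤ m + 1 := h
      rcases Nat.lt_or_ge k m with hk | hk
      · exact Or.inl ⟨k, hk, Or.inl rfl⟩
      · right
        rcases (show k = m ∨ k = m + 1 by omega) with rfl | rfl <;> simp
    | vt k =>
      have h : 1 ≤ k ∧ k ≤ m := h
      exact Or.inl ⟨k - 1, by omega, Or.inr (Or.inl (by congr 1; omega))⟩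
    | sp k =>
      have h : 1 ≤ k ∧ k ≤ m := h
      exact Or.inl ⟨k - 1, by omega, Or.inr (Or.inr (by congr 1; omega))⟩
    | _ => simp

theorem nodup_crList (m : ℕ) : (crList m).Nodup := by
  rw [crList, List.nodup_append]
  refine ⟨?_, by simp, ?_⟩
  · rw [List.nodup_flatMap]
    refine ⟨fun k _ => by simp, ?_⟩
    have := List.nodup_range (n := m)
    refine this.imp ?_
    intro j k hjk c hc hc'
    simp only [List.mem_cons, List.not_mem_nil, or_false] at hc hc'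
    rcases hc with rfl | rfl | rfl <;> simp at hc' <;> omega
  · intro c hc d hd
    simp only [List.mem_flatMap, List.mem_range, List.mem_cons, List.not_mem_nil, or_false] at hc hd
    rintro rfl
    obtain ⟨k, hk, rfl | rfl | rfl⟩ := hc <;> simp at hd <;> omega

namespace Ch
variable (C : Ch)

/-- Half the height of the paper. -/
def N : ℝ := 21 + 2 * C.g C.m

/-- First end point of a crease. -/
noncomputable def pA : Cr → Plane
  | .ch k => pt (C.ξ k) (C.Γ (C.ξ k))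
  | .vt k => pt (C.x k) (C.g k * C.x k)
  | .sp k => pt (C.x k) (C.g k * C.x k)
  | .vw => pt 0 0
  | .o2 => pt 0 0
  | .o3 => pt 0 0
  | .q2 => pt (1 / 7) ((C.D - 7) / 7)
  | .q3 => pt (1 / 7) ((C.D - 7) / 7)

/-- Second end point of a crease. -/
noncomputable def pB : Cr → Plane
  | .ch k => pt (C.ξ (k + 1)) (C.Γ (C.ξ (k + 1)))
  | .vt k => pt (C.x k) (-C.N)
  | .sp _ => pt 0 0
  | .vw => pt (1 / 7) ((C.D - 7) / 7)
  | .o2 => pt (8 / 7) (8 * (C.D + 18) / 7)
  | .o3 => pt 0 C.N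
  | .q2 => pt (8 / 7) ((8 * C.D - 7) / 7)
  | .q3 => pt (8 / 7) ((8 * C.D + 42) / 7)

/-- The points of a crease. -/
def Seg (c : Cr) (x y : ℝ) : Prop :=
  match c with
  | .ch k => (C.ξ k ≤ x ∧ x ≤ C.ξ (k + 1)) ∧ y = C.Γ x
  | .vt k => x = C.x k ∧ -C.N ≤ y ∧ y ≤ C.g k * C.x k
  | .sp k => (C.x k ≤ x ∧ x ≤ 0) ∧ y = C.g k * x
  | .vw => (0 ≤ x ∧ x ≤ 1 / 7) ∧ y = (C.D - 7) * x
  | .o2 => (0 ≤ x ∧ x ≤ 8 / 7) ∧ y = (C.D + 18) * x
  | .o3 => x = 0 ∧ 0 ≤ y ∧ y ≤ C.N
  | .q2 => (1 / 7 ≤ x ∧ x ≤ 8 / 7) ∧ y = C.D * x - 1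
  | .q3 => (1 / 7 ≤ x ∧ x ≤ 8 / 7) ∧ y = (C.D + 7) * x - 2

/-- The points of the relative interior of a crease. -/
def Opn (c : Cr) (x y : ℝ) : Prop :=
  match c with
  | .ch k => (C.ξ k < x ∧ x < C.ξ (k + 1)) ∧ y = C.Γ x
  | .vt k => x = C.x k ∧ -C.N < y ∧ y < C.g k * C.x k
  | .sp k => (C.x k < x ∧ x < 0) ∧ y = C.g k * x
  | .vw => (0 < x ∧ x < 1 / 7) ∧ y = (C.D - 7) * x
  | .o2 => (0 < x ∧ x < 8 / 7) ∧ y = (C.D + 18) * x
  | .o3 => x = 0 ∧ 0 < y ∧ y < C.N
  | .q2 => (1 / 7 < x ∧ x < 8 / 7) ∧ y = C.D * x - 1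
  | .q3 => (1 / 7 < x ∧ x < 8 / 7) ∧ y = (C.D + 7) * x - 2

end Ch

/-! ### Segments -/

theorem mem_segment_line {a b s c : ℝ} (hab : a < b) {A B : Plane} (hA : A = pt a (s * a + c))
    (hB : B = pt b (s * b + c)) (z : Plane) :
    z ∈ segment ℝ A B ↔ (a ≤ z 0 ∧ z 0 ≤ b) ∧ z 1 = s * z 0 + c := by
  subst hA hB
  rw [segment_eq_image]
  constructor
  · rintro ⟨θ, ⟨h0, h1⟩, rfl⟩
    simp only [PiLp.add_apply, PiLp.smul_apply, pt_0, pt_1, smul_eq_mul]
    refine ⟨⟨by nlinarith, by nlinarith⟩, by ring⟩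
  · rintro ⟨⟨h0, h1⟩, h2⟩
    have hba : 0 < b - a := by linarith
    refine ⟨(z 0 - a) / (b - a), ⟨div_nonneg (by linarith) hba.le,
      (div_le_one hba).2 (by linarith)⟩, ?_⟩
    apply plane_ext
    · simp only [PiLp.add_apply, PiLp.smul_apply, pt_0, smul_eq_mul]
      field_simp; ring
    · simp only [PiLp.add_apply, PiLp.smul_apply, pt_1, smul_eq_mul]
      rw [h2]
      field_simp; ring

theorem mem_openSegment_line {a b s c : ℝ} (hab : a < b) {A B : Plane}
    (hA : A = pt a (s * a + c)) (hB : B = pt b (s * b + c)) (z : Plane)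
    (hz : z ∈ openSegment ℝ A B) :
    (a < z 0 ∧ z 0 < b) ∧ z 1 = s * z 0 + c := by
  subst hA hB
  rw [openSegment_eq_image] at hz
  obtain ⟨θ, ⟨h0, h1⟩, rfl⟩ := hz
  simp only [PiLp.add_apply, PiLp.smul_apply, pt_0, pt_1, smul_eq_mul]
  refine ⟨⟨by nlinarith, by nlinarith⟩, by ring⟩

theorem mem_segment_vert {a b c : ℝ} (hab : a < b) (z : Plane) :
    z ∈ segment ℝ (pt c a) (pt c b) ↔ z 0 = c ∧ a ≤ z 1 ∧ z 1 ≤ b := by
  rw [segment_eq_image]
  constructor
  · rintro ⟨θ, ⟨h0, h1⟩, rfl⟩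
    simp only [PiLp.add_apply, PiLp.smul_apply, pt_0, pt_1, smul_eq_mul]
    refine ⟨by ring, by nlinarith, by nlinarith⟩
  · rintro ⟨h2, h0, h1⟩
    have hba : 0 < b - a := by linarith
    refine ⟨(z 1 - a) / (b - a), ⟨div_nonneg (by linarith) hba.le,
      (div_le_one hba).2 (by linarith)⟩, ?_⟩
    apply plane_ext
    · simp only [PiLp.add_apply, PiLp.smul_apply, pt_0, smul_eq_mul]
      rw [h2]; ring
    · simp only [PiLp.add_apply, PiLp.smul_apply, pt_1, smul_eq_mul]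
      field_simp; ring

theorem mem_openSegment_vert {a b c : ℝ} (hab : a < b) (z : Plane)
    (hz : z ∈ openSegment ℝ (pt c a) (pt c b)) : z 0 = c ∧ a < z 1 ∧ z 1 < b := by
  rw [openSegment_eq_image] at hz
  obtain ⟨θ, ⟨h0, h1⟩, rfl⟩ := hz
  simp only [PiLp.add_apply, PiLp.smul_apply, pt_0, pt_1, smul_eq_mul]
  refine ⟨by ring, by nlinarith, by nlinarith⟩

namespace Ch
variable (C : Ch)

theorem N_pos : 0 < C.N := by
  have := C.g_ge_one (show 1 ≤ C.m by have := C.hm; omega)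
  rw [N]; linarith

theorem vt_lt {k : ℕ} (h1 : 1 ≤ k) (hk : k ≤ C.m) : -C.N < C.g k * C.x k := by
  have h2 := C.x_ge h1
  have h3 := C.g_le hk
  have h4 := C.g_ge_one h1
  rw [N]
  nlinarith

/-- Every crease is the set of points which satisfy `Seg`. -/
theorem mem_seg_iff {c : Cr} (hc : c.Ok C.m) (z : Plane) :
    z ∈ segment ℝ (C.pA c) (C.pB c) ↔ C.Seg c (z 0) (z 1) := by
  have hm := C.hm
  cases c with
  | ch k =>
    have hk : k ≤ C.m + 1 := hc
    have h := C.ξ_step hk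
    rw [pA, pB, mem_segment_line h (s := C.sl k) (c := C.ic k)
      (by rw [C.Γ_piece hk le_rfl h.le]) (by rw [C.Γ_piece hk h.le le_rfl])]
    constructor
    · rintro ⟨h1, h2⟩
      exact ⟨h1, by rw [h2, C.Γ_piece hk h1.1 h1.2]⟩
    · rintro ⟨h1, h2⟩
      exact ⟨h1, by rw [h2, C.Γ_piece hk h1.1 h1.2]⟩
  | vt k =>
    have h := C.vt_lt hc.1 hc.2
    rw [pA, pB, segment_symm, mem_segment_vert h]
    exact Iff.rfl
  | sp k =>
    have h := C.x_neg hc.1
    rw [pA, pB, mem_segment_line h (s := C.g k) (c := 0) (by simp) (by simp)]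
    simp [Seg]
  | vw =>
    rw [pA, pB, mem_segment_line (show (0 : ℝ) < 1 / 7 by norm_num) (s := C.D - 7) (c := 0)
      (by simp) (by congr 1; ring)]
    simp [Seg]
  | o2 =>
    rw [pA, pB, mem_segment_line (show (0 : ℝ) < 8 / 7 by norm_num) (s := C.D + 18) (c := 0)
      (by simp) (by congr 1; ring)]
    simp [Seg]
  | o3 =>
    rw [pA, pB, mem_segment_vert C.N_pos]
    exact Iff.rfl
  | q2 =>
    rw [pA, pB, mem_segment_line (show (1 / 7 : ℝ) < 8 / 7 by norm_num) (s := C.D) (c := -1)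
      (by congr 1; ring) (by congr 1; ring)]
    simp [Seg, sub_eq_add_neg]
  | q3 =>
    rw [pA, pB, mem_segment_line (show (1 / 7 : ℝ) < 8 / 7 by norm_num) (s := C.D + 7) (c := -2)
      (by congr 1; ring) (by congr 1; ring)]
    simp [Seg, sub_eq_add_neg]

theorem opn_of_mem {c : Cr} (hc : c.Ok C.m) (z : Plane)
    (hz : z ∈ openSegment ℝ (C.pA c) (C.pB c)) : C.Opn c (z 0) (z 1) := by
  have hm := C.hm
  cases c with
  | ch k =>
    have hk : k ≤ C.m + 1 := hc
    have h := C.ξ_step hk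
    rw [pA, pB] at hz
    obtain ⟨h1, h2⟩ := mem_openSegment_line h (s := C.sl k) (c := C.ic k)
      (by rw [C.Γ_piece hk le_rfl h.le]) (by rw [C.Γ_piece hk h.le le_rfl]) z hz
    exact ⟨h1, by rw [h2, C.Γ_piece hk h1.1.le h1.2.le]⟩
  | vt k =>
    have h := C.vt_lt hc.1 hc.2
    rw [pA, pB, openSegment_symm] at hz
    exact mem_openSegment_vert h z hz
  | sp k =>
    have h := C.x_neg hc.1
    rw [pA, pB] at hz
    have := mem_openSegment_line h (s := C.g k) (c := 0) (by simp) (by simp) z hz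
    simpa [Opn] using this
  | vw =>
    rw [pA, pB] at hz
    have := mem_openSegment_line (show (0 : ℝ) < 1 / 7 by norm_num) (s := C.D - 7) (c := 0)
      (by simp) (by congr 1; ring) z hz
    simpa [Opn] using this
  | o2 =>
    rw [pA, pB] at hz
    have := mem_openSegment_line (show (0 : ℝ) < 8 / 7 by norm_num) (s := C.D + 18) (c := 0)
      (by simp) (by congr 1; ring) z hz
    simpa [Opn] using this
  | o3 =>
    rw [pA, pB] at hz
    exact mem_openSegment_vert C.N_pos z hz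
  | q2 =>
    rw [pA, pB] at hz
    have := mem_openSegment_line (show (1 / 7 : ℝ) < 8 / 7 by norm_num) (s := C.D) (c := -1)
      (by congr 1; ring) (by congr 1; ring) z hz
    simpa [Opn, sub_eq_add_neg] using this
  | q3 =>
    rw [pA, pB] at hz
    have := mem_openSegment_line (show (1 / 7 : ℝ) < 8 / 7 by norm_num) (s := C.D + 7) (c := -2)
      (by congr 1; ring) (by congr 1; ring) z hz
    simpa [Opn, sub_eq_add_neg] using this

end Ch

end Pool.Agent.MP_7070f9_lc
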