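import Pool.Agent.MP_7070f9_lc.Solve

/-!
# Existence of the frames along the path

The cells `G k` have the frames `(P'_k, e2)` and the cells `F k` the frames
`(P_k, e2 - t c_k)`.
-/

open Filter Topology

namespace Pool.Agent.MP_7070f9_lc

/-- The state at stage `k`: the vector functions `p.1 = P_k` and `p.2 = c_k` (the difference
vector divided by `t`). -/
structure PInv (C : Ch) (χ : ℕ → ℝ) (k : ℕ) (p : (ℝ → Space) × (ℝ → Space)) : Prop where
  ev : ∀ᶠ t in 𝓝 (0 : ℝ), ContinuousAt p.1 t ∧ ContinuousAt p.2 t ∧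
    dot (p.1 t) (p.1 t) = 1 ∧ dot (p.1 t) e2 = C.s k / (2 * C.r k) * t ^ 2 ∧
    dot (p.1 t) (p.2 t) = C.s k / (2 * C.r k) * t ∧
    dot e2 (p.2 t) = t / (2 * C.r k) ∧ C.r k * dot (p.2 t) (p.2 t) = 1
  zero1 : p.1 0 = e1
  zero2 : p.2 0 = χ k • e3

theorem p1_add_left (x y z : Space) : dot (x + y) z = dot x z + dot y z := by
  unfold dot; simp only [PiLp.add_apply]; ring

theorem p1_add_right (x y z : Space) : dot z (x + y) = dot z x + dot z y := by
  unfold dot; simp only [PiLp.add_apply]; ring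

theorem p1_sub_left (x y z : Space) : dot (x - y) z = dot x z - dot y z := by
  unfold dot; simp only [PiLp.sub_apply]; ring

theorem p1_sub_right (x y z : Space) : dot z (x - y) = dot z x - dot z y := by
  unfold dot; simp only [PiLp.sub_apply]; ring

theorem p1_smul_left (a : ℝ) (x z : Space) : dot (a • x) z = a * dot x z := by
  unfold dot; simp only [PiLp.smul_apply, smul_eq_mul]; ring

theorem p1_smul_right (a : ℝ) (x z : Space) : dot z (a • x) = a * dot z x := by
  unfold dot; simp only [PiLp.smul_apply, smul_eq_mul]; ring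

theorem p1_comm (x y : Space) : dot x y = dot y x := by
  unfold dot; ring

theorem p1_cont {c : ℝ → Space} {t : ℝ} (g : ℝ) (h : ContinuousAt c t) :
    ContinuousAt (fun t : ℝ => g • (e2 - t • c t)) t := by
  have h1 : ContinuousAt (fun t : ℝ => t • c t) t := by fun_prop
  have h2 : ContinuousAt (fun t : ℝ => e2 - t • c t) t := by fun_prop
  exact h2.const_smul g

theorem p1_e11 : dot e1 e1 = 1 := by simp [dot, e1]
theorem p1_e12 : dot e1 e2 = 0 := by simp [dot, e1, e2]
theorem p1_e22 : dot e2 e2 = 1 := by simp [dot, e2]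

/-- Stage `0`: `P_0 = e1`, `c_0 = (0, t/2, χ_0 √(1 - t²/4))` where `χ_0 = ±1`
(or use `solve` with `U = e1`, `V = e2`). Note `s_0 = 0`, `r_0 = 1`. -/
theorem pinv_zero (C : Ch) (χ : ℕ → ℝ) (h : C.r 0 * χ 0 ^ 2 = 1) :
    ∃ p, PInv C χ 0 p := by
  rw [C.r_zero, one_mul] at h
  obtain ⟨w, hw, hw0⟩ := solve (fun _ => e1) (fun _ => e2) (fun _ => 0) (fun t => t / 2)
    (fun _ => 1) (χ 0) (Eventually.of_forall fun t => continuousAt_const)
    (Eventually.of_forall fun t => continuousAt_const)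
    (Eventually.of_forall fun t => continuousAt_const)
    (Eventually.of_forall fun t => (continuous_id.div_const 2).continuousAt)
    (Eventually.of_forall fun t => continuousAt_const)
    (by simp [e1]) (by simp [e2]) (by simp [e1, e2]) rfl (by simp) (by norm_num) (by rw [h])
  refine ⟨(fun _ => e1, w), ⟨?_, rfl, hw0⟩⟩
  filter_upwards [hw] with t ht
  obtain ⟨h1, h2, h3, h4⟩ := ht
  refine ⟨continuousAt_const, h1, p1_e11, ?_, ?_, ?_, ?_⟩
  · rw [p1_e12, C.s_zero]; ring
  · rw [h2, C.s_zero]; ring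
  · rw [h3, C.r_zero]; ring
  · rw [h4, C.r_zero]; ring

/-- The step. With `U = P_k + g_{k+1} (e2 - t c_k)`, use `solve` with this `U`, `V = e2`,
`a = - i_{k+1} t / 2`, `b = t / (2 r_{k+1})`, `ρ = 1 / r_{k+1}`, `s = χ_{k+1}` to get
`c_{k+1}`, and put `P_{k+1} = U - g_{k+1} (e2 - t c_{k+1})`. Needed scalar products:
`⟨U, e2⟩ = g_{k+1} - i_{k+1} t² / 2` (from the invariant at `k` and
`s_k = g_{k+1} - i_{k+1} r_k`, `Ch.s_eq`) and `|U|² = 1 + g_{k+1}²`; at `t = 0`,
`U = e1 + g_{k+1} e2`. The relation `s_{k+1} = g_{k+1} - i_{k+1} r_{k+1}` is the definition. -/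
theorem pinv_succ (C : Ch) (χ : ℕ → ℝ) (k : ℕ) (h : C.r (k + 1) * χ (k + 1) ^ 2 = 1)
    (p : (ℝ → Space) × (ℝ → Space)) (hp : PInv C χ k p) :
    ∃ q, PInv C χ (k + 1) q ∧ ∀ t, p.1 t + C.g (k + 1) • (e2 - t • p.2 t) =
      q.1 t + C.g (k + 1) • (e2 - t • q.2 t) := by
  have hr : 0 < C.r (k + 1) := C.r_pos _
  have hrk : 0 < C.r k := C.r_pos _
  set g := C.g (k + 1) with hg
  set U : ℝ → Space := fun t => p.1 t + g • (e2 - t • p.2 t) with hU
  have cU : ∀ᶠ t in 𝓝 (0 : ℝ), ContinuousAt U t := by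
    filter_upwards [hp.ev] with t ht
    exact ht.1.add (p1_cont g ht.2.1)
  have U0 : U 0 = e1 + g • e2 := by
    rw [hU]
    dsimp only
    rw [hp.zero1, zero_smul, sub_zero]
  have U00 : U 0 0 = 1 := by rw [U0]; simp [e1, e2]
  have U02 : U 0 2 = 0 := by rw [U0]; simp [e1, e2]
  obtain ⟨w, hw, hw0⟩ := solve U (fun _ => e2) (fun t => - (C.i (k + 1) * t / 2))
    (fun t => t / (2 * C.r (k + 1)))
    (fun _ => 1 / C.r (k + 1)) (χ (k + 1)) cU
    (Eventually.of_forall fun t => continuousAt_const)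
    (Eventually.of_forall fun t => by fun_prop)
    (Eventually.of_forall fun t => by fun_prop)
    (Eventually.of_forall fun t => continuousAt_const)
    U02 (by simp [e2]) (by rw [U00]; simp [e2]) (by simp) (by simp) (by positivity)
    (by field_simp; linear_combination h)
  refine ⟨(fun t => U t - g • (e2 - t • w t), w), ⟨?_, ?_, hw0⟩, ?_⟩
  · filter_upwards [hp.ev, hw, cU] with t ht ht2 hc
    obtain ⟨a1, a2, a3, a4, a5, a6, a7⟩ := ht
    obtain ⟨b1, b2, b3, b4⟩ := ht2
    have hs : C.s k = g - C.i (k + 1) * C.r k := C.s_eq k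
    have hs' : C.s (k + 1) = g - C.i (k + 1) * C.r (k + 1) := rfl
    have a4' : dot (p.1 t) e2 = (g - C.i (k + 1) * C.r k) / (2 * C.r k) * t ^ 2 := by rw [a4, hs]
    have a5' : dot (p.1 t) (p.2 t) = (g - C.i (k + 1) * C.r k) / (2 * C.r k) * t := by rw [a5, hs]
    have a7' : dot (p.2 t) (p.2 t) = 1 / C.r k := by
      field_simp; linear_combination a7
    have c1 := p1_comm e2 (p.1 t)
    have c2 := p1_comm (p.2 t) (p.1 t)
    have c3 := p1_comm (p.2 t) e2
    have c4 := p1_comm (w t) e2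
    have c5 := p1_comm e2 (U t)
    have c6 := p1_comm (w t) (U t)
    have e22 := p1_e22
    have hUe : dot (U t) e2 = g - C.i (k + 1) * t ^ 2 / 2 := by
      rw [hU]
      simp only [p1_add_left, p1_smul_left, p1_sub_left]
      rw [c3, a6, e22, a4']
      field_simp
      ring
    have hUU : dot (U t) (U t) = 1 + g ^ 2 := by
      rw [hU]
      simp only [p1_add_left, p1_smul_left, p1_sub_left, p1_add_right, p1_smul_right,
        p1_sub_right]
      rw [c1, c2, c3, a3, a6, e22, a4', a5', a7']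
      field_simp
      ring
    refine ⟨?_, b1, ?_, ?_, ?_, b3, ?_⟩
    · exact hc.sub (p1_cont g b1)
    · simp only [p1_smul_left, p1_sub_left, p1_smul_right, p1_sub_right]
      rw [c4, c5, c6, hUU, hUe, b2, b3, b4, e22]
      field_simp
      ring
    · simp only [p1_smul_left, p1_sub_left]
      rw [c4, hUe, b3, e22, hs']
      field_simp
      ring
    · simp only [p1_smul_left, p1_sub_left]
      rw [b2, b3, b4, hs']
      field_simp
      ring
    · rw [b4]
      field_simp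
  · change U 0 - g • (e2 - (0 : ℝ) • w 0) = e1
    rw [U0, zero_smul, sub_zero]
    abel
  · intro t
    change U t = U t - g • (e2 - t • w t) + g • (e2 - t • w t)
    abel

/-- Dependent choice. -/
theorem seq_of_step {X : Type} (I : ℕ → X → Prop) (R : ℕ → X → X → Prop) (n : ℕ)
    (h0 : ∃ x, I 0 x) (hs : ∀ k < n, ∀ x, I k x → ∃ y, I (k + 1) y ∧ R k x y) :
    ∃ f : ℕ → X, (∀ k ≤ n, I k (f k)) ∧ ∀ k < n, R k (f k) (f (k + 1)) := by
  induction n with
  | zero =>
    obtain ⟨x, hx⟩ := h0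
    refine ⟨fun _ => x, ?_, ?_⟩
    · intro k hk
      obtain rfl : k = 0 := by omega
      exact hx
    · intro k hk
      omega
  | succ n ih =>
    obtain ⟨f, hf1, hf2⟩ := ih (fun k hk => hs k (by omega))
    obtain ⟨y, hy1, hy2⟩ := hs n (by omega) (f n) (hf1 n le_rfl)
    refine ⟨fun k => if k ≤ n then f k else y, ?_, ?_⟩
    · intro k hk
      dsimp only
      by_cases h : k ≤ n
      · rw [if_pos h]; exact hf1 k h
      · obtain rfl : k = n + 1 := by omega
        rw [if_neg h]; exact hy1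
    · intro k hk
      dsimp only
      by_cases h : k < n
      · rw [if_pos h.le, if_pos (by omega)]; exact hf2 k h
      · obtain rfl : k = n := by omega
        rw [if_pos le_rfl, if_neg (by omega)]; exact hy2

/-- Existence of the frames of the cells `F k`, `G k`. -/
theorem path_exists (C : Ch) (χ : ℕ → ℝ) (h : ∀ k ≤ C.m, C.r k * χ k ^ 2 = 1) :
    ∃ p c : ℕ → ℝ → Space, (∀ k ≤ C.m, PInv C χ k (p k, c k)) ∧
      ∀ k < C.m, ∀ t, p k t + C.g (k + 1) • (e2 - t • c k t) =
        p (k + 1) t + C.g (k + 1) • (e2 - t • c (k + 1) t) := by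
  obtain ⟨f, hf, hf'⟩ := seq_of_step (fun k p => PInv C χ k p)
    (fun k p q => ∀ t, p.1 t + C.g (k + 1) • (e2 - t • p.2 t) =
      q.1 t + C.g (k + 1) • (e2 - t • q.2 t)) C.m (pinv_zero C χ (h 0 (by omega)))
    (fun k hk p hp => pinv_succ C χ k (h (k + 1) (by omega)) p hp)
  exact ⟨fun k => (f k).1, fun k => (f k).2, hf, hf'⟩

end Pool.Agent.MP_7070f9_lc
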