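import Pool.Agent.MP_7070f9_lc.Vec

/-!
# Solving for a vector with given scalar products and given length, continuously
-/

open Filter Topology

namespace Pool.Agent.MP_7070f9_lc

/-- The cross product. -/
noncomputable def cr (u v : Space) : Space :=
  !₂[u 1 * v 2 - u 2 * v 1, u 2 * v 0 - u 0 * v 2, u 0 * v 1 - u 1 * v 0]

theorem s1_coord {x : ℝ → Space} {t : ℝ} (h : ContinuousAt x t) (i : Fin 3) :
    ContinuousAt (fun t => x t i) t := by
  have h1 : Continuous (fun y : Space => y i) := by fun_prop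
  exact h1.continuousAt.comp h

theorem s1_dot {x y : ℝ → Space} {t : ℝ} (hx : ContinuousAt x t) (hy : ContinuousAt y t) :
    ContinuousAt (fun t => dot (x t) (y t)) t := by
  unfold dot
  exact (((s1_coord hx 0).mul (s1_coord hy 0)).add ((s1_coord hx 1).mul (s1_coord hy 1))).add
    ((s1_coord hx 2).mul (s1_coord hy 2))

theorem s1_cr {x y : ℝ → Space} {t : ℝ} (hx : ContinuousAt x t) (hy : ContinuousAt y t) :
    ContinuousAt (fun t => cr (x t) (y t)) t := by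
  unfold cr
  refine (PiLp.continuous_toLp 2 (fun _ : Fin 3 => ℝ)).continuousAt.comp ?_
  refine continuousAt_pi.2 fun i => ?_
  have x0 := s1_coord hx 0
  have x1 := s1_coord hx 1
  have x2 := s1_coord hx 2
  have y0 := s1_coord hy 0
  have y1 := s1_coord hy 1
  have y2 := s1_coord hy 2
  fin_cases i
  · exact (x1.mul y2).sub (x2.mul y1)
  · exact (x2.mul y0).sub (x0.mul y2)
  · exact (x0.mul y1).sub (x1.mul y0)

theorem s1_add_left (x y z : Space) : dot (x + y) z = dot x z + dot y z := by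
  unfold dot; simp only [PiLp.add_apply]; ring

theorem s1_add_right (x y z : Space) : dot z (x + y) = dot z x + dot z y := by
  unfold dot; simp only [PiLp.add_apply]; ring

theorem s1_smul_left (a : ℝ) (x z : Space) : dot (a • x) z = a * dot x z := by
  unfold dot; simp only [PiLp.smul_apply, smul_eq_mul]; ring

theorem s1_smul_right (a : ℝ) (x z : Space) : dot z (a • x) = a * dot z x := by
  unfold dot; simp only [PiLp.smul_apply, smul_eq_mul]; ring

theorem s1_cr0 (u v : Space) : cr u v 0 = u 1 * v 2 - u 2 * v 1 := rfl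
theorem s1_cr1 (u v : Space) : cr u v 1 = u 2 * v 0 - u 0 * v 2 := rfl
theorem s1_cr2 (u v : Space) : cr u v 2 = u 0 * v 1 - u 1 * v 0 := rfl

theorem s1_dot_cr_left (u v : Space) : dot u (cr u v) = 0 := by
  unfold dot; rw [s1_cr0, s1_cr1, s1_cr2]; ring

theorem s1_dot_cr_right (u v : Space) : dot v (cr u v) = 0 := by
  unfold dot; rw [s1_cr0, s1_cr1, s1_cr2]; ring

theorem s1_cr_left (u v : Space) : dot (cr u v) u = 0 := by
  unfold dot; rw [s1_cr0, s1_cr1, s1_cr2]; ring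

theorem s1_cr_right (u v : Space) : dot (cr u v) v = 0 := by
  unfold dot; rw [s1_cr0, s1_cr1, s1_cr2]; ring

theorem s1_lagrange (u v : Space) :
    dot (cr u v) (cr u v) = dot u u * dot v v - dot u v ^ 2 := by
  unfold dot; rw [s1_cr0, s1_cr1, s1_cr2]; ring

/-- The solution: with `G = |U|²|V|² - ⟨U,V⟩²`, `α = (a |V|² - b ⟨U,V⟩)/G`,
`β = (b |U|² - a ⟨U,V⟩)/G`, put `w = α U + β V + sg √((ρ - α a - β b)/G) U × V` with
`sg = ±1`; then `⟨U,w⟩ = a`, `⟨V,w⟩ = b` and `|w|² = ρ` wherever `G > 0` and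
`ρ - α a - β b ≥ 0` (Lagrange: `|U × V|² = G`, and `|α U + β V|² = α a + β b`).
Everything is continuous at every `t` near `0` because `G` is nonzero near `0`
(`G(0) = |U × V|²(0) > 0` by `hind`) and `ρ - α a - β b` is positive near `0`. At `t = 0`:
`α = β = 0`, `U × V = (U0 V1 - U1 V0) e3` and `√(ρ/G) |U0 V1 - U1 V0| = |s|`; choose the sign. -/
theorem solve (U V : ℝ → Space) (a b ρ : ℝ → ℝ) (s : ℝ)
    (hU : ∀ᶠ t in 𝓝 (0 : ℝ), ContinuousAt U t) (hV : ∀ᶠ t in 𝓝 (0 : ℝ), ContinuousAt V t)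
    (ha : ∀ᶠ t in 𝓝 (0 : ℝ), ContinuousAt a t) (hb : ∀ᶠ t in 𝓝 (0 : ℝ), ContinuousAt b t)
    (hρ : ∀ᶠ t in 𝓝 (0 : ℝ), ContinuousAt ρ t)
    (hU0 : U 0 2 = 0) (hV0 : V 0 2 = 0) (hind : U 0 0 * V 0 1 - U 0 1 * V 0 0 ≠ 0)
    (ha0 : a 0 = 0) (hb0 : b 0 = 0) (hρ0 : 0 < ρ 0) (hs : s ^ 2 = ρ 0) :
    ∃ w : ℝ → Space, (∀ᶠ t in 𝓝 (0 : ℝ), ContinuousAt w t ∧ dot (U t) (w t) = a t ∧
      dot (V t) (w t) = b t ∧ dot (w t) (w t) = ρ t) ∧ w 0 = s • e3 := by
  set δ := U 0 0 * V 0 1 - U 0 1 * V 0 0 with hδ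
  set G : ℝ → ℝ := fun t => dot (U t) (U t) * dot (V t) (V t) - dot (U t) (V t) ^ 2 with hG
  set α : ℝ → ℝ := fun t => (a t * dot (V t) (V t) - b t * dot (U t) (V t)) / G t with hα
  set β : ℝ → ℝ := fun t => (b t * dot (U t) (U t) - a t * dot (U t) (V t)) / G t with hβ
  set γ : ℝ → ℝ := fun t => ρ t - α t * a t - β t * b t with hγ
  have hG0 : G 0 = δ ^ 2 := by
    rw [hG, hδ]
    dsimp only
    unfold dot
    rw [hU0, hV0]
    ring
  have hG0pos : 0 < G 0 := by rw [hG0]; positivity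
  have hα0 : α 0 = 0 := by rw [hα]; dsimp only; rw [ha0, hb0]; simp
  have hβ0 : β 0 = 0 := by rw [hβ]; dsimp only; rw [ha0, hb0]; simp
  have hγ0 : γ 0 = ρ 0 := by rw [hγ]; dsimp only; rw [hα0, hβ0]; ring
  have hsq : √(γ 0 / G 0) ^ 2 = ρ 0 / δ ^ 2 := by
    rw [hγ0, hG0, Real.sq_sqrt (by positivity)]
  have hsqpos : 0 < √(γ 0 / G 0) := by
    rw [hγ0]; exact Real.sqrt_pos.2 (div_pos hρ0 hG0pos)
  obtain ⟨κ, hκ, hκs⟩ : ∃ κ : ℝ, κ ^ 2 = 1 ∧ κ * √(γ 0 / G 0) * δ = s := by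
    refine ⟨s / (√(γ 0 / G 0) * δ), ?_, ?_⟩
    · rw [div_pow, mul_pow, hsq, hs]
      field_simp
    · field_simp
  have cG : ∀ᶠ t in 𝓝 (0 : ℝ), ContinuousAt G t := by
    filter_upwards [hU, hV] with t h1 h2
    exact ((s1_dot h1 h1).mul (s1_dot h2 h2)).sub ((s1_dot h1 h2).pow 2)
  have pG : ∀ᶠ t in 𝓝 (0 : ℝ), 0 < G t :=
    (cG.self_of_nhds).eventually (lt_mem_nhds hG0pos)
  have cα : ∀ᶠ t in 𝓝 (0 : ℝ), ContinuousAt α t := by
    filter_upwards [hU, hV, ha, hb, cG, pG] with t h1 h2 h3 h4 h5 h6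
    exact ((h3.mul (s1_dot h2 h2)).sub (h4.mul (s1_dot h1 h2))).div h5 h6.ne'
  have cβ : ∀ᶠ t in 𝓝 (0 : ℝ), ContinuousAt β t := by
    filter_upwards [hU, hV, ha, hb, cG, pG] with t h1 h2 h3 h4 h5 h6
    exact ((h4.mul (s1_dot h1 h1)).sub (h3.mul (s1_dot h1 h2))).div h5 h6.ne'
  have cγ : ∀ᶠ t in 𝓝 (0 : ℝ), ContinuousAt γ t := by
    filter_upwards [hρ, cα, cβ, ha, hb] with t h1 h2 h3 h4 h5
    exact (h1.sub (h2.mul h4)).sub (h3.mul h5)
  have pγ : ∀ᶠ t in 𝓝 (0 : ℝ), 0 < γ t :=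
    (cγ.self_of_nhds).eventually (lt_mem_nhds (by rw [hγ0]; exact hρ0))
  refine ⟨fun t => α t • U t + β t • V t + (κ * √(γ t / G t)) • cr (U t) (V t), ?_, ?_⟩
  · filter_upwards [hU, hV, cG, pG, cα, cβ, cγ, pγ] with t h1 h2 h3 h4 h5 h6 h7 h8
    have e1 : α t * dot (U t) (U t) + β t * dot (U t) (V t) = a t := by
      rw [hα, hβ]
      dsimp only
      have h9 := h4.ne'
      field_simp
      rw [hG]
      ring
    have e2 : α t * dot (U t) (V t) + β t * dot (V t) (V t) = b t := by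
      rw [hα, hβ]
      dsimp only
      have h9 := h4.ne'
      field_simp
      rw [hG]
      ring
    have hVU : dot (V t) (U t) = dot (U t) (V t) := by unfold dot; ring
    refine ⟨?_, ?_, ?_, ?_⟩
    · have h9 : ContinuousAt (fun t => κ * √(γ t / G t)) t :=
        continuousAt_const.mul (h7.div h3 h4.ne').sqrt
      exact ((h5.smul h1).add (h6.smul h2)).add (h9.smul (s1_cr h1 h2))
    · rw [s1_add_right, s1_add_right, s1_smul_right, s1_smul_right, s1_smul_right,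
        s1_dot_cr_left, mul_zero, add_zero]
      exact e1
    · rw [s1_add_right, s1_add_right, s1_smul_right, s1_smul_right, s1_smul_right,
        s1_dot_cr_right, mul_zero, add_zero, hVU]
      exact e2
    · have e3 : √(γ t / G t) ^ 2 = γ t / G t := Real.sq_sqrt (div_pos h8 h4).le
      have e4 : γ t / G t * G t = γ t := div_mul_cancel₀ _ h4.ne'
      have e5 : G t = dot (U t) (U t) * dot (V t) (V t) - dot (U t) (V t) ^ 2 := rfl
      have e6 : γ t = ρ t - α t * a t - β t * b t := rfl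
      simp only [s1_add_left, s1_add_right, s1_smul_left, s1_smul_right, s1_dot_cr_left,
        s1_dot_cr_right, s1_cr_left, s1_cr_right, s1_lagrange, hVU]
      rw [← e5]
      linear_combination α t * e1 + β t * e2 + κ ^ 2 * G t * e3 + κ ^ 2 * e4 + γ t * hκ + e6
  · dsimp only
    rw [hα0, hβ0, zero_smul, zero_smul, zero_add, zero_add]
    ext i
    fin_cases i
    · change κ * √(γ 0 / G 0) * cr (U 0) (V 0) 0 = s * (0 : ℝ)
      rw [s1_cr0, hU0, hV0]; ring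
    · change κ * √(γ 0 / G 0) * cr (U 0) (V 0) 1 = s * (0 : ℝ)
      rw [s1_cr1, hU0, hV0]; ring
    · change κ * √(γ 0 / G 0) * cr (U 0) (V 0) 2 = s * (1 : ℝ)
      rw [s1_cr2, ← hδ, hκs, mul_one]

end Pool.Agent.MP_7070f9_lc
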