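import Pool.Agent.MP_7070f9_lc.Defs

/-!
# Vectors, frames, the chain data and the relations between the frames of the cells
-/

namespace Pool.Agent.MP_7070f9_lc

/-- The scalar product in space. -/
def dot (x y : Space) : ℝ := x 0 * y 0 + x 1 * y 1 + x 2 * y 2

/-- The first unit vector. -/
noncomputable def e1 : Space := !₂[1, 0, 0]
/-- The second unit vector. -/
noncomputable def e2 : Space := !₂[0, 1, 0]
/-- The third unit vector. -/
noncomputable def e3 : Space := !₂[0, 0, 1]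

/-- A pair of orthonormal vectors. -/
structure Fr (P Q : Space) : Prop where
  pp : dot P P = 1
  qq : dot Q Q = 1
  pq : dot P Q = 0

theorem dist_sq (x y : Space) : dist x y ^ 2 = dot (x - y) (x - y) := by
  rw [EuclideanSpace.dist_eq, Real.sq_sqrt (Finset.sum_nonneg fun _ _ => by positivity)]
  simp [Fin.sum_univ_three, dot, Real.dist_eq, sq_abs]
  ring

theorem dist_sq_plane (x y : Plane) :
    dist x y ^ 2 = (x 0 - y 0) ^ 2 + (x 1 - y 1) ^ 2 := by
  rw [EuclideanSpace.dist_eq, Real.sq_sqrt (Finset.sum_nonneg fun _ _ => by positivity)]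
  simp [Fin.sum_univ_two, Real.dist_eq, sq_abs]

theorem dot_self_nonneg (x : Space) : 0 ≤ dot x x := by
  unfold dot; nlinarith [sq_nonneg (x 0), sq_nonneg (x 1), sq_nonneg (x 2)]

theorem dot_self_eq_zero {x : Space} (h : dot x x = 0) : x = 0 := by
  unfold dot at h
  have h0 : x 0 = 0 := by nlinarith [sq_nonneg (x 0), sq_nonneg (x 1), sq_nonneg (x 2)]
  have h1 : x 1 = 0 := by nlinarith [sq_nonneg (x 0), sq_nonneg (x 1), sq_nonneg (x 2)]
  have h2 : x 2 = 0 := by nlinarith [sq_nonneg (x 0), sq_nonneg (x 1), sq_nonneg (x 2)]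
  ext i
  fin_cases i <;> simpa

/-- Chain data: the increments `η k`, `η' k` (`k = 0, …, m`) of the numerators and denominators
of the slopes. -/
structure Ch where
  /-- the number of path vertices -/
  m : ℕ
  /-- increments of the `g k` -/
  η : ℕ → ℝ
  /-- increments of the `i k` -/
  η' : ℕ → ℝ
  hm : 2 ≤ m
  pos : ∀ k, 0 < η k
  pos' : ∀ k, 0 < η' k
  η0 : η 0 = 1
  η0' : η' 0 = 1
  ηm : η m = 1
  ηm' : η' m = 1

namespace Ch
variable (C : Ch)

/-- Slope of the `k`-th spoke. -/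
def g (k : ℕ) : ℝ := ∑ j ∈ Finset.range k, C.η j
/-- Minus the inverse of the abscissa of the `k`-th path vertex. -/
def i (k : ℕ) : ℝ := ∑ j ∈ Finset.range k, C.η' j
/-- Minus the intercept of the `k`-th path edge. -/
noncomputable def r (k : ℕ) : ℝ := C.η k / C.η' k
/-- Slope of the `k`-th path edge. -/
noncomputable def s (k : ℕ) : ℝ := C.g k - C.i k * C.r k
/-- Slope of the last path edge. -/
def D : ℝ := C.g C.m - C.i C.m

theorem g_succ (k : ℕ) : C.g (k + 1) = C.g k + C.η k := Finset.sum_range_succ _ _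
theorem i_succ (k : ℕ) : C.i (k + 1) = C.i k + C.η' k := Finset.sum_range_succ _ _
theorem g_zero : C.g 0 = 0 := rfl
theorem i_zero : C.i 0 = 0 := rfl
theorem g_one : C.g 1 = 1 := by rw [g_succ, g_zero, C.η0]; norm_num
theorem i_one : C.i 1 = 1 := by rw [i_succ, i_zero, C.η0']; norm_num
theorem r_pos (k : ℕ) : 0 < C.r k := div_pos (C.pos k) (C.pos' k)
theorem r_zero : C.r 0 = 1 := by rw [r, C.η0, C.η0']; norm_num
theorem r_last : C.r C.m = 1 := by rw [r, C.ηm, C.ηm']; norm_num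
theorem r_mul (k : ℕ) : C.η' k * C.r k = C.η k := by
  have := (C.pos' k).ne'; rw [r]; field_simp
theorem s_eq (k : ℕ) : C.s k = C.g (k + 1) - C.i (k + 1) * C.r k := by
  rw [s, g_succ, i_succ, ← C.r_mul k]; ring
theorem s_zero : C.s 0 = 0 := by rw [s, g_zero, i_zero]; ring
theorem s_last : C.s C.m = C.D := by rw [s, r_last, D]; ring
theorem i_pos {k : ℕ} (hk : 1 ≤ k) : 0 < C.i k :=
  Finset.sum_pos (fun j _ => C.pos' j) ⟨0, Finset.mem_range.2 hk⟩
theorem g_pos {k : ℕ} (hk : 1 ≤ k) : 0 < C.g k :=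
  Finset.sum_pos (fun j _ => C.pos j) ⟨0, Finset.mem_range.2 hk⟩
theorem g_lt {j k : ℕ} (h : j < k) : C.g j < C.g k := by
  induction k, h using Nat.le_induction with
  | base => rw [g_succ]; linarith [C.pos j]
  | succ k _ ih => rw [g_succ]; linarith [C.pos k]
theorem i_lt {j k : ℕ} (h : j < k) : C.i j < C.i k := by
  induction k, h using Nat.le_induction with
  | base => rw [i_succ]; linarith [C.pos' j]
  | succ k _ ih => rw [i_succ]; linarith [C.pos' k]
theorem g_le {j k : ℕ} (h : j ≤ k) : C.g j ≤ C.g k := by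
  rcases h.eq_or_lt with rfl | h
  · exact le_rfl
  · exact (C.g_lt h).le
theorem i_le {j k : ℕ} (h : j ≤ k) : C.i j ≤ C.i k := by
  rcases h.eq_or_lt with rfl | h
  · exact le_rfl
  · exact (C.i_lt h).le

end Ch

/-- Names of the cells. -/
inductive Cell
  | F (k : ℕ)
  | G (k : ℕ)
  | O1
  | O2
  | Q1
  | Q2
  deriving DecidableEq

/-- The cells which occur. -/
def Cell.Ok (m : ℕ) : Cell → Prop
  | .F k => k ≤ m
  | .G k => k ≤ m
  | _ => True

/-- The relations between the frames of adjacent cells. -/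
structure Rel (C : Ch) (P Q : Cell → Space) : Prop where
  fr : ∀ c, c.Ok C.m → Fr (P c) (Q c)
  spoke : ∀ k < C.m, P (.F k) + C.g (k + 1) • Q (.F k) =
    P (.F (k + 1)) + C.g (k + 1) • Q (.F (k + 1))
  path : ∀ k ≤ C.m, P (.F k) + C.s k • Q (.F k) = P (.G k) + C.s k • Q (.G k)
  vert : ∀ k < C.m, Q (.G k) = Q (.G (k + 1))
  vw : P (.F C.m) + (C.D - 7) • Q (.F C.m) = P .O1 + (C.D - 7) • Q .O1
  o2 : P .O1 + (C.D + 18) • Q .O1 = P .O2 + (C.D + 18) • Q .O2
  o3 : Q .O2 = Q (.F 0)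
  q1 : P (.G C.m) + (C.D - 2) • Q (.G C.m) = P .Q1 + (C.D - 2) • Q .Q1
  q2 : P .Q1 + C.D • Q .Q1 = P .Q2 + C.D • Q .Q2
  q3 : P .Q2 + (C.D + 7) • Q .Q2 = P .O1 + (C.D + 7) • Q .O1

end Pool.Agent.MP_7070f9_lc
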